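import Pool.Agent.PMC.StE

/-!
PMC: assembly of the sharp half (helper57).
-/

set_option autoImplicit false
set_option linter.unusedVariables false

namespace Pool.Agent.PMC

open FirstOrder.Language Set
open scoped FirstOrder
open Pool.Agent.WOM (CtT PerfT)
open Pool.Agent.Helper6.Str (PerfK CtblK Iso RelIso Code toStr)
open VPF (ModF)

/-- isomorphic relational structures satisfy the same theories -/
theorem SHP_model {L : FirstOrder.Language.{0, 0}} (hf : ∀ n, IsEmpty (L.Functions n))
    {M N : Type} {S : L.Structure M} {S' : L.Structure N} (h : Iso S S') (T : L.Theory)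
    (hT : @FirstOrder.Language.Theory.Model L M S T) :
    @FirstOrder.Language.Theory.Model L N S' T := by
  obtain ⟨e, he⟩ := h
  let _ := S
  let _ := S'
  let E : M ≃[L] N :=
    { toEquiv := e
      map_fun' := fun {n} f _ => (hf n).elim f
      map_rel' := fun {n} R v => (he n R v).symm }
  refine ⟨fun φ hφ => ?_⟩
  exact (FirstOrder.Language.StrongHomClass.realize_sentence E φ).1 (hT.realize_of_mem φ hφ)

/-- a copy of a countable infinite structure on the natural numbers -/
theorem SHP_copy {L : FirstOrder.Language.{0, 0}} (hf : ∀ n, IsEmpty (L.Functions n))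
    {M : Type} [Countable M] [Infinite M] (S : L.Structure M) :
    ∃ S' : L.Structure ℕ, Iso S S' := by
  obtain ⟨e⟩ : Nonempty (M ≃ ℕ) := nonempty_equiv_of_countable
  refine ⟨{ funMap := fun {n} f _ => (hf n).elim f
            RelMap := fun {n} R v => S.RelMap R (fun i => e.symm (v i)) }, e, ?_⟩
  intro n R v
  have h1 : (fun i => e.symm ((e ∘ v) i)) = v := by
    funext i
    exact e.symm_apply_apply (v i)
  change S.RelMap R v ↔ S.RelMap R (fun i => e.symm ((e ∘ v) i))
  rw [h1]

theorem thm_SHP : St_SHP := by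
  intro hFRM hTRN hCOE hUNQ hDIS hDMS hMPK L hL hdich T'
  have := hL.fn
  obtain ⟨F, hF⟩ := hFRM L
  choose τ hτ using hTRN L hL
  let T : (LP (Ix L)).Theory := F ∪ τ '' (T' ∪ L.infiniteTheory)
  have key : ∀ S : (LP (Ix L)).Structure ℕ, S ∈ ModF T ↔
      Frame S ∧ @FirstOrder.Language.Theory.Model L (Qt S) (@dec L ℕ S hL.fn) T' ∧
        Infinite (Qt S) := by
    intro S
    constructor
    · intro hS
      have hS' : @FirstOrder.Language.Theory.Model (LP (Ix L)) ℕ S T := hS
      have h1 : Frame S := by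
        refine (hF ℕ S).1 ⟨fun φ hφ => ?_⟩
        exact hS'.realize_of_mem φ (Or.inl hφ)
      have h2 : ∀ σ ∈ T' ∪ L.infiniteTheory,
          @FirstOrder.Language.Sentence.Realize L (Qt S) (@dec L ℕ S hL.fn) σ := by
        intro σ hσ
        exact (hτ σ ℕ S h1).1 (hS'.realize_of_mem _ (Or.inr ⟨σ, hσ, rfl⟩))
      have h3 : @FirstOrder.Language.Theory.Model L (Qt S) (@dec L ℕ S hL.fn) T' := by
        let _ := @dec L ℕ S hL.fn
        exact ⟨fun φ hφ => h2 φ (Or.inl hφ)⟩
      refine ⟨h1, h3, ?_⟩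
      let _ := @dec L ℕ S hL.fn
      exact (FirstOrder.Language.model_infiniteTheory_iff (L := L) (M := Qt S)).1
        ⟨fun φ hφ => h2 φ (Or.inr hφ)⟩
    · rintro ⟨h1, h2, h3⟩
      have h4 : @FirstOrder.Language.Theory.Model L (Qt S) (@dec L ℕ S hL.fn)
          L.infiniteTheory := by
        let _ := @dec L ℕ S hL.fn
        exact (FirstOrder.Language.model_infiniteTheory_iff (L := L) (M := Qt S)).2 h3
      have h5 : @FirstOrder.Language.Theory.Model (LP (Ix L)) ℕ S F := (hF ℕ S).2 h1
      refine ⟨fun φ hφ => ?_⟩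
      rcases hφ with hφ | ⟨σ, hσ, rfl⟩
      · exact h5.realize_of_mem φ hφ
      · refine (hτ σ ℕ S h1).2 ?_
        rcases hσ with hσ | hσ
        · exact h2.realize_of_mem σ hσ
        · exact h4.realize_of_mem σ hσ
  rcases hdich T (fun S hS => ((key S).1 hS).1.two) with hc | hp
  · left
    obtain ⟨g, hg⟩ := hc
    have hex : ∀ n, ∃ S' : L.Structure ℕ, Infinite (Qt (g n)) →
        Iso (@dec L ℕ (g n) hL.fn) S' := by
      intro n
      by_cases h : Infinite (Qt (g n))
      · have : Countable (Qt (g n)) := by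
          unfold Qt
          infer_instance
        obtain ⟨S', hS'⟩ := SHP_copy hL.fn (@dec L ℕ (g n) hL.fn)
        exact ⟨S', fun _ => hS'⟩
      · exact ⟨@toStr L hL.fn (fun _ => false), fun h' => absurd h' h⟩
    choose g' hg' using hex
    refine ⟨g', fun N hN => ?_⟩
    obtain ⟨S, hS, hSN⟩ := hCOE L hL N
    have h1 : @FirstOrder.Language.Theory.Model L (Qt S) (@dec L ℕ S hL.fn) T' :=
      SHP_model hL.fn hSN.symm T' hN
    have h2 : Infinite (Qt S) := by
      obtain ⟨e, -⟩ := hSN
      exact Infinite.of_injective e.symm e.symm.injective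
    have h3 : S ∈ ModF T := (key S).2 ⟨hS, h1, h2⟩
    obtain ⟨n, hn⟩ := hg S h3
    have hfun : ∀ n, IsEmpty ((LP (Ix L)).Functions n) := fun n => inferInstanceAs (IsEmpty Empty)
    have h4 : g n ∈ ModF T := SHP_model hfun hn T h3
    have h5 := ((key (g n)).1 h4).2.2
    exact ⟨n, hSN.symm.trans ((hDIS L hL ℕ ℕ S (g n) hn).trans (hg' n h5))⟩
  · right
    obtain ⟨f, hf1, hf2, hf3⟩ := hp
    obtain ⟨G, hG, hG'⟩ := hDMS L hL f (fun x => ((key (f x)).1 (hf1 x)).1)
      (fun x => ((key (f x)).1 (hf1 x)).2.2) hf3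
    refine hMPK L hL (ModF T') G hG (fun x => ?_) (fun x y hxy => ?_)
    · exact SHP_model hL.fn (hG' x) T' ((key (f x)).1 (hf1 x)).2.1
    · refine hf2 x y (hUNQ L hL (f x) (f y) ((key (f x)).1 (hf1 x)).1
        ((key (f y)).1 (hf1 y)).1 ?_)
      exact (hG' x).trans (hxy.trans (hG' y).symm)

end Pool.Agent.PMC
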