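import Pool.Agent.PMC.StA

/-!
PMC: statements of the second part (helper58), with proofs in the docstrings: good pieces (`Ori`).
`w << z` is `Ll A sg w z` (= `Fa A sg true w z`: `z` is beyond `w` outwards).  `LL D V`: `d << v` for all
`d ∈ D`, `v ∈ V`.  In the cell `K = cel A j z` with `s = sg (o j) z` we say that `y ∈ K` is on the
`b`-SIDE of the cut `C` if `y ∈ C ↔ s ≠ b` (`b = true`: outwards); `y` is `b`-BEYOND `x` if
`lts (sd b s) j x y`.  If `y` is on the `b`-side of a cut and `x` is not then `y` is `b`-beyond `x`; if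
`x` is on the `b`-side and `y` is `b`-beyond `x` then `y` is on the `b`-side.
`Ex b w j z`: `z` is on the `b`-side of all `insert w A`-definable cuts strictly inside `cel A j z`.
-/

set_option autoImplicit false
set_option linter.unusedVariables false

namespace Pool.Agent.PMC

open FirstOrder.Language Set
open scoped FirstOrder
open Pool.Agent.WOM (tp Mon IsEl IsoM CtU Fx Orb)

/-- the direction `b` in a cell with orientation `s` -/
def sd (b s : Bool) : Bool := if b = true then s else !s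

/-- [FAI] basic facts on good pieces.
PROOF.  (1) clear from the definitions (`sg ≠ b ↔ !sg ≠ !b`); `con` is for all `b`.
(2) `con` with `u := z`, the index `o j` of the cut `{x | R (o j) x z} = ct (o j) z`, strictly inside
`cel A (o j) z = cel A j z` (`sin_self`, `cel_oo`): `Ex b w i z` iff this cut is strictly inside
`X = {v ∈ cel A (o j) z | Ex b w (o j) v}`.  So there are `v1, v2 ∈ X` with `v1 < z`, not `v2 < z`.  For an
`insert w A`-definable cut `C` strictly inside `cel A j z` (`dc_oo`; `hC.oo`: `sg (o (o j)) = sg (o j)`) `v1`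
and `v2` are on the `b`-side (`cst`), so `z` is.  (3) `cls_fx`; `g` maps `insert w A`-definable cuts to
`insert (g w) A`-definable cuts (`dc_img`), cells over `A` to themselves, `sg` is constant on cells;
apply this to `g` and `g⁻¹`.  (4), (5): for `w, z ∈ E` the set `{v ∈ cel A j z | Fa b w v}` is
`ext (sd b (sg (o j) z)) (insert w A) j (cel A j z)` ((2), `cst`): EXB (1), (2), (3).  (6) EXB (7) and `cut`.
(7) EXB (6).  (8) EXB (5). -/
def St_FAI : Prop :=
  ∀ (L : FirstOrder.Language.{0, 0}) (U : Type) [L.Structure U] (κ : Type) (R : κ → U → U → Prop)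
    (o : κ → κ), Cx L R o → ∀ (A E : Set U) (sg : κ → U → Bool), Ori L R o A E sg →
    (Ori L R o A E (fun j z => !sg j z) ∧
      ∀ b w j z, Ex L R o A (fun j z => !sg j z) b w j z ↔ Ex L R o A sg (!b) w j z) ∧
    (∀ w ∈ E, ∀ z ∈ E, ∀ b i, Ex L R o A sg b w i z → Fa L R o A sg b w z) ∧
    (∀ g : U ≃[L] U, Fx L A g → (∀ x, g x ∈ E ↔ x ∈ E) ∧
      ∀ w ∈ E, ∀ z ∈ E, ∀ b, (Fa L R o A sg b (g w) (g z) ↔ Fa L R o A sg b w z)) ∧
    (∀ w ∈ E, ∀ z ∈ E, ∀ j b, ∃ v ∈ cel L R o A j z, Fa L R o A sg b w v) ∧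
    (∀ w ∈ E, ∀ z ∈ E, ∀ j b, ∀ v ∈ cel L R o A j z, Fa L R o A sg b w v →
      Nd L (insert w A) v ∧
        cel L R o (insert w A) j v = {y | y ∈ cel L R o A j z ∧ Fa L R o A sg b w y}) ∧
    (∀ w ∈ E, ∀ z ∈ E, ∀ b, Fa L R o A sg b w z → ¬ Fa L R o A sg (!b) w z) ∧
    (∀ w ∈ E, ∀ z ∈ E, ∀ j b, ∀ y ∈ cel L R o A j z, Fa L R o A sg b w z →
      lts R o (sd b (sg (o j) z)) j z y → Fa L R o A sg b w y) ∧
    (∀ w ∈ E, ∀ z ∈ E, ∀ j b, ∀ p ∈ cel L R o A j z, Fa L R o A sg b w z →
      ∃ g : U ≃[L] U, Fx L (insert w A) g ∧ lts R o (sd b (sg (o j) z)) j p (g z))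

/-- [GLE] gluing over one point.
PROOF.  PRD for the finite set `insert w A` and `Q = {z ∈ E | Fa b w z}`.  `Q` is a union of pieces over
`insert w A`: let `Lk (insert w A) u z`, `ct j u` strictly inside `cel (insert w A) j z ⊆ cel A j z`, so
`Lk A u z`, `u ∈ E ↔ z ∈ E`; let both be in `E`.  By FAI (2) and `con`: `Fa b w u` iff `ct j u` is strictly
inside `X = {v ∈ cel A j z | Fa b w v}`.  If so, `X` is the cell over `insert w A` of one of its points
(FAI (5)), so `X = cel (insert w A) j z` (`cel_eq_of_sin`) and `z ∈ X`.  Conversely if `Fa b w z` then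
`X = cel (insert w A) j z` by FAI (5), so `ct j u` is strictly inside `X`. -/
def St_GLE : Prop :=
  ∀ (L : FirstOrder.Language.{0, 0}) (U : Type) [L.Structure U] (κ : Type) (R : κ → U → U → Prop)
    (o : κ → κ), Cx L R o → ∀ (A E : Set U) (sg : κ → U → Bool), Ori L R o A E sg →
    ∀ w ∈ E, ∀ (b : Bool) (g : U ≃[L] U), Fx L (insert w A) g →
    ∃ h : U ≃[L] U, Fx L (insert w A) h ∧ (∀ z ∈ E, Fa L R o A sg b w z → h z = g z) ∧
      ∀ z, ¬ (z ∈ E ∧ Fa L R o A sg b w z) → h z = z

/-- [GPR] cuts of points beyond `w` which are not cuts of the region beyond `w` are definable over `w`.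
PROOF.  `def_of_fix` for the sets `insert w A` and `A ∪ D`.  Let `g` be over `insert w A`, `h` from GLE.
`h` and `g` agree on `A ∪ D` (`D ⊆ {z ∈ E | Fa b w z}`; on `A` both are the identity), so
`h⁻¹ ∘ g` fixes `A ∪ D`, hence `C`, so `g '' C = h '' C`.  Claim `h '' C = C`.  Let `K = cel A j z ⊆ E`
(`cel_sub_pc`, `pc_sub`), `K^b = {y ∈ K | Fa b w y}`.  `h` maps `K^b` onto itself and fixes the other points
of `K`; `C ∩ K^b` is empty or `K^b`; so `h` preserves `C ∩ K`.  Points below `K` are in `C`, points above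
`K` are not, and `h` preserves the set of the points below `K` (`fx_mem_cel`). -/
def St_GPR : Prop :=
  ∀ (L : FirstOrder.Language.{0, 0}) (U : Type) [L.Structure U] (κ : Type) (R : κ → U → U → Prop)
    (o : κ → κ), Cx L R o → ∀ (A E : Set U) (sg : κ → U → Bool), Ori L R o A E sg →
    ∀ w ∈ E, ∀ (b : Bool) (D : Set U), D.Finite → D ⊆ E → (∀ d ∈ D, Fa L R o A sg b w d) →
    ∀ z ∈ E, ∀ (j : κ) (C : Set U), Dc L R o (A ∪ D) j C → Sin C (cel L R o A j z) →
    ¬ Sin C {y | y ∈ cel L R o A j z ∧ Fa L R o A sg b w y} → Dc L R o (insert w A) j C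

/-- [FTW] (F2) cuts of `u` and `w` if `u` is `b`-beyond `w`: the cut of `u` is strictly `b`-beyond.
PROOF.  `K = cel A j z`, `K^b = {y ∈ K | Fa b w y}`.  Suppose there is no such `y`.  Every `y ∈ K^b` is on the
`b`-side of `C'`, so it is not on the `!b`-side of `C`, so it is on the `b`-side of `C`.  So `C` is not
strictly inside `K^b`, and GPR (`D = {u}`) gives `Dc (insert w A) j C`.  Take `v0 ∈ K` with `Fa !b w v0` (FAI (4)),
`y0 ∈ K` on the `b`-side of `C`, and (`move`) `t` over `A` with `t y0` `!b`-beyond `v0`; so `v0` is on the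
`b`-side of `t '' C`.  `t '' C` is definable over `insert (t u) A` and over `insert (t w) A`, and
`Fa b (t w) (t u)` (FAI (3)).  With any `i`: `p ∈ cel A i (t u)` with `Fa b w p` (FAI (4)), and `r` over
`insert (t w) A` with `r (t u)` `b`-beyond `p` (FAI (8)), so `Fa b w (r (t u))` (FAI (7)).  `r '' (t '' C) =
t '' C`, so `t '' C` is definable over `insert (r (t u)) A`.  Points of `K^b` are `b`-beyond `v0` (FAI (6),
(7)), so on the `b`-side of `t '' C`; so `t '' C` is not strictly inside `K^b` and GPR (`D = {r (t u)}`)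
gives `Dc (insert w A) j (t '' C)`.  It is strictly inside `K` (`sin_img`), so `v0` is on its `!b`-side:
contradiction. -/
def St_FTW : Prop :=
  ∀ (L : FirstOrder.Language.{0, 0}) (U : Type) [L.Structure U] (κ : Type) (R : κ → U → U → Prop)
    (o : κ → κ), Cx L R o → ∀ (A E : Set U) (sg : κ → U → Bool), Ori L R o A E sg →
    ∀ w ∈ E, ∀ u ∈ E, ∀ b, Fa L R o A sg b w u → ∀ z ∈ E, ∀ (j : κ) (C C' : Set U),
    Dc L R o (insert u A) j C → Dc L R o (insert w A) j C' → Sin C (cel L R o A j z) →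
    Sin C' (cel L R o A j z) → ∃ y ∈ cel L R o A j z,
      (y ∈ C ↔ sg (o j) z ≠ (!b)) ∧ (y ∈ C' ↔ sg (o j) z ≠ b)

/-- [ORD] (F3) the weak order.
PROOF.  (1) `Fa b w u → Fa !b u w` (then the converse with the roles exchanged): let `C` be an
`insert u A`-definable cut strictly inside `K = cel A j w`, suppose `w` is on its `b`-side.  `C'` =
`{x | ¬ R (o j) w x}` or `{x | R (o j) x w}`, such that `w` is on the `!b`-side of `C'` (`le_dc`, `lt_dc`,
`sin_self`, `exists_lts`).  FTW: `y` on the `!b`-side of `C` and on the `b`-side of `C'`; `y` is `b`-beyond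
`w`, so on the `b`-side of `C`: contradiction.  (2) the cuts `C'` of (1): `w` is not on the `b`-side.
(3) by (1) `Fa false w u`.  Suppose not `Ll v w`, so (1) not `Fa false w v`: there are `j` and an
`insert w A`-definable cut `C'` strictly inside `K = cel A j v` with `v` on its `true`-side.  For every
`insert u A`-definable cut `C` strictly inside `K`, FTW (`b = false`) gives `y ∈ K` on the `true`-side of
`C` and the `false`-side of `C'`; `v` is `true`-beyond `y`, so on the `true`-side of `C`.  So `Ex true u j v`,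
FAI (2).  (4) (3) for `u << v` and the third point `w`: `u << w` or `w << v`; the latter and `v << w`
contradict (1) and FAI (6).  (5) `y, y'` in one cell, `y'` `true`-beyond `y`: FAI (7), and (1) for the second
part.  (6) `{x | ¬ R (o j) y x}` or `{x | R (o j) x y}` with `y` on the `false`-side; `y'` is on the
`true`-side. -/
def St_ORD : Prop :=
  ∀ (L : FirstOrder.Language.{0, 0}) (U : Type) [L.Structure U] (κ : Type) (R : κ → U → U → Prop)
    (o : κ → κ), Cx L R o → ∀ (A E : Set U) (sg : κ → U → Bool), Ori L R o A E sg →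
    (∀ w ∈ E, ∀ u ∈ E, ∀ b, (Fa L R o A sg b w u ↔ Fa L R o A sg (!b) u w)) ∧
    (∀ w ∈ E, ∀ b, ¬ Fa L R o A sg b w w) ∧
    (∀ u ∈ E, ∀ w ∈ E, Ll L R o A sg u w → ∀ v ∈ E, Ll L R o A sg u v ∨ Ll L R o A sg v w) ∧
    (∀ u ∈ E, ∀ v ∈ E, ∀ w ∈ E, Ll L R o A sg u v → Ll L R o A sg v w → Ll L R o A sg u w) ∧
    (∀ z ∈ E, ∀ j, ∀ y ∈ cel L R o A j z, ∀ y' ∈ cel L R o A j z,
      lts R o (sg (o j) z) j y y' → ∀ w ∈ E, (Ll L R o A sg w y → Ll L R o A sg w y') ∧
        (Ll L R o A sg y' w → Ll L R o A sg y w)) ∧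
    (∀ z ∈ E, ∀ j, ∀ y ∈ cel L R o A j z, ∀ y' ∈ cel L R o A j z,
      Ll L R o A sg y y' → lts R o (sg (o j) z) j y y')

/-- [BTW] points between finite sets.
PROOF.  `sat_cel` with `B = A ∪ D ∪ V` and the family of the sets `{y | y on the true-side of C}` for the
`insert d A`-definable cuts `C` strictly inside `K = cel A j z`, `d ∈ D`, and `{y | y on the false-side of C'}`
for the `insert v A`-definable cuts `C'` strictly inside `K`, `v ∈ V` (all are `B`-definable: a cut or its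
complement).  A finite subfamily: all cuts are comparable (`ini_total`), so there are a last `C` (the
most outward) and a first `C'`; if both exist FTW (`u := d`, `w := v`, `b = false`; ORD (1)) gives a common
point; if only one kind occurs use `Sin`; if none, `z`.  The point `p` obtained has `Ex true d j p`,
`Ex false v j p` (`cst`), so `d << p` (FAI (2)) and `Fa false v p`, i.e. `p << v` (ORD (1)). -/
def St_BTW : Prop :=
  ∀ (L : FirstOrder.Language.{0, 0}) (U : Type) [L.Structure U] (κ : Type) (R : κ → U → U → Prop)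
    (o : κ → κ), Cx L R o → ∀ (A E : Set U) (sg : κ → U → Bool), Ori L R o A E sg →
    ∀ (D V : Set U), D.Finite → V.Finite → D ⊆ E → V ⊆ E → LL L R o A sg D V → ∀ z ∈ E, ∀ j,
    ∃ p ∈ cel L R o A j z, LL L R o A sg D {p} ∧ LL L R o A sg {p} V

/-- [TUP] cuts of finite sets.
PROOF.  Suppose `v` is on the `b`-side of `C`.  All `y ∈ K` with `Fa b v y` are `b`-beyond `v` (ORD (6), (1)),
so on the `b`-side; so `C` is not strictly inside `{y ∈ K | Fa b v y}` and GPR (`w := v`) gives
`Dc (insert v A) j C`.  `v0 ∈ K` with `Fa !b v v0` (FAI (4)); `move`: `t` over `A` with `t v` `!b`-beyond `v0`; so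
`v0` is on the `b`-side of `t '' C`, which is definable over `A ∪ t '' D` and over `insert (t v) A`.  By BTW
(with `{v}` and `D`; for `b = true` `v << D`, for `b = false` `D << v`, ORD (1)) there is `e ∈ E` with `Fa b v e` and
`Fa b e d` for all `d ∈ D`.  `p ∈ cel A i (t e)` with `Fa b v p` (FAI (4)), `r` over `insert (t v) A` with
`r (t e)` `b`-beyond `p` (FAI (8)): `Fa b v (r (t e))` (FAI (7)), so `Fa b v (r (t d))` for all `d ∈ D` (transitivity,
ORD (1), (4)).  `t '' C = r '' (t '' C)` is definable over `A ∪ (r ∘ t) '' D`.  Points `y ∈ K` with `Fa b v y`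
are `b`-beyond `v0`, so on the `b`-side of `t '' C`: GPR gives `Dc (insert v A) j (t '' C)`, strictly inside
`K`; so `v0` is on the `!b`-side: contradiction. -/
def St_TUP : Prop :=
  ∀ (L : FirstOrder.Language.{0, 0}) (U : Type) [L.Structure U] (κ : Type) (R : κ → U → U → Prop)
    (o : κ → κ), Cx L R o → ∀ (A E : Set U) (sg : κ → U → Bool), Ori L R o A E sg →
    ∀ (D : Set U), D.Finite → D ⊆ E → ∀ z ∈ E, ∀ (j : κ) (C : Set U), Dc L R o (A ∪ D) j C →
    Sin C (cel L R o A j z) → ∀ v ∈ cel L R o A j z, ∀ b, (∀ d ∈ D, Fa L R o A sg b v d) →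
    (v ∈ C ↔ sg (o j) z ≠ (!b))

/-- [MVT] moving finite sets.
PROOF.  (1) `Z = ∅`: `g = id`.  Otherwise take `z ∈ E`, `j : κ`, `K = cel A j z`; by BTW `e ∈ K` with `LL Z {e}` (so
`LL D {e}`, transitivity) and `p ∈ K` with `LL D {p}`, `LL {p} V`.  All `y ∈ K` with `LL D {y}` are in one cell
over `A ∪ D`: TUP (`b = false`, `Fa false y d`) for the cuts strictly inside `K`; the other cuts do not separate
points of `K`.  So `e` and `p` are in one cell over `A ∪ D`; it has two points (`exists_lts`, ORD (5)), so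
`e` is not definable over `A ∪ D` (`cel_def`).  `move` over `A ∪ D`: `g e` is inwards of `p`
(`lts (!sg (o j) z) j p (g e)`), so `g e << v` for `v ∈ V` (ORD (5)), `g x << g e` for `x ∈ Z` (FAI (3)), so
`g x << v`; `d = g d << g x`.  (2) (1) for the reversed orientation (FAI (1), ORD (1)). -/
def St_MVT : Prop :=
  ∀ (L : FirstOrder.Language.{0, 0}) (U : Type) [L.Structure U] (κ : Type) (R : κ → U → U → Prop)
    (o : κ → κ), Cx L R o → ∀ (A E : Set U) (sg : κ → U → Bool), Ori L R o A E sg →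
    ∀ (D V Z : Set U), D.Finite → V.Finite → Z.Finite → D ⊆ E → V ⊆ E → Z ⊆ E →
    LL L R o A sg D V →
    (LL L R o A sg D Z → ∃ g : U ≃[L] U, Fx L (A ∪ D) g ∧ LL L R o A sg D (g '' Z) ∧
      LL L R o A sg (g '' Z) V) ∧
    (LL L R o A sg Z V → ∃ g : U ≃[L] U, Fx L (A ∪ V) g ∧ LL L R o A sg D (g '' Z) ∧
      LL L R o A sg (g '' Z) V)

/-- [FCT] the facts between `z << z'` depend only on the types over `A`.
PROOF.  `R j x y ↔ x ∈ ct j y`.  (1) `J = cel A j z`.  If `ct j z'` is strictly inside `J`: it is an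
`insert z' A`-definable cut (`ct_dc`) and `Fa false z' z` (ORD (1)), so `z ∈ ct j z' ↔ sg (o j) z ≠ false`; `ct j (g' z')`
is strictly inside `J` (`img_ct`, `sin_img`, `fx_img_cel`), and `g z ∈ J`, `Fa false (g' z') (g z)`: the same
with `sg (o j) (g z) = sg (o j) z` (`cst`).  If it is not strictly inside `J`: `J ⊆ ct j z'` and then
`J = g' '' J ⊆ ct j (g' z')`, or `J` is disjoint from both; `g z ∈ J`.  (2) the same with
`J' = cel A j z'`, the cut `ct j z`, and `Fa true z z'`. -/
def St_FCT : Prop :=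
  ∀ (L : FirstOrder.Language.{0, 0}) (U : Type) [L.Structure U] (κ : Type) (R : κ → U → U → Prop)
    (o : κ → κ), Cx L R o → ∀ (A E : Set U) (sg : κ → U → Bool), Ori L R o A E sg →
    ∀ z ∈ E, ∀ z' ∈ E, ∀ g g' : U ≃[L] U, Fx L A g → Fx L A g' → Ll L R o A sg z z' →
    Ll L R o A sg (g z) (g' z') → ∀ j,
    (R j z z' ↔ R j (g z) (g' z')) ∧ (R j z' z ↔ R j (g' z') (g z))

/-- [CHN] gluing along a chain.
PROOF.  Let `S` be nonempty (otherwise the identity).  (a) There are `r_n` over `A` with `r_0 = id`,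
`r_(n+1) b = r_n (g b)` for `b ∈ S`, and, with `B_n = r_n '' S` (so `B_(n+1) = (r_n ∘ g) '' S`):
`LL B_n B_(n+1)`, `LL B_n W`.  Given `r_n` with `LL B_(n+1) W`: `r' = r_n ∘ g`, `Z = (r' ∘ g) '' S`,
`LL B_(n+1) Z` (image of `LL S (g '' S)` under `r'`, FAI (3)); MVT (1) with `D := B_(n+1)`, `V := W`: `s` over
`A ∪ B_(n+1)` with `LL (s '' Z) W`; `r_(n+1) = s ∘ r'`.
(b) `q_n = r_(n+1) ∘ r_n⁻¹` is over `A` and maps `B_n` onto `B_(n+1)` and `B_(n+1)` onto `B_(n+2)`.
(c) For `z ∈ E` let `N z` be the least `n` with not `LL B_n {z}` (if there is one).  `H z = z` if `z ∉ E` or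
`LL B_n {z}` for all `n`; `H z = q_0 z` if `N z = 0`; `H z = q_(n-1) z` if `N z = n ≥ 1`.  As `LL B_n B_(n+1)`,
`LL B_(n+1) {z}` implies `LL B_n {z}`.  `H` is a permutation: for `N z = n ≥ 1`: `N (H z) = n + 1`; for
`N z = 0`: `N (H z) ≤ 1`, and conversely.
(d) `hC.det` for `H`: every `H x` is the image of `x` under an automorphism over `A`.  `R j x y`:
`x ∉ E` or `y ∉ E`: PRD with `Q = E` and `q` (the automorphism `q` on `E`, identity elsewhere).  `x, y ∈ E` with
the same `N` (or both without): the same automorphism.  Otherwise for some `n` (say) `LL B_n {y}` and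
not `LL B_n {x}`: `b << y`, not `b << x` for some `b ∈ B_n`, so `x << y` (ORD (3)); the same for `H x`, `H y`
with `n + 1`: `H x << H y`.  FCT.  So `H` is an automorphism; it fixes `A` (points of `A` are not in `E`) and `W`
(`LL B_n W` for all `n`), and for `b ∈ S`: `N b = 0` (ORD (2)), `H b = q_0 b = r_1 b = g b`. -/
def St_CHN : Prop :=
  ∀ (L : FirstOrder.Language.{0, 0}) (U : Type) [L.Structure U] (κ : Type) (R : κ → U → U → Prop)
    (o : κ → κ), Cx L R o → ∀ (A E : Set U) (sg : κ → U → Bool), Ori L R o A E sg →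
    ∀ (S W : Set U), S.Finite → W.Finite → S ⊆ E → W ⊆ E → LL L R o A sg S W →
    ∀ g : U ≃[L] U, Fx L A g → LL L R o A sg S (g '' S) → LL L R o A sg (g '' S) W →
    ∃ h : U ≃[L] U, Fx L (A ∪ W) h ∧ ∀ b ∈ S, h b = g b

/-- [ORT] orthogonality.
PROOF.  (1) `S = ∅`: identity.  MVT (1) (with `D := ∅`, `V := S ∪ g '' S`, `Z := S`): `t` over `A` with
`LL (t '' S) (S ∪ g '' S)`, so `LL (t '' S) W` (ORD (4)).  CHN for `t '' S` and the automorphism `t⁻¹`: `h1` over
`A ∪ W` with `h1 (t b) = b`; CHN for `t '' S` and `g ∘ t⁻¹`: `h2 (t b) = g b`.  `h = h2 ∘ h1⁻¹`.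
(2) (1) for the reversed orientation (FAI (1), ORD (1)).
(3) `M = ∅`: identity.  (1) with `S := M`, `W := V`: `h1` over `A ∪ V`, `h1 = g` on `M`.  (2) with `W := D`,
`S := M ∪ V`, `g := h1` (`h1` fixes `V`): `h` over `A ∪ D`, `h = h1` on `M ∪ V`.
(4) MVT (1) with `D := ∅`: `g1` over `A` with `LL (g1 '' Z) V`; MVT (2) with `Z := g1 '' Z`: `g2`. -/
def St_ORT : Prop :=
  ∀ (L : FirstOrder.Language.{0, 0}) (U : Type) [L.Structure U] (κ : Type) (R : κ → U → U → Prop)
    (o : κ → κ), Cx L R o → ∀ (A E : Set U) (sg : κ → U → Bool), Ori L R o A E sg →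
    (∀ (S W : Set U), S.Finite → W.Finite → S ⊆ E → W ⊆ E → LL L R o A sg S W →
      ∀ g : U ≃[L] U, Fx L A g → LL L R o A sg (g '' S) W →
      ∃ h : U ≃[L] U, Fx L (A ∪ W) h ∧ ∀ b ∈ S, h b = g b) ∧
    (∀ (S W : Set U), S.Finite → W.Finite → S ⊆ E → W ⊆ E → LL L R o A sg W S →
      ∀ g : U ≃[L] U, Fx L A g → LL L R o A sg W (g '' S) →
      ∃ h : U ≃[L] U, Fx L (A ∪ W) h ∧ ∀ b ∈ S, h b = g b) ∧
    (∀ (D M V : Set U), D.Finite → M.Finite → V.Finite → D ⊆ E → M ⊆ E → V ⊆ E →
      LL L R o A sg D V → LL L R o A sg D M → LL L R o A sg M V →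
      ∀ g : U ≃[L] U, Fx L A g → LL L R o A sg D (g '' M) → LL L R o A sg (g '' M) V →
      ∃ h : U ≃[L] U, Fx L (A ∪ D ∪ V) h ∧ ∀ m ∈ M, h m = g m) ∧
    (∀ (D V Z : Set U), D.Finite → V.Finite → Z.Finite → D ⊆ E → V ⊆ E → Z ⊆ E →
      LL L R o A sg D V → ∃ g : U ≃[L] U, Fx L A g ∧ LL L R o A sg D (g '' Z) ∧
        LL L R o A sg (g '' Z) V)

end Pool.Agent.PMC
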