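import Pool.Agent.PMC.Defs
import Pool.Agent.WOM.ORB
import Pool.Agent.WOM.DNS
import Pool.Agent.WOM.DEF1

/-!
PMC: base lemmas (helper58): automorphisms, definable cuts, cells.
-/

set_option autoImplicit false
set_option linter.unusedVariables false
set_option linter.unusedSectionVars false

namespace Pool.Agent.PMC

open FirstOrder.Language Set
open scoped FirstOrder
open Pool.Agent.WOM (tp Mon IsEl IsoM CtU Fx Orb)

variable {L : FirstOrder.Language.{0, 0}} {U : Type} [L.Structure U] {κ : Type}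
  {R : κ → U → U → Prop} {o : κ → κ}

/-! ### Automorphisms -/

theorem fx_refl (A : Set U) : Fx L A (FirstOrder.Language.Equiv.refl L U) := fun _ _ => rfl

theorem fx_symm {A : Set U} {g : U ≃[L] U} (h : Fx L A g) : Fx L A g.symm := by
  intro a ha
  have h1 := h a ha
  calc g.symm a = g.symm (g a) := by rw [h1]
    _ = a := g.symm_apply_apply a

theorem fx_comp {A : Set U} {g h : U ≃[L] U} (hg : Fx L A g) (hh : Fx L A h) :
    Fx L A (g.comp h) := by
  intro a ha
  show g (h a) = a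
  rw [hh a ha, hg a ha]

theorem fx_mono {A B : Set U} (hAB : A ⊆ B) {g : U ≃[L] U} (h : Fx L B g) : Fx L A g :=
  fun a ha => h a (hAB ha)

theorem comp_apply' (g h : U ≃[L] U) (x : U) : (g.comp h) x = g (h x) := rfl

private theorem b_orb : Pool.Agent.WOM.St_ORB :=
  Pool.Agent.WOM.thm_ORB (Pool.Agent.WOM.thm_DEF1 Pool.Agent.WOM.thm_DEFF)

/-- image of a definable set -/
theorem def_img (hM : Mon L U) (g : U ≃[L] U) {A s : Set U} (h : A.Definable₁ L s) :
    (g '' A).Definable₁ L (g '' s) := (b_orb L U hM).2.2.2.2.2.2.2.2 g A s h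

theorem def_mono {A B : Set U} (hAB : A ⊆ B) {s : Set U} (h : A.Definable₁ L s) :
    B.Definable₁ L s := Set.Definable.mono h hAB

theorem def_compl {A s : Set U} (h : A.Definable₁ L s) : A.Definable₁ L sᶜ :=
  Set.Definable.compl h

theorem def_inter {A s t : Set U} (h : A.Definable₁ L s) (h' : A.Definable₁ L t) :
    A.Definable₁ L (s ∩ t) := Set.Definable.inter h h'

theorem def_union {A s t : Set U} (h : A.Definable₁ L s) (h' : A.Definable₁ L t) :
    A.Definable₁ L (s ∪ t) := Set.Definable.union h h'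

theorem def_mem {A s : Set U} (h : A.Definable₁ L s) {g : U ≃[L] U} (hg : Fx L A g) (x : U) :
    g x ∈ s ↔ x ∈ s := by
  unfold Definable₁ at h
  rw [definable_iff_exists_formula_sum] at h
  obtain ⟨φ, hφ⟩ := h
  have key : ∀ z : U, z ∈ s ↔ φ.Realize (Sum.elim (fun a : A => (a : U)) (fun _ : Fin 1 => z)) := by
    intro z
    have h3 := congrArg (fun t : Set (Fin 1 → U) => (fun _ : Fin 1 => z) ∈ t) hφ
    exact iff_of_eq h3
  have h4 : g ∘ Sum.elim (fun a : A => (a : U)) (fun _ : Fin 1 => x) =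
      Sum.elim (fun a : A => (a : U)) (fun _ : Fin 1 => g x) := by
    funext i
    rcases i with i | i
    · exact hg i i.2
    · rfl
  rw [key (g x), key x, ← h4]
  exact FirstOrder.Language.StrongHomClass.realize_formula g φ

theorem def_fix {A s : Set U} (h : A.Definable₁ L s) {g : U ≃[L] U} (hg : Fx L A g) :
    g '' s = s := by
  ext x
  constructor
  · rintro ⟨y, hy, rfl⟩
    exact (def_mem h hg y).2 hy
  · intro hx
    refine ⟨g.symm x, ?_, g.apply_symm_apply x⟩
    exact (def_mem h (fx_symm hg) x).2 hx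

/-- definable sets (with finitely many parameters) fixed by the automorphisms over `A` are
`A`-definable -/
theorem def_of_fix (hM : Mon L U) {A B s : Set U} (hA : A.Finite) (hB : B.Finite)
    (hs : B.Definable₁ L s) (h : ∀ g : U ≃[L] U, Fx L A g → ∀ x ∈ s, g x ∈ s) :
    A.Definable₁ L s := by
  refine (b_orb L U hM).2.2.2.2.2.2.2.1 A B s hA hB hs ?_
  rintro x hx y ⟨g, hg, rfl⟩
  exact h g hg x hx

/-- points separated by no `A`-definable set are conjugate -/
theorem conj_of_def (hM : Mon L U) {A : Set U} (hA : A.Finite) {x y : U}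
    (h : ∀ s, A.Definable₁ L s → x ∈ s → y ∈ s) : ∃ g : U ≃[L] U, Fx L A g ∧ g x = y := by
  by_contra hcon
  obtain ⟨s, hs, hx, hy⟩ := (b_orb L U hM).2.2.2.2.2.2.1 A x y hA hcon
  exact hy (h s hs hx)

/-- every nonempty definable set contains the orbit of a point with an isolated type -/
theorem exists_isd (hM : Mon L U) {A s : Set U} (hA : A.Finite) (hs : A.Definable₁ L s)
    (hn : s.Nonempty) : ∃ x ∈ s, A.Definable₁ L (Orb L A x) ∧ Orb L A x ⊆ s := by
  obtain ⟨x, hx, hx'⟩ := Pool.Agent.WOM.thm_DNS b_orb L U hM A s hA hs hn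
  refine ⟨x, hx, hx', ?_⟩
  exact (b_orb L U hM).2.2.2.2.2.1 A s hs x hx

theorem exists_fin_def {A s : Set U} (h : A.Definable₁ L s) :
    ∃ B : Set U, B.Finite ∧ B ⊆ A ∧ B.Definable₁ L s := by
  unfold Definable₁ at h
  rw [definable_iff_finitely_definable] at h
  obtain ⟨B, hB, hB'⟩ := h
  exact ⟨B, B.finite_toSet, hB, hB'⟩

/-- Criterion for elementary submodels: every definable orbit over a finite subset of `X` (containing a
given finite subset `A` of `X`) meets `X`. -/
theorem isEl_of_orb (hM : Mon L U) {A X : Set U} (hA : A.Finite) (hAX : A ⊆ X)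
    (h : ∀ B : Set U, B.Finite → A ⊆ B → B ⊆ X → ∀ x, B.Definable₁ L (Orb L B x) →
      ∃ y ∈ X, y ∈ Orb L B x) : IsEl L X := by
  intro s hs hn
  obtain ⟨B, hB, hBX, hBs⟩ := exists_fin_def hs
  have h1 : (A ∪ B).Definable₁ L s := def_mono subset_union_right hBs
  obtain ⟨x, hx, hx', hxs⟩ := exists_isd hM (hA.union hB) h1 hn
  obtain ⟨y, hy, hy'⟩ := h (A ∪ B) (hA.union hB) subset_union_left (union_subset hAX hBX) x hx'
  exact ⟨y, hxs hy', hy⟩

theorem mem_orb (B : Set U) (x : U) : x ∈ Orb L B x := ⟨_, fx_refl B, rfl⟩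

/-- a definable orbit over a finite subset of an elementary submodel meets it -/
theorem orb_meets {M B : Set U} (hM : IsEl L M) (hB : B ⊆ M) {x : U}
    (h : B.Definable₁ L (Orb L B x)) : ∃ y ∈ M, y ∈ Orb L B x := by
  obtain ⟨y, hy, hy'⟩ := hM _ (def_mono hB h) ⟨x, mem_orb B x⟩
  exact ⟨y, hy', hy⟩

theorem sat_fam (hM : Mon L U) {B : Set U} (hB : B.Finite) {F : Set (Set U)}
    (hF : ∀ s ∈ F, B.Definable₁ L s) (h : ∀ G ⊆ F, G.Finite → ∃ v, ∀ s ∈ G, v ∈ s) :
    ∃ v, ∀ s ∈ F, v ∈ s := by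
  obtain ⟨v, hv⟩ := hM.sat B hB F hF (by
    intro G hG hfin
    obtain ⟨v, hv⟩ := h G hG hfin
    exact ⟨v, fun s hs => hv s hs⟩)
  exact ⟨v, fun s hs => hv s hs⟩

/-! ### Definable binary relations -/

theorem rel_fx {P : U → U → Prop}
    (h : (∅ : Set U).Definable L {v : Fin 2 → U | P (v 0) (v 1)}) (g : U ≃[L] U) (x y : U) :
    P (g x) (g y) ↔ P x y := by
  rw [definable_iff_exists_formula_sum] at h
  obtain ⟨φ, hφ⟩ := h
  have key : ∀ a b : U, P a b ↔
      φ.Realize (Sum.elim (fun a : (∅ : Set U) => (a : U)) (![a, b] : Fin 2 → U)) := by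
    intro a b
    have h3 := congrArg (fun t : Set (Fin 2 → U) => (![a, b] : Fin 2 → U) ∈ t) hφ
    exact iff_of_eq h3
  have h4 : g ∘ Sum.elim (fun a : (∅ : Set U) => (a : U)) (![x, y] : Fin 2 → U) =
      Sum.elim (fun a : (∅ : Set U) => (a : U)) (![g x, g y] : Fin 2 → U) := by
    funext i
    rcases i with i | i
    · exact absurd i.2 (Set.notMem_empty _)
    · fin_cases i <;> rfl
  rw [key (g x) (g y), key x y, ← h4]
  exact FirstOrder.Language.StrongHomClass.realize_formula g φ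

theorem rel_def1 {P : U → U → Prop}
    (h : (∅ : Set U).Definable L {v : Fin 2 → U | P (v 0) (v 1)}) (u : U) (A : Set U) :
    (insert u A).Definable₁ L {x | P x u} := by
  rw [definable_iff_exists_formula_sum] at h
  obtain ⟨φ, hφ⟩ := h
  have key : ∀ a b : U, P a b ↔
      φ.Realize (Sum.elim (fun a : (∅ : Set U) => (a : U)) (![a, b] : Fin 2 → U)) := by
    intro a b
    have h3 := congrArg (fun t : Set (Fin 2 → U) => (![a, b] : Fin 2 → U) ∈ t) hφ
    exact iff_of_eq h3
  unfold Definable₁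
  rw [definable_iff_exists_formula_sum]
  refine ⟨φ.relabel (fun i : (∅ : Set U) ⊕ Fin 2 => (match i with
    | Sum.inl e => Sum.inl ⟨u, mem_insert u A⟩
    | Sum.inr i => if i = 0 then Sum.inr 0 else Sum.inl ⟨u, mem_insert u A⟩ :
      (insert u A : Set U) ⊕ Fin 1)), ?_⟩
  ext v
  have h5 : v ∈ {x : Fin 1 → U | x 0 ∈ {x | P x u}} ↔ P (v 0) u := Iff.rfl
  rw [h5, key (v 0) u]
  rw [Set.mem_ofPred_eq, FirstOrder.Language.Formula.realize_relabel]
  apply iff_of_eq
  congr 1
  funext i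
  rcases i with i | i
  · exact absurd i.2 (Set.notMem_empty _)
  · fin_cases i <;> rfl

theorem rel_def2 {P : U → U → Prop}
    (h : (∅ : Set U).Definable L {v : Fin 2 → U | P (v 0) (v 1)}) (u : U) (A : Set U) :
    (insert u A).Definable₁ L {x | P u x} := by
  rw [definable_iff_exists_formula_sum] at h
  obtain ⟨φ, hφ⟩ := h
  have key : ∀ a b : U, P a b ↔
      φ.Realize (Sum.elim (fun a : (∅ : Set U) => (a : U)) (![a, b] : Fin 2 → U)) := by
    intro a b
    have h3 := congrArg (fun t : Set (Fin 2 → U) => (![a, b] : Fin 2 → U) ∈ t) hφ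
    exact iff_of_eq h3
  unfold Definable₁
  rw [definable_iff_exists_formula_sum]
  refine ⟨φ.relabel (fun i : (∅ : Set U) ⊕ Fin 2 => (match i with
    | Sum.inl e => Sum.inl ⟨u, mem_insert u A⟩
    | Sum.inr i => if i = 0 then Sum.inl ⟨u, mem_insert u A⟩ else Sum.inr 0 :
      (insert u A : Set U) ⊕ Fin 1)), ?_⟩
  ext v
  have h5 : v ∈ {x : Fin 1 → U | x 0 ∈ {x | P u x}} ↔ P u (v 0) := Iff.rfl
  rw [h5, key u (v 0)]
  rw [Set.mem_ofPred_eq, FirstOrder.Language.Formula.realize_relabel]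
  apply iff_of_eq
  congr 1
  funext i
  rcases i with i | i
  · exact absurd i.2 (Set.notMem_empty _)
  · fin_cases i <;> rfl

theorem rel_hull {P : U → U → Prop}
    (h : (∅ : Set U).Definable L {v : Fin 2 → U | P (v 0) (v 1)}) {A s : Set U}
    (hs : A.Definable₁ L s) : A.Definable₁ L {v | ∃ w ∈ s, ¬ P w v} := by
  have h1 : A.Definable L {v : Fin 2 → U | v 0 ∈ s} := by
    have h2 := Set.Definable.preimage_comp (fun _ : Fin 1 => (0 : Fin 2)) hs
    exact h2
  have h2 : A.Definable L {v : Fin 2 → U | P (v 0) (v 1)} := h.mono (empty_subset A)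
  have h3 := (h1.inter h2.compl).image_comp (fun _ : Fin 1 => (1 : Fin 2))
  have h4 : {x : Fin 1 → U | x 0 ∈ {v | ∃ w ∈ s, ¬ P w v}} =
      (fun g : Fin 2 → U => g ∘ (fun _ : Fin 1 => (1 : Fin 2))) ''
        ({v : Fin 2 → U | v 0 ∈ s} ∩ {v : Fin 2 → U | P (v 0) (v 1)}ᶜ) := by
    ext v
    constructor
    · rintro ⟨w, hw, hw'⟩
      refine ⟨![w, v 0], ⟨hw, hw'⟩, ?_⟩
      funext i
      fin_cases i
      rfl
    · rintro ⟨u, ⟨hu, hu'⟩, rfl⟩
      exact ⟨u 0, hu, hu'⟩
  unfold Definable₁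
  rw [h4]
  exact h3

theorem rel_swap {P : U → U → Prop}
    (h : (∅ : Set U).Definable L {v : Fin 2 → U | P (v 0) (v 1)}) :
    (∅ : Set U).Definable L {v : Fin 2 → U | P (v 1) (v 0)} := by
  have h2 := Set.Definable.preimage_comp (fun i : Fin 2 => (if i = 0 then 1 else 0 : Fin 2)) h
  exact h2

/-- a set which is definable over a definable point and `A` is `A`-definable -/
theorem def_close (hM : Mon L U) {A s : Set U} {u : U} (hu : A.Definable₁ L {u})
    (h : ∀ B : Set U, (insert u B).Definable₁ L s) : A.Definable₁ L s := by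
  obtain ⟨B, hB, hBA, hB'⟩ := exists_fin_def hu
  refine def_mono hBA ?_
  refine def_of_fix hM hB (hB.insert u) (h B) ?_
  intro g hg x hx
  have h1 : g u = u := (def_mem hB' hg u).2 rfl
  have h2 : Fx L (insert u B) g := by
    intro a ha
    rcases ha with rfl | ha
    · exact h1
    · exact hg a ha
  exact (def_mem (h B) h2 x).2 hx

/-! ### Cuts -/

section cuts

variable (hC : Cx L R o)

include hC

theorem asymm' (j : κ) {x y : U} (h : R (o j) x y) : ¬ R (o j) y x :=
  fun h' => hC.irr j x (hC.tra j x y x h h')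

/-- `ini` at order indices, without `o (o j)` -/
theorem ini' (j : κ) (u : U) : ∀ x, R j x u → ∀ y, R (o j) y x → R j y u :=
  fun x hx y hy => hC.ini j u x hx y hy

theorem ct_dc (j : κ) (u : U) (A : Set U) : Dc L R o (insert u A) j (ct R j u) :=
  ⟨rel_def1 (hC.dfn j) u A, hC.ini j u⟩

/-- the cuts `{x | x < u}` of the order of `j` -/
theorem lt_dc (j : κ) (u : U) (A : Set U) : Dc L R o (insert u A) j {x | R (o j) x u} :=
  ⟨rel_def1 (hC.dfn (o j)) u A, fun x hx y hy => hC.tra j y x u hy hx⟩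

/-- the cuts `{x | x ≤ u}` -/
theorem le_dc (j : κ) (u : U) (A : Set U) : Dc L R o (insert u A) j {x | ¬ R (o j) u x} :=
  ⟨def_compl (rel_def2 (hC.dfn (o j)) u A), fun x hx y hy h => hx (hC.tra j u y x h hy)⟩

theorem R_img (j : κ) (x y : U) (g : U ≃[L] U) : R j (g x) (g y) ↔ R j x y :=
  rel_fx (hC.dfn j) g x y

theorem mem_ct_img (j : κ) (u x : U) (g : U ≃[L] U) : g x ∈ ct R j (g u) ↔ x ∈ ct R j u :=
  R_img hC j x u g

theorem img_ct (j : κ) (u : U) (g : U ≃[L] U) : g '' ct R j u = ct R j (g u) := by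
  ext x
  constructor
  · rintro ⟨y, hy, rfl⟩
    exact (mem_ct_img hC j u y g).2 hy
  · intro hx
    refine ⟨g.symm x, ?_, g.apply_symm_apply x⟩
    have h1 : g (g.symm x) ∈ ct R j (g u) := by
      rw [g.apply_symm_apply]
      exact hx
    exact (mem_ct_img hC j u (g.symm x) g).1 h1

omit hC in
theorem dc_mono {A B : Set U} (hAB : A ⊆ B) {j : κ} {C : Set U} (h : Dc L R o A j C) :
    Dc L R o B j C := ⟨def_mono hAB h.1, h.2⟩

theorem ini_img {j : κ} {C : Set U} (h : Ini R o j C) (g : U ≃[L] U) : Ini R o j (g '' C) := by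
  rintro _ ⟨x, hx, rfl⟩ y hy
  refine ⟨g.symm y, ?_, g.apply_symm_apply y⟩
  refine h x hx _ ?_
  have h1 : R (o j) (g (g.symm y)) (g x) := by
    rw [g.apply_symm_apply]
    exact hy
  exact (R_img hC (o j) _ _ g).1 h1

theorem dc_img {A : Set U} {j : κ} {C : Set U} (h : Dc L R o A j C) (g : U ≃[L] U) :
    Dc L R o (g '' A) j (g '' C) := ⟨def_img hC.mon g h.1, ini_img hC h.2 g⟩

omit hC in
theorem dc_fix {A : Set U} {j : κ} {C : Set U} (h : Dc L R o A j C) {g : U ≃[L] U}
    (hg : Fx L A g) : g '' C = C := def_fix h.1 hg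

theorem ini_total {j : κ} {C C' : Set U} (h : Ini R o j C) (h' : Ini R o j C') :
    C ⊆ C' ∨ C' ⊆ C := by
  by_contra hcon
  rw [not_or, not_subset, not_subset] at hcon
  obtain ⟨⟨x, hx, hx'⟩, ⟨y, hy, hy'⟩⟩ := hcon
  have hne : x ≠ y := by
    rintro rfl
    exact hx' hy
  rcases hC.tot j x y hne with h1 | h1
  · exact hx' (h' y hy x h1)
  · exact hy' (h x hx y h1)

theorem dc_oo {A : Set U} {j : κ} {C : Set U} : Dc L R o A (o j) C ↔ Dc L R o A j C := by
  unfold Dc Ini
  rw [hC.oo j]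

theorem cel_oo {A : Set U} {j : κ} {z : U} : cel L R o A (o j) z = cel L R o A j z := by
  ext y
  constructor
  · intro h C hCC
    exact h C ((dc_oo hC).2 hCC)
  · intro h C hCC
    exact h C ((dc_oo hC).1 hCC)

/-! ### Cells -/

omit hC in
theorem mem_cel (A : Set U) (j : κ) (z : U) : z ∈ cel L R o A j z := fun _ _ => Iff.rfl

omit hC in
theorem cel_symm {A : Set U} {j : κ} {y z : U} (h : y ∈ cel L R o A j z) :
    z ∈ cel L R o A j y := fun C hCC => (h C hCC).symm

omit hC in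
theorem cel_eq {A : Set U} {j : κ} {y z : U} (h : y ∈ cel L R o A j z) :
    cel L R o A j y = cel L R o A j z := by
  ext x
  constructor
  · intro hx C hCC
    exact (hx C hCC).trans (h C hCC)
  · intro hx C hCC
    exact (hx C hCC).trans (h C hCC).symm

omit hC in
theorem cel_anti {A B : Set U} (hAB : A ⊆ B) (j : κ) (z : U) :
    cel L R o B j z ⊆ cel L R o A j z := fun y hy C hCC => hy C (dc_mono hAB hCC)

theorem cel_conv {A : Set U} {j : κ} {x y w z : U} (hx : x ∈ cel L R o A j z)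
    (hw : w ∈ cel L R o A j z) (h1 : ¬ R (o j) y x) (h2 : ¬ R (o j) w y) :
    y ∈ cel L R o A j z := by
  intro C hCC
  constructor
  · intro hy
    refine (hx C hCC).1 ?_
    rcases eq_or_ne x y with rfl | hne
    · exact hy
    · rcases hC.tot j x y hne with h3 | h3
      · exact hCC.2 y hy x h3
      · exact absurd h3 h1
  · intro hz
    have h3 := (hw C hCC).2 hz
    rcases eq_or_ne w y with rfl | hne
    · exact h3
    · rcases hC.tot j w y hne with h4 | h4
      · exact absurd h4 h2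
      · exact hCC.2 w h3 y h4

omit hC in
theorem not_sin_cel {A : Set U} {j : κ} {C : Set U} (h : Dc L R o A j C) (z : U) :
    ¬ Sin C (cel L R o A j z) := by
  rintro ⟨⟨x, hx, hx'⟩, ⟨y, hy, hy'⟩⟩
  exact hy' ((hy C h).2 ((hx C h).1 hx'))

omit hC in
theorem img_symm_img (g : U ≃[L] U) (A : Set U) : g.symm '' (g '' A) = A := by
  ext x
  constructor
  · rintro ⟨_, ⟨y, hy, rfl⟩, rfl⟩
    rw [g.symm_apply_apply]
    exact hy
  · intro hx
    exact ⟨g x, ⟨x, hx, rfl⟩, g.symm_apply_apply x⟩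

omit hC in
theorem img_img_symm (g : U ≃[L] U) (A : Set U) : g '' (g.symm '' A) = A := by
  ext x
  constructor
  · rintro ⟨_, ⟨y, hy, rfl⟩, rfl⟩
    rw [g.apply_symm_apply]
    exact hy
  · intro hx
    exact ⟨g.symm x, ⟨x, hx, rfl⟩, g.apply_symm_apply x⟩

omit hC in
theorem mem_img_iff (g : U ≃[L] U) (A : Set U) (x : U) : g x ∈ g '' A ↔ x ∈ A := by
  constructor
  · rintro ⟨y, hy, h⟩
    have : y = x := g.injective h
    rw [← this]
    exact hy
  · intro hx
    exact ⟨x, hx, rfl⟩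

omit hC in
theorem mem_symm_img_iff (g : U ≃[L] U) (A : Set U) (x : U) : x ∈ g.symm '' A ↔ g x ∈ A := by
  have h1 := mem_img_iff g (g.symm '' A) x
  rw [img_img_symm] at h1
  exact h1.symm

theorem img_cel_sub (A : Set U) (j : κ) (z : U) (g : U ≃[L] U) :
    g '' cel L R o A j z ⊆ cel L R o (g '' A) j (g z) := by
  rintro _ ⟨y, hy, rfl⟩ C hCC
  have h1 := dc_img hC hCC g.symm
  rw [img_symm_img] at h1
  have h2 := hy _ h1
  rw [mem_symm_img_iff, mem_symm_img_iff] at h2
  exact h2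

theorem img_cel (A : Set U) (j : κ) (z : U) (g : U ≃[L] U) :
    g '' cel L R o A j z = cel L R o (g '' A) j (g z) := by
  apply Subset.antisymm (img_cel_sub hC A j z g)
  intro y hy
  have h1 : g.symm y ∈ cel L R o (g.symm '' (g '' A)) j (g.symm (g z)) :=
    img_cel_sub hC (g '' A) j (g z) g.symm ⟨y, hy, rfl⟩
  rw [img_symm_img, g.symm_apply_apply] at h1
  exact ⟨g.symm y, h1, g.apply_symm_apply y⟩

theorem fx_cel {A : Set U} (j : κ) (z : U) {g : U ≃[L] U} (hg : Fx L A g) :
    g z ∈ cel L R o A j z := fun C hCC => def_mem hCC.1 hg z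

theorem fx_mem_cel {A : Set U} (j : κ) (y z : U) {g : U ≃[L] U} (hg : Fx L A g) :
    g y ∈ cel L R o A j z ↔ y ∈ cel L R o A j z := by
  constructor
  · intro h C hCC
    exact (def_mem hCC.1 hg y).symm.trans (h C hCC)
  · intro h C hCC
    exact (def_mem hCC.1 hg y).trans (h C hCC)

theorem fx_img_cel {A : Set U} (j : κ) (z : U) {g : U ≃[L] U} (hg : Fx L A g) :
    g '' cel L R o A j z = cel L R o A j z := by
  ext x
  constructor
  · rintro ⟨y, hy, rfl⟩
    exact (fx_mem_cel hC j y z hg).2 hy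
  · intro hx
    refine ⟨g.symm x, ?_, g.apply_symm_apply x⟩
    exact (fx_mem_cel hC j x z (fx_symm hg)).2 hx

/-- two cells over `A` with a common strictly inner cut are equal -/
theorem cel_eq_of_sin {A : Set U} {j : κ} {C : Set U} (hC' : Ini R o j C) {y z : U}
    (h1 : Sin C (cel L R o A j y)) (h2 : Sin C (cel L R o A j z)) :
    cel L R o A j y = cel L R o A j z := by
  apply cel_eq
  intro D hD
  obtain ⟨⟨x1, hx1, hx1'⟩, ⟨x2, hx2, hx2'⟩⟩ := h1
  obtain ⟨⟨w1, hw1, hw1'⟩, ⟨w2, hw2, hw2'⟩⟩ := h2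
  constructor
  · intro hy
    by_contra hz
    have e1 : x2 ∈ D := (hx2 D hD).2 hy
    have e2 : w1 ∉ D := fun h => hz ((hw1 D hD).1 h)
    rcases ini_total hC hC' hD.2 with h | h
    · exact e2 (h hw1')
    · exact hx2' (h e1)
  · intro hz
    by_contra hy
    have e1 : w2 ∈ D := (hw2 D hD).2 hz
    have e2 : x1 ∉ D := fun h => hy ((hx1 D hD).1 h)
    rcases ini_total hC hC' hD.2 with h | h
    · exact e2 (h hx1')
    · exact hw2' (h e1)

theorem sin_img {C K : Set U} {g : U ≃[L] U} (hK : g '' K = K) (h : Sin C K) :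
    Sin (g '' C) K := by
  obtain ⟨⟨x, hx, hx'⟩, ⟨y, hy, hy'⟩⟩ := h
  refine ⟨⟨g x, ?_, (mem_img_iff g C x).2 hx'⟩, ⟨g y, ?_, fun h => hy' ((mem_img_iff g C y).1 h)⟩⟩
  · rw [← hK]
    exact ⟨x, hx, rfl⟩
  · rw [← hK]
    exact ⟨y, hy, rfl⟩

/-- a definable point is alone in its cells -/
theorem cel_def {A : Set U} {z : U} (hz : ¬ Nd L A z) (j : κ) : cel L R o A j z = {z} := by
  unfold Nd at hz
  rw [not_not] at hz
  apply Subset.antisymm
  · intro y hy
    by_contra hne
    have hne' : y ≠ z := hne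
    have d1 : Dc L R o A j {x | R (o j) x z} :=
      ⟨def_close hC.mon hz (fun B => (lt_dc hC j z B).1), (lt_dc hC j z ∅).2⟩
    have d2 : Dc L R o A j {x | ¬ R (o j) z x} :=
      ⟨def_close hC.mon hz (fun B => (le_dc hC j z B).1), (le_dc hC j z ∅).2⟩
    rcases hC.tot j y z hne' with h | h
    · exact hC.irr j z ((hy _ d1).1 h)
    · have h1 : z ∈ {x | ¬ R (o j) z x} := hC.irr j z
      exact (hy _ d2).2 h1 h
  · intro y hy
    have : y = z := hy
    rw [this]
    exact mem_cel A j z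

/-- points of a cell: not definable -/
theorem nd_cel {A : Set U} {j : κ} {y z : U} (hz : Nd L A z) (hy : y ∈ cel L R o A j z) :
    Nd L A y := by
  by_contra hcon
  have h1 := cel_def hC hcon j
  have h2 := cel_symm hy
  rw [h1] at h2
  have h3 : z = y := h2
  rw [h3] at hz
  exact hcon hz

omit hC in
theorem nd_anti {A B : Set U} (hAB : A ⊆ B) {z : U} (h : Nd L B z) : Nd L A z :=
  fun h' => h (def_mono hAB h')

theorem nd_img {A : Set U} {z : U} (g : U ≃[L] U) : Nd L (g '' A) (g z) ↔ Nd L A z := by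
  unfold Nd
  rw [not_iff_not]
  constructor
  · intro h
    have h1 := def_img hC.mon g.symm h
    rw [img_symm_img, image_singleton, g.symm_apply_apply] at h1
    exact h1
  · intro h
    have h1 := def_img hC.mon g h
    rw [image_singleton] at h1
    exact h1

theorem nd_fx {A : Set U} {z : U} {g : U ≃[L] U} (hg : Fx L A g) : Nd L A (g z) ↔ Nd L A z := by
  unfold Nd
  rw [not_iff_not]
  constructor
  · intro h
    have h1 : g.symm (g z) = g z := (def_mem h (fx_symm hg) (g z)).2 rfl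
    rw [g.symm_apply_apply] at h1
    rw [h1]
    exact h
  · intro h
    have h1 : g z = z := (def_mem h hg z).2 rfl
    rw [h1]
    exact h

/-- a set with a strictly inner cut contains two points, so the cell is not a point -/
theorem nd_of_sin {A : Set U} {j : κ} {z : U} {C : Set U} (h : Sin C (cel L R o A j z)) :
    Nd L A z := by
  by_contra hcon
  rw [cel_def hC hcon j] at h
  obtain ⟨⟨x, hx, hx'⟩, ⟨y, hy, hy'⟩⟩ := h
  have e1 : x = z := hx
  have e2 : y = z := hy
  rw [e1] at hx'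
  rw [e2] at hy'
  exact hy' hx'

omit hC in
theorem lts_true (j : κ) (x y : U) : lts R o true j x y ↔ R (o j) x y := by
  unfold lts
  rw [if_pos rfl]

omit hC in
theorem lts_false (j : κ) (x y : U) : lts R o false j x y ↔ R (o j) y x := by
  unfold lts
  rw [if_neg (by decide)]

theorem lts_def (b : Bool) (j : κ) :
    (∅ : Set U).Definable L {v : Fin 2 → U | lts R o b j (v 0) (v 1)} := by
  cases b
  · have h1 : {v : Fin 2 → U | lts R o false j (v 0) (v 1)} =
        {v : Fin 2 → U | R (o j) (v 1) (v 0)} := by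
      ext v
      exact lts_false j _ _
    rw [h1]
    exact rel_swap (hC.dfn (o j))
  · have h1 : {v : Fin 2 → U | lts R o true j (v 0) (v 1)} =
        {v : Fin 2 → U | R (o j) (v 0) (v 1)} := by
      ext v
      exact lts_true j _ _
    rw [h1]
    exact hC.dfn (o j)

theorem lts_irr (b : Bool) (j : κ) (x : U) : ¬ lts R o b j x x := by
  cases b
  · rw [lts_false]
    exact hC.irr j x
  · rw [lts_true]
    exact hC.irr j x

theorem lts_trans (b : Bool) (j : κ) {x y z : U} (h : lts R o b j x y) (h' : lts R o b j y z) :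
    lts R o b j x z := by
  cases b
  · rw [lts_false] at *
    exact hC.tra j z y x h' h
  · rw [lts_true] at *
    exact hC.tra j x y z h h'

theorem lts_tot (b : Bool) (j : κ) {x y : U} (h : x ≠ y) :
    lts R o b j x y ∨ lts R o b j y x := by
  cases b
  · rw [lts_false, lts_false]
    exact (hC.tot j x y h).symm
  · rw [lts_true, lts_true]
    exact hC.tot j x y h

theorem lts_img (b : Bool) (j : κ) (x y : U) (g : U ≃[L] U) :
    lts R o b j (g x) (g y) ↔ lts R o b j x y := by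
  cases b
  · rw [lts_false, lts_false]
    exact R_img hC (o j) y x g
  · rw [lts_true, lts_true]
    exact R_img hC (o j) x y g

/-- definable sets are convexly closed up to cells -/
theorem hull_cel {A s : Set U} (hs : A.Definable₁ L s) (b : Bool) {j : κ} {x y : U}
    (hxy : x ∈ cel L R o A j y) (hy : y ∈ s) : ∃ w ∈ s, ¬ lts R o b j w x := by
  have h1 : A.Definable₁ L {v | ∃ w ∈ s, ¬ lts R o b j w v} := rel_hull (lts_def hC b j) hs
  have hy1 : y ∈ {v | ∃ w ∈ s, ¬ lts R o b j w v} := ⟨y, hy, lts_irr hC b j y⟩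
  cases b
  · have h2 : Dc L R o A j {v | ∃ w ∈ s, ¬ lts R o false j w v}ᶜ := by
      refine ⟨def_compl h1, ?_⟩
      intro v hv v' hv' hcon
      obtain ⟨w, hw, hw'⟩ := hcon
      refine hv ⟨w, hw, ?_⟩
      intro h3
      apply hw'
      rw [lts_false] at h3 ⊢
      exact hC.tra j _ _ _ hv' h3
    by_contra hcon
    exact (hxy _ h2).1 hcon hy1
  · have h2 : Dc L R o A j {v | ∃ w ∈ s, ¬ lts R o true j w v} := by
      refine ⟨h1, ?_⟩
      rintro v ⟨w, hw, hw'⟩ v' hv'
      refine ⟨w, hw, ?_⟩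
      intro h3
      apply hw'
      rw [lts_true] at h3 ⊢
      exact hC.tra j _ _ _ h3 hv'
    exact (hxy _ h2).2 hy1

/-- [MOVE] conjugates are cofinal and coinitial in a cell -/
theorem move {A : Set U} (hA : A.Finite) {j : κ} {x y z : U} (hz : Nd L A z)
    (hx : x ∈ cel L R o A j z) (hy : y ∈ cel L R o A j z) (b : Bool) :
    ∃ g : U ≃[L] U, Fx L A g ∧ lts R o b j x (g y) := by
  by_contra hcon
  have hF : ∀ s ∈ ({s | A.Definable₁ L s ∧ y ∈ s} ∪ {{v | lts R o b j x v}} : Set (Set U)),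
      (insert x A).Definable₁ L s := by
    rintro s (hs | hs)
    · exact def_mono (subset_insert x A) hs.1
    · have : s = {v | lts R o b j x v} := hs
      rw [this]
      exact rel_def2 (lts_def hC b j) x A
  have h1 : ∃ G ⊆ ({s | A.Definable₁ L s ∧ y ∈ s} ∪ {{v | lts R o b j x v}} : Set (Set U)),
      G.Finite ∧ ∀ v, ∃ s ∈ G, v ∉ s := by
    by_contra hno
    push Not at hno
    obtain ⟨v, hv⟩ := sat_fam hC.mon (hA.insert x) hF hno
    obtain ⟨g, hg, hgy⟩ := conj_of_def hC.mon hA (x := y) (y := v)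
      (fun s hs hys => hv s (Or.inl ⟨hs, hys⟩))
    apply hcon
    refine ⟨g, hg, ?_⟩
    rw [hgy]
    exact hv _ (Or.inr rfl)
  obtain ⟨G, hGF, hGfin, hG⟩ := h1
  have hGs : (G ∩ {s | A.Definable₁ L s ∧ y ∈ s}).Finite := hGfin.inter_of_left _
  have hs : A.Definable₁ L (⋂₀ (G ∩ {s | A.Definable₁ L s ∧ y ∈ s})) := by
    have key : ∀ (H : Set (Set U)), H.Finite → (∀ s ∈ H, A.Definable₁ L s) →
        A.Definable₁ L (⋂₀ H) := by
      intro H hH
      refine Set.Finite.induction_on _ hH ?_ ?_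
      · intro _
        rw [sInter_empty]
        exact Set.definable_univ
      · intro a H ha _ ih hH'
        rw [sInter_insert]
        exact def_inter (hH' a (mem_insert a H)) (ih (fun s hs => hH' s (mem_insert_of_mem a hs)))
    exact key _ hGs (fun s hs => hs.2.1)
  have hys : y ∈ ⋂₀ (G ∩ {s | A.Definable₁ L s ∧ y ∈ s}) := fun s hs => hs.2.2
  have hno : ∀ v ∈ ⋂₀ (G ∩ {s | A.Definable₁ L s ∧ y ∈ s}), ¬ lts R o b j x v := by
    intro v hv hxv
    obtain ⟨s, hsG, hvs⟩ := hG v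
    rcases hGF hsG with h | h
    · exact hvs (hv s ⟨hsG, h⟩)
    · have : s = {v | lts R o b j x v} := h
      rw [this] at hvs
      exact hvs hxv
  have hxy : x ∈ cel L R o A j y := by
    rw [cel_eq hy]
    exact hx
  obtain ⟨w, hw, hwx⟩ := hull_cel hC hs b hxy hys
  have hwx' : w = x := by
    by_contra hne
    rcases lts_tot hC b j hne with h | h
    · exact hwx h
    · exact hno w hw h
  rw [hwx'] at hw
  -- `x` is the last point of `s`
  have hxd : A.Definable₁ L {x} := by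
    have h0 : (insert x A).Definable₁ L {x} := by
      have h1 : ({x} : Set U) = {v | ¬ R (o j) x v} ∩ {v | R (o j) v x}ᶜ := by
        ext v
        constructor
        · intro hv
          have : v = x := hv
          rw [this]
          exact ⟨hC.irr j x, hC.irr j x⟩
        · rintro ⟨h1, h2⟩
          by_contra hne
          rcases hC.tot j v x hne with h | h
          · exact h2 h
          · exact h1 h
      rw [h1]
      exact def_inter (le_dc hC j x A).1 (def_compl (lt_dc hC j x A).1)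
    refine def_of_fix hC.mon hA (hA.insert x) h0 ?_
    intro g hg v hv
    have hv' : v = x := hv
    rw [hv']
    have e1 := hno _ ((def_mem hs hg x).2 hw)
    have e2 := hno _ ((def_mem hs (fx_symm hg) x).2 hw)
    by_contra hne
    have hne' : g x ≠ x := hne
    rcases lts_tot hC b j hne' with h | h
    · apply e2
      have h3 : lts R o b j (g x) (g (g.symm x)) := by
        rw [g.apply_symm_apply]
        exact h
      exact (lts_img hC b j _ _ g).1 h3
    · exact e1 h
  exact nd_cel hC hz hx hxd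

/-- a cell has no last and no first point -/
theorem exists_lts {A : Set U} (hA : A.Finite) {j : κ} {x z : U} (hz : Nd L A z)
    (hx : x ∈ cel L R o A j z) (b : Bool) : ∃ y ∈ cel L R o A j z, lts R o b j x y := by
  obtain ⟨g, hg, h⟩ := move hC hA hz hx hx b
  exact ⟨g x, (fx_mem_cel hC j x z hg).2 hx, h⟩

/-- a nondefinable point cuts its own cells -/
theorem sin_self {A : Set U} (hA : A.Finite) (j : κ) {z : U} (hz : Nd L A z) :
    Sin {x | R (o j) x z} (cel L R o A j z) := by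
  obtain ⟨y, hy, hy'⟩ := exists_lts hC hA hz (mem_cel A j z) false
  rw [lts_false] at hy'
  exact ⟨⟨y, hy, hy'⟩, ⟨z, mem_cel A j z, hC.irr j z⟩⟩

/-- [SATK] saturation inside a cell -/
theorem sat_cel {A B : Set U} (hB : B.Finite) (hAB : A ⊆ B) {j : κ} {z : U} {F : Set (Set U)}
    (hF : ∀ s ∈ F, B.Definable₁ L s)
    (h : ∀ G ⊆ F, G.Finite → ∃ v ∈ cel L R o A j z, ∀ s ∈ G, v ∈ s) :
    ∃ v ∈ cel L R o A j z, ∀ s ∈ F, v ∈ s := by
  have hF' : ∀ s ∈ F ∪ {s | A.Definable₁ L s ∧ cel L R o A j z ⊆ s}, B.Definable₁ L s := by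
    rintro s (hs | hs)
    · exact hF s hs
    · exact def_mono hAB hs.1
  obtain ⟨v, hv⟩ := sat_fam hC.mon hB hF' (by
    intro G hG hGfin
    obtain ⟨v, hv, hv'⟩ := h (G ∩ F) inter_subset_right (hGfin.inter_of_left _)
    refine ⟨v, fun s hs => ?_⟩
    rcases hG hs with h1 | h1
    · exact hv' s ⟨hs, h1⟩
    · exact h1.2 hv)
  refine ⟨v, ?_, fun s hs => hv s (Or.inl hs)⟩
  intro C hCC
  constructor
  · intro hvC
    by_contra hzC
    exact hv Cᶜ (Or.inr ⟨def_compl hCC.1, fun y hy hyC => hzC ((hy C hCC).1 hyC)⟩) hvC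
  · intro hzC
    exact hv C (Or.inr ⟨hCC.1, fun y hy => (hy C hCC).2 hzC⟩)

/-- a cell over `A` which is not cut by `B` is a cell over `B` -/
theorem cel_of_not_ct {A B : Set U} (hAB : A ⊆ B) {j : κ} {z : U}
    (h : ¬ Ct L R o B j (cel L R o A j z)) : cel L R o B j z = cel L R o A j z := by
  apply Subset.antisymm (cel_anti hAB j z)
  intro y hy C hCC
  constructor
  · intro hyC
    by_contra hzC
    exact h ⟨C, hCC, ⟨y, hy, hyC⟩, ⟨z, mem_cel A j z, hzC⟩⟩
  · intro hzC
    by_contra hyC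
    exact h ⟨C, hCC, ⟨z, mem_cel A j z, hzC⟩, ⟨y, hy, hyC⟩⟩

/-! ### Links and pieces -/

theorem lk_self {A : Set U} (hA : A.Finite) {z y : U} (hz : Nd L A z) (j : κ)
    (hy : y ∈ cel L R o A j z) : Lk L R o A z y := by
  refine ⟨o j, ?_⟩
  rw [cel_oo hC, cel_eq hy]
  exact sin_self hC hA j hz

theorem lk_nd {A : Set U} {u z : U} (h : Lk L R o A u z) : Nd L A u ∧ Nd L A z := by
  obtain ⟨j, hj⟩ := h
  refine ⟨?_, nd_of_sin hC hj⟩
  intro hu
  have d1 : Dc L R o A j (ct R j u) :=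
    ⟨def_close hC.mon hu (fun B => (ct_dc hC j u B).1), (ct_dc hC j u ∅).2⟩
  exact not_sin_cel d1 z hj

omit hC in
theorem sin_mono {C K K' : Set U} (hK : K ⊆ K') (h : Sin C K) : Sin C K' := by
  obtain ⟨⟨x, hx, hx'⟩, ⟨y, hy, hy'⟩⟩ := h
  exact ⟨⟨x, hK hx, hx'⟩, ⟨y, hK hy, hy'⟩⟩

omit hC in
theorem lk_anti {A B : Set U} (hAB : A ⊆ B) {u z : U} (h : Lk L R o B u z) : Lk L R o A u z := by
  obtain ⟨j, hj⟩ := h
  exact ⟨j, sin_mono (cel_anti hAB j z) hj⟩

theorem lk_img1 {A : Set U} {u z : U} (g : U ≃[L] U) (h : Lk L R o A u z) :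
    Lk L R o (g '' A) (g u) (g z) := by
  obtain ⟨j, ⟨x, hx, hx'⟩, ⟨y, hy, hy'⟩⟩ := h
  refine ⟨j, ⟨g x, ?_, (mem_ct_img hC j u x g).2 hx'⟩, ⟨g y, ?_, fun h => hy' ((mem_ct_img hC j u y g).1 h)⟩⟩
  · rw [← img_cel hC]
    exact ⟨x, hx, rfl⟩
  · rw [← img_cel hC]
    exact ⟨y, hy, rfl⟩

theorem lk_img {A : Set U} {u z : U} (g : U ≃[L] U) :
    Lk L R o (g '' A) (g u) (g z) ↔ Lk L R o A u z := by
  constructor
  · intro h
    have h1 := lk_img1 hC g.symm h
    rw [img_symm_img, g.symm_apply_apply, g.symm_apply_apply] at h1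
    exact h1
  · exact lk_img1 hC g

omit hC in
theorem fx_img (A : Set U) {g : U ≃[L] U} (hg : Fx L A g) : g '' A = A := by
  ext x
  constructor
  · rintro ⟨y, hy, rfl⟩
    rw [hg y hy]
    exact hy
  · intro hx
    exact ⟨x, hx, hg x hx⟩

theorem lk_fx1 {A : Set U} {u z : U} {g h : U ≃[L] U} (hg : Fx L A g) (hh : Fx L A h)
    (H : Lk L R o A u z) : Lk L R o A (g u) (h z) := by
  have h1 := lk_img1 hC g H
  rw [fx_img A hg] at h1
  obtain ⟨j, hj⟩ := h1
  refine ⟨j, ?_⟩
  have h2 : cel L R o A j (h z) = cel L R o A j (g z) := by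
    rw [cel_eq (fx_cel hC j z hh), cel_eq (fx_cel hC j z hg)]
  rw [h2]
  exact hj

theorem lk_fx {A : Set U} {u z : U} {g h : U ≃[L] U} (hg : Fx L A g) (hh : Fx L A h) :
    Lk L R o A (g u) (h z) ↔ Lk L R o A u z := by
  constructor
  · intro H
    have h1 := lk_fx1 hC (fx_symm hg) (fx_symm hh) H
    rw [g.symm_apply_apply, h.symm_apply_apply] at h1
    exact h1
  · exact lk_fx1 hC hg hh

omit hC in
theorem mem_pc (A : Set U) (z : U) : z ∈ Pc L R o A z := Relation.EqvGen.refl z

omit hC in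
theorem pc_eq {A : Set U} {y z : U} (h : y ∈ Pc L R o A z) : Pc L R o A y = Pc L R o A z := by
  ext x
  constructor
  · intro hx
    exact Relation.EqvGen.trans _ _ _ h hx
  · intro hx
    exact Relation.EqvGen.trans _ _ _ (Relation.EqvGen.symm _ _ h) hx

omit hC in
theorem cls_pc (A : Set U) (z : U) : Cls L R o A (Pc L R o A z) := by
  intro u v huv
  constructor
  · intro hu
    exact Relation.EqvGen.trans _ _ _ hu (Relation.EqvGen.rel _ _ huv)
  · intro hv
    exact Relation.EqvGen.trans _ _ _ hv (Relation.EqvGen.symm _ _ (Relation.EqvGen.rel _ _ huv))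

omit hC in
theorem cls_eqv {A Q : Set U} (hQ : Cls L R o A Q) {y z : U}
    (h : Relation.EqvGen (Lk L R o A) y z) : y ∈ Q ↔ z ∈ Q := by
  induction h with
  | rel a b hab => exact hQ a b hab
  | refl a => exact Iff.rfl
  | symm a b _ ih => exact ih.symm
  | trans a b c _ _ ih1 ih2 => exact ih1.trans ih2

omit hC in
theorem pc_sub {A Q : Set U} (hQ : Cls L R o A Q) {z : U} (hz : z ∈ Q) : Pc L R o A z ⊆ Q :=
  fun y hy => (cls_eqv hQ hy).1 hz

omit hC in
theorem pc_anti {A B : Set U} (hAB : A ⊆ B) (z : U) : Pc L R o B z ⊆ Pc L R o A z :=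
  pc_sub (fun u v huv => cls_pc A z u v (lk_anti hAB huv)) (mem_pc A z)

theorem pc_nd_aux {A : Set U} {y z : U} (h : Relation.EqvGen (Lk L R o A) y z) :
    y = z ∨ (Nd L A y ∧ Nd L A z) := by
  induction h with
  | rel a b hab => exact Or.inr (lk_nd hC hab)
  | refl a => exact Or.inl rfl
  | symm a b _ ih =>
    rcases ih with h | h
    · exact Or.inl h.symm
    · exact Or.inr h.symm
  | trans a b c _ _ ih1 ih2 =>
    rcases ih1 with h | h
    · rw [h]
      exact ih2
    · rcases ih2 with h' | h'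
      · rw [← h']
        exact Or.inr h
      · exact Or.inr ⟨h.1, h'.2⟩

theorem pc_nd {A : Set U} {y z : U} (h : y ∈ Pc L R o A z) : Nd L A y ↔ Nd L A z := by
  rcases pc_nd_aux hC h with h1 | h1
  · rw [h1]
  · exact ⟨fun _ => h1.1, fun _ => h1.2⟩

theorem pc_def {A : Set U} {z : U} (h : ¬ Nd L A z) : Pc L R o A z = {z} := by
  apply Subset.antisymm
  · intro y hy
    rcases pc_nd_aux hC hy with h1 | h1
    · exact h1.symm
    · exact absurd h1.1 h
  · intro y hy
    have : y = z := hy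
    rw [this]
    exact mem_pc A z

theorem cel_sub_pc {A : Set U} (hA : A.Finite) (j : κ) (z : U) :
    cel L R o A j z ⊆ Pc L R o A z := by
  intro y hy
  by_cases hz : Nd L A z
  · exact Relation.EqvGen.rel _ _ (lk_self hC hA hz j hy)
  · rw [cel_def hC hz j] at hy
    have : y = z := hy
    rw [this]
    exact mem_pc A z

/-- unions of pieces are invariant -/
theorem cls_fx {A Q : Set U} (hA : A.Finite) (hQ : Cls L R o A Q) {g : U ≃[L] U}
    (hg : Fx L A g) (x : U) : g x ∈ Q ↔ x ∈ Q := by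
  by_cases hx : Nd L A x
  · obtain ⟨j⟩ := hC.ne
    exact (hQ x (g x) (lk_self hC hA hx j (fx_cel hC j x hg))).symm
  · unfold Nd at hx
    rw [not_not] at hx
    have h1 : g x = x := (def_mem hx hg x).2 rfl
    rw [h1]

theorem img_pc_sub {A : Set U} (z : U) (g : U ≃[L] U) :
    g '' Pc L R o A z ⊆ Pc L R o (g '' A) (g z) := by
  rintro _ ⟨y, hy, rfl⟩
  have hy' : Relation.EqvGen (Lk L R o A) z y := hy
  show Relation.EqvGen (Lk L R o (g '' A)) (g z) (g y)
  induction hy' with
  | rel a b hab => exact Relation.EqvGen.rel _ _ (lk_img1 hC g hab)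
  | refl a => exact Relation.EqvGen.refl _
  | symm a b hab ih => exact Relation.EqvGen.symm _ _ (ih hab)
  | trans a b c hab hbc ih1 ih2 => exact Relation.EqvGen.trans _ _ _ (ih1 hab) (ih2 hbc)

theorem img_pc {A : Set U} (z : U) (g : U ≃[L] U) :
    g '' Pc L R o A z = Pc L R o (g '' A) (g z) := by
  apply Subset.antisymm (img_pc_sub hC z g)
  intro y hy
  have h1 : g.symm y ∈ Pc L R o (g.symm '' (g '' A)) (g.symm (g z)) :=
    img_pc_sub hC (g z) g.symm ⟨y, hy, rfl⟩
  rw [img_symm_img, g.symm_apply_apply] at h1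
  exact ⟨g.symm y, h1, g.apply_symm_apply y⟩

end cuts

end Pool.Agent.PMC
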