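import Pool.Agent.PMC.StC
import Pool.Agent.WOM.StB

/-!
PMC: statements of the fourth part (helper58), with proofs in the docstrings: inner pieces, assembly in
the saturated model, transfer to models on `ℕ`.
-/

set_option autoImplicit false
set_option linter.unusedVariables false

namespace Pool.Agent.PMC

open FirstOrder.Language Set
open scoped FirstOrder
open Pool.Agent.WOM (tp Mon IsEl IsoM CtU Fx Orb CtT PerfT ThS Small)

/-- [ASV] (A7) cuts of a point of an extreme piece are strictly inside the cells of this piece.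
PROOF.  `B = insert x A`, `E = Pc B z0`.  For `v ∈ E`: `cel B j v = ext (sg (o j) v) B j (cel A j v) ⊆ E` (EXB (2),
`cel_sub_pc`).  Suppose `C` is strictly inside no cell `cel B j v`, `v ∈ E ∩ K`, `K = cel A j z`.
(i) For `s` over `B` let `g` be `s` on `E`, identity elsewhere (PRD over `B`, `cls_pc`).  If a cut `C1` strictly
inside `K` is strictly inside no `cel B j v`, `v ∈ E ∩ K`, then `g '' C1 = C1` (`g` maps the cells `cel B j v`,
`v ∈ E ∩ K`, onto themselves, each is contained in or disjoint from `C1`; the other points of `K` are fixed;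
points below `K` are in `C1`, points above are not).  If moreover `C1` is definable over `insert u1 A`,
`u1 ∈ E`, then `s '' C1 = g '' C1 = C1` (`g⁻¹ ∘ s` fixes `u1` and `A`), so `C1` is `B`-definable (`def_of_fix`).
(ii) So `C` is `B`-definable and `s '' C = C` for all `s` over `B`.  Let `i : κ`, `K' = cel A i u`, `b = sg (o i) u`, so
`u ∈ ext b B i K'`.  Let `Λ` = the set of the `g u`, `g` over `A` with `g '' C = C`: it is cofinal in `K'` in the
direction `b` (EXB (5) over `B`).  Hence for every `t` over `A` also the set `Λ_t` of the `g u`, `g` over `A` with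
`g '' C = t '' C`, is cofinal in `K'` in the direction `b` (`t` maps `K'` to itself).
(iii) Take `v1 ∈ ext true B j K` (EXB (1)) and `t` over `A` with `v1 ∈ t '' C` (`move` a point of `C ∩ K` above
`v1`); `C2 = t '' C` is strictly inside `ext true B j K = cel B j v1` (it contains `v1`, and misses a
point of `K`, above `v1`).  Take `u2 = g2 u ∈ Λ_t` beyond `u` in the direction `b`: `u2 ∈ ext b B i K' ⊆ E`
(EXB (6), `cel_sub_pc`).  `C2 = g2 '' C` is definable over `insert u2 A`.  If no `cel B j v`, `v ∈ E ∩ K`, has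
`C2` strictly inside then by (i) `C2` is `B`-definable, contradiction (`not_sin_cel`).  So
`cel B j v1 = cel B j v` for some `v ∈ E` (`cel_eq_of_sin`); `v1 ∈ E`.  Let `u3 = g3 u ∈ Λ_t` with `u2 << u3` in
`Ori B E sg`: `p ∈ cel B i u` with `Fa true u2 p` (FAI (4)), `u3 ∈ Λ_t` beyond `p` in the direction `b`; it is in
`cel B i u`, FAI (7).  `C2` is definable over `insert u2 B` and over `insert u3 B` and strictly inside
`cel B j v1`: FTW (with both cuts equal to `C2`) gives a contradiction. -/
def St_ASV : Prop :=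
  ∀ (L : FirstOrder.Language.{0, 0}) (U : Type) [L.Structure U] (κ : Type) (R : κ → U → U → Prop)
    (o : κ → κ), Cx L R o → ∀ (A : Set U) (x z0 : U), A.Finite → Nd L A x →
    z0 ∈ Pc L R o A x → z0 ∈ XS L R o A (insert x A) →
    ∀ sg : κ → U → Bool, Ori L R o (insert x A) (Pc L R o (insert x A) z0) sg →
    (∀ z ∈ Pc L R o (insert x A) z0, ∀ j,
      z ∈ ext L R o (sg (o j) z) (insert x A) j (cel L R o A j z)) →
    ∀ u ∈ Pc L R o (insert x A) z0, ∀ z ∈ Pc L R o A x, ∀ (j : κ) (C : Set U),
    Dc L R o (insert u A) j C → Sin C (cel L R o A j z) →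
    ∃ v ∈ Pc L R o (insert x A) z0, v ∈ cel L R o A j z ∧
      Sin C (cel L R o (insert x A) j v)

/-- [AEI] (A8) a copy of an inner piece inside one cluster of a good extreme piece.
PROOF.  `B = insert x A`; `y` inner: by XSP (1) `y ∉ ext b B j (cel A j y)` for all `j`, `b`, and the same for
all points of `Pc B y` (XSP (2), `pc_nd`).  Fix `j0 : κ`, `K = cel A j0 y`.  Take `a ∈ ext false B j0 K`,
`a' ∈ ext true B j0 K` (EXB (1)) and `t` over `A` with `R (o j0) a' (t a)` (`move`).  `x' = t x`, `B' = insert x' A`,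
`Q' = t '' Pc B y = Pc B' (t y)` (`img_pc`).  (0) Every `B'`-definable cut `C'` strictly inside `K` contains
`t a` (image of `a ∈ ext false`), so it contains `a'`, and every `B`-definable cut `C` strictly inside `K` misses
`a'`: `C ⊂ C'`, and `C'` is strictly inside `ext true B j0 K = cel B j0 a'`; such cuts exist (AG).
`z0 = a'`: `a' ∈ Pc A x` (`cel_sub_pc`), `a' ∈ XS A B` (XSP); `E = Pc B a'`, `sg` from MKO.
(1) `x' ∈ E`: otherwise let `s` over `B`, `g` = `s` on `E`, identity elsewhere (PRD over `B`): `g` fixes `x'`, so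
`g '' C' = C'`, and `s '' C' = C'` for a cut `C'` of (0) (`s = g` on the cell of `a'`); so `C'` is
`B`-definable: contradiction.  (2) `x ∉ Q'`: otherwise for `s` over `B'` let `g` be `s` on `Q'`, identity
elsewhere (PRD over `B'`), a `B`-definable cut `C` strictly inside `K` (AG).  The points of `Q' ∩ K` are
inner over `B'`, so above some `C'` of (0), so not in `C`; so `g '' C = C`.  `g x = s x`, so `s '' C = g '' C
= C` (`g⁻¹ ∘ s` fixes `B`): `C` is `B'`-definable, so `C ⊂ C` by (0): contradiction.
(3) For `v ∈ Q'` no `B`-definable cut `C` is strictly inside `cel B' j v`: otherwise for `s` over `B'` and `g`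
as in (2): `g` fixes `x` (`x ∉ Q'`), so `g '' C = C`, and `s '' C = C` (`s = g` on `cel B' j v ⊆ Q'`): `C` is
`B'`-definable, contradiction.  So `cel B' j v ⊆ cel B j v` for `v ∈ Q'`.  (4) `Q' ⊆ E`: let `v1, v2 ∈ Q'`,
`Lk B' v1 v2`: `ct j v1` strictly inside `cel B' j v2 ⊆ cel B j v2`, so `Lk B v1 v2`.  So `Q'` is inside one piece
over `B`.  `t y ∈ Q'` is in `K` (`fx_cel`), inner over `B'`, so above some `C'` of (0), so above `a'`:
`t y ∈ ext true B j0 K = cel B j0 a' ⊆ E`.
(5) `v ∈ Q'` and `x'` are in the same cluster.  Let `J = cel A j v`, `b = sg (o j) v`, `cel B j v = ext b B j J`.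
`v` is inner over `B'`: there are `B'`-definable cuts `C1`, `C2` strictly inside `J` with `v ∉ C1`, `v ∈ C2`.
Let `b = true` (`b = false` is symmetric).  `C2` contains `v` and misses a point of `J`, above `v`, so in
`ext true B j J`: `C2` is strictly inside `cel B j v` or contains only points not below `v` in it, in any case
(take a point of `cel B j v` below `v`, `exists_lts`) strictly inside.  Take `w ∈ ext false B j J` above all
`B'`-definable cuts strictly inside `ext false B j J` (`sat_cel` over `B ∪ B'`).  `w` and `v` are separated by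
a `B'`-definable cut `C3`: if `w ∈ cel B' j v ⊆ cel B j v` (by (3)) then `w ∈ ext true ∩ ext false`, no (EXB
(7), AG).  `w ∈ C3`, `v ∉ C3` (`w` is below `v`), so `C3` is strictly inside `J`.  By ASV (`u := x'`) `C3` is
strictly inside some `cel B j v3`, `v3 ∈ E ∩ J`, which is `ext true B j J` or `ext false B j J`; not the
latter by the choice of `w`.  So `C3`, `C2` are strictly inside `cel B j v`, definable over
`insert x' B`, `v` is not on the `true`-side of `C2` and not on the `false`-side of `C3`: `v` is not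
`>> x'`, not `<< x'` (FAI (2), ORD (1)). -/
def St_AEI : Prop :=
  ∀ (L : FirstOrder.Language.{0, 0}) (U : Type) [L.Structure U] (κ : Type) (R : κ → U → U → Prop)
    (o : κ → κ), Cx L R o → ∀ (A : Set U) (x y : U), A.Finite → Nd L A x →
    y ∈ Pc L R o A x → Nd L (insert x A) y → y ∉ XS L R o A (insert x A) →
    ∃ (t : U ≃[L] U) (z0 : U) (sg : κ → U → Bool), Fx L A t ∧
      Ori L R o (insert x A) (Pc L R o (insert x A) z0) sg ∧
      t x ∈ Pc L R o (insert x A) z0 ∧ x ∉ t '' Pc L R o (insert x A) y ∧
      ∀ v ∈ Pc L R o (insert x A) y, t v ∈ Pc L R o (insert x A) z0 ∧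
        ¬ Ll L R o (insert x A) sg (t x) (t v) ∧ ¬ Ll L R o (insert x A) sg (t v) (t x)

/-- [INN] inner pieces are rigid.
PROOF.  `B = insert x A`, `P = Pc B y`; `t`, `E = Pc B z0`, `sg` from AEI, `x' = t x`, `B' = insert x' A`,
`P' = t '' P = Pc B' (t y)`.  `M' = (t '' M ∩ P') ∪ P'ᶜ` is an elementary submodel which contains `B'`: UNP over
`B'` with the submodels `t '' M` for the points of `P'` and `univ` for the others (`t '' M` is elementary).
`x ∈ M'` as `x ∉ P'`, so `Md B M'`.  `x' ∈ M' ∩ E` (`x' ∉ P'`: it is definable over `B'`, `t y` is not).  NWL: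
`z ∈ E` and `e : Itv M' x' x' ≃ Itv univ z z` as in `Sm B`.  `P' ∩ M' ⊆ Itv M' x' x'`, `P' ⊆ Itv univ x' x'`.
Let `w = e x'`, and `g0` over `B` with `g0 x' = w`.  For `v` in `Itv M' x' x'`: `v ∈ P'` iff `e v ∈ g0 '' P'`: `h` over `B`
with `h v = e v`, `h x' = w`; `g0⁻¹ ∘ h` fixes `B` and `x'`, so `B'`, so it preserves `P'` (`cls_fx`).
`g0 '' P' ⊆ Itv univ z z` (`w ~ z`, and `g0 '' P'` is in the cluster of `w`).  So `e` restricts to a bijection
of `P' ∩ M' = t '' (P ∩ M)` and `g0 '' P'`, and `v ↦ t⁻¹ (g0⁻¹ (e (t v)))` is a bijection of `M ∩ P` and `P`.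
For a finite set `s ⊆ M ∩ P` take `h` over `B` which agrees with `e` on `t '' s ∪ {x'}`;
`t⁻¹ ∘ g0⁻¹ ∘ h ∘ t` fixes `A` and `x`. -/
def St_INN : Prop :=
  ∀ (L : FirstOrder.Language.{0, 0}) (U : Type) [L.Structure U] (κ : Type) (R : κ → U → U → Prop)
    (o : κ → κ), Cx L R o → NPf L U → ∀ (A : Set U) (x y : U), A.Finite → Nd L A x →
    y ∈ Pc L R o A x → Nd L (insert x A) y → y ∉ XS L R o A (insert x A) →
    ∀ M : Set U, Md L (insert x A) M → Sm L (insert x A) (M ∩ Pc L R o (insert x A) y)
      (Pc L R o (insert x A) y)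

/-- [NRF] only finitely many pieces are not rigid.
PROOF.  Otherwise choose an injective sequence of such pieces `Q n = Pc A (z n)` and models `M n` with
`¬ Sm A (M n ∩ Q n) (Q n)`.  For `f : ℕ → Bool` let `m f z = M n` if `z ∈ Q n` and `f n = true`, otherwise
`univ`.  UNP: `X f = {z | z ∈ m f z}` is an elementary submodel which contains `A`; `{f | v ∈ X f}` is clopen
(it depends on at most one `f n`).  `NPf`: `f ≠ f'` and `Sm A (X f) (X f')`, so by SMB (4) (pieces are
invariant) `Sm A (X f ∩ Q n) (X f' ∩ Q n)` for all `n`.  If `f n ≠ f' n` this says that `M n ∩ Q n` and `Q n` are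
similar (SMB (2)): contradiction. -/
def St_NRF : Prop :=
  ∀ (L : FirstOrder.Language.{0, 0}) (U : Type) [L.Structure U] (κ : Type) (R : κ → U → U → Prop)
    (o : κ → κ), Cx L R o → NPf L U → ∀ A : Set U, A.Finite →
    {Q : Set U | ∃ z, Q = Pc L R o A z ∧ ∃ M, Md L A M ∧ ¬ Sm L A (M ∩ Q) Q}.Finite

/-- [XTY] countably many parts of the extreme pieces.
PROOF.  MKO, NWL, NWI, CLS. -/
def St_XTY : Prop :=
  ∀ (L : FirstOrder.Language.{0, 0}) (U : Type) [L.Structure U] (κ : Type) (R : κ → U → U → Prop)
    (o : κ → κ), Cx L R o → NPf L U → ∀ (A : Set U) (x z0 : U), A.Finite → Nd L A x →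
    z0 ∈ Pc L R o A x → z0 ∈ XS L R o A (insert x A) →
    ∃ c : ℕ → Set U, ∀ M : Set U, Md L (insert x A) M → ∃ n,
      Sm L (insert x A) (M ∩ Pc L R o (insert x A) z0) (c n ∩ Pc L R o (insert x A) z0)

/-- [END] the count.
PROOF.  NRF for `A = ∅`: the set `N` of the nonrigid pieces over `∅` is finite.  Say that `M` (elementary) is
of type `B` (`B ⊆ U` finite) if `B ⊆ M ∩ ⋃ N`, and every `Q ∈ N` with `Q ∩ M` nonempty contains exactly one
point of `B`.  Every `M` has a type; there are countably many `B`.  Fix `B`.  It is enough that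
the `M` of type `B` fall into countably many classes for `Sm B` (SMB (6)).  For `Q ∈ N` with a point `x ∈ B`,
`A = B \ {x}` is disjoint from `Q`, so `Q = Pc A x` (LOC; `Q = Pc ∅ x`), `Nd A x` (`x` is not definable over `∅`: a
piece `{x}` with `x` definable is rigid as `x ∈ M`; and `pc_def`, `Pc A x = Q` has another point, by
`exists_lts`).  With two points `y1`, `y2` as in TWO (`B = insert x A`): every extreme `z ∈ Q` is in
`Pc B y1` or `Pc B y2`; sequences `c` from XTY for `y1` and `y2` (XSP (1)).  So let `I` be the finite set of the pairs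
(`Q`, one of the two), and for `M` of type `B` choose `n_M : I → ℕ` with the property of XTY.  Claim: if
`n_M = n_M'` then `Sm B M M'`.  SMB (5): let `z ∈ U`, `P = Pc B z`.  If `z` is definable over `B`: `P = {z}`, `z ∈ M`,
`z ∈ M'`.  Otherwise `z` is not definable over `∅`; let `Q = Pc ∅ z`.  If `Q ∉ N` then `Q` is disjoint from `B`
(`B ⊆ ⋃ N`), `P = Q` (LOC), and `M ∩ Q`, `M' ∩ Q` are similar to `Q` over `∅`, so over `B` (SMB (7)).  If `Q ∈ N` and
`Q ∩ B = ∅` then `M ∩ Q = M' ∩ Q = ∅`.  If `Q ∈ N`, `x ∈ Q ∩ B`: `Q = Pc A x`, `A = B \ {x}`.  If `z ∈ XS A B` then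
`P = Pc B y1` or `Pc B y2`, and `n_M = n_M'`.  If not, INN for both (`y := z`). -/
def St_END : Prop :=
  ∀ (L : FirstOrder.Language.{0, 0}) (U : Type) [L.Structure U] (κ : Type) (R : κ → U → U → Prop)
    (o : κ → κ), Cx L R o → NPf L U → CtU L U

/-! ### Transfer to models on `ℕ` -/

section top

variable (L : FirstOrder.Language.{0, 0})

/-- the relation defined by a formula -/
def rel (M : Type) [L.Structure M] (φ : L.Formula (Fin 2)) (x y : M) : Prop := φ.Realize ![x, y]

/-- The hypothesis of the theorem for one structure: the formulas `φ (o j)` define linear orders, the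
sections `{x | φ j (x, y)}` are initial segments for `φ (o j)`, for all `i`, `j` there is no grid of some
size `k`, and the structure is determined by the relations `φ j` and the formulas in one variable. -/
structure Hyp (M : Type) [L.Structure M] (φ : ℕ → L.Formula (Fin 2)) (o : ℕ → ℕ) : Prop where
  oo : ∀ j, o (o j) = o j
  irr : ∀ j (x : M), ¬ rel L M (φ (o j)) x x
  tra : ∀ j (x y z : M), rel L M (φ (o j)) x y → rel L M (φ (o j)) y z → rel L M (φ (o j)) x z
  tot : ∀ j (x y : M), x ≠ y → rel L M (φ (o j)) x y ∨ rel L M (φ (o j)) y x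
  ini : ∀ j (u x y : M), rel L M (φ j) x u → rel L M (φ (o j)) y x → rel L M (φ j) y u
  grd : ∀ i j, ∃ k : ℕ, NoGrid (fun j => rel L M (φ j)) o i j k
  det : ∀ g : M ≃ M, (∀ j x y, rel L M (φ j) (g x) (g y) ↔ rel L M (φ j) x y) →
    (∀ (ψ : L.Formula (Fin 1)) x, ψ.Realize ![g x] ↔ ψ.Realize ![x]) →
    ∃ h : M ≃[L] M, ∀ x, h x = g x

/-- THE THEOREM (general form) -/
def St_MAIN : Prop :=
  ∀ (L : FirstOrder.Language.{0, 0}), Countable L.Symbols → (∀ n, IsEmpty (L.Functions n)) →
    ∀ (T : L.Theory) (φ : ℕ → L.Formula (Fin 2)) (o : ℕ → ℕ),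
    (∀ S : L.Structure ℕ, @FirstOrder.Language.Theory.Model L ℕ S T → @Hyp L ℕ S φ o) →
    CtT L T ∨ PerfT L T

end top

/-- [HYU] the hypotheses in the saturated model.
PROOF.  `U` is countable and infinite: a bijection of `ℕ` and `U` gives a structure `S` on `ℕ` isomorphic to
`U`, a model of `T`; all clauses of `Hyp` are invariant under isomorphism.  `Cx` with `R j = rel L U (φ j)`:
`dfn`: the formula `φ j` without parameters; `det`: if `g x` is the image of `x` under an automorphism then
formulas in one variable are preserved. -/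
def St_HYU : Prop :=
  ∀ (L : FirstOrder.Language.{0, 0}) (T : L.Theory) (φ : ℕ → L.Formula (Fin 2)) (o : ℕ → ℕ),
    (∀ S : L.Structure ℕ, @FirstOrder.Language.Theory.Model L ℕ S T → @Hyp L ℕ S φ o) →
    ∀ (U : Type) [L.Structure U], U ⊨ T → Mon L U → Cx L (fun j => rel L U (φ j)) o

/-- [NPU] if there are not perfectly many models then there are no families in `U`.
PROOF.  `K = {S' : L.Structure ℕ | S' ⊨ ThS L S}`.  `¬ PerfT` gives `¬ PerfK K`, so `Scat K`
(`Pool.Agent.Helper79.VC.scat_of_not_perf` in `Pool/Agent/VB/B.lean`; measurability of `K`: countably many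
sentences, `WOM.St_MEAS` / `WOM.thm_MEAS`).  `UNE.dec2` (`Pool/Agent/UNE/DEC.lean`) for the structure `U`, the
family `X` and `G = A`: the `X f` are infinite (`IsEl`: they contain points outside of every finite subset),
`pl S e ∈ K` for an injective enumeration `e` of `X f` (Tarski-Vaught; compare `WOM.thm_PULL`).  It gives
`f ≠ f'` and a bijection of `X f` and `X f'` which preserves the relation symbols and fixes `A`; as `X f` and
`X f'` are elementary submodels it preserves the types of tuples in `U`; for a finite set `s` apply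
`Mon.hom` to a tuple which enumerates `s ∪ A`. -/
def St_NPU : Prop :=
  ∀ (L : FirstOrder.Language.{0, 0}), Countable L.Symbols → (∀ n, IsEmpty (L.Functions n)) →
    ∀ (U : Type) [L.Structure U], Mon L U → ∀ S : L.Structure ℕ, U ⊨ ThS L S →
    ¬ PerfT L (ThS L S) → NPf L U

/-- [TOP] assembly: as `WOM.thm_TOP` (`Pool/Agent/WOM/TOP.lean`) with END in place of `St_NAU`. -/
def St_TOP : Prop := St_END → St_HYU → St_NPU → St_MAIN

end Pool.Agent.PMC
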