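import Pool.Agent.PMC.StD

/-!
PMC, MP_5df2c5_lc: module HYU (the hypotheses in the saturated model).
-/

set_option autoImplicit false
set_option linter.unusedVariables false

namespace Pool.Agent.PMC

open FirstOrder.Language Set
open scoped FirstOrder
open Pool.Agent.WOM (tp Mon IsEl IsoM CtU Fx Orb CtT PerfT ThS Small)

namespace HYU

variable {L : FirstOrder.Language.{0, 0}}

theorem rel_iso {M N : Type} [L.Structure M] [L.Structure N] (E : M ≃[L] N)
    (φ : L.Formula (Fin 2)) (x y : M) : rel L N φ (E x) (E y) ↔ rel L M φ x y := by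
  have h := FirstOrder.Language.StrongHomClass.realize_formula E φ (v := ![x, y])
  have h1 : (E ∘ ![x, y] : Fin 2 → N) = ![E x, E y] := by
    funext i
    fin_cases i <;> rfl
  rw [h1] at h
  exact h

theorem fml_iso {M N : Type} [L.Structure M] [L.Structure N] (E : M ≃[L] N)
    (ψ : L.Formula (Fin 1)) (x : M) : ψ.Realize ![E x] ↔ ψ.Realize ![x] := by
  have h := FirstOrder.Language.StrongHomClass.realize_formula E ψ (v := ![x])
  have h1 : (E ∘ ![x] : Fin 1 → N) = ![E x] := by
    funext i
    fin_cases i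
    rfl
  rw [h1] at h
  exact h

theorem hyp_iso {M N : Type} [L.Structure M] [L.Structure N] (E : M ≃[L] N)
    {φ : ℕ → L.Formula (Fin 2)} {o : ℕ → ℕ} (h : Hyp L N φ o) : Hyp L M φ o where
  oo := h.oo
  irr := fun j x hx => h.irr j (E x) ((rel_iso E _ x x).2 hx)
  tra := fun j x y z h1 h2 => (rel_iso E _ x z).1
    (h.tra j (E x) (E y) (E z) ((rel_iso E _ x y).2 h1) ((rel_iso E _ y z).2 h2))
  tot := fun j x y hxy => by
    rcases h.tot j (E x) (E y) (fun he => hxy (E.injective he)) with h1 | h1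
    · exact Or.inl ((rel_iso E _ x y).1 h1)
    · exact Or.inr ((rel_iso E _ y x).1 h1)
  ini := fun j u x y h1 h2 => (rel_iso E _ y u).1
    (h.ini j (E u) (E x) (E y) ((rel_iso E _ x u).2 h1) ((rel_iso E _ y x).2 h2))
  grd := fun i j => by
    obtain ⟨k, hk⟩ := h.grd i j
    refine ⟨k, fun hg => hk ?_⟩
    obtain ⟨x, hx1, hx2⟩ := hg
    refine ⟨fun a b => E (x a b), fun a a' b b' haa => (rel_iso E _ _ _).2 (hx1 a a' b b' haa), ?_⟩
    intro a a' b b' hbb
    obtain ⟨z, hz1, hz2⟩ := hx2 a a' b b' hbb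
    exact ⟨E z, (rel_iso E _ _ _).2 hz1, fun hz => hz2 ((rel_iso E _ _ _).1 hz)⟩
  det := fun g hg1 hg2 => by
    obtain ⟨h', hh'⟩ := h.det ((E.toEquiv.symm.trans g).trans E.toEquiv)
      (fun j x y => by
        have h1 := hg1 j (E.symm x) (E.symm y)
        have h2 : rel L N (φ j) (E (g (E.symm x))) (E (g (E.symm y))) ↔
            rel L M (φ j) (g (E.symm x)) (g (E.symm y)) := rel_iso E _ _ _
        have h3 := rel_iso E (φ j) (E.symm x) (E.symm y)
        rw [E.apply_symm_apply, E.apply_symm_apply] at h3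
        exact h2.trans (h1.trans h3.symm))
      (fun ψ x => by
        have h1 := hg2 ψ (E.symm x)
        have h2 : ψ.Realize ![E (g (E.symm x))] ↔ ψ.Realize ![g (E.symm x)] := fml_iso E _ _
        have h3 := fml_iso E ψ (E.symm x)
        rw [E.apply_symm_apply] at h3
        exact h2.trans (h1.trans h3.symm))
    refine ⟨E.symm.comp (h'.comp E), fun x => ?_⟩
    show E.symm (h' (E x)) = g x
    rw [hh' (E x)]
    show E.symm (E (g (E.symm (E x)))) = g x
    rw [E.symm_apply_apply, E.symm_apply_apply]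

theorem hyp_cx {U : Type} [L.Structure U] (hM : Mon L U)
    {φ : ℕ → L.Formula (Fin 2)} {o : ℕ → ℕ} (h : Hyp L U φ o) :
    Cx L (fun j => rel L U (φ j)) o where
  mon := hM
  ne := ⟨0⟩
  dfn := fun j => by
    rw [Set.empty_definable_iff]
    refine ⟨φ j, ?_⟩
    ext v
    have hv : (![v 0, v 1] : Fin 2 → U) = v := by
      funext i
      fin_cases i <;> rfl
    simp only [Set.mem_ofPred_eq]
    unfold rel
    rw [hv]
  oo := h.oo
  irr := h.irr
  tra := h.tra
  tot := h.tot
  ini := fun j u x hx y hy => h.ini j u x y hx hy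
  grd := h.grd
  det := fun g hg1 hg2 => h.det g hg1 (fun ψ x => by
    obtain ⟨k, hk⟩ := hg2 x
    rw [← hk]
    exact fml_iso k ψ x)

end HYU

theorem thm_HYU : St_HYU := by
  intro L T φ o hT U _ hUT hM
  have hctb : Countable U := hM.ctb
  have hinf : Infinite U := hM.inf
  obtain ⟨e⟩ : Nonempty (U ≃ ℕ) := nonempty_equiv_of_countable
  let S : L.Structure ℕ := e.inducedStructure
  let E : @FirstOrder.Language.Equiv L U ℕ _ S := e.inducedStructureEquiv
  have hmod : @FirstOrder.Language.Theory.Model L ℕ S T :=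
    FirstOrder.Language.StrongHomClass.theory_model E
  exact HYU.hyp_cx hM (HYU.hyp_iso E (hT S hmod))

end Pool.Agent.PMC
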