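import Pool.Agent.PMC.StC

/-!
PMC, module DNF: dense colourings of the rationals (helper87).
-/

set_option autoImplicit false

namespace Pool.Agent.PMC

open Set

theorem DNF_val (n : ℕ) (a b : ℚ) (hab : a < b) :
    ∃ q, a < q ∧ q < b ∧ padicValRat 2 q = -(n : ℤ) := by
  obtain ⟨j, hj⟩ : ∃ j : ℕ, 2 / (b - a) < (3 : ℚ) ^ j :=
    pow_unbounded_of_one_lt _ (by norm_num)
  have h3 : (0 : ℚ) < 3 ^ j := by positivity
  have h2n : (1 : ℚ) ≤ 2 ^ n := one_le_pow₀ (by norm_num)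
  obtain ⟨D, hD⟩ : ∃ D : ℚ, D = 2 ^ n * 3 ^ j := ⟨_, rfl⟩
  have hD0 : 0 < D := by rw [hD]; positivity
  have hD3 : (3 : ℚ) ^ j ≤ D := by rw [hD]; exact le_mul_of_one_le_left h3.le h2n
  have hab' : 0 < b - a := sub_pos.2 hab
  have h1 : 2 < (b - a) * D := by
    have h2 : 2 < (3 : ℚ) ^ j * (b - a) := by rwa [div_lt_iff₀ hab'] at hj
    nlinarith
  obtain ⟨t, ht⟩ : ∃ t : ℤ, t = ⌊(a * D - 1) / 2⌋ + 1 := ⟨_, rfl⟩
  have ht1 : (a * D - 1) / 2 < t := by
    rw [ht]; push_cast; exact Int.lt_floor_add_one _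
  have ht2 : (t : ℚ) ≤ (a * D - 1) / 2 + 1 := by
    rw [ht]; push_cast; linarith [Int.floor_le ((a * D - 1) / 2)]
  have hodd : ((2 * t + 1 : ℤ) : ℚ) ≠ 0 := by
    have : (2 * t + 1 : ℤ) ≠ 0 := by omega
    exact_mod_cast this
  refine ⟨((2 * t + 1 : ℤ) : ℚ) / D, ?_, ?_, ?_⟩
  · rw [lt_div_iff₀ hD0]; push_cast; linarith
  · rw [div_lt_iff₀ hD0]; push_cast; linarith
  · rw [padicValRat.div hodd hD0.ne', hD, padicValRat.mul (by positivity) (by positivity),
      padicValRat.pow (2 : ℚ), padicValRat.pow (3 : ℚ)]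
    have e1 : padicValRat 2 ((2 * t + 1 : ℤ) : ℚ) = 0 := by
      rw [padicValRat.of_int]
      have : padicValInt 2 (2 * t + 1) = 0 := by
        refine padicValInt.eq_zero_of_not_dvd ?_
        intro h
        have : (2 : ℤ) ∣ 2 * t + 1 := by exact_mod_cast h
        omega
      rw [this]; rfl
    have e2 : padicValRat 2 (2 : ℚ) = 1 := by
      have := padicValRat.self (p := 2) (by norm_num)
      exact_mod_cast this
    have e3 : padicValRat 2 (3 : ℚ) = 0 := by
      have h : padicValRat 2 ((3 : ℤ) : ℚ) = 0 := by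
        rw [padicValRat.of_int]
        have : padicValInt 2 3 = 0 := by
          refine padicValInt.eq_zero_of_not_dvd ?_
          norm_num
        rw [this]; rfl
      simpa only [Int.cast_ofNat] using h
    rw [e1, e2, e3]; ring

theorem thm_DNF : St_DNF := by
  intro U Z hZ hne
  obtain ⟨f, hf⟩ := hZ.exists_eq_range hne
  refine ⟨fun q => f (-(padicValRat 2 q)).toNat, fun q => ?_, fun z hz a b hab => ?_⟩
  · rw [hf]; exact mem_range_self _
  · rw [hf] at hz
    obtain ⟨n, rfl⟩ := hz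
    obtain ⟨q, h1, h2, h3⟩ := DNF_val n a b hab
    refine ⟨q, h1, h2, ?_⟩
    show f (-(padicValRat 2 q)).toNat = f n
    rw [h3]; simp

end Pool.Agent.PMC
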