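import Pool.Agent.PMC.StB

/-!
PMC: statements of the third part (helper58), with proofs in the docstrings: insertion of intervals,
coding, classification of the parts of a good piece.
`Itv A E sg X p q`: the points of `X ∩ E` which are neither `<< p` nor `>> q`; `Itv A E sg X p p` is the
cluster of `p` in `X`.  Write `x ~ y` for: neither `x << y` nor `y << x`.
-/

set_option autoImplicit false
set_option linter.unusedVariables false

namespace Pool.Agent.PMC

open FirstOrder.Language Set
open scoped FirstOrder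
open Pool.Agent.WOM (tp Mon IsEl IsoM CtU Fx Orb)

/-- [BAF] back and forth.
PROOF.  Enumerate `X` and `Y` (if one is empty so is the other: `P ∅` and the second or third
hypothesis), alternate; the union of the finite relations is the graph of a bijection (for two pairs in
one finite stage an automorphism maps first to second coordinates), finite sets of points occur in
one stage. -/
def St_BAF : Prop :=
  ∀ (L : FirstOrder.Language.{0, 0}) (U : Type) [L.Structure U] (A X Y : Set U)
    (P : Set (U × U) → Prop), X.Countable → Y.Countable → P ∅ →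
    (∀ s, s.Finite → P s → ∀ x ∈ X, ∃ y ∈ Y, P (insert (x, y) s)) →
    (∀ s, s.Finite → P s → ∀ y ∈ Y, ∃ x ∈ X, P (insert (x, y) s)) →
    (∀ s, s.Finite → P s → ∃ g : U ≃[L] U, Fx L A g ∧ ∀ c ∈ s, g c.1 = c.2) → Sm L A X Y

/-- [GRP] gluing of automorphisms along clusters.
PROOF.  Induction on the finite set `F` (number of clusters; or remove from `F` the set `S` of the points
of a last cluster: `x0 ∈ F` with not `x0 << x` for all `x ∈ F`, `S = {x ∈ F | x ~ x0}`, `W = F \ S`, `LL W S`).
`g'` for `W`; `g0` for `x0`: `g0 = t` on `S`.  `g'⁻¹ ∘ g0` is over `A` and maps `S` to a set `>> W`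
(`g' w = t w << t x = g0 x`).  ORT (2) for `W`, `S`: `h` over `A ∪ W` with `h = g'⁻¹ ∘ g0` on `S`.
`g = g' ∘ h`. -/
def St_GRP : Prop :=
  ∀ (L : FirstOrder.Language.{0, 0}) (U : Type) [L.Structure U] (κ : Type) (R : κ → U → U → Prop)
    (o : κ → κ), Cx L R o → ∀ (A E : Set U) (sg : κ → U → Bool), Ori L R o A E sg →
    ∀ (F : Set U) (t : U → U), F.Finite → F ⊆ E → (∀ x ∈ F, t x ∈ E) →
    (∀ x ∈ F, ∀ y ∈ F, Ll L R o A sg x y → Ll L R o A sg (t x) (t y)) →
    (∀ x ∈ F, ∃ g : U ≃[L] U, Fx L A g ∧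
      ∀ y ∈ F, ¬ Ll L R o A sg x y → ¬ Ll L R o A sg y x → g y = t y) →
    ∃ g : U ≃[L] U, Fx L A g ∧ ∀ x ∈ F, g x = t x

/-- [DNF] dense colourings of the rationals.
PROOF.  `Z` is countable and not empty: `Z = range c`, `c : ℕ → U`.  `ℚ` has a partition into infinitely
many dense sets (for instance by the exponent of the prime 2 in the denominator: the numbers
`m / (2^n (2k+1))` with `m` odd are dense for every `n`); or construct the colouring by enumerating
the triples (interval with rational endpoints, `n`) and choosing new points. -/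
def St_DNF : Prop :=
  ∀ (U : Type) (Z : Set U), Z.Countable → Z.Nonempty →
    ∃ c : ℚ → U, (∀ q, c q ∈ Z) ∧ ∀ z ∈ Z, ∀ a b : ℚ, a < b → ∃ q, a < q ∧ q < b ∧ c q = z

/-- [CNO] perfectly many countable linear orders, as subsets of one countable order.
PROOF.  `O = ℕ ×ₗ (ℚ ⊕ₗ ℕ)`.  `S f` contains all `(n, inl q)` and the `(n, inr k)` with
`k < 2 n + 2 + (f n).toNat`.  Say that a linear order has a BLOCK OF SIZE `k` (`k ≥ 2`) if there are
`x_0 ⋖ x_1 ⋖ .. ⋖ x_(k-1)` (covering) such that `x_0` covers nothing and `x_(k-1)` is covered by nothing;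
this is invariant under isomorphism.  In `S f` the only coverings are `(n, inr k) ⋖ (n, inr (k+1))`: points
`(n, inl q)` are not covered by and do not cover anything (density of `ℚ`, no endpoints; below
`(n, inl q)` there are always closer points), and the last point `(n, inr k)` is not covered (`(n+1, inl q)`
has no first element above it).  So `S f` has a block of size `k` iff `k = 2 n + 2 + (f n).toNat` for some
`n`.  Hence `f n = true` iff `S f` has a block of size `2 n + 3` (parity). -/
def St_CNO : Prop :=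
  ∃ (O : Type) (_ : LinearOrder O) (_ : Countable O) (S : (ℕ → Bool) → Set O),
    (∀ x, IsClopen {f | x ∈ S f}) ∧ ∀ f f', Nonempty (S f ≃o S f') → f = f'

/-- [COD] decoding of an order from blocks.
PROOF.  For `a ∈ S` choose `x_a ∈ P a`; `φ x_a ∈ P a'` for exactly one `a' ∈ S'` (the `P` are pairwise
disjoint by `hlt` and `hirr`); it does not depend on the choice of `x_a` by `hsame`.  `a ↦ a'` is injective
and surjective (`φ⁻¹`), and monotone by `hord` (points of different blocks). -/
def St_COD : Prop :=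
  ∀ (U O : Type) [LinearOrder O] (lt : U → U → Prop) (P : O → Set U) (S S' : Set O)
    (φ : {x : U // ∃ a ∈ S, x ∈ P a} ≃ {x : U // ∃ a ∈ S', x ∈ P a}),
    (∀ a, (P a).Nonempty) → (∀ x, ¬ lt x x) → (∀ x y, lt x y → ¬ lt y x) →
    (∀ a b, a < b → ∀ x ∈ P a, ∀ y ∈ P b, lt x y) →
    (∀ x y : {x : U // ∃ a ∈ S, x ∈ P a}, (∃ a ∈ S, (x : U) ∈ P a ∧ (y : U) ∈ P a) ↔
      ∃ a ∈ S', ((φ x : {x : U // ∃ a ∈ S', x ∈ P a}) : U) ∈ P a ∧
        ((φ y : {x : U // ∃ a ∈ S', x ∈ P a}) : U) ∈ P a) →
    (∀ x y : {x : U // ∃ a ∈ S, x ∈ P a}, ¬ (∃ a ∈ S, (x : U) ∈ P a ∧ (y : U) ∈ P a) →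
      (lt x y ↔ lt (φ x : {x : U // ∃ a ∈ S', x ∈ P a}) (φ y : {x : U // ∃ a ∈ S', x ∈ P a}))) →
    Nonempty (S ≃o S')

/-- [PLC] placement of a countable family of intervals.
PROOF.  Enumerate `D`; recursively choose `g_d`: if `g` is defined on a finite set `F` of indices (with the
property) and `d ∉ F` apply ORT (4) to the finite sets `{g_c (q c) | c ∈ F, c < d}`,
`{g_c (p c) | c ∈ F, d < c}` (`LL`: for `c < c'` the hypothesis) and `Z = {p d, q d}`. -/
def St_PLC : Prop :=
  ∀ (L : FirstOrder.Language.{0, 0}) (U : Type) [L.Structure U] (κ : Type) (R : κ → U → U → Prop)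
    (o : κ → κ), Cx L R o → ∀ (A E : Set U) (sg : κ → U → Bool), Ori L R o A E sg →
    ∀ (D : Type) [LinearOrder D] [Countable D] (p q : D → U), (∀ d, p d ∈ E) → (∀ d, q d ∈ E) →
    (∀ d, ¬ Ll L R o A sg (q d) (p d)) →
    ∃ g : D → (U ≃[L] U), (∀ d, Fx L A (g d)) ∧
      ∀ d d', d < d' → Ll L R o A sg (g d (q d)) (g d' (p d'))

/-- [SUM] ordered sums of intervals are elementary submodels.  `D` is an order of indices, `M d` an
elementary submodel, `p d, q d ∈ M d ∩ E`; `P d` is the image of the interval `[p d, q d]` of `M d` under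
`g d`; the indices in `D0` are `rich`: between any two indices there are indices in `D0` which realise all
types of `E`.
PROOF.  `X = Eᶜ ∪ ⋃ d, P d`.  First: for `d < d'`, `x ∈ P d`, `y ∈ P d'`: `x << y` (`x << g d' (p d')` since not
`g d (q d) << x`, ORD (3), then again ORD (3)).  `isEl_of_orb`: `A ⊆ B ⊆ X` finite, `O = Orb B x` definable over
`B`.  If `x ∉ E` then `x ∈ X`.  Let `x ∈ E`, `B_d = B ∩ P d`, nonempty for finitely many `d`.
(a) For some `d` there are `y, y' ∈ B_d` with not `x << y`, not `y' << x`.  Then for `c < d`, `b ∈ B_c`: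
`b << x`, and for `d < c`, `b ∈ B_c`: `x << b`.  Let `B' = A ∪ B_d`.  For `h` over `B'` also `h x` has this
property, and by ORT (3) (`D` := the union of the `B_c`, `c < d`; `M := B_d ∪ {x}`; `V` := the union of the
`B_c`, `d < c`) and PRD for `E` (points of `B` outside `E`) `h x ∈ Orb B x`: so `O = Orb B' x` is
`B'`-definable (`def_of_fix`).  The image under `(g d)⁻¹` is a definable orbit over `A ∪ (g d)⁻¹ B_d ⊆ M d`,
so it meets `M d` (`orb_meets`) in a point `w`; `g d w ∈ O`, not `w << (g d)⁻¹ y`, not `(g d)⁻¹ y' << w`, so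
`w ∈ [p d, q d]` (ORD (3)), `g d w ∈ P d ∩ O`.
(b) Otherwise for every `d` with `B_d` nonempty: `x << B_d` or `B_d << x`.  Let `d` be the last index with
`B_d << x` nonempty and `d'` the first index with `x << B_d'` (if they exist); `d < d'`.  There is `c ∈ D0`,
`d < c < d'` (strictly between, or below, or above, or arbitrary) such that some `x' ∈ P c` is `h x`
for an `h` over `A`.  All `B_c` are on the same side of `x'` as of `x` (`P c << P d'`), so by ORT (3) (with
`M := {x}`) and PRD `x' ∈ Orb B x`. -/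
def St_SUM : Prop :=
  ∀ (L : FirstOrder.Language.{0, 0}) (U : Type) [L.Structure U] (κ : Type) (R : κ → U → U → Prop)
    (o : κ → κ), Cx L R o → ∀ (A E : Set U) (sg : κ → U → Bool), Ori L R o A E sg →
    ∀ (D : Type) [LinearOrder D] (D0 : Set D) (M : D → Set U) (p q : D → U)
      (g : D → (U ≃[L] U)), (∀ d, Fx L A (g d)) → (∀ d, Md L A (M d)) →
    (∀ d, p d ∈ M d ∧ p d ∈ E) → (∀ d, q d ∈ M d ∧ q d ∈ E) →
    (∀ d d', d < d' → Ll L R o A sg (g d (q d)) (g d' (p d'))) →
    (∀ x ∈ E, (∃ c ∈ D0, ∃ h : U ≃[L] U, Fx L A h ∧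
        h x ∈ (g c) '' Itv L R o A E sg (M c) (p c) (q c)) ∧
      (∀ d, ∃ c ∈ D0, c < d ∧ ∃ h : U ≃[L] U, Fx L A h ∧
        h x ∈ (g c) '' Itv L R o A E sg (M c) (p c) (q c)) ∧
      (∀ d, ∃ c ∈ D0, d < c ∧ ∃ h : U ≃[L] U, Fx L A h ∧
        h x ∈ (g c) '' Itv L R o A E sg (M c) (p c) (q c)) ∧
      ∀ d d', d < d' → ∃ c ∈ D0, d < c ∧ c < d' ∧ ∃ h : U ≃[L] U, Fx L A h ∧
        h x ∈ (g c) '' Itv L R o A E sg (M c) (p c) (q c)) →
    IsEl L (Eᶜ ∪ ⋃ d, (g d) '' Itv L R o A E sg (M d) (p d) (q d))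

/-- [INS] insertion of copies of an interval of a model, indexed by any countable order.
PROOF.  `c : ℚ → U` from DNF for `Z = E`.  `D` = the subtype `{d : (WithBot O) ×ₗ (WithBot ℚ) // d ≠ (⊥, ⊥)}`;
for `d = (some a, ⊥)`: the model `M`, the points `p`, `q`; for all other `d = (_, some r)`: the model `univ`
and `p d = q d = c r`.  PLC gives `g`.  `r a = g (some a, ⊥)`, `X0 = Eᶜ ∪` the union of the images
`g d '' Itv univ (p d) (p d)` for the other `d` (these are the full clusters of the points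
`g d (p d)`).  For `S ⊆ O` apply SUM to the suborder of `D` of all `d` except the `(some a, ⊥)`, `a ∉ S`, with
`D0` = the indices `(_, some r)`: below, above and between any indices of `D` there are the
`(_, some r)` with `r` in an interval of `ℚ`, so all colours (DNF).  (c1)-(c3): `P d << P d'` for `d < d'` as in SUM and
ORD (2); (d) `x ∈ g d '' cluster`, so `x ~ g d (p d)`, and `y ~ x` (ORD (3)); (e) `x ∈ P d`, `y ∈ P d'`; `d ≤ d'`;
if `d = d'` then both are in one cluster (not possible, `x << y`) or in one `P a`; so `d < d'`, take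
`(_, some r)` between with `c r = z`. -/
def St_INS : Prop :=
  ∀ (L : FirstOrder.Language.{0, 0}) (U : Type) [L.Structure U] (κ : Type) (R : κ → U → U → Prop)
    (o : κ → κ), Cx L R o → ∀ (A E : Set U) (sg : κ → U → Bool), Ori L R o A E sg →
    ∀ (M : Set U) (p q : U), Md L A M → p ∈ M → p ∈ E → q ∈ M → q ∈ E →
    ¬ Ll L R o A sg q p → ∀ (O : Type) [LinearOrder O] [Countable O],
    ∃ (X0 : Set U) (r : O → (U ≃[L] U)), (∀ a, Fx L A (r a)) ∧ (∀ x ∉ E, x ∈ X0) ∧
      (∀ S : Set O, IsEl L (X0 ∪ ⋃ a ∈ S, (r a) '' Itv L R o A E sg M p q)) ∧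
      (∀ a, ∀ x ∈ (r a) '' Itv L R o A E sg M p q, x ∉ X0) ∧
      (∀ a a', a < a' → ∀ x ∈ (r a) '' Itv L R o A E sg M p q,
        ∀ y ∈ (r a') '' Itv L R o A E sg M p q, Ll L R o A sg x y) ∧
      (∀ x ∈ X0, x ∈ E → ∀ a, (∀ y ∈ (r a) '' Itv L R o A E sg M p q, Ll L R o A sg x y) ∨
        ∀ y ∈ (r a) '' Itv L R o A E sg M p q, Ll L R o A sg y x) ∧
      (∀ x ∈ X0, x ∈ E → ∀ y ∈ E, ¬ Ll L R o A sg x y → ¬ Ll L R o A sg y x → y ∈ X0) ∧
      (∀ x ∈ E, ∀ y ∈ E, (x ∈ X0 ∨ ∃ a, x ∈ (r a) '' Itv L R o A E sg M p q) →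
        (y ∈ X0 ∨ ∃ a, y ∈ (r a) '' Itv L R o A E sg M p q) → Ll L R o A sg x y →
        (¬ ∃ a, x ∈ (r a) '' Itv L R o A E sg M p q ∧ y ∈ (r a) '' Itv L R o A E sg M p q) →
        ∀ z ∈ E, ∃ g : U ≃[L] U, Fx L A g ∧ g z ∈ X0 ∧ Ll L R o A sg x (g z) ∧
          Ll L R o A sg (g z) y)

/-- [NWL] all labels occur in `U`.
PROOF.  Suppose the cluster of `p` in `M` is not similar (`Sm A`) to a cluster of `U`.  `O`, `S` from CNO, INS
with `q = p`; `P a = r a '' Itv M p p`, `X f = X0 ∪ ⋃ a ∈ S f, P a`.  `A ⊆ X0` (points of `A` are not in `E`).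
`{f | v ∈ X f}` is `univ`, or `{f | a ∈ S f}` for the unique `a` with `v ∈ P a`, or empty.  `NPf`: `f ≠ f'`,
`e : X f ≃ X f'`.  For `x, y ∈ X f`: `e` preserves membership in `E` and `<<` (FAI (3), an automorphism over `A`
for `{x, y}`).  Let `N f` = the `x ∈ X f ∩ E` such that `Itv (X f) x x` is not similar to any `Itv univ z z`,
`z ∈ E`.  Claim `N f = ⋃ a ∈ S f, P a`: for `x ∈ P a` the cluster of `x` in `X f` is `P a` (INS (c2), (c3)), similar to
`Itv M p p`; for `x ∈ X0` it is `Itv univ x x` (INS (d)).  The restriction of `e` shows that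
`Itv (X f) x x` and `Itv (X f') (e x) (e x)` are similar; so `e` maps `N f` onto `N f'`.  Two points of `N f`
are in the same `P a` iff `x ~ y`.  COD: `S f ≃o S f'`, so `f = f'`. -/
def St_NWL : Prop :=
  ∀ (L : FirstOrder.Language.{0, 0}) (U : Type) [L.Structure U] (κ : Type) (R : κ → U → U → Prop)
    (o : κ → κ), Cx L R o → NPf L U → ∀ (A E : Set U) (sg : κ → U → Bool), Ori L R o A E sg →
    ∀ (M : Set U) (p : U), Md L A M → p ∈ M → p ∈ E →
    ∃ z ∈ E, Sm L A (Itv L R o A E sg M p p) (Itv L R o A E sg univ z z)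

/-- [NWI] all labels occur between any two clusters of a model.
PROOF.  Suppose not, for `p << q` in `M` and `z`.  `O`, `S`, INS, `P a`, `X f`, `e` as in NWL.
`bad_f x y`: `x, y ∈ X f ∩ E`, `x << y` and there is no `z' ∈ X f ∩ E` with `x << z' << y` and `Itv (X f) z' z'`
similar to `Itv univ z z`.  Claim: `bad_f x y` iff `x, y ∈ P a` for some `a ∈ S f` and `x << y`.  (←) such a `z'`
would be in `P a` (INS (c2), (c3)), `z' = r a z''`; `p << z'' << q` (ORD (3)), and `Itv (X f) z' z' =
r a '' Itv M z'' z''`: contradiction.  (→) otherwise INS (e) gives `g z ∈ X0` between `x` and `y`, and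
`Itv (X f) (g z) (g z) = g '' Itv univ z z` (INS (d)).  `e` preserves `bad`.  The set of the points which
occur in a bad pair is `⋃ a ∈ S f, P a` (for `x = r a x0`: `p << x0` or `x0 << q`), and two of them are in
the same `P a` iff `bad_f x y` or `bad_f y x` or `x ~ y`.  COD. -/
def St_NWI : Prop :=
  ∀ (L : FirstOrder.Language.{0, 0}) (U : Type) [L.Structure U] (κ : Type) (R : κ → U → U → Prop)
    (o : κ → κ), Cx L R o → NPf L U → ∀ (A E : Set U) (sg : κ → U → Bool), Ori L R o A E sg →
    ∀ (M : Set U) (p q : U), Md L A M → p ∈ M → p ∈ E → q ∈ M → q ∈ E → Ll L R o A sg p q →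
    ∀ z ∈ E, ∃ z' ∈ M, z' ∈ E ∧ Ll L R o A sg p z' ∧ Ll L R o A sg z' q ∧
      Sm L A (Itv L R o A E sg M z' z') (Itv L R o A E sg univ z z)

/-- [CLS] countably many parts of a good piece.
PROOF.  A cluster of `M` is FIRST if no point of `M ∩ E` is `<<` its points, LAST similarly.  DATA of `M`:
`a : Option U`: `some z` if there is a first cluster and it is similar to `Itv univ z z`, `none` if there is
no first cluster; `b` the same for the last cluster; `t` = (there are `p << q` in `M ∩ E`).  Every model has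
data (NWL); countably many; choose one model for each.  Claim: `M`, `M'` with the same data have
`Sm A (M ∩ E) (M' ∩ E)`.  BAF for `P s`: for all pairs in `s`: `x ∈ M ∩ E`, `y ∈ M' ∩ E`; `x << x' ↔ y << y'`; `x` is in
the first (last) cluster iff `y` is; and for every `(x, y) ∈ s` there is a bijection
`e : Itv M x x ≃ Itv M' y y` as in `Sm` with `e x' = y'` for all `(x', y') ∈ s` with `x' ~ x`.
Forth: `x ∈ M ∩ E`.  If `x ~ x1` for some `(x1, y1) ∈ s` take `y = e x`.  Otherwise it is enough to find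
`y' ∈ M' ∩ E` in the right position (relative to the `y1`, and first/last iff `x` is) with
`Itv M x x` similar to `Itv M' y' y'`; then `y = e x`.  Let `Itv M x x` be similar to `Itv univ z z` (NWL).
`x` between consecutive `x1 << x << x2`: NWI for `y1 << y2`.  `x` below all `x1` of `s` (not empty), `x1` lowest:
if `x` is in the first cluster: the first cluster of `M'` (same data), its points are `<< y1` as `x1` is
not in the first cluster; if not: take `f' ∈ M' ∩ E` with `f' << y1` (in the first cluster if it exists), NWI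
for `f' << y1`.  Above: symmetric.  `s` empty: `x` in the first and last cluster: `t` is false, take the first
cluster of `M'`; first but not last: `t` is true, the first cluster of `M'` is not the last; last but not
first: the same; neither: `t` is true, NWI for `p << q` in `M'`.  Back: by symmetry.  The last hypothesis
of BAF: GRP. -/
def St_CLS : Prop :=
  ∀ (L : FirstOrder.Language.{0, 0}) (U : Type) [L.Structure U] (κ : Type) (R : κ → U → U → Prop)
    (o : κ → κ), Cx L R o → ∀ (A E : Set U) (sg : κ → U → Bool), Ori L R o A E sg →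
    (∀ (M : Set U) (p : U), Md L A M → p ∈ M → p ∈ E →
      ∃ z ∈ E, Sm L A (Itv L R o A E sg M p p) (Itv L R o A E sg univ z z)) →
    (∀ (M : Set U) (p q : U), Md L A M → p ∈ M → p ∈ E → q ∈ M → q ∈ E → Ll L R o A sg p q →
      ∀ z ∈ E, ∃ z' ∈ M, z' ∈ E ∧ Ll L R o A sg p z' ∧ Ll L R o A sg z' q ∧
        Sm L A (Itv L R o A E sg M z' z') (Itv L R o A E sg univ z z)) →
    ∃ c : ℕ → Set U, ∀ M : Set U, Md L A M → ∃ n, Md L A (c n) ∧ Sm L A (M ∩ E) (c n ∩ E)

end Pool.Agent.PMC
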