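import Pool.Agent.PMC.StC
import Pool.Agent.PMC.Base

/-!
# PMC, module PLC: placement of a countable family of intervals
-/

set_option autoImplicit false

namespace Pool.Agent.PMC

open FirstOrder.Language Set
open scoped FirstOrder
open Pool.Agent.WOM (Fx)

namespace PLC

/-- step by step construction of a function on a countable set -/
theorem build {D X : Type} [Countable D] (S : Set D → (D → X) → Prop) (g0 : D → X)
    (h0 : S ∅ g0)
    (hs : ∀ F g, F.Finite → S F g → ∀ d ∉ F, ∃ g', (∀ c ∈ F, g' c = g c) ∧ S (insert d F) g')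
    (hc : ∀ F F' g g', F' ⊆ F → (∀ c ∈ F', g' c = g c) → S F g → S F' g') :
    ∃ g, ∀ F : Set D, F.Finite → S F g := by
  classical
  rcases isEmpty_or_nonempty D with hD | hD
  · refine ⟨g0, fun F _ => ?_⟩
    have h1 : F = ∅ := Set.eq_empty_of_isEmpty F
    rw [h1]
    exact h0
  obtain ⟨f, hf⟩ := exists_surjective_nat D
  have step : ∀ (a : {a : Set D × (D → X) // a.1.Finite ∧ S a.1 a.2}) (d : D),
      ∃ a' : {a : Set D × (D → X) // a.1.Finite ∧ S a.1 a.2},
        a'.1.1 = insert d a.1.1 ∧ ∀ c ∈ a.1.1, a'.1.2 c = a.1.2 c := by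
    intro a d
    by_cases h : d ∈ a.1.1
    · exact ⟨a, (Set.insert_eq_of_mem h).symm, fun _ _ => rfl⟩
    · obtain ⟨g', h1, h2⟩ := hs a.1.1 a.1.2 a.2.1 a.2.2 d h
      exact ⟨⟨(insert d a.1.1, g'), a.2.1.insert d, h2⟩, rfl, h1⟩
  choose nx hnx using step
  let sq : ℕ → {a : Set D × (D → X) // a.1.Finite ∧ S a.1 a.2} := fun n =>
    Nat.rec ⟨(∅, g0), Set.finite_empty, h0⟩ (fun m a => nx a (f m)) n
  have hsq : ∀ n, sq (n + 1) = nx (sq n) (f n) := fun n => rfl
  have hF : ∀ n, (sq (n + 1)).1.1 = insert (f n) (sq n).1.1 := by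
    intro n
    rw [hsq]
    exact (hnx _ _).1
  have hg : ∀ n, ∀ c ∈ (sq n).1.1, (sq (n + 1)).1.2 c = (sq n).1.2 c := by
    intro n c hc'
    rw [hsq]
    exact (hnx _ _).2 c hc'
  have hmono : ∀ m n, m ≤ n → (sq m).1.1 ⊆ (sq n).1.1 ∧
      ∀ c ∈ (sq m).1.1, (sq n).1.2 c = (sq m).1.2 c := by
    intro m n hmn
    induction n, hmn using Nat.le_induction with
    | base => exact ⟨subset_rfl, fun _ _ => rfl⟩
    | succ n _ ih =>
      refine ⟨fun c hc' => ?_, fun c hc' => ?_⟩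
      · rw [hF]
        exact Set.mem_insert_of_mem _ (ih.1 hc')
      · rw [hg n c (ih.1 hc'), ih.2 c hc']
  have hmem : ∀ d, ∃ n, d ∈ (sq n).1.1 := by
    intro d
    obtain ⟨n, rfl⟩ := hf d
    exact ⟨n + 1, by rw [hF]; exact Set.mem_insert _ _⟩
  choose N hN using hmem
  refine ⟨fun d => (sq (N d)).1.2 d, fun F hFf => ?_⟩
  obtain ⟨m, hm⟩ : ∃ m, ∀ d ∈ F, N d ≤ m := by
    obtain ⟨m, hm⟩ := (hFf.image N).bddAbove
    exact ⟨m, fun d hd => hm (Set.mem_image_of_mem N hd)⟩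
  refine hc (sq m).1.1 F (sq m).1.2 _ (fun d hd => (hmono _ _ (hm d hd)).1 (hN d)) ?_ (sq m).2.2
  intro c hc'
  exact ((hmono _ _ (hm c hc')).2 c (hN c)).symm

end PLC

/-- **PLC** -/
theorem thm_PLC (h1 : St_ORT) : St_PLC := by
  classical
  intro L U _ κ R o hC A E sg hO D _ _ p q hp hq _
  obtain ⟨-, -, -, h4⟩ := h1 L U κ R o hC A E sg hO
  have hE : ∀ g : U ≃[L] U, Fx L A g → ∀ x, x ∈ E → g x ∈ E := fun g hg x hx =>
    (cls_fx hC hO.fin hO.clo hg x).2 hx
  obtain ⟨g, hg⟩ := PLC.build (D := D) (X := U ≃[L] U)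
    (fun F g => (∀ d ∈ F, Fx L A (g d)) ∧ ∀ d ∈ F, ∀ d' ∈ F, d < d' →
      Ll L R o A sg (g d (q d)) (g d' (p d')))
    (fun _ => FirstOrder.Language.Equiv.refl L U)
    ⟨fun d hd => absurd hd (Set.notMem_empty d), fun d hd => absurd hd (Set.notMem_empty d)⟩
    (by
      rintro F g hF ⟨hg1, hg2⟩ d hd
      obtain ⟨t, ht, ht1, ht2⟩ := h4 ((fun c => g c (q c)) '' {c | c ∈ F ∧ c < d})
        ((fun c => g c (p c)) '' {c | c ∈ F ∧ d < c}) {p d, q d}
        ((hF.subset fun c hc => hc.1).image _) ((hF.subset fun c hc => hc.1).image _)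
        (by simp)
        (by
          rintro _ ⟨c, hc, rfl⟩
          exact hE _ (hg1 c hc.1) _ (hq c))
        (by
          rintro _ ⟨c, hc, rfl⟩
          exact hE _ (hg1 c hc.1) _ (hp c))
        (by
          rintro x (rfl | rfl)
          · exact hp d
          · exact hq d)
        (by
          rintro _ ⟨c, hc, rfl⟩ _ ⟨c', hc', rfl⟩
          exact hg2 c hc.1 c' hc'.1 (hc.2.trans hc'.2))
      have hne : ∀ c ∈ F, c ≠ d := fun c hc h => hd (h ▸ hc)
      refine ⟨Function.update g d t, fun c hc => Function.update_of_ne (hne c hc) _ _, ?_, ?_⟩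
      · rintro c (rfl | hc)
        · rw [Function.update_self]
          exact ht
        · rw [Function.update_of_ne (hne c hc)]
          exact hg1 c hc
      · rintro c (rfl | hc) c' (rfl | hc') hcc
        · exact absurd hcc (lt_irrefl _)
        · rw [Function.update_self, Function.update_of_ne (hne c' hc')]
          exact ht2 _ ⟨q c, by simp, rfl⟩ _ ⟨c', ⟨hc', hcc⟩, rfl⟩
        · rw [Function.update_self, Function.update_of_ne (hne c hc)]
          exact ht1 _ ⟨c, ⟨hc, hcc⟩, rfl⟩ _ ⟨p c', by simp, rfl⟩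
        · rw [Function.update_of_ne (hne c hc), Function.update_of_ne (hne c' hc')]
          exact hg2 c hc c' hc' hcc)
    (by
      rintro F F' g g' hFF hgg ⟨hg1, hg2⟩
      refine ⟨fun d hd => ?_, fun d hd d' hd' hdd => ?_⟩
      · rw [hgg d hd]
        exact hg1 d (hFF hd)
      · rw [hgg d hd, hgg d' hd']
        exact hg2 d (hFF hd) d' (hFF hd') hdd)
  refine ⟨g, fun d => (hg {d} (Set.finite_singleton d)).1 d rfl, fun d d' hdd => ?_⟩
  exact (hg {d, d'} (by simp)).2 d (by simp) d' (by simp) hdd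

end Pool.Agent.PMC
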