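import Pool.Agent.PMC.StA

/-!
PMC: calculus of `Sm` (helper18).
-/

set_option autoImplicit false
set_option linter.unusedVariables false

namespace Pool.Agent.PMC

open FirstOrder.Language Set
open scoped FirstOrder
open Pool.Agent.WOM (tp Mon IsEl IsoM CtU Fx Orb)

namespace SMB

variable {L : FirstOrder.Language.{0, 0}} {U : Type} [L.Structure U] {κ : Type}
  {R : κ → U → U → Prop} {o : κ → κ}

theorem sm_refl (A X : Set U) : Sm L A X X :=
  ⟨Equiv.refl _, fun s _ => ⟨FirstOrder.Language.Equiv.refl L U, fun _ _ => rfl, fun _ _ => rfl⟩⟩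

theorem sm_symm {A X Y : Set U} (h : Sm L A X Y) : Sm L A Y X := by
  obtain ⟨e, he⟩ := h
  refine ⟨e.symm, fun s hs => ?_⟩
  obtain ⟨g, hg, h1⟩ := he (e.symm '' s) (hs.image _)
  refine ⟨g.symm, fun a ha => ?_, fun y hy => ?_⟩
  · calc g.symm a = g.symm (g a) := by rw [hg a ha]
      _ = a := g.symm_apply_apply a
  · have h2 := h1 (e.symm y) (mem_image_of_mem _ hy)
    rw [e.apply_symm_apply] at h2
    calc g.symm (y : U) = g.symm (g (e.symm y : U)) := by rw [h2]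
      _ = (e.symm y : U) := g.symm_apply_apply _

theorem sm_trans {A X Y Z : Set U} (h : Sm L A X Y) (h' : Sm L A Y Z) : Sm L A X Z := by
  obtain ⟨e, he⟩ := h
  obtain ⟨f, hf⟩ := h'
  refine ⟨e.trans f, fun s hs => ?_⟩
  obtain ⟨g, hg, h1⟩ := he s hs
  obtain ⟨k, hk, h2⟩ := hf (e '' s) (hs.image _)
  refine ⟨k.comp g, fun a ha => ?_, fun x hx => ?_⟩
  · change k (g a) = a
    rw [hg a ha, hk a ha]
  · change k (g x) = (f (e x) : U)
    rw [h1 x hx, h2 (e x) (mem_image_of_mem _ hx)]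

theorem sm_inter {A X Y Q : Set U} (hQ : ∀ g : U ≃[L] U, Fx L A g → ∀ x, g x ∈ Q ↔ x ∈ Q)
    (h : Sm L A X Y) : Sm L A (X ∩ Q) (Y ∩ Q) := by
  obtain ⟨e, he⟩ := h
  have hmem : ∀ x : X, ((e x : U) ∈ Q ↔ (x : U) ∈ Q) := by
    intro x
    obtain ⟨g, hg, h1⟩ := he {x} (finite_singleton x)
    rw [← h1 x rfl]
    exact hQ g hg x
  have hmem' : ∀ y : Y, ((e.symm y : U) ∈ Q ↔ (y : U) ∈ Q) := by
    intro y
    rw [← hmem (e.symm y), e.apply_symm_apply]
  let e' : ((X ∩ Q : Set U)) ≃ ((Y ∩ Q : Set U)) :=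
    { toFun := fun x => ⟨e ⟨x, x.2.1⟩, (e ⟨x, x.2.1⟩).2, (hmem ⟨x, x.2.1⟩).2 x.2.2⟩
      invFun := fun y => ⟨e.symm ⟨y, y.2.1⟩, (e.symm ⟨y, y.2.1⟩).2, (hmem' ⟨y, y.2.1⟩).2 y.2.2⟩
      left_inv := fun x => by simp
      right_inv := fun y => by simp }
  refine ⟨e', fun s hs => ?_⟩
  obtain ⟨g, hg, h1⟩ := he ((fun x : (X ∩ Q : Set U) => (⟨x, x.2.1⟩ : X)) '' s) (hs.image _)
  exact ⟨g, hg, fun x hx => h1 ⟨x, x.2.1⟩ (mem_image_of_mem _ hx)⟩

theorem isoM_of_sm {A M M' : Set U} (h : Sm L A M M') : IsoM L M M' := by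
  obtain ⟨e, he⟩ := h
  refine ⟨e, fun n a => ?_⟩
  obtain ⟨g, -, h1⟩ := he (range a) (finite_range a)
  have h2 : (fun i => (e (a i) : U)) = g ∘ fun i => (a i : U) := by
    funext i
    exact (h1 (a i) (mem_range_self i)).symm
  rw [h2]
  ext φ
  exact (StrongHomClass.realize_formula g φ).symm

/-! ### Pieces -/

theorem pc_symm {A : Set U} {y z : U} (h : y ∈ Pc L R o A z) : z ∈ Pc L R o A y :=
  Relation.EqvGen.symm _ _ h

theorem pc_eq' {A : Set U} {y z : U} (h : y ∈ Pc L R o A z) : Pc L R o A y = Pc L R o A z := by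
  ext x
  exact ⟨fun hx => Relation.EqvGen.trans _ _ _ h hx,
    fun hx => Relation.EqvGen.trans _ _ _ (Relation.EqvGen.symm _ _ h) hx⟩

theorem cls_pc' (A : Set U) (z : U) : Cls L R o A (Pc L R o A z) := by
  intro u v huv
  exact ⟨fun hu => Relation.EqvGen.trans _ _ _ hu (Relation.EqvGen.rel _ _ huv),
    fun hv => Relation.EqvGen.trans _ _ _ hv (Relation.EqvGen.symm _ _ (Relation.EqvGen.rel _ _ huv))⟩

theorem exists_rep (A : Set U) : ∃ rep : U → U, (∀ x, x ∈ Pc L R o A (rep x)) ∧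
    ∀ x y, y ∈ Pc L R o A x → rep y = rep x := by
  let S : Setoid U := Relation.EqvGen.setoid (Lk L R o A)
  refine ⟨fun x => (Quotient.mk S x).out, fun x => ?_, fun x y hy => ?_⟩
  · have h := Quotient.mk_out (s := S) x
    exact h
  · have h : (Quotient.mk S y) = Quotient.mk S x := Quotient.sound (s := S) (pc_symm hy)
    change (Quotient.mk S y).out = (Quotient.mk S x).out
    rw [h]

theorem sm_glue (h1 : St_PRF) (hC : Cx L R o) {A M M' : Set U} (hA : A.Finite)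
    (h : ∀ z, Sm L A (M ∩ Pc L R o A z) (M' ∩ Pc L R o A z)) : Sm L A M M' := by
  classical
  obtain ⟨rep, hr1, hr2⟩ := exists_rep (L := L) (R := R) (o := o) A
  have hrr : ∀ x, rep (rep x) = rep x := fun x => (hr2 (rep x) x (hr1 x)).symm
  choose E hE using h
  let F : U → U → U := fun z x =>
    if hx : x ∈ M ∩ Pc L R o A z then (E z ⟨x, hx⟩ : U) else x
  let G : U → U → U := fun z y =>
    if hy : y ∈ M' ∩ Pc L R o A z then ((E z).symm ⟨y, hy⟩ : U) else y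
  have hF : ∀ z x (hx : x ∈ M ∩ Pc L R o A z), F z x = (E z ⟨x, hx⟩ : U) :=
    fun z x hx => dif_pos hx
  have hG : ∀ z y (hy : y ∈ M' ∩ Pc L R o A z), G z y = ((E z).symm ⟨y, hy⟩ : U) :=
    fun z y hy => dif_pos hy
  have hF1 : ∀ z x, x ∈ M ∩ Pc L R o A z → F z x ∈ M' ∩ Pc L R o A z := fun z x hx => by
    rw [hF z x hx]
    exact (E z ⟨x, hx⟩).2
  have hG1 : ∀ z y, y ∈ M' ∩ Pc L R o A z → G z y ∈ M ∩ Pc L R o A z := fun z y hy => by
    rw [hG z y hy]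
    exact ((E z).symm ⟨y, hy⟩).2
  have hGF : ∀ z x, x ∈ M ∩ Pc L R o A z → G z (F z x) = x := fun z x hx => by
    rw [hG z _ (hF1 z x hx)]
    have : (⟨F z x, hF1 z x hx⟩ : (M' ∩ Pc L R o A z : Set U)) = E z ⟨x, hx⟩ :=
      Subtype.ext (hF z x hx)
    rw [this, Equiv.symm_apply_apply]
  have hFG : ∀ z y, y ∈ M' ∩ Pc L R o A z → F z (G z y) = y := fun z y hy => by
    rw [hF z _ (hG1 z y hy)]
    have : (⟨G z y, hG1 z y hy⟩ : (M ∩ Pc L R o A z : Set U)) = (E z).symm ⟨y, hy⟩ :=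
      Subtype.ext (hG z y hy)
    rw [this, Equiv.apply_symm_apply]
  have hrF : ∀ x, x ∈ M → rep (F (rep x) x) = rep x := fun x hx => by
    rw [hr2 (rep x) _ (hF1 (rep x) x ⟨hx, hr1 x⟩).2, hrr]
  have hrG : ∀ y, y ∈ M' → rep (G (rep y) y) = rep y := fun y hy => by
    rw [hr2 (rep y) _ (hG1 (rep y) y ⟨hy, hr1 y⟩).2, hrr]
  let e : M ≃ M' :=
    { toFun := fun x => ⟨F (rep x) x, (hF1 (rep x) x ⟨x.2, hr1 x⟩).1⟩
      invFun := fun y => ⟨G (rep y) y, (hG1 (rep y) y ⟨y.2, hr1 y⟩).1⟩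
      left_inv := fun x => Subtype.ext (by
        change G (rep (F (rep (x : U)) x)) (F (rep (x : U)) x) = x
        rw [hrF x x.2]
        exact hGF _ _ ⟨x.2, hr1 x⟩)
      right_inv := fun y => Subtype.ext (by
        change F (rep (G (rep (y : U)) y)) (G (rep (y : U)) y) = y
        rw [hrG y y.2]
        exact hFG _ _ ⟨y.2, hr1 y⟩) }
  refine ⟨e, fun s hs => ?_⟩
  have hT : ((fun x : M => rep x) '' s).Finite := hs.image _
  obtain ⟨n, t, htinj, ht⟩ := hT.fin_param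
  have htr : ∀ i, rep (t i) = t i := fun i => by
    have hi : t i ∈ (fun x : M => rep x) '' s := ht ▸ mem_range_self i
    obtain ⟨x, -, hx⟩ := hi
    have hx' : rep (x : U) = t i := hx
    rw [← hx', hrr]
  have hdis : ∀ i j, i ≠ j → Disjoint (Pc L R o A (t i)) (Pc L R o A (t j)) := by
    intro i j hij
    rw [Set.disjoint_left]
    intro y hi hj
    apply hij
    apply htinj
    rw [← htr i, ← htr j, ← hr2 _ _ hi, ← hr2 _ _ hj]
  have hg : ∀ i, ∃ g : U ≃[L] U, Fx L A g ∧ ∀ x ∈ s, rep (x : U) = t i →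
      g x = F (t i) x := by
    intro i
    let si : Set (M ∩ Pc L R o A (t i) : Set U) := {x | (⟨x, x.2.1⟩ : M) ∈ s}
    have hsi : si.Finite := by
      refine Set.Finite.preimage (f := fun x : (M ∩ Pc L R o A (t i) : Set U) =>
        (⟨x, x.2.1⟩ : M)) ?_ hs
      intro x _ y _ hxy
      exact Subtype.ext (congrArg (fun z : M => (z : U)) hxy)
    obtain ⟨g, hg1, hg2⟩ := hE (t i) si hsi
    refine ⟨g, hg1, fun x hx hxi => ?_⟩
    have hx2 : (x : U) ∈ M ∩ Pc L R o A (t i) := ⟨x.2, hxi ▸ hr1 x⟩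
    rw [hF _ _ hx2]
    exact hg2 ⟨x, hx2⟩ hx
  choose g hg1 hg2 using hg
  obtain ⟨k, hk1, hk2, -⟩ := h1 L U κ R o hC A hA n (fun i => Pc L R o A (t i))
    (fun i => cls_pc' A (t i)) hdis g hg1
  refine ⟨k, hk1, fun x hx => ?_⟩
  have hxT : rep (x : U) ∈ range t := ht ▸ mem_image_of_mem _ hx
  obtain ⟨i, hi⟩ := hxT
  rw [hk2 i x (hi ▸ hr1 x), hg2 i x hx hi.symm]
  change F (t i) x = F (rep (x : U)) x
  rw [hi]

theorem sm_more (h1 : St_PRD) (hC : Cx L R o) {A B Q X Y : Set U} (hB : B.Finite) (hAB : A ⊆ B)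
    (hQ : Cls L R o A Q) (hd : Disjoint Q B) (hX : X ⊆ Q) (h : Sm L A X Y) : Sm L B X Y := by
  obtain ⟨e, he⟩ := h
  refine ⟨e, fun s hs => ?_⟩
  obtain ⟨g, hg, hg2⟩ := he s hs
  obtain ⟨k, hk, hk1, hk2⟩ := h1 L U κ R o hC A Q (hB.subset hAB) hQ g hg
  refine ⟨k, fun b hb => hk2 b fun hbQ => Set.disjoint_left.1 hd hbQ hb, fun x hx => ?_⟩
  rw [hk1 x (hX x.2), hg2 x hx]

end SMB

theorem thm_SMB (h1 : St_PRD) (h2 : St_PRF) : St_SMB := by
  intro L U _ κ R o hC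
  exact ⟨fun A X => SMB.sm_refl A X, fun A X Y h => SMB.sm_symm h,
    fun A X Y Z h h' => SMB.sm_trans h h', fun A X Y Q hQ h => SMB.sm_inter hQ h,
    fun A M M' hA h => SMB.sm_glue h2 hC hA h, fun A M M' h => SMB.isoM_of_sm h,
    fun A B Q X Y hB hAB hQ hd hX _ h => SMB.sm_more h1 hC hB hAB hQ hd hX h⟩

end Pool.Agent.PMC
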