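import Pool.Agent.PMC.StC

/-!
PMC: [CNO] perfectly many countable linear orders, as subsets of one countable order.

`O = ℕ ×ₗ ℤ`; `S f` contains all `(m, z)` with `m` even and the `(m, z)` with `m = 2 n + 1` odd and
`0 ≤ z < m + (f n).toNat`.  The finite classes of the relation `there are only finitely many points
between x and y` have the sizes `2 n + 1 + (f n).toNat`.
-/

set_option autoImplicit false

namespace Pool.Agent.PMC

open Set

/-- the class of `x` -/
private def CNO_C (α : Type) [LinearOrder α] (x : α) : Set α :=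
  {y | (Icc x y).Finite ∧ (Icc y x).Finite}

private theorem CNO_iso {α β : Type} [LinearOrder α] [LinearOrder β] (φ : α ≃o β) (x : α) :
    (CNO_C β (φ x)).ncard = (CNO_C α x).ncard := by
  have h : CNO_C β (φ x) = φ '' CNO_C α x := by
    ext y
    constructor
    · rintro ⟨h1, h2⟩
      refine ⟨φ.symm y, ⟨?_, ?_⟩, φ.apply_symm_apply y⟩
      · have h3 := h1.image φ.symm
        rw [φ.symm.image_Icc, φ.symm_apply_apply] at h3
        exact h3
      · have h3 := h2.image φ.symm
        rw [φ.symm.image_Icc, φ.symm_apply_apply] at h3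
        exact h3
    · rintro ⟨y, ⟨h1, h2⟩, rfl⟩
      refine ⟨?_, ?_⟩
      · have h3 := h1.image φ
        rwa [φ.image_Icc] at h3
      · have h3 := h2.image φ
        rwa [φ.image_Icc] at h3
  rw [h, ncard_image_of_injective _ φ.injective]

private abbrev CNO_O : Type := ℕ ×ₗ ℤ

private def CNO_S (f : ℕ → Bool) : Set CNO_O :=
  {p | (ofLex p).1 % 2 = 0 ∨
    (0 ≤ (ofLex p).2 ∧ (ofLex p).2 < ((ofLex p).1 + (f ((ofLex p).1 / 2)).toNat : ℕ))}

private theorem CNO_le (p q : CNO_O) : p ≤ q ↔ (ofLex p).1 < (ofLex q).1 ∨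
    (ofLex p).1 = (ofLex q).1 ∧ (ofLex p).2 ≤ (ofLex q).2 := Prod.Lex.le_iff

/-- between points with different first coordinates there are infinitely many points -/
private theorem CNO_inf (f : ℕ → Bool) (x y : CNO_S f)
    (h : (ofLex x.1).1 < (ofLex y.1).1) : ¬ (Icc x y).Finite := by
  intro hfin
  by_cases hm : (ofLex x.1).1 % 2 = 0
  · let g : ℕ → CNO_S f := fun k => ⟨toLex ((ofLex x.1).1, (ofLex x.1).2 + k), Or.inl hm⟩
    have hg : Function.Injective g := by
      intro a b hab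
      have h1 := congrArg (fun p : CNO_S f => (ofLex p.1).2) hab
      simp only [g, ofLex_toLex] at h1
      omega
    refine Set.infinite_range_of_injective hg (hfin.subset ?_)
    rintro _ ⟨k, rfl⟩
    refine ⟨?_, ?_⟩
    · show x.1 ≤ toLex ((ofLex x.1).1, (ofLex x.1).2 + k)
      rw [CNO_le]
      refine Or.inr ⟨rfl, ?_⟩
      rw [ofLex_toLex]
      show (ofLex x.1).2 ≤ (ofLex x.1).2 + k
      omega
    · show toLex ((ofLex x.1).1, (ofLex x.1).2 + k) ≤ y.1
      rw [CNO_le]
      exact Or.inl h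
  · let g : ℕ → CNO_S f := fun k =>
      ⟨toLex ((ofLex x.1).1 + 1, (ofLex y.1).2 - k), Or.inl (by rw [ofLex_toLex]; omega)⟩
    have hg : Function.Injective g := by
      intro a b hab
      have h1 := congrArg (fun p : CNO_S f => (ofLex p.1).2) hab
      simp only [g, ofLex_toLex] at h1
      omega
    refine Set.infinite_range_of_injective hg (hfin.subset ?_)
    rintro _ ⟨k, rfl⟩
    refine ⟨?_, ?_⟩
    · show x.1 ≤ toLex ((ofLex x.1).1 + 1, (ofLex y.1).2 - k)
      rw [CNO_le]
      exact Or.inl (Nat.lt_succ_self _)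
    · show toLex ((ofLex x.1).1 + 1, (ofLex y.1).2 - k) ≤ y.1
      rw [CNO_le, ofLex_toLex]
      rcases Nat.lt_or_ge ((ofLex x.1).1 + 1) (ofLex y.1).1 with h1 | h1
      · exact Or.inl h1
      · refine Or.inr ⟨?_, ?_⟩
        · show (ofLex x.1).1 + 1 = (ofLex y.1).1
          omega
        · show (ofLex y.1).2 - k ≤ (ofLex y.1).2
          omega

/-- between points with the same first coordinate there are finitely many points -/
private theorem CNO_fin (f : ℕ → Bool) (x y : CNO_S f)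
    (h : (ofLex x.1).1 = (ofLex y.1).1) : (Icc x y).Finite := by
  have h1 : ((fun z : ℤ => (toLex ((ofLex x.1).1, z) : CNO_O)) ''
      (Icc (ofLex x.1).2 (ofLex y.1).2)).Finite := (finite_Icc _ _).image _
  refine Set.Finite.of_finite_image (f := fun p : CNO_S f => p.1) (h1.subset ?_)
    Subtype.val_injective.injOn
  rintro _ ⟨z, ⟨hz1, hz2⟩, rfl⟩
  have h2 : x.1 ≤ z.1 := hz1
  have h3 : z.1 ≤ y.1 := hz2
  rw [CNO_le] at h2 h3
  have h4 : (ofLex x.1).1 = (ofLex z.1).1 := by omega
  refine ⟨(ofLex z.1).2, ⟨?_, ?_⟩, ?_⟩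
  · omega
  · omega
  · show toLex ((ofLex x.1).1, (ofLex z.1).2) = z.1
    rw [h4]
    rfl

private theorem CNO_cls (f : ℕ → Bool) (x : CNO_S f) :
    CNO_C (CNO_S f) x = {y | (ofLex y.1).1 = (ofLex x.1).1} := by
  ext y
  constructor
  · rintro ⟨h1, h2⟩
    rcases lt_trichotomy (ofLex y.1).1 (ofLex x.1).1 with h | h | h
    · exact absurd h2 (CNO_inf f y x h)
    · exact h
    · exact absurd h1 (CNO_inf f x y h)
  · intro h
    exact ⟨CNO_fin f x y h.symm, CNO_fin f y x h⟩

private theorem CNO_even (f : ℕ → Bool) (x : CNO_S f) (h : (ofLex x.1).1 % 2 = 0) :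
    (CNO_C (CNO_S f) x).ncard = 0 := by
  refine Set.Infinite.ncard ?_
  rw [CNO_cls]
  let g : ℕ → CNO_S f := fun k => ⟨toLex ((ofLex x.1).1, (k : ℤ)), Or.inl h⟩
  have hg : Function.Injective g := by
    intro a b hab
    have h1 := congrArg (fun p : CNO_S f => (ofLex p.1).2) hab
    simp only [g, ofLex_toLex] at h1
    omega
  refine (Set.infinite_range_of_injective hg).mono ?_
  rintro _ ⟨k, rfl⟩
  rfl

private theorem CNO_odd (f : ℕ → Bool) (x : CNO_S f) (h : (ofLex x.1).1 % 2 = 1) :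
    (CNO_C (CNO_S f) x).ncard = (ofLex x.1).1 + (f ((ofLex x.1).1 / 2)).toNat := by
  rw [CNO_cls]
  set a : ℕ := (ofLex x.1).1 + (f ((ofLex x.1).1 / 2)).toNat with ha
  let g : Fin a → CNO_S f := fun k => ⟨toLex ((ofLex x.1).1, (k.1 : ℤ)), Or.inr (by
    rw [ofLex_toLex]
    refine ⟨?_, ?_⟩
    · show (0 : ℤ) ≤ (k.1 : ℤ)
      omega
    · show (k.1 : ℤ) < (((ofLex x.1).1 + (f ((ofLex x.1).1 / 2)).toNat : ℕ) : ℤ)
      rw [← ha]
      exact_mod_cast k.2)⟩
  have hg : Function.Injective g := by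
    intro b c hbc
    have h1 := congrArg (fun p : CNO_S f => (ofLex p.1).2) hbc
    simp only [g, ofLex_toLex] at h1
    exact Fin.ext (by exact_mod_cast h1)
  have h1 : {y : CNO_S f | (ofLex y.1).1 = (ofLex x.1).1} = range g := by
    ext y
    constructor
    · intro hy
      have hy' : (ofLex y.1).1 = (ofLex x.1).1 := hy
      rcases y.2 with h2 | ⟨h2, h3⟩
      · rw [hy'] at h2
        omega
      · rw [hy', ← ha] at h3
        refine ⟨⟨(ofLex y.1).2.toNat, by omega⟩, ?_⟩
        refine Subtype.ext ?_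
        show toLex ((ofLex x.1).1, (((ofLex y.1).2.toNat : ℕ) : ℤ)) = y.1
        rw [Int.toNat_of_nonneg h2, ← hy']
        rfl
    · rintro ⟨k, rfl⟩
      rfl
  rw [h1, ← image_univ, ncard_image_of_injective _ hg, ncard_univ, Nat.card_eq_fintype_card,
    Fintype.card_fin]

private theorem CNO_dec (f f' : ℕ → Bool) (φ : CNO_S f ≃o CNO_S f') (n : ℕ) (h : f n = true) :
    f' n = true := by
  have h0 : (toLex (2 * n + 1, (0 : ℤ)) : CNO_O) ∈ CNO_S f := by
    refine Or.inr ?_
    rw [ofLex_toLex]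
    refine ⟨le_refl _, ?_⟩
    show (0 : ℤ) < ((2 * n + 1 + (f ((2 * n + 1) / 2)).toNat : ℕ) : ℤ)
    have : 0 < 2 * n + 1 + (f ((2 * n + 1) / 2)).toNat := by omega
    exact_mod_cast this
  let x : CNO_S f := ⟨_, h0⟩
  have h1 := CNO_odd f x (by show (2 * n + 1) % 2 = 1; omega)
  have h2 : (ofLex x.1).1 + (f ((ofLex x.1).1 / 2)).toNat = 2 * n + 2 := by
    show 2 * n + 1 + (f ((2 * n + 1) / 2)).toNat = 2 * n + 2
    have : (2 * n + 1) / 2 = n := by omega
    rw [this, h]
    rfl
  rw [h2, ← CNO_iso φ x] at h1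
  rcases Nat.mod_two_eq_zero_or_one (ofLex (φ x).1).1 with h3 | h3
  · rw [CNO_even f' _ h3] at h1
    omega
  · rw [CNO_odd f' _ h3] at h1
    cases hf : f' ((ofLex (φ x).1).1 / 2) with
    | false =>
      rw [hf] at h1
      simp only [Bool.toNat_false] at h1
      omega
    | true =>
      rw [hf] at h1
      simp only [Bool.toNat_true] at h1
      have h4 : (ofLex (φ x).1).1 / 2 = n := by omega
      rw [← h4]
      exact hf

/-- [CNO] -/
theorem thm_CNO : St_CNO := by
  refine ⟨CNO_O, inferInstance, ?_, CNO_S, fun x => ?_, fun f f' h => ?_⟩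
  · exact inferInstanceAs (Countable (ℕ × ℤ))
  · have h1 : {f : ℕ → Bool | x ∈ CNO_S f} = (fun f : ℕ → Bool => f ((ofLex x).1 / 2)) ⁻¹'
        {b | (ofLex x).1 % 2 = 0 ∨ (0 ≤ (ofLex x).2 ∧
          (ofLex x).2 < ((ofLex x).1 + b.toNat : ℕ))} := rfl
    rw [h1]
    exact (isClopen_discrete _).preimage (continuous_apply _)
  · obtain ⟨φ⟩ := h
    funext n
    rcases hn : f n with _ | _
    · rcases hn' : f' n with _ | _
      · rfl
      · rw [CNO_dec f' f φ.symm n hn'] at hn
        exact absurd hn (by decide)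
    · exact (CNO_dec f f' φ n hn).symm

end Pool.Agent.PMC
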