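import Pool.Agent.PMC.StC

/-!
PMC: [COD] decoding of an order from blocks.
-/

set_option autoImplicit false

namespace Pool.Agent.PMC

open Set

section
variable {U O : Type} [LinearOrder O] {lt : U → U → Prop} {P : O → Set U}

/-- the block of a point is unique -/
private theorem COD_uni (hirr : ∀ x, ¬ lt x x) (hlt : ∀ a b, a < b → ∀ x ∈ P a, ∀ y ∈ P b, lt x y)
    {x : U} {a b : O} (ha : x ∈ P a) (hb : x ∈ P b) : a = b := by
  rcases lt_trichotomy a b with h | h | h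
  · exact absurd (hlt a b h x ha x hb) (hirr x)
  · exact h
  · exact absurd (hlt b a h x hb x ha) (hirr x)

end

/-- [COD] -/
theorem thm_COD : St_COD := by
  classical
  intro U O _ lt P S S' φ hne hirr hasym hlt hsame hord
  -- points in blocks
  choose p hp using hne
  let ι : ∀ S : Set O, S → {x : U // ∃ a ∈ S, x ∈ P a} := fun S a => ⟨p a.1, a.1, a.2, hp a.1⟩
  have hS : ∀ x : {x : U // ∃ a ∈ S', x ∈ P a}, ∃ a : S', (x : U) ∈ P a := by
    rintro ⟨x, a, ha, hx⟩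
    exact ⟨⟨a, ha⟩, hx⟩
  have hS2 : ∀ x : {x : U // ∃ a ∈ S, x ∈ P a}, ∃ a : S, (x : U) ∈ P a := by
    rintro ⟨x, a, ha, hx⟩
    exact ⟨⟨a, ha⟩, hx⟩
  choose τ hτ using hS
  choose σ hσ using hS2
  -- membership in blocks is transported
  have key : ∀ (a : S) (x : {x : U // ∃ a ∈ S, x ∈ P a}), (x : U) ∈ P a →
      ((φ x : {x : U // ∃ a ∈ S', x ∈ P a}) : U) ∈ P (τ (φ (ι S a))) := by
    intro a x hx
    obtain ⟨c, hc, h1, h2⟩ := (hsame x (ι S a)).1 ⟨a.1, a.2, hx, hp a.1⟩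
    have h3 : c = (τ (φ (ι S a))).1 := COD_uni hirr hlt h2 (hτ _)
    rw [← h3]
    exact h1
  have key' : ∀ (c : S') (y : {x : U // ∃ a ∈ S', x ∈ P a}), (y : U) ∈ P c →
      ((φ.symm y : {x : U // ∃ a ∈ S, x ∈ P a}) : U) ∈ P (σ (φ.symm (ι S' c))) := by
    intro c y hy
    obtain ⟨a, ha, h1, h2⟩ := (hsame (φ.symm y) (φ.symm (ι S' c))).2
      ⟨c.1, c.2, by rw [φ.apply_symm_apply]; exact hy, by rw [φ.apply_symm_apply]; exact hp c.1⟩
    have h3 : a = (σ (φ.symm (ι S' c))).1 := COD_uni hirr hlt h2 (hσ _)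
    rw [← h3]
    exact h1
  let F : S → S' := fun a => τ (φ (ι S a))
  let G : S' → S := fun c => σ (φ.symm (ι S' c))
  have hGF : ∀ a, G (F a) = a := by
    intro a
    -- the point `φ (ι S a)` is in the block `F a`
    have h1 := key' (F a) (φ (ι S a)) (hτ _)
    rw [φ.symm_apply_apply] at h1
    exact Subtype.ext (COD_uni hirr hlt h1 (hp a.1))
  have hFG : ∀ c, F (G c) = c := by
    intro c
    have h1 := key (G c) (φ.symm (ι S' c)) (hσ _)
    rw [φ.apply_symm_apply] at h1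
    exact Subtype.ext (COD_uni hirr hlt h1 (hp c.1))
  have hmono : ∀ a b : S, a < b → F a < F b := by
    intro a b hab
    have h1 : ¬ ∃ c ∈ S, ((ι S a : {x : U // ∃ a ∈ S, x ∈ P a}) : U) ∈ P c ∧
        ((ι S b : {x : U // ∃ a ∈ S, x ∈ P a}) : U) ∈ P c := by
      rintro ⟨c, -, h2, h3⟩
      have h4 := COD_uni hirr hlt h2 (hp a.1)
      have h5 := COD_uni hirr hlt h3 (hp b.1)
      have h6 : a.1 = b.1 := h4.symm.trans h5
      exact absurd (Subtype.ext h6) (ne_of_lt hab)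
    have h2 := (hord _ _ h1).1 (hlt a.1 b.1 hab _ (hp a.1) _ (hp b.1))
    rcases lt_trichotomy (F a) (F b) with h3 | h3 | h3
    · exact h3
    · have h4 : a = b := by
        rw [← hGF a, ← hGF b, h3]
      exact absurd h4 (ne_of_lt hab)
    · exact absurd h2 (hasym _ _ (hlt _ _ h3 _ (hτ _) _ (hτ _)))
  refine ⟨⟨⟨F, G, hGF, hFG⟩, ?_⟩⟩
  intro a b
  show F a ≤ F b ↔ a ≤ b
  constructor
  · intro h
    rcases lt_or_ge b a with h1 | h1
    · exact absurd (hmono b a h1) (not_lt.2 h)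
    · exact h1
  · intro h
    rcases h.lt_or_eq with h1 | h1
    · exact (hmono a b h1).le
    · rw [h1]

end Pool.Agent.PMC
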