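import Pool.Agent.PMC.StD
import Pool.Agent.UNE.DEC
import Pool.Agent.WOM.TRP
import Pool.Agent.WOM.PULL
import Pool.Agent.WOM.DEF1
import Pool.Agent.WOM.DEFF
import Pool.Agent.Helper6.StructFO

/-!
PMC, module NPU: if there are not perfectly many models then there are no families in `U`.
-/

set_option autoImplicit false
set_option linter.unusedVariables false

namespace Pool.Agent.PMC

open FirstOrder.Language Set
open scoped FirstOrder
open Pool.Agent.WOM (tp Mon IsEl Fx ThS PerfT)
open Pool.Agent.Helper6.Str (PerfK Code toStr measurableSet_model)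
open Pool.Agent.Helper79.VC (pl Scat scat_of_not_perf)

/-- the types in the structure on `ℕ` pulled back from an enumerated elementary submodel -/
private theorem NPU_tp (L : FirstOrder.Language.{0, 0}) [∀ n, IsEmpty (L.Functions n)] (U : Type)
    [L.Structure U] (u : ℕ → U) (hu : Function.Injective u) (hel : IsEl L (range u)) (n : ℕ)
    (a : Fin n → ℕ) : @tp L ℕ (pl (inferInstance : L.Structure U) u) n a = tp (L := L) (u ∘ a) := by
  obtain ⟨S, hS⟩ := Pool.Agent.WOM.thm_PULL (Pool.Agent.WOM.thm_DEF1 Pool.Agent.WOM.thm_DEFF)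
    L U u hu hel
  have h1 : S = pl (inferInstance : L.Structure U) u := by
    apply FirstOrder.Language.Structure.ext
    · funext n f
      exact isEmptyElim f
    · funext n R v
      apply propext
      have h2 := Pool.Agent.WOM.TRP_mem S u hS n
        (R.formula (fun i : Fin n => (var i : L.Term (Fin n)))) v
      have h3 : @FirstOrder.Language.Formula.Realize L ℕ S (Fin n)
          (R.formula (fun i : Fin n => (var i : L.Term (Fin n)))) v ↔
          @FirstOrder.Language.Structure.RelMap L ℕ S n R v := by
        let _ : L.Structure ℕ := S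
        exact FirstOrder.Language.Formula.realize_rel (L := L) (M := ℕ) (R := R)
          (ts := fun i : Fin n => (var i : L.Term (Fin n))) (v := v)
      rw [← h3, h2, FirstOrder.Language.Formula.realize_rel]
      rfl
  rw [← h1]
  exact hS n a

/-- finite subsets of the set of parameters are definable -/
private theorem NPU_fin (L : FirstOrder.Language.{0, 0}) (U : Type) [L.Structure U] (A s : Set U)
    (hs : s.Finite) (hsA : s ⊆ A) : A.Definable₁ L s := by
  induction s, hs using Set.Finite.induction_on with
  | empty => exact Set.definable_empty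
  | @insert a s _ _ ih =>
    have h1 : (range ![a]).Definable₁ L ({a} : Set U) := by
      rw [((Pool.Agent.WOM.thm_DEF1 Pool.Agent.WOM.thm_DEFF) L U 1 ![a]).1 {a}]
      refine ⟨Term.equal (Term.var (Fin.last 1)) (Term.var (Fin.castSucc 0)), ?_⟩
      ext x
      rw [mem_singleton_iff]
      show x = a ↔ Formula.Realize _ _
      rw [Formula.realize_equal, Term.realize_var, Term.realize_var, Fin.snoc_last,
        Fin.snoc_castSucc]
      rfl
    have h2 : A.Definable₁ L ({a} : Set U) := by
      refine Set.Definable.mono h1 ?_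
      rintro _ ⟨i, rfl⟩
      fin_cases i
      exact hsA (mem_insert _ _)
    exact Set.Definable.union h2 (ih ((subset_insert _ _).trans hsA))

theorem thm_NPU : St_NPU := by
  intro L hL hF U _ hM S hU hP A X hA hX hXc
  have hFn : ∀ n, IsEmpty (L.Functions n) := hF
  set K : Set (L.Structure ℕ) := {S' | @FirstOrder.Language.Theory.Model L ℕ S' (ThS L S)} with hKd
  have hKm : MeasurableSet {c : Code L | toStr c ∈ K} := measurableSet_model hL (ThS L S)
  have hcr : ∀ n, Countable (L.Relations n) := Pool.Agent.Helper6.Str.countable_relations hL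
  have hPK : ¬ PerfK K := by
    rintro ⟨f, h1, h2, h3⟩
    refine hP ⟨f, h1, fun x y hxy => ?_, h3, fun n F => isEmptyElim F⟩
    exact h2 x y ((Pool.Agent.Helper6.Str.nonempty_equiv_iff (f x) (f y)).mp hxy)
  have hK : Scat K := scat_of_not_perf hKm hPK
  have := hM.ctb
  have := hM.inf
  have hinf : ∀ f, (X f).Infinite := by
    intro f hfin
    have h1 : (X f).Definable₁ L (X f)ᶜ := (NPU_fin L U (X f) (X f) hfin subset_rfl).compl
    obtain ⟨x, hx⟩ := hfin.infinite_compl.nonempty
    obtain ⟨y, hy, hy'⟩ := (hX f).1 _ h1 ⟨x, hx⟩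
    exact hy hy'
  have htp := fun (f : ℕ → Bool) (e : ℕ → U) (he : Function.Injective e) (hr : range e = X f) =>
    NPU_tp L U e he (by rw [hr]; exact (hX f).1)
  obtain ⟨f, f', hne, g, hg1, hg2⟩ := UNE.dec2 (S := (inferInstance : L.Structure U)) hK hXc hinf hA
    (fun f => (hX f).2) (fun f e he hr => by
      show @FirstOrder.Language.Theory.Model L ℕ (pl _ e) (ThS L S)
      rw [@FirstOrder.Language.Theory.model_iff L ℕ (pl _ e)]
      intro φ hφ
      rw [FirstOrder.Language.Theory.model_iff] at hU
      exact (Pool.Agent.WOM.TRP_sent (pl _ e) e (htp f e he hr) φ).2 (hU φ hφ))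
  refine ⟨f, f', hne, g, fun s hs => ?_⟩
  -- enumerate the first set
  have hXf := (hinf f).to_subtype
  obtain ⟨e⟩ := nonempty_equiv_of_countable (α := ℕ) (β := X f)
  have h1 : Function.Injective fun n => (e n : U) := fun a b hab => e.injective (Subtype.ext hab)
  have h2 : range (fun n => (e n : U)) = X f := by
    ext x
    constructor
    · rintro ⟨n, rfl⟩
      exact (e n).2
    · intro hx
      exact ⟨e.symm ⟨x, hx⟩, by simp⟩
  have h3 : Function.Injective fun n => (g (e n) : U) := fun a b hab =>
    e.injective (g.injective (Subtype.ext hab))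
  have h4 : range (fun n => (g (e n) : U)) = X f' := by
    ext x
    constructor
    · rintro ⟨n, rfl⟩
      exact (g (e n)).2
    · intro hx
      exact ⟨e.symm (g.symm ⟨x, hx⟩), by simp⟩
  have h5 : pl (inferInstance : L.Structure U) (fun n => (e n : U)) =
      pl (inferInstance : L.Structure U) (fun n => (g (e n) : U)) := by
    apply FirstOrder.Language.Structure.ext
    · funext n f
      exact isEmptyElim f
    · funext n R v
      exact propext (hg2 n R fun i => e (v i))
  have h6 : ∀ (n : ℕ) (a : Fin n → ℕ), tp (L := L) ((fun n => (e n : U)) ∘ a) =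
      tp (L := L) ((fun n => (g (e n) : U)) ∘ a) := by
    intro n a
    rw [← htp f _ h1 h2, ← htp f' _ h3 h4, h5]
  -- the tuple
  have hfin : ((Subtype.val '' s) ∪ A).Finite := (hs.image _).union hA
  obtain ⟨n, c, hc⟩ := hfin.fin_embedding
  have hcX : ∀ i, c i ∈ X f := by
    intro i
    have h7 : c i ∈ (Subtype.val '' s) ∪ A := by rw [← hc]; exact mem_range_self i
    rcases h7 with ⟨x, _, hx⟩ | h7
    · rw [← hx]; exact x.2
    · exact (hX f).2 h7
  have h7 := h6 n fun i => e.symm ⟨c i, hcX i⟩
  obtain ⟨h, hh⟩ := hM.hom n _ _ h7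
  have hh' : ∀ (x : X f), (x : U) ∈ (Subtype.val '' s) ∪ A → h x = g x := by
    intro x hx
    rw [← hc] at hx
    obtain ⟨i, hi⟩ := hx
    have h8 := hh i
    simp only [Function.comp_apply, Equiv.apply_symm_apply] at h8
    have h9 : (⟨c i, hcX i⟩ : X f) = x := Subtype.ext hi
    rw [h9] at h8
    rw [← hi]
    exact h8
  refine ⟨h, fun a ha => ?_, fun x hx => hh' x (Or.inl ⟨x, hx, rfl⟩)⟩
  have h8 := hh' ⟨a, (hX f).2 ha⟩ (Or.inr ha)
  rw [hg1 ⟨a, (hX f).2 ha⟩ ha] at h8
  exact h8

end Pool.Agent.PMC
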