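import Pool.Agent.PMC.StE
import Pool.Agent.VB.A

/-!
PMC [MPK] (helper33): measurable families of pairwise nonisomorphic structures.
-/

set_option autoImplicit false

namespace Pool.Agent.PMC

open FirstOrder.Language Set
open scoped FirstOrder
open Pool.Agent.Helper6.Str (PerfK CtblK Iso Code toStr)

/-- [MPK] -/
theorem thm_MPK : St_MPK := by
  intro L hL K G hG hK hinj
  have : ∀ n, IsEmpty (L.Functions n) := hL.fn
  have : ∀ n, Countable (L.Relations n) := hL.ct
  have hGi : Function.Injective G := by
    intro x y h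
    refine hinj x y ?_
    rw [h]
    exact Pool.Agent.Helper6.Str.Iso.refl _
  have hme : MeasurableEmbedding G := hG.measurableEmbedding hGi
  obtain ⟨Z, hZ, hZG⟩ := hme.exists_measurable_extend (g := (id : (ℕ → Bool) → (ℕ → Bool)))
    measurable_id fun _ => ⟨fun _ => true⟩
  refine Pool.Agent.Helper6.Str.perfK_of_reals (J := Unit) (B := fun _ => range G)
    (Z := fun _ => Z) (fun _ => hme.measurableSet_range) ?_ (fun _ => hZ) ?_ ?_
  · rintro _ _ ⟨x, rfl⟩
    exact hK x
  · rintro _ _ _ ⟨x, rfl⟩ _ ⟨y, rfl⟩ h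
    refine ⟨(), ?_⟩
    rw [hinj x y h]
  · intro h
    have h1 : (⋃ _ : Unit, Z '' range G) = univ := by
      rw [iUnion_const, ← range_comp, hZG, range_id]
    rw [h1] at h
    rw [countable_univ_iff] at h
    obtain ⟨f, hf⟩ := exists_surjective_nat (ℕ → Bool)
    refine Function.cantor_surjective (fun n => {m | f n m = true}) fun s => ?_
    classical
    obtain ⟨n, hn⟩ := hf fun m => decide (m ∈ s)
    refine ⟨n, ?_⟩
    ext m
    rw [mem_ofPred_eq, hn, decide_eq_true_iff]

end Pool.Agent.PMC
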