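import Pool.Agent.PMC.StD
import Pool.Agent.VPF.Defs

/-!
PMC: statements of the fifth part (helper58), with proofs in the docstrings: two linear orders with unary
predicates; theories whose structures omit a permutation; coding of an arbitrary theory by two linear
orders with unary predicates.
-/

set_option autoImplicit false
set_option linter.unusedVariables false

namespace Pool.Agent.PMC

open FirstOrder.Language Set
open scoped FirstOrder
open Pool.Agent.WOM (CtT PerfT)
open Pool.Agent.Helper6.Str (PerfK CtblK Iso Code toStr)
open VPF (ModF)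

/-- two binary relation symbols, unary relation symbols indexed by `ι` -/
inductive Sy (ι : Type) : ℕ → Type
  | un (i : ι) : Sy ι 1
  | lt (b : Bool) : Sy ι 2

/-- the language of two orders and unary predicates -/
def LP (ι : Type) : FirstOrder.Language.{0, 0} := ⟨fun _ => Empty, Sy ι⟩

section orders

variable {ι M : Type} (S : (LP ι).Structure M)

/-- the two orders -/
def ls (b : Bool) (x y : M) : Prop := S.RelMap (n := 2) (Sy.lt b : Sy ι 2) ![x, y]

/-- the unary predicates -/
def us (i : ι) (x : M) : Prop := S.RelMap (n := 1) (Sy.un i : Sy ι 1) ![x]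

/-- both relations are strict linear orders -/
def Two : Prop := ∀ b, (∀ x, ¬ ls S b x x) ∧ (∀ x y z, ls S b x y → ls S b y z → ls S b x z) ∧
  ∀ x y, x ≠ y → ls S b x y ∨ ls S b y x

/-- `π` is the pattern of a finite subset -/
def HasPat {n : ℕ} (π : Equiv.Perm (Fin n)) : Prop :=
  ∃ x : Fin n → M, ∀ i j, (i < j → ls S true (x i) (x j)) ∧ (π i < π j → ls S false (x i) (x j))

end orders

/-- [PAT] theories of two linear orders with unary predicates, whose structures omit a permutation.
PROOF.  `MAIN` with `φ j` = the order `ls S true` for even `j`, `ls S false` for odd `j`, `o = id`.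
`grd`, `i` and `j` of the same parity: no grid of size `2` (`x 0 1 < x 1 0` by the first condition; `z` with
`z < x 1 0`... precisely `a = 1, a' = 0, b = 0, b' = 1`: a `z` with `z < x 0 1` and not `z < x 1 0`, so `x 1 0 ≤ z < x 0 1`:
contradiction).  Different parity: no grid of size `n`: take the points `x i (π i)` (`Fin n`) and `π`, or `π⁻¹`
(points `x (π i) i`, `j` even, `i` odd), so `π` would be a pattern; `b < b'` gives `x a b < x a' b'` in the order of
`j` as before.  `det`: `g` preserves the two orders and the formulas `un i (x)`. -/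
def St_PAT : Prop :=
  St_MAIN → ∀ (ι : Type), Countable ι → ∀ (T : (LP ι).Theory) (n : ℕ) (π : Equiv.Perm (Fin n)),
    (∀ S : (LP ι).Structure ℕ, @FirstOrder.Language.Theory.Model (LP ι) ℕ S T →
      Two S ∧ ¬ HasPat S π) → CtT (LP ι) T ∨ PerfT (LP ι) T

/-! ### Coding -/

/-- the unary predicates of the code of a structure with unary and binary relations -/
inductive Ix (L : FirstOrder.Language.{0, 0}) : Type
  | D : Ix L
  | E : Ix L
  | u (R : L.Relations 1) : Ix L
  | r (R : L.Relations 2) : Ix L

section code

variable {L : FirstOrder.Language.{0, 0}} {M : Type} (S : (LP (Ix L)).Structure M)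

/-- `x` is the last main point below `z` (`z` is not a main point) -/
def abv (b : Bool) (x z : M) : Prop :=
  us S .D x ∧ ¬ us S .D z ∧ ls S b x z ∧ ∀ w, us S .D w → ls S b x w → ls S b z w

/-- `z` is the point of the pair `(x, y)` -/
def ovr (x y z : M) : Prop := abv S true x z ∧ abv S false y z

/-- the binary relation (on main points) coded by the unary predicate `i` -/
def rr (i : Ix L) (x y : M) : Prop := ∃ z, ovr S x y z ∧ us S i z

/-- The codes: the main points form a dense order; every pair of main points has a point `z`, just above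
`x` in the first order and just above `y` in the second one; the classes of the equivalence relation `E` are
dense, and the unary and binary relations are invariant under `E`. -/
structure Frame : Prop where
  two : Two S
  ne : ∃ x, us S .D x
  agr : ∀ x y, us S .D x → us S .D y → (ls S true x y ↔ ls S false x y)
  dns : ∀ x y w, us S .D x → us S .D y → us S .D w → ls S true x y →
    ∃ v, us S .D v ∧ ls S true x v ∧ ls S true v y ∧ rr S .E v w
  lft : ∀ x w, us S .D x → us S .D w → ∃ v, us S .D v ∧ ls S true v x ∧ rr S .E v w
  rgt : ∀ x w, us S .D x → us S .D w → ∃ v, us S .D v ∧ ls S true x v ∧ rr S .E v w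
  blw : ∀ b z, ¬ us S .D z → ∃ x, abv S b x z
  pt : ∀ x y, us S .D x → us S .D y → ∃ z, ovr S x y z
  blk : ∀ b x y y' z z', abv S b x z → abv S b x z' → abv S (!b) y z → abv S (!b) y' z' →
    (ls S b z z' ↔ ls S b y y')
  rfl' : ∀ x, us S .D x → rr S .E x x
  sym : ∀ x y, rr S .E x y → rr S .E y x
  trs : ∀ x y z, rr S .E x y → rr S .E y z → rr S .E x z
  ui : ∀ (R : L.Relations 1) x y, rr S .E x y → us S (.u R) x → us S (.u R) y
  bi : ∀ (R : L.Relations 2) x y x' y', rr S .E x x' → rr S .E y y' → rr S (.r R) x y →
    rr S (.r R) x' y'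
  ud : ∀ (R : L.Relations 1) z, us S (.u R) z → us S .D z
  rd : ∀ (R : L.Relations 2) z, us S (.r R) z → ¬ us S .D z
  ed : ∀ z, us S .E z → ¬ us S .D z

/-- the set of the classes -/
def Qt : Type := Quot (fun x y : {x : M // us S .D x} => rr S .E x.1 y.1)

/-- the coded relations -/
def hol : {n : ℕ} → L.Relations n → (Fin n → M) → Prop
  | 1, R, x => us S (.u R) (x 0)
  | 2, R, x => rr S (.r R) (x 0) (x 1)
  | _, _, _ => False

variable [∀ n, IsEmpty (L.Functions n)]

/-- the coded structure -/
@[instance_reducible]
def dec : L.Structure (Qt S) where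
  funMap := fun f _ => isEmptyElim f
  RelMap := fun {n} R v => ∃ x : Fin n → {x : M // us S .D x},
    (∀ i, Quot.mk _ (x i) = v i) ∧ hol S R fun i => (x i).1

end code

/-- languages with unary and binary relation symbols only -/
structure Bin (L : FirstOrder.Language.{0, 0}) : Prop where
  fn : ∀ n, IsEmpty (L.Functions n)
  ar : ∀ n, n ≠ 1 → n ≠ 2 → IsEmpty (L.Relations n)
  ct : ∀ n, Countable (L.Relations n)

/-- [FRM] `Frame` is a set of sentences. -/
def St_FRM : Prop :=
  ∀ (L : FirstOrder.Language.{0, 0}), ∃ F : (LP (Ix L)).Theory,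
    ∀ (M : Type) (S : (LP (Ix L)).Structure M),
      @FirstOrder.Language.Theory.Model (LP (Ix L)) M S F ↔ Frame S

/-- [TRN] the sentences true in the coded structure.
PROOF.  For `φ : L.BoundedFormula Empty n` define `tr φ : (LP (Ix L)).BoundedFormula Empty n` by recursion:
`falsum`; `equal t₁ t₂` (terms are variables `i`, `j`): the formula `rr S .E (x i) (x j)`; `rel R ts`: for arity `1` the
formula `un (.u R) (x i)`, for arity `2` the formula `rr S (.r R) (x i) (x j)`; `imp`; `all`: relativised to `D`.  For
`v : Fin n → {x // us S .D x}`: `tr φ` is true at `v` iff `φ` is true in `dec S` at `Quot.mk _ ∘ v` (`Quot.eq` and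
`Relation.EqvGen`, `rr S .E` is an equivalence relation; `ui`, `bi` show that the truth of `hol` does not
depend on the representatives). -/
def St_TRN : Prop :=
  ∀ (L : FirstOrder.Language.{0, 0}) (hL : Bin L) (σ : L.Sentence), ∃ τ : (LP (Ix L)).Sentence,
    ∀ (M : Type) (S : (LP (Ix L)).Structure M), Frame S →
      (@FirstOrder.Language.Sentence.Realize (LP (Ix L)) M S τ ↔
        @FirstOrder.Language.Sentence.Realize L (Qt S) (@dec L M S hL.fn) σ)

/-- [COE] every structure has a code.
PROOF.  Main points: `P = ℚ × ℕ`, ordered by the real number `val (q, n) = q + n √2` (injective: `√2` is irrational);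
colour of `(q, n)`: `n`; every colour is dense (`exists_rat_btwn`).  Points: `P ⊕ P × P`.  Order `true`: compare
`(val x, 0)` for the main point `x`, and `(val x, 1, val y)` for the pair `(x, y)`, lexicographically; order `false`:
`(val y, 1, val x)` for the pair `(x, y)`.  `D` = the main points; `E` = the pairs of points of the same colour;
`.u R` = the main points with colour in `R`, `.r R` = the pairs whose colours are in `R`.  Classes of `E` are the
colours, `Qt S ≃ ℕ`.  Copy to `ℕ` by a bijection (the point set is countable and infinite). -/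
def St_COE : Prop :=
  ∀ (L : FirstOrder.Language.{0, 0}) (hL : Bin L) (N : L.Structure ℕ),
    ∃ S : (LP (Ix L)).Structure ℕ, Frame S ∧ Iso (@dec L ℕ S hL.fn) N

/-- [UNQ] codes with isomorphic coded structures are isomorphic.
PROOF.  Let `h : Qt S ≃ Qt S'` be the isomorphism.  The sets of the main points `{x // us S .D x}` and
`{x // us S' .D x}` with the order `ls _ true` are countable, and every class is dense, without ends
(`dns`, `lft`, `rgt`, `ne`).  Back and forth (finite partial isomorphisms which respect the classes, `h`;
compare `Order.iso_of_countable_dense`): a bijection `g` of the main points which preserves the order and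
with `h (mk x) = mk (g x)`.  The point of a pair is unique (`blk` and linearity), and every point which is not
a main point is the point of exactly one pair (`blw`; if `abv b x z` and `abv b x' z` then `x = x'`).  `G`: `g` on
the main points, the point of `(x, y)` goes to the point of `(g x, g y)`.  Order `b`: main points: `agr`; a main
point `w` and `z` with `abv b x z`: `w < z` iff `w ≤ x`; `z`, `z'` with `abv b x z`, `abv b x' z'`: if `x < x'` then
`z < x' < z'`; if `x = x'` then `blk`.  Unary predicates: `.u R` and `.r R`, `.E` hold for a point iff they hold in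
`dec S` for the class(es) (`ui`, `bi`, `ud`, `rd`, `ed`). -/
def St_UNQ : Prop :=
  ∀ (L : FirstOrder.Language.{0, 0}) (hL : Bin L) (S S' : (LP (Ix L)).Structure ℕ),
    Frame S → Frame S' → Iso (@dec L ℕ S hL.fn) (@dec L ℕ S' hL.fn) → Iso S S'

/-- [DIS] isomorphic codes have isomorphic coded structures. -/
def St_DIS : Prop :=
  ∀ (L : FirstOrder.Language.{0, 0}) (hL : Bin L) (M M' : Type) (S : (LP (Ix L)).Structure M)
    (S' : (LP (Ix L)).Structure M'), Iso S S' → Iso (@dec L M S hL.fn) (@dec L M' S' hL.fn)

/-- [DMS] measurable decoding.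
PROOF.  `A x = {a | us (F x) .D a ∧ ∀ a' < a, ¬ rr (F x) .E a a'}` (least elements of classes), infinite; enumeration
`Nat.nth (· ∈ A x)`; all the sets `{x | a ∈ A x}`, `{x | ovr (F x) a b c}`, `{x | rr (F x) i a b}` are measurable (countable
unions and intersections of clopen sets), so `{x | Nat.nth (· ∈ A x) n = m}` too
(`= {x | m ∈ A x} ∩ {x | Nat.count (· ∈ A x) m = n}`; compare `Pool.Agent.Helper5.Multi.isOpen_nth`,
`isClopen_count`).  `G x ⟨n, (R, a)⟩ = true` iff `R` holds in `dec (F x)` at the classes of the points number
`a i`, i.e. `hol` at these points. -/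
def St_DMS : Prop :=
  ∀ (L : FirstOrder.Language.{0, 0}) (hL : Bin L) (F : (ℕ → Bool) → (LP (Ix L)).Structure ℕ),
    (∀ x, Frame (F x)) → (∀ x, Infinite (Qt (F x))) →
    (∀ (n : ℕ) (R : (LP (Ix L)).Relations n) (a : Fin n → ℕ),
      IsClopen {x | (F x).RelMap R a}) →
    ∃ G : (ℕ → Bool) → Code L, (Measurable G) ∧
      ∀ x, Iso (@dec L ℕ (F x) hL.fn) (@toStr L hL.fn (G x))

/-- [MPK] measurable families of pairwise nonisomorphic structures.
PROOF.  `G` is injective, so it is a measurable embedding (`Measurable.measurableEmbedding`, the spaces are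
standard Borel; `Code L` is Polish: `polishSpace_code`).  `perfK_of_reals` (`Pool/Agent/VB/A.lean`) with `J = Unit`,
`B = range G`, `Y = ℕ → Bool`, `Z` = the inverse of `G` on its range (measurable). -/
def St_MPK : Prop :=
  ∀ (L : FirstOrder.Language.{0, 0}) (hL : Bin L) (K : Set (L.Structure ℕ))
    (G : (ℕ → Bool) → Code L), Measurable G → (∀ x, @toStr L hL.fn (G x) ∈ K) →
    (∀ x y, Iso (@toStr L hL.fn (G x)) (@toStr L hL.fn (G y)) → x = y) → PerfK K

/-- [SHP] the dichotomy for two linear orders with unary predicates implies the dichotomy for languages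
with unary and binary relations.
PROOF.  Given `T'`, let `T` be `F` (FRM) and all the `τ` (TRN) for the sentences of `T' ∪ L.infiniteTheory`
(`model_infiniteTheory_iff`).  (1) `CtblK (ModF T)`, by `g`: let `g' n : L.Structure ℕ` be isomorphic to `dec (g n)` if
`Frame (g n)` and `Qt (g n)` is infinite (it is countable).  Let `N ∈ ModF T'`; take `S` from COE; `dec S` is isomorphic
to `N`, so a model of `T'`, infinite; `S ∈ ModF T`, so isomorphic to some `g n`, and `N ≅ dec S ≅ dec (g n) ≅ g' n`
(DIS).  (`Frame` and `Infinite (Qt _)` for `g n`: it is isomorphic to `S`, so a model of `T`.)  (2) `PerfK (ModF T)`: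
DMS, MPK, UNQ. -/
def St_SHP : Prop :=
  St_FRM → St_TRN → St_COE → St_UNQ → St_DIS → St_DMS → St_MPK →
  ∀ (L : FirstOrder.Language.{0, 0}) (hL : Bin L),
    (∀ T : (LP (Ix L)).Theory, (∀ S ∈ ModF T, Two S) → CtblK (ModF T) ∨ PerfK (ModF T)) →
    ∀ T' : L.Theory, CtblK (ModF T') ∨ PerfK (ModF T')

end Pool.Agent.PMC
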