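import Pool.Agent.PMC.ALL
import Pool.Agent.VPF.CodC
import Pool.Agent.VPF.CodI

/-!
# Vaught's conjecture for permutation classes

Development version of the result file (outside of `Results`).
-/

set_option autoImplicit false

namespace Pool.Agent.PMC.ResT3

open FirstOrder Set
open Pool.Agent.PMC (LP ls us Two HasPat NoGrid rel)

/-- The dichotomy for a theory: its models on `ℕ` fall into countably many isomorphism classes, or a
continuous map from Cantor space to these models has pairwise nonisomorphic values. -/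
def Dich (L : FirstOrder.Language.{0, 0}) (T : L.Theory) : Prop :=
  (∃ g : ℕ → L.Structure ℕ, ∀ S : L.Structure ℕ,
      @FirstOrder.Language.Theory.Model L ℕ S T →
        ∃ n : ℕ, Nonempty (@FirstOrder.Language.Equiv L ℕ ℕ S (g n))) ∨
  (∃ f : (ℕ → Bool) → L.Structure ℕ,
      (∀ x : ℕ → Bool, @FirstOrder.Language.Theory.Model L ℕ (f x) T) ∧
      (∀ x y : ℕ → Bool,
          Nonempty (@FirstOrder.Language.Equiv L ℕ ℕ (f x) (f y)) → x = y) ∧
      (∀ (n : ℕ) (R : L.Relations n) (a : Fin n → ℕ),
          IsClopen {x : ℕ → Bool | @FirstOrder.Language.Structure.RelMap L ℕ (f x) n R a}) ∧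
      (∀ (n : ℕ) (F : L.Functions n) (a : Fin n → ℕ) (b : ℕ),
          IsOpen {x : ℕ → Bool | @FirstOrder.Language.Structure.funMap L ℕ (f x) n F a = b}))

/-- Vaught's conjecture (the frozen statement `S14759`) -/
def FullVC : Prop :=
  ∀ (L : FirstOrder.Language.{0, 0}), Countable L.Symbols → ∀ (T : L.Theory), Dich L T

/-- A finite permutation: its length and the permutation. -/
abbrev Pm : Type := (n : ℕ) × Equiv.Perm (Fin n)

/-- `K` is closed under patterns. -/
def Hered (K : Set Pm) : Prop :=
  ∀ (m n : ℕ) (π : Equiv.Perm (Fin m)) (σ : Equiv.Perm (Fin n)) (f : Fin m → Fin n),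
    StrictMono f → (∀ i j, π i < π j ↔ σ (f i) < σ (f j)) → (⟨n, σ⟩ : Pm) ∈ K → (⟨m, π⟩ : Pm) ∈ K

/-- The dichotomy for all theories of two linear orders and countably many unary predicates, all
finite subsets of whose models have their pattern in `K`. -/
def VC (K : Set Pm) : Prop :=
  ∀ (ι : Type), Countable ι → ∀ T : (LP ι).Theory,
    (∀ S : (LP ι).Structure ℕ, @FirstOrder.Language.Theory.Model (LP ι) ℕ S T →
      Two S ∧ ∀ (n : ℕ) (π : Equiv.Perm (Fin n)), HasPat S π → (⟨n, π⟩ : Pm) ∈ K) →
    Dich (LP ι) T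

theorem countable_LP (ι : Type) (hι : Countable ι) : Countable (LP ι).Symbols := by
  have h1 : ∀ n, Countable (Sy ι n) := by
    intro n
    have : Function.Injective (fun s : Sy ι n => (match n, s with
      | _, Sy.un i => Sum.inl i
      | _, Sy.lt b => Sum.inr b : ι ⊕ Bool)) := by
      intro s s' h
      cases s <;> cases s' <;> simp_all
    exact this.countable
  have h2 : Countable ((n : ℕ) × (LP ι).Relations n) :=
    inferInstanceAs (Countable ((n : ℕ) × Sy ι n))
  have h3 : Countable ((n : ℕ) × (LP ι).Functions n) := by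
    have : IsEmpty ((n : ℕ) × (LP ι).Functions n) := ⟨fun x => Empty.elim x.2⟩
    infer_instance
  exact inferInstanceAs (Countable (((n : ℕ) × (LP ι).Functions n) ⊕ ((n : ℕ) × (LP ι).Relations n)))

theorem vc_of_ne (K : Set Pm) (h : K ≠ univ) : VC K := by
  intro ι hι T hT
  obtain ⟨⟨n, π⟩, hπ⟩ := (Set.ne_univ_iff_exists_notMem K).1 h
  exact thm_PAT all_MAIN ι hι T n π fun S hS => ⟨(hT S hS).1, fun hp => hπ ((hT S hS).2 n π hp)⟩

instance ix_countable (L : FirstOrder.Language.{0, 0}) [∀ n, Countable (L.Relations n)] :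
    Countable (Ix L) := by
  have : Function.Injective (fun s : Ix L => (match s with
    | .D => Sum.inl true
    | .E => Sum.inl false
    | .u R => Sum.inr (Sum.inl R)
    | .r R => Sum.inr (Sum.inr R) : Bool ⊕ (L.Relations 1 ⊕ L.Relations 2))) := by
    intro s s' h
    cases s <;> cases s' <;> simp_all
  exact this.countable

open Pool.Agent.Helper6.Str in
theorem full_of_vc (h : VC univ) : FullVC := by
  refine VPF.thm_C (fun _ => True) trivial (Or.inl trivial) ?_
  intro L hR hF har T' _
  have hB : Bin L := ⟨hF, har, hR⟩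
  refine thm_SHP thm_FRM thm_TRN thm_COE thm_UNQ thm_DIS thm_DMS thm_MPK L hB ?_ T'
  intro T hT
  have hrel : ∀ n, IsEmpty ((LP (Ix L)).Functions n) := fun n => ⟨fun x => Empty.elim x⟩
  rcases h (Ix L) inferInstance T (fun S hS => ⟨hT S hS, fun _ _ _ => mem_univ _⟩) with
    ⟨g, hg⟩ | ⟨f, h1, h2, h3, _⟩
  · exact Or.inl ⟨g, fun S hS => (hg S hS).imp fun n h => VPF.CC.iso_of_equiv h⟩
  · exact Or.inr ⟨f, h1, fun x y h => h2 x y (VPF.CC.equiv_of_iso h), h3⟩

/-- The dichotomy for a theory whose models on `ℕ` are determined by their one-variable formulas and by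
binary formulas with sections that are initial segments of linear orders, without large grids. -/
def General : Prop :=
  ∀ (L : FirstOrder.Language.{0, 0}), Countable L.Symbols → (∀ n, IsEmpty (L.Functions n)) →
    ∀ (T : L.Theory) (φ : ℕ → L.Formula (Fin 2)) (o : ℕ → ℕ),
    (∀ S : L.Structure ℕ, @FirstOrder.Language.Theory.Model L ℕ S T → @Hyp L ℕ S φ o) →
    Dich L T

/-- **Vaught's conjecture for permutation classes: a dichotomy.** -/
theorem result : (∀ K : Set Pm, Hered K → (K ≠ univ ∧ VC K) ∨ (K = univ ∧ (VC K → FullVC))) ∧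
    General := by
  refine ⟨fun K _ => ?_, fun L hL hF T φ o h => all_MAIN L hL hF T φ o h⟩
  by_cases h : K = univ
  · exact Or.inr ⟨h, fun hK => full_of_vc (h ▸ hK)⟩
  · exact Or.inl ⟨h, vc_of_ne K h⟩

end Pool.Agent.PMC.ResT3
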