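import Pool.Agent.PMC.StE

/-!
PMC: classes of permutations (helper18).
-/

set_option autoImplicit false
set_option linter.unusedVariables false

namespace Pool.Agent.PMC

open FirstOrder.Language Set
open scoped FirstOrder
open Pool.Agent.WOM (CtT PerfT)

namespace PAT

/-- the symbol of an order -/
def sl (ι : Type) (b : Bool) : (LP ι).Relations 2 := (Sy.lt b : Sy ι 2)

/-- the symbol of a unary predicate -/
def su (ι : Type) (i : ι) : (LP ι).Relations 1 := (Sy.un i : Sy ι 1)

/-- the formula of an order -/
def fm (ι : Type) (b : Bool) : (LP ι).Formula (Fin 2) :=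
  Relations.formula₂ (sl ι b) (Term.var 0) (Term.var 1)

/-- the formula of a unary predicate -/
def fu (ι : Type) (i : ι) : (LP ι).Formula (Fin 1) :=
  Relations.formula₁ (su ι i) (Term.var 0)

/-- the parity -/
def par (j : ℕ) : Bool := decide (j % 2 = 0)

theorem exists_par (b : Bool) : ∃ j, par j = b := by
  cases b
  · exact ⟨1, rfl⟩
  · exact ⟨0, rfl⟩

theorem real_fm {ι M : Type} (S : (LP ι).Structure M) (b : Bool) (x y : M) :
    @Formula.Realize (LP ι) M S (Fin 2) (fm ι b) ![x, y] ↔ ls S b x y := by
  let _ := S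
  exact Formula.realize_rel₂

theorem real_fu {ι M : Type} (S : (LP ι).Structure M) (i : ι) (x : M) :
    @Formula.Realize (LP ι) M S (Fin 1) (fu ι i) ![x] ↔ us S i x := by
  let _ := S
  exact Formula.realize_rel₁

theorem rel_iff {ι M : Type} (S : (LP ι).Structure M) (j : ℕ) (x y : M) :
    @rel (LP ι) M S (fm ι (par j)) x y ↔ ls S (par j) x y := real_fm S (par j) x y

theorem hyp {ι M : Type} (S : (LP ι).Structure M) (h2 : Two S) {n : ℕ}
    (π : Equiv.Perm (Fin n)) (hπ : ¬ HasPat S π) :
    @Hyp (LP ι) M S (fun j => fm ι (par j)) id := by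
  have hlt : ∀ (j : ℕ) (x y : M), (∃ z, @rel (LP ι) M S (fm ι (par j)) z y ∧
      ¬ @rel (LP ι) M S (fm ι (par j)) z x) → ls S (par j) x y := by
    rintro j x y ⟨z, hz, hz'⟩
    rw [rel_iff] at hz hz'
    obtain ⟨-, htra, htot⟩ := h2 (par j)
    by_cases hxz : x = z
    · rw [hxz]
      exact hz
    · rcases htot x z hxz with h | h
      · exact htra x z y h hz
      · exact absurd h hz'
  have hgr : ∀ (i j : ℕ), ∃ k : ℕ, NoGrid (fun j => @rel (LP ι) M S (fm ι (par j))) id i j k := by
    intro i j
    by_cases hij : par i = par j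
    · refine ⟨2, ?_⟩
      rintro ⟨x, hx, hx'⟩
      have h3 := (rel_iff S i _ _).1 (hx 0 1 1 0 (by decide))
      have h4 := hlt j _ _ (hx' 1 0 0 1 (by decide))
      rw [hij] at h3
      exact (h2 (par j)).1 _ ((h2 (par j)).2.1 _ _ _ h3 h4)
    · refine ⟨n, ?_⟩
      rintro ⟨x, hx, hx'⟩
      apply hπ
      cases hi : par i
      · have hj : par j = true := by
          cases hj : par j
          · exact absurd (hi.trans hj.symm) hij
          · rfl
        refine ⟨fun p => x (π p) p, fun p q => ⟨fun hpq => ?_, fun hpq => ?_⟩⟩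
        · have := hlt j _ _ (hx' (π p) (π q) p q hpq)
          rwa [hj] at this
        · have := (rel_iff S i _ _).1 (hx (π p) (π q) p q hpq)
          rwa [hi] at this
      · have hj : par j = false := by
          cases hj : par j
          · rfl
          · exact absurd (hi.trans hj.symm) hij
        refine ⟨fun p => x p (π p), fun p q => ⟨fun hpq => ?_, fun hpq => ?_⟩⟩
        · have := (rel_iff S i _ _).1 (hx p q (π p) (π q) hpq)
          rwa [hi] at this
        · have := hlt j _ _ (hx' p q (π p) (π q) hpq)
          rwa [hj] at this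
  refine @Hyp.mk (LP ι) M S _ _ (fun _ => rfl) ?_ ?_ ?_ ?_ hgr ?_
  · intro j x h
    exact (h2 (par j)).1 x ((rel_iff S j _ _).1 h)
  · intro j x y z h h'
    exact (rel_iff S j _ _).2 ((h2 (par j)).2.1 x y z ((rel_iff S j _ _).1 h)
      ((rel_iff S j _ _).1 h'))
  · intro j x y hxy
    rcases (h2 (par j)).2.2 x y hxy with h | h
    · exact Or.inl ((rel_iff S j _ _).2 h)
    · exact Or.inr ((rel_iff S j _ _).2 h)
  · intro j u x y h h'
    exact (rel_iff S j _ _).2 ((h2 (par j)).2.1 y x u ((rel_iff S j _ _).1 h')
      ((rel_iff S j _ _).1 h))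
  · intro g hg1 hg2
    have hun : ∀ (i : ι) (x : M), us S i (g x) ↔ us S i x := fun i x => by
      rw [← real_fu S, ← real_fu S]
      exact hg2 _ x
    have hlt' : ∀ (b : Bool) (x y : M), ls S b (g x) (g y) ↔ ls S b x y := fun b x y => by
      obtain ⟨j, rfl⟩ := exists_par b
      rw [← rel_iff S j, ← rel_iff S j]
      exact hg1 j x y
    have hrel : ∀ (m : ℕ) (r : Sy ι m) (v : Fin m → M),
        S.RelMap (n := m) r (g ∘ v) ↔ S.RelMap (n := m) r v := ?_
    · exact ⟨@FirstOrder.Language.Equiv.mk (LP ι) M M S S g (fun f _ => Empty.elim f)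
        (fun r v => hrel _ r v), fun x => rfl⟩
    intro m r v
    cases r with
    | un i =>
      have h1 := hun i (v 0)
      have h3 : g ∘ v = ![g (v 0)] := by
        funext k
        fin_cases k
        rfl
      have h4 : v = ![v 0] := by
        funext k
        fin_cases k
        rfl
      rw [h3]
      rw [h4]
      exact h1
    | lt b =>
      have h1 := hlt' b (v 0) (v 1)
      have h3 : g ∘ v = ![g (v 0), g (v 1)] := by
        funext k
        fin_cases k <;> rfl
      have h4 : v = ![v 0, v 1] := by
        funext k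
        fin_cases k <;> rfl
      rw [h3]
      rw [h4]
      exact h1

theorem countable_sy (ι : Type) [Countable ι] (n : ℕ) : Countable (Sy ι n) := by
  let f : Sy ι n → ι ⊕ Bool := fun s => match n, s with
    | _, Sy.un i => Sum.inl i
    | _, Sy.lt b => Sum.inr b
  refine Function.Injective.countable (f := f) ?_
  intro s t hst
  cases s <;> cases t
  · exact congrArg Sy.un (Sum.inl.inj hst)
  · exact congrArg Sy.lt (Sum.inr.inj hst)

end PAT

theorem thm_PAT : St_PAT := by
  intro hM ι hι T n π hT
  have hc : Countable (LP ι).Symbols := by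
    have h1 : Countable (Σ m, (LP ι).Functions m) := by
      have : ∀ m, Countable ((LP ι).Functions m) := fun m => (inferInstance : Countable Empty)
      infer_instance
    have h2 : Countable (Σ m, (LP ι).Relations m) := by
      have : ∀ m, Countable ((LP ι).Relations m) := fun m => PAT.countable_sy ι m
      infer_instance
    exact (inferInstance : Countable ((Σ m, (LP ι).Functions m) ⊕ (Σ m, (LP ι).Relations m)))
  exact hM (LP ι) hc (fun m => (inferInstance : IsEmpty Empty)) T (fun j => PAT.fm ι (PAT.par j)) id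
    fun S hS => PAT.hyp S (hT S hS).1 π (hT S hS).2

end Pool.Agent.PMC
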