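import Pool.Agent.PMC.StD
import Pool.Agent.PMC.Base

/-!
PMC: a copy of an inner piece inside one cluster of a good extreme piece (helper22).
-/

set_option autoImplicit false

namespace Pool.Agent.PMC

open FirstOrder.Language Set
open scoped FirstOrder
open Pool.Agent.WOM (tp Mon IsEl IsoM CtU Fx Orb)

section aux

variable {L : FirstOrder.Language.{0, 0}} {U : Type} [L.Structure U] {κ : Type}
  {R : κ → U → U → Prop} {o : κ → κ}

private theorem AEI_lts (hC : Cx L R o) {b : Bool} {j : κ} {C : Set U} (hI : Ini R o j C)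
    {p q : U} (hp : ¬ (p ∈ C ↔ b = false)) (hq : q ∈ C ↔ b = false) : lts R o b j p q := by
  have hne : p ≠ q := by
    rintro rfl
    exact hp hq
  cases b with
  | true =>
    have hp' : p ∈ C := by simpa using hp
    have hq' : q ∉ C := by simpa using hq
    rcases hC.tot j p q hne with h | h
    · simpa [lts] using h
    · exact absurd (hI p hp' q h) hq'
  | false =>
    have hp' : p ∉ C := by simpa using hp
    have hq' : q ∈ C := by simpa using hq
    rcases hC.tot j p q hne with h | h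
    · exact absurd (hI q hq' p h) hp'
    · simpa [lts] using h

private theorem AEI_sep {b : Bool} {j : κ} {C : Set U} (hI : Ini R o j C) {w v : U}
    (h : lts R o b j w v) (hs : ¬ (w ∈ C ↔ v ∈ C)) :
    (v ∈ C ↔ b = false) ∧ ¬ (w ∈ C ↔ b = false) := by
  cases b with
  | true =>
    have h' : R (o j) w v := by simpa [lts] using h
    have hv : v ∉ C := fun hv => hs ⟨fun _ => hv, fun _ => hI v hv w h'⟩
    have hw : w ∈ C := by
      by_contra hw
      exact hs ⟨fun h => absurd h hw, fun h => absurd h hv⟩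
    simp [hv, hw]
  | false =>
    have h' : R (o j) v w := by simpa [lts] using h
    have hw : w ∉ C := fun hw => hs ⟨fun _ => hI w hw v h', fun _ => hw⟩
    have hv : v ∈ C := by
      by_contra hv
      exact hs ⟨fun h => absurd h hw, fun h => absurd h hv⟩
    simp [hv, hw]

private theorem AEI_fix (hC : Cx L R o) {B : Set U} {j : κ} {w : U} {D : Set U}
    (hI : Ini R o j D) (hS : Sin D (cel L R o B j w)) {s : U ≃[L] U} (hs : Fx L B s)
    (h : ∀ c ∈ cel L R o B j w, c ∈ D → s c ∈ D) : ∀ c ∈ D, s c ∈ D := by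
  intro c hc
  by_cases hcJ : c ∈ cel L R o B j w
  · exact h c hcJ hc
  · obtain ⟨⟨q, hqJ, hqD⟩, p, hpJ, hpD⟩ := hS
    have hex : ∃ C, Dc L R o B j C ∧ ¬ (c ∈ C ↔ w ∈ C) := by
      by_contra hn
      refine hcJ fun C h1 => ?_
      by_contra h2
      exact hn ⟨C, h1, h2⟩
    obtain ⟨C, hC1, hC2⟩ := hex
    by_cases hcC : c ∈ C
    · have hwC : w ∉ C := fun h => hC2 ⟨fun _ => h, fun _ => hcC⟩
      have hqC : q ∉ C := fun h => hwC ((hqJ C hC1).1 h)
      have hsc : s c ∈ C := (def_mem hC1.1 hs c).2 hcC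
      have hne : s c ≠ q := fun h => hqC (h ▸ hsc)
      rcases hC.tot j (s c) q hne with h1 | h1
      · exact hI q hqD _ h1
      · exact absurd (hC1.2 _ hsc _ h1) hqC
    · have hwC : w ∈ C := by
        by_contra h
        exact hC2 ⟨fun h' => absurd h' hcC, fun h' => absurd h' h⟩
      have hpC : p ∈ C := (hpJ C hC1).2 hwC
      have hne : c ≠ p := fun h => hcC (h ▸ hpC)
      rcases hC.tot j c p hne with h1 | h1
      · exact absurd (hC1.2 p hpC c h1) hcC
      · exact absurd (hI c hc p h1) hpD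

private theorem AEI_sin {C K K' : Set U} (h : Sin C K) (hK : K ⊆ K') : Sin C K' := by
  obtain ⟨⟨q, hq, hqC⟩, p, hp, hpC⟩ := h
  exact ⟨⟨q, hK hq, hqC⟩, p, hK hp, hpC⟩

private theorem AEI_ex {C K : Set U} (h : Sin C K) (b : Bool) :
    ∃ q ∈ K, (q ∈ C ↔ b = false) := by
  obtain ⟨⟨q, hq, hqC⟩, p, hp, hpC⟩ := h
  cases b with
  | true => exact ⟨p, hp, by simp [hpC]⟩
  | false => exact ⟨q, hq, by simp [hqC]⟩

end aux

theorem thm_AEI (hPRD : St_PRD) (hAG : St_AG) (hEXB : St_EXB) (hXSP : St_XSP) (hMKO : St_MKO)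
    (hASV : St_ASV) (hORD : St_ORD) : St_AEI := by
  intro L U _ κ R o hC A x y hA hx hy hyB hyX
  obtain ⟨B, hBdef⟩ : ∃ B, B = insert x A := ⟨_, rfl⟩
  rw [← hBdef] at hyB hyX ⊢
  have hB : B.Finite := hBdef ▸ hA.insert x
  have hAB : A ⊆ B := hBdef ▸ subset_insert x A
  have hxB : x ∈ B := hBdef ▸ mem_insert x A
  have hyA : Nd L A y := nd_anti hAB hyB
  have hM := hC.mon
  obtain ⟨hX1, hX2⟩ := hXSP L U κ R o hC A B hAB hB
  -- the points of the piece of `y` are inner
  have inner : ∀ v ∈ Pc L R o B y, ∀ j b, ∃ C, Dc L R o B j C ∧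
      Sin C (cel L R o A j v) ∧ ¬ (v ∈ C ↔ b = false) := by
    intro v hv j b
    have hvX : v ∉ XS L R o A B := by
      have hcls : Cls L R o B (XS L R o A B)ᶜ := fun u z h => not_congr (hX2 u z h)
      exact pc_sub hcls hyX hv
    have hvB : Nd L B v := (pc_nd hC hv).2 hyB
    by_contra hn
    refine hvX (hX1 v j b (nd_anti hAB hvB) ⟨mem_cel A j v, fun C h1 h2 => ?_⟩)
    by_contra h3
    exact hn ⟨C, h1, h2, h3⟩
  -- the cells over `A` in the piece of `x` are cut by `B`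
  have hcut : ∀ z ∈ Pc L R o A x, ∀ j, Ct L R o B j (cel L R o A j z) := fun z hz j =>
    hAG L U κ R o hC A B x z hAB hB hxB hx hz j
  obtain ⟨j0⟩ := hC.ne
  obtain ⟨⟨a, ha⟩, -⟩ := hEXB L U κ R o hC A B j0 y false hAB hB hyA
  obtain ⟨⟨a', ha'⟩, hE2, -, -, -, hE6, -⟩ := hEXB L U κ R o hC A B j0 y true hAB hB hyA
  obtain ⟨t, ht, hta⟩ := move hC hA hyA ha'.1 ha.1 true
  have hta' : R (o j0) a' (t a) := by simpa [lts] using hta
  obtain ⟨B', hB'def⟩ : ∃ B', B' = insert (t x) A := ⟨_, rfl⟩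
  have hB' : B'.Finite := hB'def ▸ hA.insert (t x)
  have hAB' : A ⊆ B' := hB'def ▸ subset_insert (t x) A
  have hxB' : t x ∈ B' := hB'def ▸ mem_insert (t x) A
  have htB : t '' B = B' := by
    rw [hBdef, hB'def, image_insert_eq]
    congr 1
    exact (image_congr fun c hc => ht c hc).trans (image_id' A)
  have htB' : t.symm '' B' = B := by
    rw [← htB, ← image_comp]
    have : (t.symm : U → U) ∘ (t : U → U) = id := funext fun c => t.symm_apply_apply c
    rw [this, image_id]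
  have hts : Fx L A t.symm := fx_symm ht
  obtain ⟨Q', hQ'⟩ : ∃ Q', Q' = Pc L R o B' (t y) := ⟨_, rfl⟩
  have hQimg : t '' Pc L R o B y = Q' := by
    rw [hQ', ← htB]
    exact img_pc hC y t
  have hQcls : Cls L R o B' Q' := hQ' ▸ cls_pc B' (t y)
  have htyQ : t y ∈ Q' := hQ' ▸ mem_pc B' (t y)
  -- `B`- and `B'`-definable cuts
  have imgC : ∀ (j : κ) (C z : _), Dc L R o B j C → Sin C (cel L R o A j z) →
      Dc L R o B' j (t '' C) ∧ Sin (t '' C) (cel L R o A j z) := fun j C z h1 h2 =>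
    ⟨htB ▸ dc_img hC h1 t, sin_img hC (fx_img_cel hC j z ht) h2⟩
  have imgC' : ∀ (j : κ) (C z : _), Dc L R o B' j C → Sin C (cel L R o A j z) →
      Dc L R o B j (t.symm '' C) ∧ Sin (t.symm '' C) (cel L R o A j z) := fun j C z h1 h2 =>
    ⟨htB' ▸ dc_img hC h1 t.symm, sin_img hC (fx_img_cel hC j z hts) h2⟩
  have inner' : ∀ w ∈ Q', ∀ j b, ∃ C, Dc L R o B' j C ∧
      Sin C (cel L R o A j w) ∧ ¬ (w ∈ C ↔ b = false) := by
    intro w hw j b
    rw [← hQimg] at hw
    obtain ⟨v, hv, rfl⟩ := hw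
    obtain ⟨C, h1, h2, h3⟩ := inner v hv j b
    obtain ⟨h4, h5⟩ := imgC j C v h1 h2
    refine ⟨t '' C, h4, ?_, ?_⟩
    · rwa [cel_eq (fx_cel hC j v ht)]
    · rwa [t.injective.mem_set_image]
  -- (0)
  have h0a : ∀ C', Dc L R o B' j0 C' → Sin C' (cel L R o A j0 y) → a' ∈ C' := by
    intro C' h1 h2
    obtain ⟨h3, h4⟩ := imgC' j0 C' y h1 h2
    have h5 : a ∈ t.symm '' C' := (ha.2 _ h3 h4).2 rfl
    obtain ⟨c, hc, hca⟩ := h5
    have h6 : t a = c := by rw [← hca]; exact t.apply_symm_apply c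
    exact h1.2 (t a) (h6 ▸ hc) a' hta'
  have h0b : ∀ C, Dc L R o B j0 C → Sin C (cel L R o A j0 y) → a' ∉ C := by
    intro C h1 h2 h3
    have := (ha'.2 C h1 h2).1 h3
    simp at this
  have h0c : ∀ C', Dc L R o B' j0 C' → Sin C' (cel L R o A j0 y) →
      Sin C' (cel L R o B j0 a') := by
    intro C' h1 h2
    have h3 := h0a C' h1 h2
    refine ⟨⟨a', mem_cel B j0 a', h3⟩, ?_⟩
    obtain ⟨-, q, hq, hqC⟩ := h2
    refine ⟨q, ?_, hqC⟩
    rw [hE2 a' ha']
    refine hE6 a' ha' q hq (AEI_lts hC h1.2 (b := true) ?_ ?_)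
    · simp [h3]
    · simp [hqC]
  -- the piece of `a'`
  have ha'x : a' ∈ Pc L R o A x := by
    rw [← pc_eq hy]
    exact cel_sub_pc hC hA j0 y ha'.1
  have ha'X : a' ∈ XS L R o A B := by
    refine hX1 a' j0 true (nd_cel hC hyA ha'.1) ?_
    rw [cel_eq ha'.1]
    exact ha'
  obtain ⟨sg, hOri, hsg, hEA⟩ := hMKO L U κ R o hC A x a' hA hx ha'x (hBdef ▸ ha'X)
  rw [← hBdef] at hOri hsg hEA
  obtain ⟨E, hE⟩ : ∃ E, E = Pc L R o B a' := ⟨_, rfl⟩
  have hEcls : Cls L R o B E := hE ▸ cls_pc B a'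
  have ha'E : a' ∈ E := hE ▸ mem_pc B a'
  -- (1)
  have h1 : t x ∈ E := by
    by_contra hn
    obtain ⟨C0, hC01, hC02⟩ := hcut y hy j0
    obtain ⟨hD1, hD2⟩ := imgC j0 C0 y hC01 hC02
    obtain ⟨D, hD⟩ : ∃ D, D = t '' C0 := ⟨_, rfl⟩
    rw [← hD] at hD1 hD2
    have hD3 := h0c D hD1 hD2
    refine not_sin_cel (⟨def_of_fix hM hB hB' hD1.1 fun s hs => ?_, hD1.2⟩ : Dc L R o B j0 D) a' hD3
    refine AEI_fix hC hD1.2 hD3 hs fun c hcJ hcD => ?_
    obtain ⟨h, hh1, hh2, hh3⟩ := hPRD L U κ R o hC B E hB hEcls s hs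
    have hcE : c ∈ E := hE ▸ cel_sub_pc hC hB j0 a' hcJ
    have hh4 : Fx L B' h := by
      intro c hc
      rw [hB'def] at hc
      rcases hc with rfl | hc
      · exact hh3 _ hn
      · exact hh1 c (hAB hc)
    rw [← hh2 c hcE]
    exact (def_mem hD1.1 hh4 c).2 hcD
  -- (2)
  have h2 : x ∉ Q' := by
    intro hxQ
    obtain ⟨C, hC1, hC2⟩ := hcut y hy j0
    have h3 : ∀ c ∈ cel L R o A j0 y, c ∈ C → c ∉ Q' := by
      intro c hcK hcC hcQ
      obtain ⟨D, hD1, hD2, hD3⟩ := inner' c hcQ j0 false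
      have hcD : c ∉ D := by simpa using hD3
      rw [cel_eq hcK] at hD2
      rcases ini_total hC hC1.2 hD1.2 with h | h
      · exact hcD (h hcC)
      · exact h0b C hC1 hC2 (h (h0a D hD1 hD2))
    have h4 : Dc L R o B' j0 C := by
      refine ⟨def_of_fix hM hB' hB hC1.1 fun s hs => ?_, hC1.2⟩
      obtain ⟨g, hg1, hg2, hg3⟩ := hPRD L U κ R o hC B' Q' hB' hQcls s hs
      have hgC : ∀ c ∈ C, g c ∈ C := by
        refine AEI_fix hC hC1.2 hC2 (fx_mono hAB' hg1) fun c hcK hcC => ?_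
        rw [hg3 c (h3 c hcK hcC)]
        exact hcC
      have hgs : Fx L B (g.symm.comp s) := by
        intro c hc
        rw [comp_apply']
        have hgc : g c = s c := by
          rw [hBdef] at hc
          rcases hc with rfl | hc
          · exact hg2 _ hxQ
          · rw [hg1 c (hAB' hc), hs c (hAB' hc)]
        rw [← hgc]
        exact g.symm_apply_apply c
      intro c hc
      have h5 := hgC _ ((def_mem hC1.1 hgs c).2 hc)
      rw [comp_apply'] at h5
      rwa [g.apply_symm_apply] at h5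
    exact h0b C hC1 hC2 (h0a C h4 hC2)
  -- (3)
  have h3 : ∀ v ∈ Q', ∀ j, cel L R o B' j v ⊆ cel L R o B j v := by
    intro v hv j
    have h4 : ∀ C, Dc L R o B j C → ¬ Sin C (cel L R o B' j v) := by
      intro C hC1 hC2
      refine not_sin_cel (⟨def_of_fix hM hB' hB hC1.1 fun s hs => ?_, hC1.2⟩ : Dc L R o B' j C) v hC2
      obtain ⟨g, hg1, hg2, hg3⟩ := hPRD L U κ R o hC B' Q' hB' hQcls s hs
      have hgB : Fx L B g := by
        intro c hc
        rw [hBdef] at hc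
        rcases hc with rfl | hc
        · exact hg3 _ h2
        · exact hg1 c (hAB' hc)
      refine AEI_fix hC hC1.2 hC2 hs fun c hcJ hcC => ?_
      have hcQ : c ∈ Q' := pc_sub hQcls hv (cel_sub_pc hC hB' j v hcJ)
      rw [← hg2 c hcQ]
      exact (def_mem hC1.1 hgB c).2 hcC
    intro w hw D hD
    by_contra hn
    refine h4 D hD ?_
    by_cases hwD : w ∈ D
    · exact ⟨⟨w, hw, hwD⟩, v, mem_cel B' j v, fun h => hn ⟨fun _ => h, fun _ => hwD⟩⟩
    · refine ⟨⟨v, mem_cel B' j v, ?_⟩, w, hw, hwD⟩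
      by_contra h
      exact hn ⟨fun h' => absurd h' hwD, fun h' => absurd h' h⟩
  -- (4)
  have htyE : t y ∈ E := by
    have h4 : t y ∈ cel L R o A j0 y := fx_cel hC j0 y ht
    obtain ⟨D, hD1, hD2, hD3⟩ := inner' (t y) htyQ j0 false
    have hyD : t y ∉ D := by simpa using hD3
    rw [cel_eq h4] at hD2
    have h5 := h0a D hD1 hD2
    have h6 : t y ∈ cel L R o B j0 a' := by
      rw [hE2 a' ha']
      refine hE6 a' ha' _ h4 (AEI_lts hC hD1.2 (b := true) ?_ ?_)
      · simp [h5]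
      · simp [hyD]
    rw [hE]
    exact cel_sub_pc hC hB j0 a' h6
  have h4 : Q' ⊆ E := by
    have h5 : Cls L R o B' {v | v ∈ Q' ∧ v ∈ E} := by
      intro u z huz
      have h6 := hQcls u z huz
      constructor
      · rintro ⟨hu1, hu2⟩
        have hz := h6.1 hu1
        obtain ⟨j, hj⟩ := huz
        exact ⟨hz, (hEcls u z ⟨j, AEI_sin hj (h3 z hz j)⟩).1 hu2⟩
      · rintro ⟨hz1, hz2⟩
        have hu := h6.2 hz1
        obtain ⟨j, hj⟩ := huz
        exact ⟨hu, (hEcls u z ⟨j, AEI_sin hj (h3 z hz1 j)⟩).2 hz2⟩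
    intro v hv
    rw [hQ'] at hv
    exact (pc_sub h5 (show t y ∈ {v | v ∈ Q' ∧ v ∈ E} from ⟨htyQ, htyE⟩) hv).2
  rw [← hE] at hOri hsg hEA
  obtain ⟨hO1, -⟩ := hORD L U κ R o hC B E sg hOri
  -- (5)
  have h5 : ∀ v ∈ Q', ¬ Fa L R o B sg true (t x) v ∧ ¬ Fa L R o B sg false (t x) v := by
    intro v hv
    have hvE : v ∈ E := h4 hv
    have hvA : v ∈ Pc L R o A x := hEA hvE
    have hvNB : Nd L B v := hOri.nd v hvE
    have hvNA : Nd L A v := nd_anti hAB hvNB
    obtain ⟨j⟩ := hC.ne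
    obtain ⟨b, hb⟩ : ∃ b, b = sg (o j) v := ⟨_, rfl⟩
    have hvx := hsg v hvE j
    rw [← hb] at hvx
    obtain ⟨-, hb2, -, -, -, hb6, -⟩ := hEXB L U κ R o hC A B j v b hAB hB hvNA
    have hcel := hb2 v hvx
    have hxx : insert (t x) B ⊇ B' := by
      rw [hB'def]
      exact insert_subset_insert hAB
    constructor
    · intro hF
      obtain ⟨C, hC1, hC2, hC3⟩ := inner' v hv j b
      obtain ⟨q, hq, hqC⟩ := AEI_ex hC2 b
      have hq2 : q ∈ cel L R o B j v := by
        rw [hcel]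
        exact hb6 v hvx q hq (AEI_lts hC hC1.2 hC3 hqC)
      have hS : Sin C (cel L R o B j v) := by
        cases b with
        | true =>
          exact ⟨⟨v, mem_cel B j v, by simpa using hC3⟩, q, hq2, by simpa using hqC⟩
        | false =>
          exact ⟨⟨q, hq2, by simpa using hqC⟩, v, mem_cel B j v, by simpa using hC3⟩
      have h6 := hF j C (dc_mono hxx hC1) hS
      rw [← hb] at h6
      apply hC3
      rw [h6]
      cases b <;> simp
    · intro hF
      obtain ⟨⟨w0, hw0⟩, hn2, hn3, -⟩ := hEXB L U κ R o hC A B j v (!b) hAB hB hvNA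
      have hcelw := hn2 w0 hw0
      obtain ⟨⟨w, hw⟩, -⟩ := hEXB L U κ R o hC B (insert (t x) B) j w0 b (subset_insert _ _)
        (hB.insert _) (hn3 w0 hw0)
      have hwn : w ∈ ext L R o (!b) B j (cel L R o A j v) := by
        rw [← hcelw]
        exact hw.1
      obtain ⟨C, hC1, hC2⟩ := hcut v hvA j
      have hwC := hwn.2 C hC1 hC2
      have hvC := hvx.2 C hC1 hC2
      have hwv : lts R o b j w v := by
        refine AEI_lts hC hC1.2 ?_ hvC
        rw [hwC]
        cases b <;> simp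
      have hsep : ∃ D, Dc L R o B' j D ∧ ¬ (w ∈ D ↔ v ∈ D) := by
        by_contra hn
        have hwc : w ∈ cel L R o B' j v := by
          intro D hD
          by_contra h
          exact hn ⟨D, hD, h⟩
        have hwc2 := h3 v hv j hwc
        have hwc3 := (hwc2 C hC1)
        rw [hwC, hvC] at hwc3
        cases b <;> simp at hwc3
      obtain ⟨D, hD1, hD2⟩ := hsep
      obtain ⟨hD3, hD4⟩ := AEI_sep hD1.2 hwv hD2
      have hDS : Sin D (cel L R o A j v) := by
        cases b with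
        | true =>
          exact ⟨⟨w, hwn.1, by simpa using hD4⟩, v, mem_cel A j v, by simpa using hD3⟩
        | false =>
          exact ⟨⟨v, mem_cel A j v, by simpa using hD3⟩, w, hwn.1, by simpa using hD4⟩
      have hasv := hASV L U κ R o hC A x a' hA hx ha'x (hBdef ▸ ha'X) sg
      rw [← hBdef, ← hE] at hasv
      obtain ⟨v3, hv3E, hv3J, hv3S⟩ := hasv hOri hsg (t x) h1 v hvA j D (hB'def ▸ hD1) hDS
      have hv3x := hsg v3 hv3E j
      rw [cel_eq hv3J] at hv3x
      by_cases hs3 : sg (o j) v3 = b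
      · rw [hs3] at hv3x
        have hcel3 : cel L R o B j v3 = cel L R o B j v := by rw [hb2 v3 hv3x, hcel]
        rw [hcel3] at hv3S
        have h6 := hF j D (dc_mono hxx hD1) hv3S
        rw [← hb] at h6
        rw [hD3] at h6
        cases b <;> simp at h6
      · have hs4 : sg (o j) v3 = !b := by
          cases b <;> simpa using hs3
        rw [hs4] at hv3x
        have hcel3 : cel L R o B j v3 = cel L R o B j w0 := by rw [hn2 v3 hv3x, hcelw]
        rw [hcel3] at hv3S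
        exact hD4 (hw.2 D (dc_mono hxx hD1) hv3S)
  refine ⟨t, a', sg, ht, hE ▸ hOri, hE ▸ h1, hQimg ▸ h2, fun v hv => ?_⟩
  have hv2 : t v ∈ Q' := hQimg ▸ mem_image_of_mem t hv
  obtain ⟨h6, h7⟩ := h5 (t v) hv2
  refine ⟨hE ▸ h4 hv2, h6, fun h8 => h7 ?_⟩
  exact (hO1 (t v) (h4 hv2) (t x) h1 true).1 h8

end Pool.Agent.PMC
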