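import Pool.Agent.PMC.StA
import Pool.Agent.PMC.Base

/-!
PMC: (A4) linked cells are cut by the same sets (helper44).
-/

set_option autoImplicit false
set_option linter.unusedVariables false

namespace Pool.Agent.PMC

open FirstOrder.Language Set
open scoped FirstOrder
open Pool.Agent.WOM (tp Mon IsEl IsoM CtU Fx Orb)

section af

variable {L : FirstOrder.Language.{0, 0}} {U : Type} [L.Structure U] {κ : Type}
  {R : κ → U → U → Prop} {o : κ → κ}

private theorem af_sin_ct (hC : Cx L R o) {A : Set U} {j : κ} {u z : U} {g : U ≃[L] U}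
    (hg : Fx L A g) (h : Sin (ct R j u) (cel L R o A j z)) :
    Sin (ct R j (g u)) (cel L R o A j z) := by
  rw [← img_ct hC j u g]
  exact sin_img hC (fx_img_cel hC j z hg) h

private theorem af_sin_ct' (hC : Cx L R o) {A : Set U} {j : κ} {u z : U} {g : U ≃[L] U}
    (hg : Fx L A g) (h : Sin (ct R j (g u)) (cel L R o A j z)) :
    Sin (ct R j u) (cel L R o A j z) := by
  have h1 := af_sin_ct hC (fx_symm hg) h
  rw [g.symm_apply_apply] at h1
  exact h1

private theorem af_fwd (hAT : St_AT) (hC : Cx L R o) (A B : Set U) (i j : κ) (u z : U)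
    (hAB : A ⊆ B) (hB : B.Finite) (hu : Nd L A u) (hs : Sin (ct R j u) (cel L R o A j z))
    (hK : Ct L R o B i (cel L R o A i u)) : Ct L R o B j (cel L R o A j z) := by
  by_contra hno
  have hA : A.Finite := hB.subset hAB
  have hzA : Nd L A z := nd_of_sin hC hs
  have hcel : cel L R o B j z = cel L R o A j z := cel_of_not_ct hC hAB hno
  have hzB : Nd L B z := by
    have h1 := hs
    rw [← hcel] at h1
    exact nd_of_sin hC h1
  obtain ⟨C, hCd, hCs⟩ := hK
  obtain ⟨⟨x0, hx0K, hx0C⟩, ⟨y0, hy0K, hy0C⟩⟩ := id hCs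
  -- the conjugate `u'` outside `C`
  obtain ⟨g0, hg0, hg0l⟩ := move hC hA hu hy0K (mem_cel A i u) true
  rw [lts_true] at hg0l
  have hu'K : g0 u ∈ cel L R o A i u := fx_cel hC i u hg0
  have hu'C : g0 u ∉ C := fun h => hy0C (hCd.2 _ h _ hg0l)
  have hu's : Sin (ct R j (g0 u)) (cel L R o A j z) := af_sin_ct hC hg0 hs
  -- `g` with `u' ∈ g '' C`
  obtain ⟨g, hg, hgl⟩ := move hC hA hu hu'K hx0K true
  rw [lts_true] at hgl
  have hgI : Ini R o i (g '' C) := ini_img hC hCd.2 g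
  have hu'g : g0 u ∈ g '' C := hgI _ ⟨x0, hx0C, rfl⟩ _ hgl
  have hgs : Sin (g '' C) (cel L R o A i u) := sin_img hC (fx_img_cel hC i u hg) hCs
  obtain ⟨_, ⟨p', hp'K, hp'g⟩⟩ := hgs
  -- bounds for the cuts
  have hbd : ∀ v ∈ cel L R o A i u, v ∉ C → v ∈ g '' C → ¬ R (o i) v x0 ∧ ¬ R (o i) p' v := by
    intro v hv hvC hvg
    exact ⟨fun h => hvC (hCd.2 _ hx0C _ h), fun h => hp'g (hgI _ hvg _ h)⟩
  obtain ⟨c, hcJ, hc⟩ := (hAT L U κ R o hC A i j u z false hA hu hzA).2 x0 hx0K p' hp'K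
  obtain ⟨c', hc'J, hc'⟩ := (hAT L U κ R o hC A i j u z true hA hu hzA).2 x0 hx0K p' hp'K
  have hc1 : ∀ v ∈ cel L R o A i u, v ∉ C → v ∈ g '' C → Sin (ct R j v) (cel L R o A j z) →
      c ∈ ct R j v ∧ c' ∉ ct R j v := by
    intro v hv hvC hvg hvs
    obtain ⟨e1, e2⟩ := hbd v hv hvC hvg
    refine ⟨(hc v hv e1 e2 hvs).2 rfl, ?_⟩
    intro h
    have h2 := (hc' v hv e1 e2 hvs).1 h
    exact absurd h2 (by decide)
  -- move over `B` in `J`
  have hc'J' : c' ∈ cel L R o B j z := by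
    rw [hcel]
    exact hc'J
  have hcJ' : c ∈ cel L R o B j z := by
    rw [hcel]
    exact hcJ
  obtain ⟨h, hh, hhl⟩ := move hC hB hzB hc'J' hcJ' true
  rw [lts_true] at hhl
  have hhA : Fx L A h := fx_mono hAB hh
  have hhI : Ini R o i (h '' (g '' C)) := ini_img hC hgI h
  obtain ⟨d1, d2⟩ := hc1 (g0 u) hu'K hu'C hu'g hu's
  rcases ini_total hC hhI hgI with hsub | hsub
  · have e1 : h (g0 u) ∈ cel L R o A i u := (fx_mem_cel hC i _ u hhA).2 hu'K
    have e2 : h (g0 u) ∉ C := fun hh' => hu'C ((def_mem hCd.1 hh _).1 hh')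
    have e3 : h (g0 u) ∈ g '' C := hsub ⟨_, hu'g, rfl⟩
    have e4 : Sin (ct R j (h (g0 u))) (cel L R o A j z) := af_sin_ct hC hhA hu's
    have e5 := (hc1 _ e1 e2 e3 e4).2
    have e6 : h c ∈ ct R j (h (g0 u)) := (mem_ct_img hC j (g0 u) c h).2 d1
    exact e5 (hC.ini j _ _ e6 _ hhl)
  · obtain ⟨v, hvg, hv⟩ := hsub hu'g
    have e1 : v ∈ cel L R o A i u := by
      rw [← fx_mem_cel hC i v u hhA, hv]
      exact hu'K
    have e2 : v ∉ C := by
      intro hvC
      apply hu'C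
      rw [← hv]
      exact (def_mem hCd.1 hh v).2 hvC
    have e4 : Sin (ct R j v) (cel L R o A j z) := by
      apply af_sin_ct' hC hhA
      rw [hv]
      exact hu's
    have e5 := (hc1 v e1 e2 hvg e4).1
    have e6 : h c ∈ ct R j (h v) := (mem_ct_img hC j v c h).2 e5
    rw [hv] at e6
    exact d2 (hC.ini j _ _ e6 _ hhl)

private theorem af_bwd (hAT : St_AT) (hC : Cx L R o) (A B : Set U) (i j : κ) (u z : U)
    (hAB : A ⊆ B) (hB : B.Finite) (hu : Nd L A u) (hs : Sin (ct R j u) (cel L R o A j z))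
    (hJ : Ct L R o B j (cel L R o A j z)) : Ct L R o B i (cel L R o A i u) := by
  by_contra hno
  have hA : A.Finite := hB.subset hAB
  have hzA : Nd L A z := nd_of_sin hC hs
  have hcel : cel L R o B i u = cel L R o A i u := cel_of_not_ct hC hAB hno
  have huB : Nd L B u := by
    by_contra hcon
    rw [cel_def hC hcon i] at hcel
    obtain ⟨y, hy, hy'⟩ := exists_lts hC hA hu (mem_cel A i u) true
    rw [← hcel] at hy
    have hyu : y = u := hy
    rw [hyu] at hy'
    exact lts_irr hC true i u hy'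
  obtain ⟨C, hCd, hCs⟩ := hJ
  obtain ⟨⟨x0, hx0J, hx0C⟩, ⟨y0, hy0J, hy0C⟩⟩ := id hCs
  obtain ⟨⟨x1, hx1J, hx1u⟩, _⟩ := id hs
  -- the conjugate `u'`
  obtain ⟨g0, hg0, hg0l⟩ := move hC hA hzA hy0J hx1J true
  rw [lts_true] at hg0l
  have hu'K : g0 u ∈ cel L R o A i u := fx_cel hC i u hg0
  have hu'y : y0 ∈ ct R j (g0 u) := hC.ini j _ _ ((mem_ct_img hC j u x1 g0).2 hx1u) _ hg0l
  have hu's : Sin (ct R j (g0 u)) (cel L R o A j z) := af_sin_ct hC hg0 hs
  obtain ⟨_, ⟨w, hwJ, hwu⟩⟩ := hu's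
  -- the automorphism `g`
  obtain ⟨g, hg, hgl⟩ := move hC hA hzA hwJ hx0J true
  rw [lts_true] at hgl
  have hgI : Ini R o j (g '' C) := ini_img hC hCd.2 g
  have hwg : w ∈ g '' C := hgI _ ⟨x0, hx0C, rfl⟩ _ hgl
  have hgs : Sin (g '' C) (cel L R o A j z) := sin_img hC (fx_img_cel hC j z hg) hCs
  obtain ⟨_, ⟨c', hc'J, hc'g⟩⟩ := hgs
  obtain ⟨p', hp'K, hp'⟩ := (hAT L U κ R o hC A i j u z true hA hu hzA).1 x0 hx0J c' hc'J
  obtain ⟨p, hpK, hp⟩ := (hAT L U κ R o hC A i j u z false hA hu hzA).1 x0 hx0J c' hc'J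
  have key : ∀ v ∈ cel L R o A i u, (∃ a ∈ cel L R o A j z, a ∈ ct R j v ∧ a ∉ C) →
      (∃ b ∈ cel L R o A j z, b ∈ g '' C ∧ b ∉ ct R j v) → ¬ R (o i) p' v ∧ ¬ R (o i) v p := by
    rintro v hv ⟨a, haJ, hav, haC⟩ ⟨b, hbJ, hbg, hbv⟩
    have e1 : x0 ∈ ct R j v := by
      have hne : x0 ≠ a := by
        rintro rfl
        exact haC hx0C
      rcases hC.tot j x0 a hne with h | h
      · exact hC.ini j v a hav x0 h
      · exact absurd (hCd.2 _ hx0C _ h) haC
    have e2 : c' ∉ ct R j v := by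
      intro hcv
      have hne : c' ≠ b := by
        rintro rfl
        exact hbv hcv
      rcases hC.tot j c' b hne with h | h
      · exact hc'g (hgI _ hbg _ h)
      · exact hbv (hC.ini j v _ hcv _ h)
    refine ⟨?_, ?_⟩
    · have h1 := hp' v hv e1 e2
      rw [lts_true] at h1
      exact h1
    · have h1 := hp v hv e1 e2
      rw [lts_false] at h1
      exact h1
  -- move over `B` in `K`
  have hp'K' : p' ∈ cel L R o B i u := by
    rw [hcel]
    exact hp'K
  have hpK' : p ∈ cel L R o B i u := by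
    rw [hcel]
    exact hpK
  obtain ⟨h, hh, hhl⟩ := move hC hB huB hp'K' hpK' true
  rw [lts_true] at hhl
  have hhA : Fx L A h := fx_mono hAB hh
  have hhI : Ini R o j (h '' (g '' C)) := ini_img hC hgI h
  obtain ⟨d1, d2⟩ := key (g0 u) hu'K ⟨y0, hy0J, hu'y, hy0C⟩ ⟨w, hwJ, hwg, hwu⟩
  -- a point which is neither above `p'` nor below `h p` does not exist
  have fin : ∀ v, ¬ R (o i) p' v → ¬ R (o i) v (h p) → False := by
    intro v h1 h2
    rcases eq_or_ne v (h p) with h3 | h3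
    · rw [h3] at h1
      exact h1 hhl
    · rcases hC.tot i v (h p) h3 with h4 | h4
      · exact h2 h4
      · exact h1 (hC.tra i _ _ _ hhl h4)
  rcases ini_total hC hhI hgI with hsub | hsub
  · have e1 : h (g0 u) ∈ cel L R o A i u := (fx_mem_cel hC i _ u hhA).2 hu'K
    obtain ⟨k1, _⟩ := key (h (g0 u)) e1
      ⟨h y0, (fx_mem_cel hC j y0 z hhA).2 hy0J, (mem_ct_img hC j _ _ h).2 hu'y,
        fun hh' => hy0C ((def_mem hCd.1 hh _).1 hh')⟩
      ⟨h w, (fx_mem_cel hC j w z hhA).2 hwJ, hsub ⟨w, hwg, rfl⟩,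
        fun hh' => hwu ((mem_ct_img hC j _ _ h).1 hh')⟩
    refine fin (h (g0 u)) k1 ?_
    intro hcon
    exact d2 ((R_img hC (o i) _ _ h).1 hcon)
  · have e0 : h (h.symm (g0 u)) = g0 u := h.apply_symm_apply _
    have e1 : h.symm (g0 u) ∈ cel L R o A i u := by
      rw [← fx_mem_cel hC i _ u hhA, e0]
      exact hu'K
    have ey : h (h.symm y0) = y0 := h.apply_symm_apply _
    have ew : h (h.symm w) = w := h.apply_symm_apply _
    obtain ⟨_, k2⟩ := key (h.symm (g0 u)) e1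
      ⟨h.symm y0, by
          rw [← fx_mem_cel hC j _ z hhA, ey]
          exact hy0J, by
          rw [← mem_ct_img hC j _ _ h, ey, e0]
          exact hu'y, by
          intro hh'
          apply hy0C
          rw [← ey]
          exact (def_mem hCd.1 hh _).2 hh'⟩
      ⟨h.symm w, by
          rw [← fx_mem_cel hC j _ z hhA, ew]
          exact hwJ, by
          obtain ⟨w', hw', hw''⟩ := hsub hwg
          rw [← hw'', h.symm_apply_apply]
          exact hw', by
          rw [← mem_ct_img hC j _ _ h, ew, e0]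
          exact hwu⟩
    refine fin (g0 u) d1 ?_
    intro hcon
    apply k2
    rw [← R_img hC (o i) _ _ h, e0]
    exact hcon

end af

theorem thm_AF (h1 : St_AT) : St_AF := by
  intro L U _ κ R o hC A B i j u z hAB hB hu hs
  exact ⟨af_fwd h1 hC A B i j u z hAB hB hu hs, af_bwd h1 hC A B i j u z hAB hB hu hs⟩

end Pool.Agent.PMC
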