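import Pool.Agent.PMC.StA
import Pool.Agent.PMC.Base

/-!
PMC, module AG: a set which contains a point of a piece cuts all its cells.
-/

set_option autoImplicit false
set_option linter.unusedVariables false

namespace Pool.Agent.PMC

open FirstOrder.Language Set
open scoped FirstOrder
open Pool.Agent.WOM (tp Mon IsEl IsoM CtU Fx Orb)

theorem thm_AG (h1 : St_AF) : St_AG := by
  intro L U _ κ R o hC A B w z hAB hB hw hnd hz
  have hA : A.Finite := hB.subset hAB
  have hoo : ∀ (j : κ) (y : U), Ct L R o B (o j) (cel L R o A (o j) y) ↔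
      Ct L R o B j (cel L R o A j y) := by
    intro j y
    unfold Ct
    rw [cel_oo hC]
    constructor
    · rintro ⟨C, hd, hs⟩
      exact ⟨C, (dc_oo hC).1 hd, hs⟩
    · rintro ⟨C, hd, hs⟩
      exact ⟨C, (dc_oo hC).2 hd, hs⟩
  have hw0 : ∀ j, Ct L R o B j (cel L R o A j w) := by
    intro j
    refine ⟨{x | R (o j) x w}, ?_, sin_self hC hA j hnd⟩
    have h2 := lt_dc hC j w B
    rwa [Set.insert_eq_of_mem hw] at h2
  have key : ∀ u y : U, Lk L R o A u y →
      ((∀ j, Ct L R o B j (cel L R o A j u)) ↔ ∀ j, Ct L R o B j (cel L R o A j y)) := by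
    intro u y h
    obtain ⟨hu, hy⟩ := lk_nd hC h
    obtain ⟨j, hj⟩ := h
    have h2 : ∀ i, Ct L R o B i (cel L R o A i u) ↔ Ct L R o B j (cel L R o A j y) :=
      fun i => h1 L U κ R o hC A B i j u y hAB hB hu hj
    have h3 : ∀ j', Ct L R o B j (cel L R o A j y) ↔ Ct L R o B j' (cel L R o A j' y) := by
      intro j'
      rw [← hoo j' y]
      refine h1 L U κ R o hC A B j (o j') y y hAB hB hy ?_
      rw [cel_oo hC]
      exact sin_self hC hA j' hy
    constructor
    · intro h4 j'
      exact (h3 j').1 ((h2 j).1 (h4 j))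
    · intro h4 i
      exact (h2 i).2 (h4 j)
  have hind : ∀ u y : U, Relation.EqvGen (Lk L R o A) u y →
      ((∀ j, Ct L R o B j (cel L R o A j u)) ↔ ∀ j, Ct L R o B j (cel L R o A j y)) := by
    intro u y h
    induction h with
    | rel a b hab => exact key a b hab
    | refl a => exact Iff.rfl
    | symm a b _ ih => exact ih.symm
    | trans a b c _ _ ih1 ih2 => exact ih1.trans ih2
  exact (hind w z hz).1 hw0

end Pool.Agent.PMC
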