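import Pool.Agent.PMC.StD
import Pool.Agent.PMC.Base

/-!
PMC: module ASV, cuts of a point of an extreme piece.
-/

set_option autoImplicit false
set_option linter.unusedVariables false

namespace Pool.Agent.PMC

open FirstOrder.Language Set
open scoped FirstOrder
open Pool.Agent.WOM (tp Mon IsEl IsoM CtU Fx Orb)

section

variable {L : FirstOrder.Language.{0, 0}} {U : Type} [L.Structure U] {κ : Type}
  {R : κ → U → U → Prop} {o : κ → κ}

/-- an automorphism over `A` which preserves the points of the cut `C` inside the cell preserves `C` -/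
private theorem asv_out (hC : Cx L R o) {A C : Set U} {j : κ} {z : U} (hI : Ini R o j C)
    (hS : Sin C (cel L R o A j z)) {g : U ≃[L] U} (hg : Fx L A g)
    (h : ∀ y ∈ cel L R o A j z, y ∈ C → g y ∈ C) : ∀ y ∈ C, g y ∈ C := by
  intro y hy
  by_cases hyK : y ∈ cel L R o A j z
  · exact h y hyK hy
  obtain ⟨⟨p, hpK, hpC⟩, q, hqK, hqC⟩ := hS
  have h1 : ∃ D, Dc L R o A j D ∧ ¬ (y ∈ D ↔ z ∈ D) := by
    by_contra hne
    exact hyK fun D hD => by
      by_contra h2
      exact hne ⟨D, hD, h2⟩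
  obtain ⟨D, hD, hne⟩ := h1
  by_cases hyD : y ∈ D
  · have hzD : z ∉ D := fun hz => hne ⟨fun _ => hz, fun _ => hyD⟩
    have hpD : p ∉ D := fun hp => hzD ((hpK D hD).mp hp)
    have hgy : g y ∈ D := (def_mem hD.1 hg y).mpr hyD
    have hne2 : g y ≠ p := fun he => hpD (he ▸ hgy)
    rcases hC.tot j (g y) p hne2 with h2 | h2
    · exact hI p hpC (g y) h2
    · exact absurd (hD.2 (g y) hgy p h2) hpD
  · have hzD : z ∈ D := by
      by_contra hz
      exact hne ⟨fun hy => absurd hy hyD, fun h => absurd h hz⟩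
    have hqD : q ∈ D := (hqK D hD).mpr hzD
    have hne2 : q ≠ y := fun he => hyD (he ▸ hqD)
    rcases hC.tot j q y hne2 with h2 | h2
    · exact absurd (hI y hy q h2) hqC
    · exact absurd (hD.2 q hqD y h2) hyD

/-- (i) a cut of a point `u1` of `E`, strictly inside no cell of the piece `E` over `B`, is
`B`-definable -/
private theorem asv_i (h1 : St_PRD) (hC : Cx L R o) {A B : Set U} (hA : A.Finite) (hB : B.Finite)
    (hAB : A ⊆ B) {E : Set U} (hE : Cls L R o B E) {u1 z : U} (hu1 : u1 ∈ E) {j : κ} {C : Set U}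
    (hD : Dc L R o (insert u1 A) j C) (hS : Sin C (cel L R o A j z))
    (hn : ∀ v ∈ E, v ∈ cel L R o A j z → ¬ Sin C (cel L R o B j v)) : Dc L R o B j C := by
  refine ⟨def_of_fix hC.mon hB (hA.insert u1) hD.1 fun s hs y hy => ?_, hD.2⟩
  obtain ⟨g, hg, hgE, hgn⟩ := h1 L U κ R o hC B E hB hE s hs
  -- `g⁻¹ ∘ s` fixes `u1` and `A`
  have h2 : Fx L (insert u1 A) (g.symm.comp s) := by
    intro a ha
    show g.symm (s a) = a
    rcases ha with rfl | ha
    · rw [← hgE a hu1]
      exact g.symm_apply_apply a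
    · rw [hs a (hAB ha)]
      exact fx_symm hg a (hAB ha)
  have h3 : g.symm (s y) ∈ C := (def_mem hD.1 h2 y).mpr hy
  have h4 : ∀ y ∈ C, g y ∈ C := by
    refine asv_out hC hD.2 hS (fx_mono hAB hg) fun y hyK hyC => ?_
    by_cases hyE : y ∈ E
    · by_contra hgy
      exact hn y hyE hyK ⟨⟨y, mem_cel B j y, hyC⟩, g y, fx_cel hC j y hg, hgy⟩
    · rw [hgn y hyE]
      exact hyC
  have h5 := h4 _ h3
  rwa [g.apply_symm_apply] at h5

end

theorem thm_ASV (h1 : St_PRD) (h2 : St_EXB) (h3 : St_FAI) (h4 : St_FTW) : St_ASV := by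
  intro L U _ κ R o hC A x z0 hA hx hz0 hz0X sg hO hext u hu z hz j C hCD hCS
  by_contra hcon
  have hn : ∀ v ∈ Pc L R o (insert x A) z0, v ∈ cel L R o A j z →
      ¬ Sin C (cel L R o (insert x A) j v) := fun v hv hvK hS => hcon ⟨v, hv, hvK, hS⟩
  have hB : (insert x A).Finite := hA.insert x
  have hAB : A ⊆ insert x A := Set.subset_insert x A
  set B : Set U := insert x A with hBdef
  set E : Set U := Pc L R o B z0 with hEdef
  set K : Set U := cel L R o A j z with hKdef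
  have hEc : Cls L R o B E := cls_pc B z0
  have hzN : Nd L A z := (pc_nd hC hz).mpr hx
  have huN : Nd L A u := nd_anti hAB (hO.nd u hu)
  have hcelE : ∀ v ∈ E, cel L R o B j v ⊆ E := by
    intro v hv
    have h5 := cel_sub_pc hC hB j v
    rw [pc_eq (A := B) (z := z0) hv] at h5
    exact h5
  -- (i): `C` is `B`-definable
  have hCB : Dc L R o B j C := asv_i h1 hC hA hB hAB hEc hu hCD hCS hn
  set b : Bool := sg (o j) u with hb
  have hX := h2 L U κ R o hC A B j u b hAB hB huN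
  obtain ⟨-, hX2, -, -, hX5, hX6, -⟩ := hX
  have huX : u ∈ ext L R o b B j (cel L R o A j u) := hext u hu j
  have hcu : cel L R o B j u = ext L R o b B j (cel L R o A j u) := hX2 u huX
  -- (ii)
  have hLam : ∀ t : U ≃[L] U, Fx L A t → ∀ p ∈ cel L R o A j u, ∃ g : U ≃[L] U, Fx L A g ∧
      g '' C = t '' C ∧ lts R o b j p (g u) := by
    intro t ht p hp
    have hp' : t.symm p ∈ cel L R o A j u := (fx_mem_cel hC j p u (fx_symm ht)).mpr hp
    obtain ⟨g0, hg0, hl⟩ := hX5 u huX (t.symm p) hp'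
    refine ⟨t.comp g0, fx_comp ht (fx_mono hAB hg0), ?_, ?_⟩
    · have h5 := dc_fix hCB hg0
      calc (t.comp g0) '' C = t '' (g0 '' C) := by
            rw [Set.image_image]
            rfl
        _ = t '' C := by rw [h5]
    · have h6 : ∀ a c : U, R (o j) (t a) (t c) ↔ R (o j) a c := fun a c => R_img hC (o j) a c t
      unfold lts at hl ⊢
      rw [comp_apply']
      split_ifs at hl ⊢ with hbb
      · have := (h6 _ _).mpr hl
        rwa [t.apply_symm_apply] at this
      · have := (h6 _ _).mpr hl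
        rwa [t.apply_symm_apply] at this
  -- (iii)
  have hY := h2 L U κ R o hC A B j z true hAB hB hzN
  obtain ⟨⟨v1, hv1⟩, hY2, -, -, -, hY6, -⟩ := hY
  have hv1K : v1 ∈ K := hv1.1
  obtain ⟨⟨p0, hp0K, hp0C⟩, -⟩ := id hCS
  obtain ⟨t, ht, hlt⟩ := move hC hA hzN hv1K hp0K true
  have hKimg : t '' K = K := fx_img_cel hC j z ht
  have hIni2 : Ini R o j (t '' C) := (dc_img hC hCD t).2
  have hv1C : v1 ∈ t '' C := by
    refine hIni2 (t p0) ⟨p0, hp0C, rfl⟩ v1 ?_
    unfold lts at hlt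
    rwa [if_pos rfl] at hlt
  have hS2K : Sin (t '' C) K := sin_img hC hKimg hCS
  have hS2 : Sin (t '' C) (cel L R o B j v1) := by
    rw [hY2 v1 hv1]
    obtain ⟨-, q, hqK, hqC⟩ := hS2K
    refine ⟨⟨v1, hv1, hv1C⟩, q, hY6 v1 hv1 q hqK ?_, hqC⟩
    unfold lts
    rw [if_pos rfl]
    have hne : v1 ≠ q := fun he => hqC (he ▸ hv1C)
    rcases hC.tot j v1 q hne with h5 | h5
    · exact h5
    · exact absurd (hIni2 v1 hv1C q h5) hqC
  have hDimg : ∀ g : U ≃[L] U, Fx L A g → g '' C = t '' C →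
      Dc L R o (insert (g u) A) j (t '' C) := by
    intro g hg he
    have h5 := dc_img hC hCD g
    have h6 : g '' (insert u A) = insert (g u) A := by
      rw [Set.image_insert_eq]
      congr 1
      ext y
      constructor
      · rintro ⟨a, ha, rfl⟩
        rw [hg a ha]
        exact ha
      · intro hy
        exact ⟨y, hy, hg y hy⟩
    rwa [h6, he] at h5
  obtain ⟨g2, hg2, he2, hl2⟩ := hLam t ht u (mem_cel A j u)
  have hu2 : g2 u ∈ cel L R o B j u := by
    rw [hcu]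
    exact hX6 u huX (g2 u) (fx_cel hC j u hg2) hl2
  have hu2E : g2 u ∈ E := hcelE u hu hu2
  have hD2 := hDimg g2 hg2 he2
  have hex : ∃ v ∈ E, v ∈ K ∧ Sin (t '' C) (cel L R o B j v) := by
    by_contra hne
    have h5 : Dc L R o B j (t '' C) := asv_i h1 hC hA hB hAB hEc hu2E hD2 hS2K
      fun v hv hvK hS => hne ⟨v, hv, hvK, hS⟩
    exact not_sin_cel h5 v1 hS2
  obtain ⟨v, hvE, hvK, hvS⟩ := hex
  have hv1E : v1 ∈ E := by
    have h5 := cel_eq_of_sin hC hIni2 hS2 hvS
    exact hcelE v hvE (h5 ▸ mem_cel B j v1)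
  obtain ⟨-, -, -, hF4, -, -, hF7, -⟩ := h3 L U κ R o hC B E sg hO
  obtain ⟨p, hp, hpF⟩ := hF4 (g2 u) hu2E u hu j true
  have hpE : p ∈ E := hcelE u hu hp
  obtain ⟨g3, hg3, he3, hl3⟩ := hLam t ht p (cel_anti hAB j u hp)
  have hpX : p ∈ ext L R o b B j (cel L R o A j u) := hcu ▸ hp
  have hu3 : g3 u ∈ cel L R o B j u := by
    rw [hcu]
    exact hX6 p hpX (g3 u) (fx_cel hC j u hg3) hl3
  have hu3E : g3 u ∈ E := hcelE u hu hu3
  have hsp : sg (o j) p = b := hO.cst j u hu p hp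
  have hF : Fa L R o B sg true (g2 u) (g3 u) := by
    refine hF7 (g2 u) hu2E p hpE j true (g3 u) ?_ hpF ?_
    · rw [cel_eq hp]
      exact hu3
    · unfold sd
      rw [if_pos rfl, hsp]
      exact hl3
  have hsub : ∀ w : U, insert w A ⊆ insert w B := fun w => Set.insert_subset_insert hAB
  obtain ⟨y, hy, hy1, hy2⟩ := h4 L U κ R o hC B E sg hO (g2 u) hu2E (g3 u) hu3E true hF v1 hv1E j
    (t '' C) (t '' C) (dc_mono (hsub _) (hDimg g3 hg3 he3)) (dc_mono (hsub _) hD2) hS2 hS2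
  cases hs : sg (o j) v1
  · rw [hs] at hy1 hy2
    exact (hy1.mp (hy2.mpr (by decide))) rfl
  · rw [hs] at hy1 hy2
    exact (hy2.mp (hy1.mpr (by decide))) rfl

end Pool.Agent.PMC
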