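import Pool.Agent.PMC.StA
import Pool.Agent.PMC.Base

/-!
PMC: [AT] middle sets are bounded.
-/

set_option autoImplicit false
set_option linter.unusedVariables false

namespace Pool.Agent.PMC

open FirstOrder.Language Set
open scoped FirstOrder
open Pool.Agent.WOM (tp Mon IsEl IsoM CtU Fx Orb)

section

variable {L : FirstOrder.Language.{0, 0}} {U : Type} [L.Structure U] {κ : Type}
  {R : κ → U → U → Prop} {o : κ → κ}

private theorem AT_tri (hC : Cx L R o) (b : Bool) (j : κ) (x y : U) :
    x = y ∨ lts R o b j x y ∨ lts R o b j y x := by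
  by_cases h : x = y
  · exact Or.inl h
  · right
    cases b
    · rcases hC.tot j x y h with h1 | h1
      · exact Or.inr h1
      · exact Or.inl h1
    · exact hC.tot j x y h

private theorem AT_tra (hC : Cx L R o) (b : Bool) (j : κ) {x y z : U} (h1 : lts R o b j x y)
    (h2 : lts R o b j y z) : lts R o b j x z := by
  cases b
  · exact hC.tra j z y x h2 h1
  · exact hC.tra j x y z h1 h2

private theorem AT_lt_nlt (hC : Cx L R o) (j : κ) {x y z : U} (h1 : R (o j) x y)
    (h2 : ¬ R (o j) z y) : R (o j) x z := by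
  by_cases h : y = z
  · rwa [← h]
  · rcases hC.tot j y z h with h3 | h3
    · exact hC.tra j _ _ _ h1 h3
    · exact absurd h3 h2

private theorem AT_nlt_lt (hC : Cx L R o) (j : κ) {x y z : U} (h1 : ¬ R (o j) y x)
    (h2 : R (o j) y z) : R (o j) x z := by
  by_cases h : x = y
  · rwa [h]
  · rcases hC.tot j x y h with h3 | h3
    · exact hC.tra j _ _ _ h3 h2
    · exact absurd h3 h1

/-- separated by a cut -/
private theorem AT_sep (hC : Cx L R o) (b : Bool) (j : κ) (u : U) {x y : U}
    (h1 : ¬ (x ∈ ct R j u ↔ b = false)) (h2 : y ∈ ct R j u ↔ b = false) : lts R o b j x y := by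
  rcases AT_tri hC b j x y with h | h | h
  · rw [h] at h1
    exact absurd h2 h1
  · exact h
  · cases b
    · -- `x ∉ C`, `y ∈ C`
      have hy : y ∈ ct R j u := h2.2 rfl
      have hx : x ∉ ct R j u := fun hx => h1 ⟨fun _ => rfl, fun _ => hx⟩
      exact absurd (ini' hC j u y hy x h) hx
    · have hy : y ∉ ct R j u := fun hy => Bool.noConfusion (h2.1 hy)
      have hx : x ∈ ct R j u := by
        by_contra hx
        exact h1 ⟨fun h => absurd h hx, fun h => Bool.noConfusion h⟩
      exact absurd (ini' hC j u x hx y h) hy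

private theorem AT_prop (hC : Cx L R o) (b : Bool) (j : κ) (u : U) {x y : U}
    (h1 : x ∈ ct R j u ↔ b = false) (h2 : lts R o b j x y) : y ∈ ct R j u ↔ b = false := by
  cases b
  · exact ⟨fun _ => rfl, fun _ => ini' hC j u x (h1.2 rfl) y h2⟩
  · refine ⟨fun hy => ?_, fun h => Bool.noConfusion h⟩
    exact h1.1 (ini' hC j u y hy x h2)

/-- moving -/
private theorem AT_seq (hC : Cx L R o) {A : Set U} (hA : A.Finite) {j : κ} {z c c' : U}
    (hz : Nd L A z) (hc : c ∈ cel L R o A j z) (hc' : c' ∈ cel L R o A j z)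
    (hcc : ¬ R (o j) c' c) :
    ∃ g : ℕ → (U ≃[L] U), (∀ m, Fx L A (g m)) ∧ ∀ m m', m < m' → R (o j) (g m c') (g m' c) := by
  have step : ∀ g : {g : U ≃[L] U // Fx L A g}, ∃ g' : {g : U ≃[L] U // Fx L A g},
      R (o j) (g.1 c') (g'.1 c) := by
    intro g
    obtain ⟨g', h1, h2⟩ := move hC hA (j := j) (x := g.1 c') (y := c) hz
      ((fx_mem_cel hC j c' z g.2).2 hc') hc true
    exact ⟨⟨g', h1⟩, h2⟩
  choose nxt hn using step
  let G : ℕ → {g : U ≃[L] U // Fx L A g} := fun n =>
    Nat.rec ⟨FirstOrder.Language.Equiv.refl L U, fx_refl A⟩ (fun _ g => nxt g) n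
  have hG : ∀ n, R (o j) ((G n).1 c') ((G (n + 1)).1 c) := fun n => hn (G n)
  refine ⟨fun n => (G n).1, fun n => (G n).2, fun m m' hm => ?_⟩
  induction m' with
  | zero => exact absurd hm (Nat.not_lt_zero _)
  | succ m' ih =>
    rcases Nat.lt_succ_iff_lt_or_eq.1 hm with h | h
    · have h1 := ih h
      have h2 : ¬ R (o j) ((G m').1 c') ((G m').1 c) := by
        rw [R_img hC]
        exact hcc
      exact hC.tra j _ _ _ (AT_lt_nlt hC j h1 h2) (hG m')
    · rw [h]
      exact hG m'

/-- bounds of finitely many points -/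
private theorem AT_bd (hC : Cx L R o) (b : Bool) {A : Set U} {i : κ} {a : U} (v : ℕ → U)
    (hv : ∀ m, v m ∈ cel L R o A i a) (n : ℕ) : ∃ q ∈ cel L R o A i a, ∀ m < n,
      v m = q ∨ lts R o b i (v m) q := by
  induction n with
  | zero => exact ⟨v 0, hv 0, fun m hm => absurd hm (Nat.not_lt_zero _)⟩
  | succ n ih =>
    obtain ⟨q, hq, h⟩ := ih
    rcases AT_tri hC b i q (v n) with h1 | h1 | h1
    · refine ⟨q, hq, fun m hm => ?_⟩
      rcases Nat.lt_succ_iff_lt_or_eq.1 hm with h2 | h2
      · exact h m h2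
      · rw [h2, h1]
        exact Or.inl rfl
    · refine ⟨v n, hv n, fun m hm => ?_⟩
      rcases Nat.lt_succ_iff_lt_or_eq.1 hm with h2 | h2
      · rcases h m h2 with h3 | h3
        · rw [h3]
          exact Or.inr h1
        · exact Or.inr (AT_tra hC b i h3 h1)
      · rw [h2]
        exact Or.inl rfl
    · refine ⟨q, hq, fun m hm => ?_⟩
      rcases Nat.lt_succ_iff_lt_or_eq.1 hm with h2 | h2
      · exact h m h2
      · rw [h2]
        exact Or.inr h1

/-- a point beyond finitely many cuts -/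
private theorem AT_bc (hC : Cx L R o) (b : Bool) {A : Set U} {j : κ} {z : U} (v : ℕ → U)
    (hv : ∀ m, Sin (ct R j (v m)) (cel L R o A j z)) (n : ℕ) : ∃ q ∈ cel L R o A j z, ∀ m < n,
      (q ∈ ct R j (v m) ↔ b = false) := by
  have h0 : ∀ m, ∃ y ∈ cel L R o A j z, (y ∈ ct R j (v m) ↔ b = false) := by
    intro m
    obtain ⟨⟨x, hx, hx'⟩, y, hy, hy'⟩ := hv m
    cases b
    · exact ⟨x, hx, fun _ => rfl, fun _ => hx'⟩
    · exact ⟨y, hy, fun h => absurd h hy', fun h => Bool.noConfusion h⟩
  induction n with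
  | zero => exact ⟨z, mem_cel A j z, fun m hm => absurd hm (Nat.not_lt_zero _)⟩
  | succ n ih =>
    obtain ⟨q, hq, h⟩ := ih
    obtain ⟨y, hy, hy'⟩ := h0 n
    rcases AT_tri hC b j q y with h1 | h1 | h1
    · refine ⟨q, hq, fun m hm => ?_⟩
      rcases Nat.lt_succ_iff_lt_or_eq.1 hm with h2 | h2
      · exact h m h2
      · rw [h2, h1]
        exact hy'
    · refine ⟨y, hy, fun m hm => ?_⟩
      rcases Nat.lt_succ_iff_lt_or_eq.1 hm with h2 | h2
      · exact AT_prop hC b j _ (h m h2) h1
      · rw [h2]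
        exact hy'
    · refine ⟨q, hq, fun m hm => ?_⟩
      rcases Nat.lt_succ_iff_lt_or_eq.1 hm with h2 | h2
      · exact h m h2
      · rw [h2]
        exact AT_prop hC b j _ hy' h1

/-- no grids, for sequences -/
private theorem AT_grid (hC : Cx L R o) (i j : κ) (b d : Bool) : ∃ k : ℕ, ∀ x : ℕ → ℕ → U,
    ¬ ((∀ m m' n n', m < m' → m' < k → n < k → n' < k → lts R o b i (x m n) (x m' n')) ∧
      ∀ m m' n n', n < n' → n' < k → m < k → m' < k → ∃ z,
        if d = true then R j z (x m' n') ∧ ¬ R j z (x m n)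
        else R j z (x m n) ∧ ¬ R j z (x m' n')) := by
  obtain ⟨k, hk⟩ := hC.grd i j
  refine ⟨k, fun x hx => hk ?_⟩
  obtain ⟨h1, h2⟩ := hx
  let f : Bool → Fin k → ℕ := fun c a => if c = true then a else k - 1 - a
  have hf : ∀ c a, f c a < k := by
    intro c a
    have := a.2
    cases c
    · show k - 1 - (a : ℕ) < k
      omega
    · exact a.2
  refine ⟨fun a c => x (f b a) (f d c), ?_, ?_⟩
  · intro a a' c c' haa
    have ha := a.2
    have ha' := a'.2
    have haa' : (a : ℕ) < a' := haa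
    cases b
    · have h3 : f false a' < f false a := by
        show k - 1 - (a' : ℕ) < k - 1 - (a : ℕ)
        omega
      exact h1 _ _ (f d c') (f d c) h3 (hf _ _) (hf _ _) (hf _ _)
    · exact h1 _ _ (f d c) (f d c') haa (hf _ _) (hf _ _) (hf _ _)
  · intro a a' c c' hcc
    have hc := c.2
    have hc' := c'.2
    have hcc' : (c : ℕ) < c' := hcc
    cases d
    · have h3 : f false c' < f false c := by
        show k - 1 - (c' : ℕ) < k - 1 - (c : ℕ)
        omega
      obtain ⟨z, hz⟩ := h2 (f b a') (f b a) _ _ h3 (hf _ _) (hf _ _) (hf _ _)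
      rw [if_neg (by simp)] at hz
      exact ⟨z, hz⟩
    · obtain ⟨z, hz⟩ := h2 (f b a) (f b a') (f true c) (f true c') hcc (hf _ _) (hf _ _) (hf _ _)
      rw [if_pos rfl] at hz
      exact ⟨z, hz⟩

end

/-- [AT] -/
theorem thm_AT : St_AT := by
  intro L U _ κ R o hC A i j a z b hA ha hz
  refine ⟨fun c hc c' hc' => ?_, fun p hp p' hp' => ?_⟩
  · -- part (1)
    by_contra hcon
    push Not at hcon
    obtain ⟨u0, hu0, hcu, hcu', -⟩ := hcon a (mem_cel A i a)
    have hcc : ¬ R (o j) c' c := fun h => hcu' (ini' hC j u0 c hcu c' h)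
    obtain ⟨g, hg, hgg⟩ := AT_seq hC hA hz hc hc' hcc
    have hex : ∀ p : {p // p ∈ cel L R o A i a}, ∀ m : ℕ, ∃ u, u ∈ cel L R o A i a ∧
        g m c ∈ ct R j u ∧ g m c' ∉ ct R j u ∧ lts R o b i p.1 u := by
      rintro ⟨p, hp⟩ m
      have hs := fx_symm (hg m)
      obtain ⟨u, h1, h2, h3, h4⟩ := hcon ((g m).symm p) ((fx_mem_cel hC i p a hs).2 hp)
      refine ⟨g m u, (fx_mem_cel hC i u a (hg m)).2 h1, (mem_ct_img hC j u c (g m)).2 h2,
        fun h => h3 ((mem_ct_img hC j u c' (g m)).1 h), ?_⟩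
      have h5 : g m ((g m).symm p) = p := (g m).apply_symm_apply p
      cases b
      · show R (o i) (g m u) p
        rw [← h5, R_img hC]
        exact h4
      · show R (o i) p (g m u)
        rw [← h5, R_img hC]
        exact h4
    choose u hu1 hu2 hu3 hu4 using hex
    obtain ⟨k, hk⟩ := AT_grid hC i j b true
    have hq : ∀ p : {p // p ∈ cel L R o A i a}, ∃ q : {p // p ∈ cel L R o A i a},
        ∀ m < k + 1, u p m = q.1 ∨ lts R o b i (u p m) q.1 := by
      intro p
      obtain ⟨q, h1, h2⟩ := AT_bd hC b (u p) (hu1 p) (k + 1)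
      exact ⟨⟨q, h1⟩, h2⟩
    choose nx hnx using hq
    let P : ℕ → {p // p ∈ cel L R o A i a} := fun n =>
      Nat.rec ⟨a, mem_cel A i a⟩ (fun _ p => nx p) n
    have hP : ∀ n, P (n + 1) = nx (P n) := fun n => rfl
    have hlt : ∀ n n', n < n' → ∀ m < k + 1, u (P n) m = (P n').1 ∨
        lts R o b i (u (P n) m) (P n').1 := by
      intro n n' hn
      induction n' with
      | zero => exact absurd hn (Nat.not_lt_zero _)
      | succ n' ih =>
        intro m hm
        rcases Nat.lt_succ_iff_lt_or_eq.1 hn with h | h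
        · have h1 : lts R o b i (u (P n) m) (u (P n') 0) := by
            rcases ih h m hm with h2 | h2
            · rw [h2]
              exact hu4 (P n') 0
            · exact AT_tra hC b i h2 (hu4 (P n') 0)
          right
          rcases hnx (P n') 0 (Nat.succ_pos k) with h2 | h2
          · rw [hP, ← h2]
            exact h1
          · rw [hP]
            exact AT_tra hC b i h1 h2
        · rw [h]
          exact hnx (P n') m hm
    refine hk (fun n m => u (P n) m) ⟨?_, ?_⟩
    · intro n n' m m' hn _ hm _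
      rcases hlt n n' hn m (by omega) with h | h
      · show lts R o b i (u (P n) m) _
        rw [h]
        exact hu4 (P n') m'
      · exact AT_tra hC b i h (hu4 (P n') m')
    · intro n n' m m' hm _ _ _
      refine ⟨g m c', ?_⟩
      rw [if_pos rfl]
      exact ⟨ini' hC j _ _ (hu2 (P n') m') _ (hgg m m' hm), hu3 (P n) m⟩
  · -- part (2)
    by_contra hcon
    push Not at hcon
    have hcon' : ∀ c ∈ cel L R o A j z, ∃ u ∈ cel L R o A i a, ¬ R (o i) u p ∧ ¬ R (o i) p' u ∧
        Sin (ct R j u) (cel L R o A j z) ∧ ¬ (c ∈ ct R j u ↔ b = false) := by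
      by_contra h
      push Not at h
      obtain ⟨c, hc, h⟩ := h
      exact absurd (fun u h1 h2 h3 h4 => h u h1 h2 h3 h4) (by
        intro hh
        obtain ⟨u, h1, h2, h3, h4, h5⟩ := hcon c hc
        have h6 := hh u h1 h2 h3 h4
        rcases h5 with ⟨h7, h8⟩ | ⟨h7, h8⟩
        · exact h8 (h6.1 h7)
        · exact h7 (h6.2 h8))
    clear hcon
    obtain ⟨u0, hu0, h1, h2, -, -⟩ := hcon' z (mem_cel A j z)
    have hpp : ¬ R (o i) p' p := fun h => h2 (AT_lt_nlt hC i h h1)
    obtain ⟨g, hg, hgg⟩ := AT_seq hC hA ha hp hp' hpp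
    have hex : ∀ c : {c // c ∈ cel L R o A j z}, ∀ m : ℕ, ∃ u, ¬ R (o i) u (g m p) ∧
        ¬ R (o i) (g m p') u ∧ Sin (ct R j u) (cel L R o A j z) ∧
        ¬ (c.1 ∈ ct R j u ↔ b = false) := by
      rintro ⟨c, hc⟩ m
      have hs := fx_symm (hg m)
      obtain ⟨u, -, h2, h3, h4, h5⟩ := hcon' ((g m).symm c) ((fx_mem_cel hC j c z hs).2 hc)
      refine ⟨g m u, ?_, ?_, ?_, ?_⟩
      · rw [R_img hC]
        exact h2
      · rw [R_img hC]
        exact h3
      · rw [← img_ct hC]
        exact sin_img hC (fx_img_cel hC j z (hg m)) h4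
      · have h6 : g m ((g m).symm c) = c := (g m).apply_symm_apply c
        have h7 := mem_ct_img hC j u ((g m).symm c) (g m)
        rw [h6] at h7
        rw [h7]
        exact h5
    choose u hu1 hu2 hu3 hu4 using hex
    obtain ⟨k, hk⟩ := AT_grid hC i j true b
    have hq : ∀ c : {c // c ∈ cel L R o A j z}, ∃ q : {c // c ∈ cel L R o A j z},
        ∀ m < k + 1, (q.1 ∈ ct R j (u c m) ↔ b = false) := by
      intro c
      obtain ⟨q, h1, h2⟩ := AT_bc hC b (u c) (hu3 c) (k + 1)
      exact ⟨⟨q, h1⟩, h2⟩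
    choose nx hnx using hq
    let P : ℕ → {c // c ∈ cel L R o A j z} := fun n =>
      Nat.rec ⟨z, mem_cel A j z⟩ (fun _ p => nx p) n
    have hP : ∀ n, P (n + 1) = nx (P n) := fun n => rfl
    have hin : ∀ n n', n < n' → ∀ m < k + 1, ((P n').1 ∈ ct R j (u (P n) m) ↔ b = false) := by
      intro n n' hn
      induction n' with
      | zero => exact absurd hn (Nat.not_lt_zero _)
      | succ n' ih =>
        intro m hm
        rcases Nat.lt_succ_iff_lt_or_eq.1 hn with h | h
        · refine AT_prop hC b j _ (ih h m hm) ?_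
          exact AT_sep hC b j _ (hu4 (P n') 0) (hnx (P n') 0 (Nat.succ_pos k))
        · rw [h]
          exact hnx (P n') m hm
    refine hk (fun m n => u (P n) m) ⟨?_, ?_⟩
    · intro m m' n n' hm _ _ _
      have h1 := hgg m m' hm
      have h3 : R (o i) (u (P n) m) (g m' p) := AT_nlt_lt hC i (hu2 (P n) m) h1
      exact AT_lt_nlt hC i h3 (hu1 (P n') m')
    · intro m m' n n' hn hn' hm hm'
      refine ⟨(P n').1, ?_⟩
      have h1 := hin n n' hn m (by omega)
      have h2 := hu4 (P n') m'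
      cases b
      · rw [if_neg (by simp)]
        exact ⟨h1.2 rfl, fun h => h2 ⟨fun _ => rfl, fun _ => h⟩⟩
      · rw [if_pos rfl]
        refine ⟨?_, fun h => Bool.noConfusion (h1.1 h)⟩
        by_contra h
        exact h2 ⟨fun h' => absurd h' h, fun h' => Bool.noConfusion h'⟩

end Pool.Agent.PMC
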