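import Pool.Agent.PMC.StA
import Pool.Agent.PMC.Base

/-!
PMC: [AV] extreme points have extreme cuts, and conversely.
-/

set_option autoImplicit false
set_option linter.unusedVariables false

namespace Pool.Agent.PMC

open FirstOrder.Language Set
open scoped FirstOrder
open Pool.Agent.WOM (tp Mon IsEl IsoM CtU Fx Orb)

section

variable {L : FirstOrder.Language.{0, 0}} {U : Type} [L.Structure U] {κ : Type}
  {R : κ → U → U → Prop} {o : κ → κ}

/-- extreme segments are invariant -/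
private theorem AV_ext (hC : Cx L R o) {A B : Set U} (hAB : A ⊆ B) {j : κ} {z : U} {b : Bool}
    {g : U ≃[L] U} (hg : Fx L B g) {v : U} (hv : v ∈ ext L R o b B j (cel L R o A j z)) :
    g v ∈ ext L R o b B j (cel L R o A j z) :=
  ⟨(fx_mem_cel hC j v z (fx_mono hAB hg)).2 hv.1, fun C hD hS =>
    (def_mem hD.1 hg v).trans (hv.2 C hD hS)⟩

/-- `x` in the cut, `y` not in the cut -/
private theorem AV_lt (hC : Cx L R o) {j : κ} {u x y : U} (hx : x ∈ ct R j u)
    (hy : y ∉ ct R j u) : R (o j) x y := by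
  have hne : x ≠ y := fun h => hy (h ▸ hx)
  rcases hC.tot j x y hne with h | h
  · exact h
  · exact absurd (ini' hC j u x hx y h) hy

end

theorem thm_AV (h1 : St_AT) (h2 : St_EXB) : St_AV := by
  intro L U _ κ R o hC A B i j u z hAB hB hu hS
  have hA : A.Finite := hB.subset hAB
  have hz : Nd L A z := nd_of_sin hC hS
  constructor
  · rintro ⟨b, hb⟩
    by_contra hno
    push Not at hno
    obtain ⟨e1, -, -, -, -, e6, -⟩ := h2 L U κ R o hC A B j z true hAB hB hz
    obtain ⟨f1, -, -, -, -, f6, -⟩ := h2 L U κ R o hC A B j z false hAB hB hz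
    obtain ⟨-, -, -, -, k5, -, -⟩ := h2 L U κ R o hC A B i u b hAB hB hu
    obtain ⟨⟨x, hxJ, hx⟩, ⟨y, hyJ, hy⟩⟩ := hS
    -- the lower extreme segment is in the cut
    have hlow : ∀ v ∈ ext L R o false B j (cel L R o A j z), v ∈ ct R j u := by
      intro v hv
      by_contra hvn
      have hxv : lts R o false j v x := AV_lt hC hx hvn
      exact hno false ⟨⟨x, f6 v hv x hxJ hxv, hx⟩, ⟨v, hv, hvn⟩⟩
    have hupp : ∀ v ∈ ext L R o true B j (cel L R o A j z), v ∉ ct R j u := by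
      intro v hv hvn
      have hxv : lts R o true j v y := AV_lt hC hvn hy
      exact hno true ⟨⟨v, hv, hvn⟩, ⟨y, e6 v hv y hyJ hxv, hy⟩⟩
    obtain ⟨c', hc'⟩ := e1
    obtain ⟨c, hc⟩ := f1
    obtain ⟨a1, -⟩ := h1 L U κ R o hC A i j u z b hA hu hz
    obtain ⟨p, hp, hpq⟩ := a1 c hc.1 c' hc'.1
    obtain ⟨g, hg, hlt⟩ := k5 u hb p hp
    have hgi : Fx L B g.symm := fx_symm hg
    refine hpq (g u) (fx_cel hC i u (fx_mono hAB hg)) ?_ ?_ hlt
    · have := (mem_ct_img hC j u (g.symm c) g).2 (hlow _ (AV_ext hC hAB hgi hc))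
      rwa [g.apply_symm_apply] at this
    · intro hcc
      have := (mem_ct_img hC j u (g.symm c') g).1 (by rwa [g.apply_symm_apply])
      exact hupp _ (AV_ext hC hAB hgi hc') this
  · rintro ⟨b, hb⟩
    by_contra hno
    push Not at hno
    have huK : u ∈ cel L R o A i u := mem_cel A i u
    have ht := hno true
    have hf := hno false
    have ht' : ∃ C', Dc L R o B i C' ∧ Sin C' (cel L R o A i u) ∧ u ∈ C' := by
      by_contra hcon
      push Not at hcon
      refine ht ⟨huK, fun C hD hS' => ?_⟩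
      exact ⟨fun h => absurd h (hcon C hD hS'), fun h => Bool.noConfusion h⟩
    have hf' : ∃ C, Dc L R o B i C ∧ Sin C (cel L R o A i u) ∧ u ∉ C := by
      by_contra hcon
      push Not at hcon
      refine hf ⟨huK, fun C hD hS' => ?_⟩
      exact ⟨fun _ => rfl, fun _ => hcon C hD hS'⟩
    obtain ⟨C', hD', ⟨-, ⟨p', hp'K, hp'⟩⟩, huC'⟩ := ht'
    obtain ⟨C, hD, ⟨⟨p, hpK, hp⟩, -⟩, huC⟩ := hf'
    obtain ⟨-, a2⟩ := h1 L U κ R o hC A i j u z b hA hu hz
    obtain ⟨c, hc, hcc⟩ := a2 p hpK p' hp'K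
    have key : ∀ g : U ≃[L] U, Fx L B g → (c ∈ ct R j (g u) ↔ b = false) := by
      intro g hg
      have hgA := fx_mono hAB hg
      refine hcc (g u) (fx_cel hC i u hgA) ?_ ?_ ?_
      · intro hlt
        exact huC ((def_mem hD.1 hg u).1 (hD.2 p hp (g u) hlt))
      · intro hlt
        exact hp' (hD'.2 (g u) ((def_mem hD'.1 hg u).2 huC') p' hlt)
      · have := sin_img hC (fx_img_cel hC j z hgA) hS
        rwa [img_ct hC] at this
    obtain ⟨-, -, -, -, k5, -, -⟩ := h2 L U κ R o hC A B j z b hAB hB hz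
    cases b
    · obtain ⟨-, ⟨y, hy, hyn⟩⟩ := hb
      obtain ⟨g, hg, hlt⟩ := k5 y hy c hc
      have h3 : c ∈ ct R j (g u) := (key g hg).2 rfl
      exact hyn ((mem_ct_img hC j u y g).1 (ini' hC j (g u) c h3 (g y) hlt))
    · obtain ⟨⟨y, hy, hyn⟩, -⟩ := hb
      obtain ⟨g, hg, hlt⟩ := k5 y hy c hc
      have h3 : g y ∈ ct R j (g u) := (mem_ct_img hC j u y g).2 hyn
      exact Bool.noConfusion ((key g hg).1 (ini' hC j (g u) (g y) h3 c hlt))

end Pool.Agent.PMC
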