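import Pool.Agent.PMC.Base
import Pool.Agent.PMC.StB

/-!
PMC: [BTW] points between finite sets.
-/

set_option autoImplicit false
set_option linter.unusedVariables false

namespace Pool.Agent.PMC

open FirstOrder.Language Set
open scoped FirstOrder
open Pool.Agent.WOM (tp Mon IsEl IsoM CtU Fx Orb)

/-- a finite nonempty chain of sets has a least member -/
private theorem BTW_least {U : Type} {G : Set (Set U)} (hG : G.Finite) :
    (∀ a ∈ G, ∀ b ∈ G, a ⊆ b ∨ b ⊆ a) → G.Nonempty → ∃ m ∈ G, ∀ s ∈ G, m ⊆ s := by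
  refine Set.Finite.induction_on G hG ?_ ?_
  · rintro - ⟨x, hx⟩
    exact absurd hx (Set.notMem_empty x)
  · intro a S ha hS ih hch _
    by_cases hne : S.Nonempty
    · obtain ⟨m, hm, hmin⟩ := ih (fun x hx y hy => hch x (Set.mem_insert_of_mem a hx) y
        (Set.mem_insert_of_mem a hy)) hne
      rcases hch a (Set.mem_insert a S) m (Set.mem_insert_of_mem a hm) with h | h
      · refine ⟨a, Set.mem_insert a S, fun s hs => ?_⟩
        rcases hs with rfl | hs
        · exact fun _ hx => hx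
        · exact h.trans (hmin s hs)
      · refine ⟨m, Set.mem_insert_of_mem a hm, fun s hs => ?_⟩
        rcases hs with rfl | hs
        · exact h
        · exact hmin s hs
    · refine ⟨a, Set.mem_insert a S, fun s hs => ?_⟩
      rcases hs with rfl | hs
      · exact fun _ hx => hx
      · exact absurd ⟨s, hs⟩ hne

/-- the side of a cut -/
private def BTW_side {U : Type} (s b : Bool) (C : Set U) : Set U := {y | y ∈ C ↔ s ≠ b}

private theorem BTW_side_eq {U : Type} (s b : Bool) (C : Set U) :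
    BTW_side s b C = if s = b then Cᶜ else C := by
  ext y
  by_cases h : s = b
  · simp [BTW_side, h]
  · simp [BTW_side, h]

private theorem BTW_side_mono {U : Type} (s b : Bool) {C C' : Set U} (h : C ⊆ C' ∨ C' ⊆ C) :
    BTW_side s b C ⊆ BTW_side s b C' ∨ BTW_side s b C' ⊆ BTW_side s b C := by
  rw [BTW_side_eq, BTW_side_eq]
  by_cases hs : s = b
  · rw [if_pos hs, if_pos hs]
    rcases h with h | h
    · exact Or.inr (Set.compl_subset_compl.2 h)
    · exact Or.inl (Set.compl_subset_compl.2 h)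
  · rw [if_neg hs, if_neg hs]
    exact h

private theorem BTW_side_def {L : FirstOrder.Language.{0, 0}} {U : Type} [L.Structure U]
    {B : Set U} (s b : Bool) {C : Set U} (h : B.Definable₁ L C) :
    B.Definable₁ L (BTW_side s b C) := by
  rw [BTW_side_eq]
  split_ifs
  · exact def_compl h
  · exact h

private theorem BTW_side_sin {U : Type} (s b : Bool) {C K : Set U} (h : Sin C K) :
    ∃ x ∈ K, x ∈ BTW_side s b C := by
  rw [BTW_side_eq]
  obtain ⟨⟨x, hx, hxC⟩, y, hy, hyC⟩ := h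
  split_ifs
  · exact ⟨y, hy, hyC⟩
  · exact ⟨x, hx, hxC⟩

theorem thm_BTW (h1 : St_FAI) (h2 : St_FTW) (h3 : St_ORD) : St_BTW := by
  intro L U _ κ R o hC A E sg hO D V hD hV hDE hVE hLL z hz j
  obtain ⟨-, hFa, -⟩ := h1 L U κ R o hC A E sg hO
  obtain ⟨hsym, -⟩ := h3 L U κ R o hC A E sg hO
  have hftw := h2 L U κ R o hC A E sg hO
  set K := cel L R o A j z with hK
  set s := sg (o j) z with hs
  have hB : (A ∪ D ∪ V).Finite := (hO.fin.union hD).union hV
  let F1 : Set (Set U) := {S | ∃ d ∈ D, ∃ C, Dc L R o (insert d A) j C ∧ Sin C K ∧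
    S = BTW_side s true C}
  let F2 : Set (Set U) := {S | ∃ v ∈ V, ∃ C, Dc L R o (insert v A) j C ∧ Sin C K ∧
    S = BTW_side s false C}
  have hdef : ∀ S ∈ F1 ∪ F2, (A ∪ D ∪ V).Definable₁ L S := by
    rintro S (⟨d, hd, C, hCd, -, rfl⟩ | ⟨v, hv, C, hCd, -, rfl⟩)
    · refine BTW_side_def s true (def_mono ?_ hCd.1)
      rintro x (rfl | hx)
      · exact Or.inl (Or.inr hd)
      · exact Or.inl (Or.inl hx)
    · refine BTW_side_def s false (def_mono ?_ hCd.1)
      rintro x (rfl | hx)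
      · exact Or.inr hv
      · exact Or.inl (Or.inl hx)
  have hfin : ∀ G ⊆ F1 ∪ F2, G.Finite → ∃ v ∈ cel L R o A j z, ∀ S ∈ G, v ∈ S := by
    intro G hG hGf
    have hch1 : ∀ a ∈ G ∩ F1, ∀ b ∈ G ∩ F1, a ⊆ b ∨ b ⊆ a := by
      rintro a ⟨-, d, -, C, hCd, -, rfl⟩ b ⟨-, d', -, C', hCd', -, rfl⟩
      exact BTW_side_mono s true (ini_total hC hCd.2 hCd'.2)
    have hch2 : ∀ a ∈ G ∩ F2, ∀ b ∈ G ∩ F2, a ⊆ b ∨ b ⊆ a := by
      rintro a ⟨-, d, -, C, hCd, -, rfl⟩ b ⟨-, d', -, C', hCd', -, rfl⟩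
      exact BTW_side_mono s false (ini_total hC hCd.2 hCd'.2)
    by_cases hn1 : (G ∩ F1).Nonempty
    · obtain ⟨m1, ⟨-, d, hd, C, hCd, hCs, rfl⟩, hmin1⟩ := BTW_least (hGf.inter_of_left F1) hch1 hn1
      by_cases hn2 : (G ∩ F2).Nonempty
      · obtain ⟨m2, ⟨-, v, hv, C', hCv, hCs', rfl⟩, hmin2⟩ :=
          BTW_least (hGf.inter_of_left F2) hch2 hn2
        have hfv : Fa L R o A sg false v d :=
          (hsym d (hDE hd) v (hVE hv) true).1 (hLL d hd v hv)
        obtain ⟨y, hy, hy1, hy2⟩ := hftw v (hVE hv) d (hDE hd) false hfv z hz j C C' hCd hCv hCs hCs'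
        refine ⟨y, hy, fun S hS => ?_⟩
        rcases hG hS with h | h
        · exact hmin1 S ⟨hS, h⟩ hy1
        · exact hmin2 S ⟨hS, h⟩ hy2
      · obtain ⟨y, hy, hy1⟩ := BTW_side_sin s true hCs
        refine ⟨y, hy, fun S hS => ?_⟩
        rcases hG hS with h | h
        · exact hmin1 S ⟨hS, h⟩ hy1
        · exact absurd ⟨S, hS, h⟩ hn2
    · by_cases hn2 : (G ∩ F2).Nonempty
      · obtain ⟨m2, ⟨-, v, hv, C', hCv, hCs', rfl⟩, hmin2⟩ :=
          BTW_least (hGf.inter_of_left F2) hch2 hn2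
        obtain ⟨y, hy, hy1⟩ := BTW_side_sin s false hCs'
        refine ⟨y, hy, fun S hS => ?_⟩
        rcases hG hS with h | h
        · exact absurd ⟨S, hS, h⟩ hn1
        · exact hmin2 S ⟨hS, h⟩ hy1
      · refine ⟨z, mem_cel A j z, fun S hS => ?_⟩
        rcases hG hS with h | h
        · exact absurd ⟨S, hS, h⟩ hn1
        · exact absurd ⟨S, hS, h⟩ hn2
  obtain ⟨p, hp, hpF⟩ := sat_cel hC hB (fun x hx => Or.inl (Or.inl hx)) hdef hfin
  have hpE : p ∈ E := pc_sub hO.clo hz (cel_sub_pc hC hO.fin j z hp)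
  have hcel : cel L R o A j p = K := cel_eq hp
  have hsg : sg (o j) p = s := hO.cst j z hz p hp
  refine ⟨p, hp, ?_, ?_⟩
  · rintro d hd v rfl
    refine hFa d (hDE hd) v hpE true j ?_
    intro C hCd hCs
    rw [hcel] at hCs
    rw [hsg]
    exact hpF (BTW_side s true C) (Or.inl ⟨d, hd, C, hCd, hCs, rfl⟩)
  · rintro d rfl v hv
    refine (hsym d hpE v (hVE hv) true).2 ?_
    refine hFa v (hVE hv) d hpE false j ?_
    intro C hCd hCs
    rw [hcel] at hCs
    rw [hsg]
    exact hpF (BTW_side s false C) (Or.inr ⟨v, hv, C, hCd, hCs, rfl⟩)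

end Pool.Agent.PMC
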