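import Pool.Agent.PMC.Defs

/-!
PMC: statements of the first part (helper58), with proofs in the docstrings: gluing, pieces, cuts over
larger sets, good pieces.  The base lemmas are in `Base.lean` (`move`, `sat_cel`, `cel_eq_of_sin`, ..).
Throughout `K = cel L R o A j z` etc.; `Sin C K`: the cut `C` is strictly inside `K`; `Ct B j K`: some
`B`-definable cut is strictly inside `K`.
-/

set_option autoImplicit false
set_option linter.unusedVariables false

namespace Pool.Agent.PMC

open FirstOrder.Language Set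
open scoped FirstOrder
open Pool.Agent.WOM (tp Mon IsEl IsoM CtU Fx Orb)

/-! ### Gluing -/

/-- [PRD] gluing along unions of pieces.
PROOF.  `h` = `g` on `Q`, identity elsewhere: a permutation of `U`, since `g x ∈ Q ↔ x ∈ Q` (`cls_fx`).
`hC.det`: every `h x` is the image of `x` under an automorphism.  `R j x u` with `x ∈ Q`, `u ∉ Q`: let
`J = cel A j x`.  If `ct j u` were strictly inside `J` then `Lk A u x`, so `u ∈ Q ↔ x ∈ Q`, no.  So
`ct j u` contains `J` or is disjoint from `J`, and `g x ∈ J` (`fx_cel`): `R j (g x) u ↔ R j x u`.  `x ∉ Q`,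
`u ∈ Q`: the same with `J = cel A j x` for `u` and (apply `g⁻¹`) for `g u ∈ Q`: `R j x (g u) ↔
R j (g⁻¹ x) u`, `g⁻¹ x ∈ J`, and `ct j u` is not strictly inside `J`.  `Fx A h`: clear. -/
def St_PRD : Prop :=
  ∀ (L : FirstOrder.Language.{0, 0}) (U : Type) [L.Structure U] (κ : Type) (R : κ → U → U → Prop)
    (o : κ → κ), Cx L R o → ∀ (A Q : Set U), A.Finite → Cls L R o A Q →
    ∀ g : U ≃[L] U, Fx L A g → ∃ h : U ≃[L] U, Fx L A h ∧ (∀ x ∈ Q, h x = g x) ∧ ∀ x ∉ Q, h x = x

/-- [PRF] gluing of finitely many automorphisms on disjoint unions of pieces.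
PROOF.  Induction on `n` with PRD (compose). -/
def St_PRF : Prop :=
  ∀ (L : FirstOrder.Language.{0, 0}) (U : Type) [L.Structure U] (κ : Type) (R : κ → U → U → Prop)
    (o : κ → κ), Cx L R o → ∀ (A : Set U), A.Finite → ∀ (n : ℕ) (Q : Fin n → Set U),
    (∀ i, Cls L R o A (Q i)) → (∀ i j, i ≠ j → Disjoint (Q i) (Q j)) →
    ∀ g : Fin n → (U ≃[L] U), (∀ i, Fx L A (g i)) →
    ∃ h : U ≃[L] U, Fx L A h ∧ (∀ i, ∀ x ∈ Q i, h x = g i x) ∧ ∀ x, (∀ i, x ∉ Q i) → h x = x

/-- [UNP] an elementary submodel may be chosen for every piece.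
PROOF.  `X = {z | z ∈ m z}`.  `isEl_of_orb` with the finite set `A`: let `A ⊆ B ⊆ X`, `B` finite,
`O = Orb B x` definable over `B`.  Let `P = Pc A x`.  If `x` is definable over `A` then `x ∈ m x` (`{x}` is
`A`-definable and `m x` is elementary), so `x ∈ X`.  Otherwise let `B' = A ∪ (B ∩ P)`; `O ⊆ P` (`cls_fx`).
For `g` over `B'` let `h` be `g` on `P`, identity elsewhere (PRD): `h` fixes `B`, so `g x = h x ∈ O`; so
`O = Orb B' x` and `O` is `B'`-definable (`def_of_fix`).  `B' ⊆ m x` (for `y ∈ B ∩ P`: `y ∈ m y = m x`), so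
some `y ∈ m x` is in `O ⊆ P` (`orb_meets`), and `m y = m x`, `y ∈ X`. -/
def St_UNP : Prop :=
  ∀ (L : FirstOrder.Language.{0, 0}) (U : Type) [L.Structure U] (κ : Type) (R : κ → U → U → Prop)
    (o : κ → κ), Cx L R o → ∀ (A : Set U), A.Finite → ∀ m : U → Set U, (∀ z, Md L A (m z)) →
    (∀ z, ∀ y ∈ Pc L R o A z, m y = m z) → Md L A {z | z ∈ m z}

/-- [SMB] calculus of `Sm`.
PROOF.  (1)-(3) clear (the image of a finite set is finite).  (4) the restriction of `e` to the points
in `Q`: `e x = g x ∈ Q ↔ x ∈ Q` where `g` is an automorphism over `A` for `s = {x}`.  (5) let `e_z` be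
bijections of `M ∩ P` and `M' ∩ P` for every piece `P` (choose one for every piece, e.g. for a
representative); their union is a bijection `e : M ≃ M'` (every point is in exactly one piece).  A
finite set `s` meets finitely many pieces `P_i`; automorphisms `g_i` for `e` on `s ∩ P_i`; PRF.
(6) `IsoM`: for a tuple `a : Fin n → M` take `s = range a`; an automorphism preserves the types.
(7) `h` = the automorphism of PRD for `Q` and `g` (`g` for the given finite set). -/
def St_SMB : Prop :=
  ∀ (L : FirstOrder.Language.{0, 0}) (U : Type) [L.Structure U] (κ : Type) (R : κ → U → U → Prop)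
    (o : κ → κ), Cx L R o →
    (∀ A X : Set U, Sm L A X X) ∧
    (∀ A X Y : Set U, Sm L A X Y → Sm L A Y X) ∧
    (∀ A X Y Z : Set U, Sm L A X Y → Sm L A Y Z → Sm L A X Z) ∧
    (∀ A X Y Q : Set U, (∀ g : U ≃[L] U, Fx L A g → ∀ x, g x ∈ Q ↔ x ∈ Q) → Sm L A X Y →
      Sm L A (X ∩ Q) (Y ∩ Q)) ∧
    (∀ A M M' : Set U, A.Finite →
      (∀ z, Sm L A (M ∩ Pc L R o A z) (M' ∩ Pc L R o A z)) → Sm L A M M') ∧
    (∀ A M M' : Set U, Sm L A M M' → IsoM L M M') ∧
    (∀ A B Q X Y : Set U, B.Finite → A ⊆ B → Cls L R o A Q → Disjoint Q B → X ⊆ Q → Y ⊆ Q →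
      Sm L A X Y → Sm L B X Y)

/-- [LOC] parameters outside a piece.
PROOF.  Let `Q` be a union of pieces over `A`, disjoint from `B`, and `C` a `B`-definable cut strictly
inside `K = cel A j z`, `z ∈ Q` (`K ⊆ Q`).  For `g` over `A` let `h` be `g` on `Q`, identity elsewhere
(PRD); `h` fixes `B` (and `A ⊆ B`), so `h '' C = C`.  Claim `g '' C = C`: points `x ∈ K`: `g x = h x`.
Points below (above) all of `K` are in `C` (not in `C`), and `g` preserves the set of the points below
`K`.  So `C` is `A`-definable (`def_of_fix`), contradiction (`not_sin_cel`).  So `cel B j z = cel A j z`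
(`cel_of_not_ct`) for `z ∈ Q`.  Hence for `z ∈ Q`: `Lk B u z ↔ Lk A u z` and, for `u ∈ Q`, the same; by
induction the equivalence classes are the same. -/
def St_LOC : Prop :=
  ∀ (L : FirstOrder.Language.{0, 0}) (U : Type) [L.Structure U] (κ : Type) (R : κ → U → U → Prop)
    (o : κ → κ), Cx L R o → ∀ (A B Q : Set U), A ⊆ B → B.Finite → Cls L R o A Q → Disjoint Q B →
    ∀ z ∈ Q, (∀ j, cel L R o B j z = cel L R o A j z) ∧ Pc L R o B z = Pc L R o A z

/-! ### Cuts over larger sets -/

/-- [AT] (A3) middle sets are bounded.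
PROOF.  `K = cel A i a`, `J = cel A j z`, `k` with `NoGrid R o i j k`.  (1) Suppose not (direction `b`):
for every `p ∈ K` some `u ∈ K` beyond `p` has `c ∈ ct j u`, `c' ∉ ct j u` (so `R (o j) c c'`, and `z` is
not definable).  `move` in `J`: automorphisms `g_0, .., g_(k-1)` over `A` with `R (o j) (g_m c') (g_(m+1) c)`.
For every `m` the set `S_m = {u ∈ K | g_m c ∈ ct j u, g_m c' ∉ ct j u}` is cofinal in `K` in the
direction `b` (image under `g_m`).  Choose recursively `p_0, p_1, ..` in `K` and `u_(n,m) ∈ S_m` beyond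
`p_n`, `p_(n+1)` beyond or equal all `u_(n,m)`.  The grid: `x n m = u_(n,m)` for `b = true`,
`x n m = u_(k-1-n,m)` for `b = false`; for `m < m'` the witness is `g_m c'`: `R (o j) (g_m c') (g_m' c)`,
`g_m' c ∈ ct j u`.
(2) Suppose not: for every `c ∈ J` there is `u ∈ K` between `p` and `p'` with `ct j u` strictly inside
`J` and beyond `c` (`b = true`: `c ∈ ct j u`; `b = false`: `c ∉ ct j u`).  `move` in `K`: `g_0, ..` with
`R (o i) (g_m p') (g_(m+1) p)`.  Choose recursively `c_n ∈ J`, `u_(n,m)` between `g_m p` and `g_m p'` with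
`ct j u_(n,m)` strictly inside `J` and beyond `c_n`, `c_(n+1) ∈ J` beyond all cuts `ct j u_(n,m)`, `m < k`.
The grid is `x m n = u_(n,m)` (or `u_(k-1-n,m)` if `b = false`). -/
def St_AT : Prop :=
  ∀ (L : FirstOrder.Language.{0, 0}) (U : Type) [L.Structure U] (κ : Type) (R : κ → U → U → Prop)
    (o : κ → κ), Cx L R o → ∀ (A : Set U) (i j : κ) (a z : U) (b : Bool), A.Finite → Nd L A a →
    Nd L A z →
    (∀ c ∈ cel L R o A j z, ∀ c' ∈ cel L R o A j z, ∃ p ∈ cel L R o A i a,
      ∀ u ∈ cel L R o A i a, c ∈ ct R j u → c' ∉ ct R j u → ¬ lts R o b i p u) ∧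
    (∀ p ∈ cel L R o A i a, ∀ p' ∈ cel L R o A i a, ∃ c ∈ cel L R o A j z,
      ∀ u ∈ cel L R o A i a, ¬ R (o i) u p → ¬ R (o i) p' u → Sin (ct R j u) (cel L R o A j z) →
        (c ∈ ct R j u ↔ b = false))

/-- [AF] (A4) linked cells are cut by the same sets.
PROOF.  `K = cel A i u`, `J = cel A j z`.  (→) `C` is a `B`-definable cut strictly inside `K`; suppose no
`B`-definable cut is strictly inside `J`; then `J` is a cell over `B` (`cel_of_not_ct`) and `z` is not
definable over `B`.  `move`: a conjugate `u' ∈ K \ C` of `u` over `A`; `ct j u'` is strictly inside `J`.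
`move`: `g` over `A` with `u' ∈ g '' C` (move a point of `C ∩ K` above `u'`).  For `h` over `B` let
`S h = {v ∈ K | ct j v strictly inside J, v ∉ C, v ∈ (h ∘ g) '' C}`.  `S id` lies between two points of `K`
(one in `C`, one not in `g '' C`), so by AT (2) there are `c, c' ∈ J` with `c ∈ ct j v`, `c' ∉ ct j v` for all
`v ∈ S id`.  `move` over `B` in `J`: `h` over `B` with `R (o j) c' (h c)`.  `h '' C = C`, `S h = h '' S id`.
`g '' C`, `(h ∘ g) '' C` are comparable.  If `(h ∘ g) '' C ⊆ g '' C`: `h u' ∈ S h ⊆ S id`, so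
`c' ∉ ct j (h u')`, but `h c ∈ ct j (h u')` and `c' < h c`: contradiction.  If `g '' C ⊆ (h ∘ g) '' C`:
`u' ∈ S h`, `u' = h v`, `v ∈ S id`, `h c ∈ ct j u'`, so `c' ∈ ct j u'`: contradiction to `u' ∈ S id`.
(←) `C` strictly inside `J`, `B`-definable; suppose `K` is not cut by `B`, so a cell over `B`.
Conjugates over `A`: `u' ∈ K` such that `ct j u'` contains a point of `J \ C` (move a point of
`ct j u ∩ J`), and `g` over `A` such that `g '' C` contains a point of `J \ ct j u'`.
`S h = {v ∈ K | some point of J is in ct j v, not in C, some point of J is in (h ∘ g) '' C, not in ct j v}`.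
By AT (1) (with `c ∈ C ∩ J`, `c' ∈ J \ g '' C`; both directions) there are `p, p' ∈ K` with `S id` between
them.  `h` over `B` with `R (o i) p' (h p)`.  If `(h ∘ g) '' C ⊆ g '' C` then `h u' ∈ S h ⊆ S id`, so
`h u'` is not above `p'`, but `h u'` is not below `h p`: contradiction.  Otherwise `u' ∈ S h = h '' S id`,
so `u'` is not below `h p`: contradiction. -/
def St_AF : Prop :=
  ∀ (L : FirstOrder.Language.{0, 0}) (U : Type) [L.Structure U] (κ : Type) (R : κ → U → U → Prop)
    (o : κ → κ), Cx L R o → ∀ (A B : Set U) (i j : κ) (u z : U), A ⊆ B → B.Finite → Nd L A u →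
    Sin (ct R j u) (cel L R o A j z) →
    (Ct L R o B i (cel L R o A i u) ↔ Ct L R o B j (cel L R o A j z))

/-- [AG] (A4 for pieces) a set which contains a point of a piece cuts all its cells.
PROOF.  `{x | R (o j) x w}` is strictly inside `cel A j w` (`sin_self`), definable over `B` (`lt_dc`).
Induction along `Relation.EqvGen`: let `P y` = all cells `cel A j y` are cut by `B`.  `P w`.  Let
`Lk A u y` (both not definable, `lk_nd`), `ct j u` strictly inside `cel A j y`.  AF: `Ct B i (cel A i u) ↔
Ct B j (cel A j y)` for all `i`; and for every `j'` AF with `u := y`, the index `o j'` of an order and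
the cut `{x | R (o j') x y}` strictly inside `cel A j' y` (`sin_self`): `Ct B j (cel A j y) ↔
Ct B (o j') (cel A (o j') y)` (`cel_oo`, `dc_oo`).  So `P u ↔ P y`. -/
def St_AG : Prop :=
  ∀ (L : FirstOrder.Language.{0, 0}) (U : Type) [L.Structure U] (κ : Type) (R : κ → U → U → Prop)
    (o : κ → κ), Cx L R o → ∀ (A B : Set U) (w z : U), A ⊆ B → B.Finite → w ∈ B → Nd L A w →
    z ∈ Pc L R o A w → ∀ j, Ct L R o B j (cel L R o A j z)

/-- [EXB] extreme cells.  `K = cel A j z`, `z` not definable over `A`.
PROOF.  (1) `sat_cel` with the family of the `B`-definable cuts strictly inside `K` (`b = false`) or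
their complements: finitely many cuts are a chain.  (2) `v, v' ∈ ext b B j K`: a `B`-definable cut
`C` is strictly inside `K` (then both are on the same side) or not (then `C ∩ K` is empty or `K`).
Conversely let `v' ∈ cel B j v`, so `v' ∈ K` and `v'` is on the same side as `v` of all `B`-definable cuts.
(3) is (4) and (2): `v` is not definable over `B`, as `cel B j v = ext b B j K` contains points beyond `v`:
`p := v` in (4).  (4) Let `B' = insert p B`; (1) gives `v' ∈ ext b B' j K`; the cut `{x | ¬ R (o j) p x}`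
(`b = true`) or `{x | R (o j) x p}` (`b = false`) is `B'`-definable and strictly inside `K` (`exists_lts`),
so `v'` is beyond or equal `p`; take `v''` beyond `v'` in the same way with `p := v'`.  `v'' ∈ ext b B j K`.
(5) by (4) and `move` over `B` in `cel B j v = ext b B j K`. (6) a cut strictly inside `K` which
contains `v` (`b = true`) contains `p` below `v`. (7) apply the definition to the given cut. -/
def St_EXB : Prop :=
  ∀ (L : FirstOrder.Language.{0, 0}) (U : Type) [L.Structure U] (κ : Type) (R : κ → U → U → Prop)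
    (o : κ → κ), Cx L R o → ∀ (A B : Set U) (j : κ) (z : U) (b : Bool), A ⊆ B → B.Finite →
    Nd L A z →
    (ext L R o b B j (cel L R o A j z)).Nonempty ∧
    (∀ v ∈ ext L R o b B j (cel L R o A j z),
      cel L R o B j v = ext L R o b B j (cel L R o A j z)) ∧
    (∀ v ∈ ext L R o b B j (cel L R o A j z), Nd L B v) ∧
    (∀ p ∈ cel L R o A j z, ∃ v ∈ ext L R o b B j (cel L R o A j z), lts R o b j p v) ∧
    (∀ v ∈ ext L R o b B j (cel L R o A j z), ∀ p ∈ cel L R o A j z,
      ∃ g : U ≃[L] U, Fx L B g ∧ lts R o b j p (g v)) ∧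
    (∀ v ∈ ext L R o b B j (cel L R o A j z), ∀ p ∈ cel L R o A j z, lts R o b j v p →
      p ∈ ext L R o b B j (cel L R o A j z)) ∧
    (Ct L R o B j (cel L R o A j z) → ∀ v ∈ ext L R o b B j (cel L R o A j z),
      v ∉ ext L R o (!b) B j (cel L R o A j z))

/-- [AV] (A5) extreme points have extreme cuts, and conversely.
PROOF.  `K = cel A i u`, `J = cel A j z`.  (→) let `u ∈ ext b B i K`; suppose `ct j u` is not strictly inside
`E' = ext true B j J` nor `E'' = ext false B j J`.  As `ct j u` is strictly inside `J` and `E''` is an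
initial, `E'` a final segment of `J` (EXB (6)): `E'' ⊆ ct j u`, `ct j u ∩ E' = ∅`.  Take `c ∈ E''`,
`c' ∈ E'`.  For all `g` over `B`: `c ∈ ct j (g u)`, `c' ∉ ct j (g u)` (`g` preserves `E'`, `E''`, `img_ct`).
But `g u` is cofinal in `K` in the direction `b` (EXB (5)): contradiction to AT (1).
(←) let `ct j u` be strictly inside `ext b B j J` and suppose `u` is in neither `ext true B i K` nor
`ext false B i K`: there are `B`-definable cuts `C`, `C'` strictly inside `K` with `u ∉ C`, `u ∈ C'`.  With
`p ∈ C ∩ K`, `p' ∈ K \ C'` all `g u`, `g` over `B`, are between `p` and `p'`.  AT (2) with `b`: `c ∈ J` with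
`(c ∈ ct j (g u) ↔ b = false)` for all these `g`.  Let `b = true`: take `y ∈ ct j u ∩ ext b B j J` and (EXB
(5)) `g` over `B` with `g y` above `c`: `g y ∈ ct j (g u)`, so `c ∈ ct j (g u)`: contradiction; the same for
`b = false` with `y ∉ ct j u`. -/
def St_AV : Prop :=
  ∀ (L : FirstOrder.Language.{0, 0}) (U : Type) [L.Structure U] (κ : Type) (R : κ → U → U → Prop)
    (o : κ → κ), Cx L R o → ∀ (A B : Set U) (i j : κ) (u z : U), A ⊆ B → B.Finite → Nd L A u →
    Sin (ct R j u) (cel L R o A j z) →
    ((∃ b, u ∈ ext L R o b B i (cel L R o A i u)) ↔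
      ∃ b, Sin (ct R j u) (ext L R o b B j (cel L R o A j z)))

/-- [XSP] extreme points form a union of pieces.
PROOF.  (1) AV with `u = z` and the cut `{x | R (o j') x z}` (index `o j'`) strictly inside `cel A j' z`: it
is strictly inside `ext b' B j' (cel A j' z)` for some `b'`, which is convex (a cell over `B`, EXB (2)),
so it contains `z`.  (2) Let `Lk B u z`: `ct j u` strictly inside `cel B j z ⊆ cel A j z`, both points are
not definable over `B`, so not over `A`.  If `u` is extreme then by AV `ct j u` is strictly inside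
`ext b B j (cel A j z)`, which is `cel B j v` for some `v` (EXB), so it is equal to `cel B j z`
(`cel_eq_of_sin`), and `z` is extreme by (1).  If `z` is extreme then `cel B j z = ext b B j (cel A j z)`
(EXB (2)), so by AV `u` is extreme. -/
def St_XSP : Prop :=
  ∀ (L : FirstOrder.Language.{0, 0}) (U : Type) [L.Structure U] (κ : Type) (R : κ → U → U → Prop)
    (o : κ → κ), Cx L R o → ∀ (A B : Set U), A ⊆ B → B.Finite →
    (∀ z j b, Nd L A z → z ∈ ext L R o b B j (cel L R o A j z) → z ∈ XS L R o A B) ∧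
    Cls L R o B (XS L R o A B)

/-- [TWO] there are at most two extreme pieces inside a piece, and they meet all cells.
PROOF.  Claim: let `y ∈ Pc A x`; if some `v ∈ XS A B` with `Pc B v = E` lies in `cel A i y` for some `i`
then for every `y' ∈ Pc A x` and every `j` there is `v' ∈ XS A B ∩ cel A j y'` in `E`.  Proof by induction
along the links (both directions): let `Lk A u y`, `ct j u` strictly inside `cel A j y`.
(a) from `u` to `y`: `v ∈ ext b B i (cel A i u) ∩ E`.  `move`: a conjugate `u'` of `u` over `A` beyond `v` in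
the direction `b`, `u' ∈ ext b B i (cel A i u) = cel B i v` (EXB), so `u' ∈ E` (`cel_sub_pc`).  `ct j u'` is
strictly inside `cel A j y`, so strictly inside `ext b' B j (cel A j y)` for some `b'` (AV); a point `v'`
of this set has `Lk B u' v'`, so `v' ∈ E`, `v' ∈ XS` (XSP).
(b) from `y` to `u`: `v ∈ ext b B j (cel A j y) ∩ E`.  A conjugate `u'` of `u` over `A` such that `ct j u'` is
strictly inside `ext b B j (cel A j y)` (move a point of `ct j u`, resp. of its complement, beyond `v`).
By AV `u'` is extreme, and `Lk B u' v`, so `u' ∈ E`, `u' ∈ cel A i u`.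
(c) inside one point: from `cel A i y` to `cel A j y`: (a) with `u := y`, the index `o j` and the cut
`{x | R (o j) x y}` (`sin_self`).
Now let `z ∈ Pc A x ∩ XS A B`; the claim for `E = Pc B z`, `y' = x`, `j = j0` gives `v' ∈ E` in
`ext b B j0 (cel A j0 x)`, which is the cell over `B` of `y1` or `y2` (EXB (2)). -/
def St_TWO : Prop :=
  ∀ (L : FirstOrder.Language.{0, 0}) (U : Type) [L.Structure U] (κ : Type) (R : κ → U → U → Prop)
    (o : κ → κ), Cx L R o → ∀ (A B : Set U) (x y1 y2 : U) (j0 : κ), A ⊆ B → B.Finite →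
    Nd L A x → y1 ∈ ext L R o true B j0 (cel L R o A j0 x) →
    y2 ∈ ext L R o false B j0 (cel L R o A j0 x) →
    (∀ z ∈ Pc L R o A x, z ∈ XS L R o A B → z ∈ Pc L R o B y1 ∨ z ∈ Pc L R o B y2) ∧
    (∀ z ∈ Pc L R o A x, z ∈ XS L R o A B → ∀ y ∈ Pc L R o A x, ∀ j,
      ∃ v ∈ Pc L R o B z, v ∈ cel L R o A j y ∧ v ∈ XS L R o A B)

/-- [MKO] (A6) extreme pieces are good, with the orientation outwards.
PROOF.  `B = insert x A`, `E = Pc B z0 ⊆ Pc A x` (`pc_anti`), `E ⊆ XS A B` (XSP).  By AG all cells
`cel A j z`, `z ∈ E`, are cut by `B`, so (EXB (7)) for `z ∈ E` there is exactly one `b` with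
`z ∈ ext b B j (cel A j z)`: let `sg j z` be this `b`; `cel B j z = ext (sg j z) B j (cel A j z)`; with `cel_oo`,
`dc_oo`: `sg (o j) z = sg j z`.  `cst`: by `cel B j z = ext ..`.  `cut`: AG over `B` (`w ∈ E` is not definable
over `B`, `E = Pc B w`).  `nd`: EXB (3).
`con`: `B' = insert w B`; `u, z ∈ E`, `ct j u` strictly inside `J = cel B j z`.  For `v` in `J`:
`Ex B sg b w j v` iff `v ∈ ext (if b then sg j z else !sg j z) B' j J`; write `J^out`, `J^in` for these sets
(`b = true`, `false`), the same for `K = cel B i u`.  By AV over `B`, `B'`: `u` is in `K^out` or `K^in` iff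
`ct j u` is strictly inside `J^out` or `J^in`; and not in both (EXB (7), AG; disjoint cells).  So it is
enough to refute: (a) `u ∈ K^out` and `ct j u` strictly inside `J^in`; (b) `u ∈ K^in` and `ct j u` strictly
inside `J^out`.  Let `K0 = cel A i u`, `J0 = cel A j z`, `s = sg i u`, `t = sg j z`.
A set `X ⊆ J^in` is bounded in `J0`: on the side `t` by a point of `J` beyond a `B'`-definable cut
strictly inside `J` (exists by AG), on the other side by a point of `J0` on the other side of a
`B`-definable cut strictly inside `J0` (AG).  The same for `K^in` in `K0`.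
(a): `g u`, `g` over `B'`, is cofinal in `K` in the direction `s` (EXB (5)), so in `K0` (EXB (4)), and
`ct j (g u)` is strictly inside `J^in`: with the two bounds `c`, `c'` of `J^in` this contradicts AT (1) over
`A` for `K0`, `J0`.  (b): all `g u`, `g` over `B'`, are in `K^in`, between two points of `K0`; `ct j u` is
strictly inside `J^out`: as in AV (←) the cuts `ct j (g u)` are cofinal in `J0` in the direction `t`
(move a point of `J^out` in or not in `ct j u`), contradiction to AT (2) over `A`. -/
def St_MKO : Prop :=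
  ∀ (L : FirstOrder.Language.{0, 0}) (U : Type) [L.Structure U] (κ : Type) (R : κ → U → U → Prop)
    (o : κ → κ), Cx L R o → ∀ (A : Set U) (x z0 : U), A.Finite → Nd L A x →
    z0 ∈ Pc L R o A x → z0 ∈ XS L R o A (insert x A) →
    ∃ sg : κ → U → Bool, Ori L R o (insert x A) (Pc L R o (insert x A) z0) sg ∧
      (∀ z ∈ Pc L R o (insert x A) z0, ∀ j,
        z ∈ ext L R o (sg (o j) z) (insert x A) j (cel L R o A j z)) ∧
      Pc L R o (insert x A) z0 ⊆ Pc L R o A x

end Pool.Agent.PMC
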