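import Pool.Agent.PMC.Base
import Pool.Agent.PMC.StA
import Pool.Agent.PMC.StB

/-!
PMC: gluing along a chain, `thm_CHN` (helper74).
-/

set_option autoImplicit false
set_option linter.unusedVariables false

namespace Pool.Agent.PMC

open FirstOrder.Language Set
open scoped FirstOrder
open Pool.Agent.WOM (tp Mon IsEl IsoM CtU Fx Orb)

namespace CHN

variable {L : FirstOrder.Language.{0, 0}} {U : Type} [L.Structure U] {κ : Type}
  {R : κ → U → U → Prop} {o : κ → κ}

/-- one step of the construction of the sequence -/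
theorem step (hF : St_FAI) (hV : St_MVT) (hC : Cx L R o) {A E : Set U} {sg : κ → U → Bool}
    (hO : Ori L R o A E sg) {S W : Set U} (hS : S.Finite) (hW : W.Finite) (hSE : S ⊆ E)
    (hWE : W ⊆ E) {g : U ≃[L] U} (hg : Fx L A g) (h1 : LL L R o A sg S (g '' S))
    (r : U ≃[L] U) (hr : Fx L A r ∧ ∀ b ∈ S, ∀ w ∈ W, Ll L R o A sg (r (g b)) w) :
    ∃ r' : U ≃[L] U, (Fx L A r' ∧ ∀ b ∈ S, ∀ w ∈ W, Ll L R o A sg (r' (g b)) w) ∧
      ∀ b ∈ S, r' b = r (g b) := by
  obtain ⟨-, -, h3, -⟩ := hF L U κ R o hC A E sg hO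
  have hrg : Fx L A (r.comp g) := fx_comp hr.1 hg
  have hE1 : ∀ x, (r.comp g) x ∈ E ↔ x ∈ E := (h3 _ hrg).1
  have hE2 : ∀ x, g x ∈ E ↔ x ∈ E := (h3 _ hg).1
  have hD : (r.comp g) '' S ⊆ E := by
    rintro _ ⟨b, hb, rfl⟩
    exact (hE1 b).2 (hSE hb)
  have hZ : (r.comp g) '' (g '' S) ⊆ E := by
    rintro _ ⟨_, ⟨b, hb, rfl⟩, rfl⟩
    exact (hE1 _).2 ((hE2 b).2 (hSE hb))
  have hDV : LL L R o A sg ((r.comp g) '' S) W := by
    rintro _ ⟨b, hb, rfl⟩ w hw
    exact hr.2 b hb w hw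
  have hDZ : LL L R o A sg ((r.comp g) '' S) ((r.comp g) '' (g '' S)) := by
    rintro _ ⟨b, hb, rfl⟩ _ ⟨c, hc, rfl⟩
    have hcE : c ∈ E := by
      obtain ⟨b', hb', rfl⟩ := hc
      exact (hE2 b').2 (hSE hb')
    exact ((h3 _ hrg).2 b (hSE hb) c hcE true).2 (h1 b hb c hc)
  obtain ⟨s, hs, hs1, hs2⟩ := (hV L U κ R o hC A E sg hO ((r.comp g) '' S) W
    ((r.comp g) '' (g '' S)) (hS.image _) hW ((hS.image _).image _) hD hWE hZ hDV).1 hDZ
  refine ⟨s.comp (r.comp g), ⟨fx_comp (fx_mono subset_union_left hs) hrg, ?_⟩, ?_⟩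
  · intro b hb w hw
    exact hs2 _ ⟨(r.comp g) (g b), ⟨g b, ⟨b, hb, rfl⟩, rfl⟩, rfl⟩ w hw
  · intro b hb
    exact hs _ (Or.inr ⟨b, hb, rfl⟩)

/-- the sequence of the automorphisms `r_n` -/
theorem seq (hF : St_FAI) (hV : St_MVT) (hC : Cx L R o) {A E : Set U} {sg : κ → U → Bool}
    (hO : Ori L R o A E sg) {S W : Set U} (hS : S.Finite) (hW : W.Finite) (hSE : S ⊆ E)
    (hWE : W ⊆ E) {g : U ≃[L] U} (hg : Fx L A g) (h1 : LL L R o A sg S (g '' S))
    (h2 : LL L R o A sg (g '' S) W) :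
    ∃ r : ℕ → (U ≃[L] U), r 0 = FirstOrder.Language.Equiv.refl L U ∧ (∀ n, Fx L A (r n)) ∧
      (∀ n, ∀ b ∈ S, ∀ w ∈ W, Ll L R o A sg (r n (g b)) w) ∧
      ∀ n, ∀ b ∈ S, r (n + 1) b = r n (g b) := by
  classical
  have hst := step hF hV hC hO hS hW hSE hWE hg h1
  choose f hf1 hf2 using hst
  have h0 : Fx L A (FirstOrder.Language.Equiv.refl L U) ∧
      ∀ b ∈ S, ∀ w ∈ W, Ll L R o A sg ((FirstOrder.Language.Equiv.refl L U) (g b)) w :=
    ⟨fx_refl A, fun b hb w hw => h2 _ ⟨b, hb, rfl⟩ w hw⟩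
  let F : ℕ → {r : U ≃[L] U // Fx L A r ∧ ∀ b ∈ S, ∀ w ∈ W, Ll L R o A sg (r (g b)) w} :=
    fun n => Nat.rec ⟨_, h0⟩ (fun _ x => ⟨f x.1 x.2, hf1 x.1 x.2⟩) n
  refine ⟨fun n => (F n).1, rfl, fun n => (F n).2.1, fun n => (F n).2.2, ?_⟩
  intro n b hb
  exact hf2 (F n).1 (F n).2 b hb

end CHN

open CHN in
theorem thm_CHN (hP : St_PRD) (hF : St_FAI) (hOR : St_ORD) (hV : St_MVT) (hT : St_FCT) :
    St_CHN := by
  classical
  intro L U _ κ R o hC A E sg hO S W hS hW hSE hWE hSW g hg h1 h2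
  obtain ⟨r, hr0, hrA, hrW, hrs⟩ := seq hF hV hC hO hS hW hSE hWE hg h1 h2
  obtain ⟨-, -, h3, -⟩ := hF L U κ R o hC A E sg hO
  obtain ⟨-, ho2, ho3, ho4, -, -⟩ := hOR L U κ R o hC A E sg hO
  rcases S.eq_empty_or_nonempty with hSe | ⟨b0, hb0⟩
  · subst hSe
    exact ⟨FirstOrder.Language.Equiv.refl L U, fx_refl _, fun b hb => absurd hb (notMem_empty b)⟩
  -- images
  have hE : ∀ (q : U ≃[L] U), Fx L A q → ∀ x, q x ∈ E ↔ x ∈ E := fun q hq => (h3 q hq).1
  have hLl : ∀ (q : U ≃[L] U), Fx L A q → ∀ x ∈ E, ∀ y ∈ E,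
      (Ll L R o A sg (q x) (q y) ↔ Ll L R o A sg x y) :=
    fun q hq x hx y hy => (h3 q hq).2 x hx y hy true
  have hrE : ∀ n, ∀ b ∈ S, r n b ∈ E := fun n b hb => (hE _ (hrA n) b).2 (hSE hb)
  -- `B_n << B_(n+1)` and `B_n << W`
  have hBB : ∀ n, ∀ b ∈ S, ∀ c ∈ S, Ll L R o A sg (r n b) (r (n + 1) c) := by
    intro n b hb c hc
    rw [hrs n c hc]
    exact (hLl _ (hrA n) b (hSE hb) (g c) ((hE g hg c).2 (hSE hc))).2 (h1 b hb _ ⟨c, hc, rfl⟩)
  have hBW : ∀ n, ∀ b ∈ S, ∀ w ∈ W, Ll L R o A sg (r n b) w := by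
    intro n b hb w hw
    cases n with
    | zero =>
      rw [hr0]
      exact hSW b hb w hw
    | succ n =>
      rw [hrs n b hb]
      exact hrW n b hb w hw
  -- the levels
  let P : ℕ → U → Prop := fun n z => ∀ b ∈ S, Ll L R o A sg (r n b) z
  have hP1 : ∀ n, ∀ z ∈ E, P (n + 1) z → P n z := by
    intro n z hz h b hb
    exact ho4 _ (hrE n b hb) _ (hrE (n + 1) b hb) z hz (hBB n b hb b hb) (h b hb)
  have hPm : ∀ z ∈ E, ∀ m n, n ≤ m → P m z → P n z := by
    intro z hz m n hnm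
    induction hnm with
    | refl => exact fun h => h
    | step _ ih => exact fun h => ih (hP1 _ z hz h)
  let q : ℕ → (U ≃[L] U) := fun n => (r (n + 1)).comp (r n).symm
  have hqA : ∀ n, Fx L A (q n) := fun n => fx_comp (hrA (n + 1)) (fx_symm (hrA n))
  have hqr : ∀ n x, q n (r n x) = r (n + 1) x := by
    intro n x
    show r (n + 1) ((r n).symm (r n x)) = r (n + 1) x
    rw [(r n).symm_apply_apply]
  have hq1 : ∀ n, ∀ z ∈ E, (P (n + 1) (q n z) ↔ P n z) := by
    intro n z hz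
    refine forall₂_congr fun b hb => ?_
    rw [← hqr n b]
    exact hLl _ (hqA n) _ (hrE n b hb) z hz
  have hq2 : ∀ n, ∀ z ∈ E, (P (n + 2) (q n z) ↔ P (n + 1) z) := by
    intro n z hz
    refine forall₂_congr fun b hb => ?_
    have e : r (n + 2) b = q n (r (n + 1) b) := by
      rw [hrs (n + 1) b hb, hrs n b hb, hqr]
    rw [e]
    exact hLl _ (hqA n) _ (hrE (n + 1) b hb) z hz
  -- trichotomy of the levels
  have htri : ∀ z, (∀ n, P n z) ∨ ¬ P 0 z ∨ ∃ n, P n z ∧ ¬ P (n + 1) z := by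
    intro z
    by_contra hc
    push Not at hc
    obtain ⟨⟨n, hn⟩, h0, hs⟩ := hc
    exact hn (Nat.rec h0 (fun k hk => hs k hk) n)
  -- the automorphism at `z`
  have hex : ∀ z, ∃ a : U ≃[L] U, Fx L A a ∧ (z ∉ E → a = FirstOrder.Language.Equiv.refl L U) ∧
      ((∀ n, P n z) → a = FirstOrder.Language.Equiv.refl L U) ∧
      (z ∈ E → ¬ P 0 z → a = q 0) ∧
      (z ∈ E → ∀ n, P n z → ¬ P (n + 1) z → a = q n) := by
    intro z
    by_cases hz : z ∈ E
    · rcases htri z with h | h | ⟨n, hn, hn'⟩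
      · exact ⟨_, fx_refl A, fun h' => absurd hz h', fun _ => rfl, fun _ h' => absurd (h 0) h',
          fun _ n _ h' => absurd (h (n + 1)) h'⟩
      · refine ⟨q 0, hqA 0, fun h' => absurd hz h', fun h' => absurd (h' 0) h, fun _ _ => rfl, ?_⟩
        intro _ n hn _
        exact absurd (hPm z hz n 0 (Nat.zero_le n) hn) h
      · refine ⟨q n, hqA n, fun h' => absurd hz h', fun h' => absurd (h' _) hn',
          fun _ h' => absurd (hPm z hz n 0 (Nat.zero_le n) hn) h', ?_⟩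
        intro _ m hm hm'
        have : n = m := by
          by_contra hne
          rcases lt_or_gt_of_ne hne with hlt | hlt
          · exact hn' (hPm z hz m (n + 1) hlt hm)
          · exact hm' (hPm z hz n (m + 1) hlt hn)
        rw [this]
    · exact ⟨_, fx_refl A, fun _ => rfl, fun _ => rfl, fun h => absurd h hz,
        fun h => absurd h hz⟩
  choose a haA ha1 ha2 ha3 ha4 using hex
  let H : U → U := fun z => a z z
  have hHE : ∀ z, H z ∈ E ↔ z ∈ E := fun z => hE (a z) (haA z) z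
  have hH1 : ∀ z, z ∉ E → H z = z := by
    intro z hz
    show a z z = z
    rw [ha1 z hz]
    rfl
  have hH2 : ∀ z, (∀ n, P n z) → H z = z := by
    intro z hz
    show a z z = z
    rw [ha2 z hz]
    rfl
  have hH3 : ∀ z ∈ E, ¬ P 0 z → H z = q 0 z := by
    intro z hz h
    show a z z = q 0 z
    rw [ha3 z hz h]
  have hH4 : ∀ z ∈ E, ∀ n, P n z → ¬ P (n + 1) z → H z = q n z := by
    intro z hz n h h'
    show a z z = q n z
    rw [ha4 z hz n h h']
  -- levels of the images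
  have hL1 : ∀ z ∈ E, ∀ n, P n z → P (n + 1) (H z) := by
    intro z hz n hn
    rcases htri z with h | h | ⟨m, hm, hm'⟩
    · rw [hH2 z h]
      exact h _
    · exact absurd (hPm z hz n 0 (Nat.zero_le n) hn) h
    · rw [hH4 z hz m hm hm']
      have hnm : n ≤ m := by
        by_contra hlt
        exact hm' (hPm z hz n (m + 1) (by omega) hn)
      exact hPm _ ((hE _ (hqA m) z).2 hz) (m + 1) (n + 1) (by omega) ((hq1 m z hz).2 hm)
  have hL2 : ∀ z ∈ E, ∀ n, ¬ P n z → ¬ P (n + 1) (H z) := by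
    intro z hz n hn
    rcases htri z with h | h | ⟨m, hm, hm'⟩
    · exact absurd (h n) hn
    · rw [hH3 z hz h]
      intro h'
      exact h ((hq1 0 z hz).1 (hPm _ ((hE _ (hqA 0) z).2 hz) (n + 1) 1 (by omega) h'))
    · rw [hH4 z hz m hm hm']
      have hnm : m + 1 ≤ n := by
        by_contra hlt
        exact hn (hPm z hz m n (by omega) hm)
      intro h'
      exact hm' ((hq2 m z hz).1 (hPm _ ((hE _ (hqA m) z).2 hz) (n + 1) (m + 2) (by omega) h'))
  -- comparison of levels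
  have hcmp : ∀ x ∈ E, ∀ y ∈ E, ∀ n, ¬ P n x → P n y → Ll L R o A sg x y := by
    intro x hx y hy n hnx hny
    have hnx' : ∃ b ∈ S, ¬ Ll L R o A sg (r n b) x := by
      by_contra hc
      push Not at hc
      exact hnx hc
    obtain ⟨b, hb, hbx⟩ := hnx'
    rcases ho3 _ (hrE n b hb) y hy (hny b hb) x hx with h | h
    · exact absurd h hbx
    · exact h
  have hR1 : ∀ x ∈ E, ∀ y ∈ E, ∀ n, ¬ P n x → P n y → ∀ j,
      (R j x y ↔ R j (H x) (H y)) ∧ (R j y x ↔ R j (H y) (H x)) := by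
    intro x hx y hy n hnx hny j
    exact hT L U κ R o hC A E sg hO x hx y hy (a x) (a y) (haA x) (haA y)
      (hcmp x hx y hy n hnx hny)
      (hcmp _ ((hHE x).2 hx) _ ((hHE y).2 hy) (n + 1) (hL2 x hx n hnx) (hL1 y hy n hny)) j
  -- same levels: the same automorphism
  have hsame : ∀ x ∈ E, ∀ y ∈ E, (∀ n, P n x ↔ P n y) → a x = a y := by
    intro x hx y hy h
    rcases htri x with hh | hh | ⟨m, hm, hm'⟩
    · rw [ha2 x hh, ha2 y (fun n => (h n).1 (hh n))]
    · rw [ha3 x hx hh, ha3 y hy (fun h' => hh ((h 0).2 h'))]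
    · rw [ha4 x hx m hm hm', ha4 y hy m ((h m).1 hm) (fun h' => hm' ((h _).2 h'))]
  have hRH : ∀ j x y, R j (H x) (H y) ↔ R j x y := by
    intro j x y
    by_cases hx : x ∈ E
    · by_cases hy : y ∈ E
      · by_cases hs : ∀ n, P n x ↔ P n y
        · show R j (a x x) (a y y) ↔ R j x y
          rw [hsame x hx y hy hs]
          exact R_img hC j x y (a y)
        · push Not at hs
          obtain ⟨n, hn | hn⟩ := hs
          · exact (hR1 y hy x hx n hn.2 hn.1 j).2.symm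
          · exact (hR1 x hx y hy n hn.1 hn.2 j).1.symm
      · obtain ⟨p, hp1, hp2, hp3⟩ := hP L U κ R o hC A E hO.fin hO.clo (a x) (haA x)
        rw [hH1 y hy]
        show R j (a x x) y ↔ R j x y
        rw [← hp2 x hx]
        nth_rewrite 1 [← hp3 y hy]
        exact R_img hC j x y p
    · by_cases hy : y ∈ E
      · obtain ⟨p, hp1, hp2, hp3⟩ := hP L U κ R o hC A E hO.fin hO.clo (a y) (haA y)
        rw [hH1 x hx]
        show R j x (a y y) ↔ R j x y
        rw [← hp2 y hy]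
        nth_rewrite 1 [← hp3 x hx]
        exact R_img hC j x y p
      · rw [hH1 x hx, hH1 y hy]
  -- `H` is a bijection
  have hinj : Function.Injective H := by
    intro x y hxy
    by_cases hx : x ∈ E
    · have hy : y ∈ E := (hHE y).1 (hxy ▸ (hHE x).2 hx)
      have hs : ∀ n, P n x ↔ P n y := by
        intro n
        constructor
        · intro h
          by_contra hn
          exact hL2 y hy n hn (hxy ▸ hL1 x hx n h)
        · intro h
          by_contra hn
          exact hL2 x hx n hn (hxy.symm ▸ hL1 y hy n h)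
      have h' : a x x = a y y := hxy
      rw [hsame x hx y hy hs] at h'
      exact (a y).injective h'
    · have hy : y ∉ E := fun hy => hx ((hHE x).1 (hxy ▸ (hHE y).2 hy))
      rw [hH1 x hx, hH1 y hy] at hxy
      exact hxy
  have hsur : Function.Surjective H := by
    intro y
    by_cases hy : y ∈ E
    · rcases htri y with h | h | ⟨m, hm, hm'⟩
      · exact ⟨y, hH2 y h⟩
      · refine ⟨(q 0).symm y, ?_⟩
        have hz : (q 0).symm y ∈ E := (hE _ (fx_symm (hqA 0)) y).2 hy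
        have hq : q 0 ((q 0).symm y) = y := (q 0).apply_symm_apply y
        rw [hH3 _ hz, hq]
        intro h'
        have := (hq1 0 _ hz).2 h'
        rw [hq] at this
        exact h (hP1 0 y hy this)
      · cases m with
        | zero =>
          refine ⟨(q 0).symm y, ?_⟩
          have hz : (q 0).symm y ∈ E := (hE _ (fx_symm (hqA 0)) y).2 hy
          have hq : q 0 ((q 0).symm y) = y := (q 0).apply_symm_apply y
          rw [hH3 _ hz, hq]
          intro h'
          have := (hq1 0 _ hz).2 h'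
          rw [hq] at this
          exact hm' this
        | succ m =>
          refine ⟨(q m).symm y, ?_⟩
          have hz : (q m).symm y ∈ E := (hE _ (fx_symm (hqA m)) y).2 hy
          have hq : q m ((q m).symm y) = y := (q m).apply_symm_apply y
          rw [hH4 _ hz m, hq]
          · rw [← hq1 m _ hz, hq]
            exact hm
          · rw [← hq2 m _ hz, hq]
            exact hm'
    · exact ⟨y, hH1 y hy⟩
  obtain ⟨h, hh⟩ := hC.det (Equiv.ofBijective H ⟨hinj, hsur⟩) hRH (fun x => ⟨a x, rfl⟩)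
  refine ⟨h, ?_, ?_⟩
  · rintro x (hx | hx)
    · rw [hh x]
      exact haA x x hx
    · rw [hh x]
      exact hH2 x (fun n b hb => hBW n b hb x hx)
  · intro b hb
    rw [hh b]
    show H b = g b
    rw [hH3 b (hSE hb)]
    · have e : q 0 b = q 0 (r 0 b) := by rw [hr0]; rfl
      rw [e, hqr, hrs 0 b hb, hr0]
      rfl
    · intro h'
      have := h' b hb
      rw [hr0] at this
      exact ho2 b (hSE hb) true this

end Pool.Agent.PMC
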