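import Pool.Agent.PMC.StC

/-!
PMC, module CLS: countably many parts of a good piece (helper37)
-/

set_option autoImplicit false
set_option linter.unusedVariables false

namespace Pool.Agent.PMC

open FirstOrder.Language Set
open scoped FirstOrder
open Pool.Agent.WOM (tp Mon IsEl IsoM CtU Fx Orb)

/-! ### Strict weak orders -/

private structure CLS_WO {U : Type} (W : U → U → Prop) (E : Set U) : Prop where
  irr : ∀ x ∈ E, ¬ W x x
  neg : ∀ u ∈ E, ∀ w ∈ E, W u w → ∀ v ∈ E, W u v ∨ W v w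
  tra : ∀ u ∈ E, ∀ v ∈ E, ∀ w ∈ E, W u v → W v w → W u w

/-- `p` is in the first cluster of `X` -/
private def CLS_Fst {U : Type} (W : U → U → Prop) (X : Set U) (p : U) : Prop := ∀ q ∈ X, ¬ W q p

private theorem CLS_WO.swap {U : Type} {W : U → U → Prop} {E : Set U} (h : CLS_WO W E) :
    CLS_WO (fun a b => W b a) E where
  irr := h.irr
  neg := fun u hu w hw h1 v hv => (h.neg w hw u hu h1 v hv).symm
  tra := fun u hu v hv w hw h1 h2 => h.tra w hw v hv u hu h2 h1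

private theorem CLS_WO.asy {U : Type} {W : U → U → Prop} {E : Set U} (h : CLS_WO W E) {x y : U}
    (hx : x ∈ E) (hy : y ∈ E) (h1 : W x y) : ¬ W y x :=
  fun h2 => h.irr x hx (h.tra x hx y hy x hx h1 h2)

/-- equivalent points -/
private theorem CLS_WO.eqv {U : Type} {W : U → U → Prop} {E : Set U} (h : CLS_WO W E) {a b : U}
    (ha : a ∈ E) (hb : b ∈ E) (h1 : ¬ W a b) (h2 : ¬ W b a) {c : U} (hc : c ∈ E) :
    (W a c ↔ W b c) ∧ (W c a ↔ W c b) := by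
  refine ⟨⟨fun h3 => ?_, fun h3 => ?_⟩, ⟨fun h3 => ?_, fun h3 => ?_⟩⟩
  · exact (h.neg a ha c hc h3 b hb).resolve_left h1
  · exact (h.neg b hb c hc h3 a ha).resolve_left h2
  · exact (h.neg c hc a ha h3 b hb).resolve_right h2
  · exact (h.neg c hc b hb h3 a ha).resolve_right h1

/-- a finite set has a last point -/
private theorem CLS_max {U : Type} {W : U → U → Prop} {E : Set U} (h : CLS_WO W E) {F : Set U}
    (hF : F.Finite) (hE : F ⊆ E) (hn : F.Nonempty) : ∃ m ∈ F, ∀ l ∈ F, ¬ W m l := by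
  induction F, hF using Set.Finite.induction_on with
  | empty => exact absurd hn not_nonempty_empty
  | @insert a F ha hf ih =>
    have haE : a ∈ E := hE (mem_insert _ _)
    have hFE : F ⊆ E := fun x hx => hE (mem_insert_of_mem _ hx)
    rcases F.eq_empty_or_nonempty with h0 | h0
    · subst h0
      refine ⟨a, mem_insert _ _, fun l hl => ?_⟩
      rcases hl with rfl | hl
      · exact h.irr _ haE
      · exact absurd hl (notMem_empty _)
    · obtain ⟨m, hm, hm2⟩ := ih hFE h0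
      by_cases h1 : W m a
      · refine ⟨a, mem_insert _ _, fun l hl => ?_⟩
        rcases hl with rfl | hl
        · exact h.irr _ haE
        · exact fun h2 => hm2 l hl (h.tra m (hFE hm) a haE l (hFE hl) h1 h2)
      · refine ⟨m, mem_insert_of_mem _ hm, fun l hl => ?_⟩
        rcases hl with rfl | hl
        · exact h1
        · exact hm2 l hl

/-- the same number of first clusters (0 or 1), with the same label -/
private def CLS_D {U : Type} (W : U → U → Prop) (X X' : Set U) (T T' : U → U → Prop) : Prop :=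
  (∃ z, (∃ p ∈ X, CLS_Fst W X p ∧ T p z) ∧ ∃ p ∈ X', CLS_Fst W X' p ∧ T' p z) ∨
    (∀ p ∈ X, ¬ CLS_Fst W X p) ∧ ∀ p ∈ X', ¬ CLS_Fst W X' p

private theorem CLS_first {U : Type} {W : U → U → Prop} {E X X' : Set U} {T T' : U → U → Prop}
    (h : CLS_WO W E) (hX : X ⊆ E) (hX' : X' ⊆ E) (hD : CLS_D W X X' T T')
    (ht : (∃ p ∈ X, ∃ q ∈ X, W p q) ↔ ∃ p ∈ X', ∃ q ∈ X', W p q)
    (hT : ∀ x ∈ X, ∀ p ∈ X, ¬ W x p → ¬ W p x → ∀ z, T p z → T x z) {x : U} (hx : x ∈ X)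
    (hfx : CLS_Fst W X x) {B : Set U} (hB : B ⊆ X') (hB1 : ∀ u ∈ B, ¬ CLS_Fst W X' u) :
    ∃ y ∈ X', (∀ u ∈ B, W y u) ∧ CLS_Fst W X' y ∧
      (CLS_Fst (fun a b => W b a) X x ↔ CLS_Fst (fun a b => W b a) X' y) ∧
      ∃ z, T x z ∧ T' y z := by
  rcases hD with ⟨z, ⟨p, hp, hfp, hTp⟩, ⟨y, hy, hfy, hTy⟩⟩ | ⟨h1, h2⟩
  · refine ⟨y, hy, fun u hu => ?_, hfy, ?_, z, hT x hx p hp (hfp x hx) (hfx p hp) z hTp, hTy⟩
    · have h3 := hB1 u hu
      unfold CLS_Fst at h3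
      push Not at h3
      obtain ⟨q, hq, h4⟩ := h3
      exact (h.neg q (hX' hq) u (hX' (hB hu)) h4 y (hX' hy)).resolve_left (hfy q hq)
    · have key : ∀ {Y : Set U}, Y ⊆ E → ∀ {v : U}, v ∈ Y → CLS_Fst W Y v →
          (CLS_Fst (fun a b => W b a) Y v ↔ ¬ ∃ p ∈ Y, ∃ q ∈ Y, W p q) := by
        intro Y hY v hv hf
        constructor
        · rintro hl ⟨p, hp, q, hq, hpq⟩
          rcases h.neg p (hY hp) q (hY hq) hpq v (hY hv) with h5 | h5
          · exact hf p hp h5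
          · exact hl q hq h5
        · intro hn q hq hvq
          exact hn ⟨v, hv, q, hq, hvq⟩
      rw [key hX hx hfx, key hX' hy hfy, ht]
  · exact absurd hfx (h1 x hx)

/-- the position of the new point -/
private theorem CLS_pos {U : Type} {W : U → U → Prop} {E X X' : Set U} {T T' : U → U → Prop}
    (h : CLS_WO W E) (hX : X ⊆ E) (hX' : X' ⊆ E) (hD : CLS_D W X X' T T')
    (hD' : CLS_D (fun a b => W b a) X X' T T')
    (ht : (∃ p ∈ X, ∃ q ∈ X, W p q) ↔ ∃ p ∈ X', ∃ q ∈ X', W p q)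
    (hT : ∀ x ∈ X, ∀ p ∈ X, ¬ W x p → ¬ W p x → ∀ z, T p z → T x z)
    (hN : ∀ x ∈ X, ∃ z ∈ E, T x z)
    (hI : ∀ p ∈ X', ∀ q ∈ X', W p q → ∀ z ∈ E, ∃ z' ∈ X', W p z' ∧ W z' q ∧ T' z' z)
    {x : U} (hx : x ∈ X) {A B : Set U} (hA : A ⊆ X') (hB : B ⊆ X') (hAf : A.Finite)
    (hBf : B.Finite) (hAB : ∀ a ∈ A, ∀ b ∈ B, W a b)
    (hA1 : ∀ a ∈ A, ¬ CLS_Fst (fun a b => W b a) X' a) (hB1 : ∀ b ∈ B, ¬ CLS_Fst W X' b)
    (hA2 : A.Nonempty → ¬ CLS_Fst W X x)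
    (hB2 : B.Nonempty → ¬ CLS_Fst (fun a b => W b a) X x) :
    ∃ y ∈ X', (∀ a ∈ A, W a y) ∧ (∀ b ∈ B, W y b) ∧ (CLS_Fst W X x ↔ CLS_Fst W X' y) ∧
      (CLS_Fst (fun a b => W b a) X x ↔ CLS_Fst (fun a b => W b a) X' y) ∧
      ∃ z, T x z ∧ T' y z := by
  by_cases h1 : CLS_Fst W X x
  · have hA0 : A = ∅ := by
      rcases A.eq_empty_or_nonempty with h0 | h0
      · exact h0
      · exact absurd h1 (hA2 h0)
    obtain ⟨y, hy, h2, h3, h4, h5⟩ := CLS_first h hX hX' hD ht hT hx h1 hB hB1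
    exact ⟨y, hy, fun a ha => by rw [hA0] at ha; exact absurd ha (notMem_empty _), h2,
      ⟨fun _ => h3, fun _ => h1⟩, h4, h5⟩
  · by_cases h2 : CLS_Fst (fun a b => W b a) X x
    · have hB0 : B = ∅ := by
        rcases B.eq_empty_or_nonempty with h0 | h0
        · exact h0
        · exact absurd h2 (hB2 h0)
      have ht' : (∃ p ∈ X, ∃ q ∈ X, W q p) ↔ ∃ p ∈ X', ∃ q ∈ X', W q p := by
        constructor
        · rintro ⟨p, hp, q, hq, h3⟩
          obtain ⟨p', hp', q', hq', h4⟩ := ht.1 ⟨q, hq, p, hp, h3⟩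
          exact ⟨q', hq', p', hp', h4⟩
        · rintro ⟨p, hp, q, hq, h3⟩
          obtain ⟨p', hp', q', hq', h4⟩ := ht.2 ⟨q, hq, p, hp, h3⟩
          exact ⟨q', hq', p', hp', h4⟩
      obtain ⟨y, hy, h3, h4, h5, h6⟩ := CLS_first h.swap hX hX' hD' ht'
        (fun x hx p hp h7 h8 => hT x hx p hp h8 h7) hx h2 hA hA1
      exact ⟨y, hy, h3, fun a ha => by rw [hB0] at ha; exact absurd ha (notMem_empty _), h5,
        ⟨fun _ => h4, fun _ => h2⟩, h6⟩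
    · -- neither first nor last
      have hlu : ∃ l ∈ X', ∃ u ∈ X', W l u ∧ (∀ a ∈ A, ¬ W l a) ∧ ∀ b ∈ B, ¬ W b u := by
        rcases A.eq_empty_or_nonempty with hA0 | hA0
        · rcases B.eq_empty_or_nonempty with hB0 | hB0
          · have h3 : ∃ p ∈ X, ∃ q ∈ X, W p q := by
              unfold CLS_Fst at h1
              push Not at h1
              obtain ⟨q, hq, h4⟩ := h1
              exact ⟨q, hq, x, hx, h4⟩
            obtain ⟨p, hp, q, hq, h4⟩ := ht.1 h3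
            exact ⟨p, hp, q, hq, h4, fun a ha => by rw [hA0] at ha; exact absurd ha (notMem_empty _),
              fun a ha => by rw [hB0] at ha; exact absurd ha (notMem_empty _)⟩
          · obtain ⟨u, hu, hu2⟩ := CLS_max h.swap hBf (hB.trans hX') hB0
            have h3 := hB1 u hu
            unfold CLS_Fst at h3
            push Not at h3
            obtain ⟨q, hq, h4⟩ := h3
            exact ⟨q, hq, u, hB hu, h4,
              fun a ha => by rw [hA0] at ha; exact absurd ha (notMem_empty _), hu2⟩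
        · obtain ⟨l, hl, hl2⟩ := CLS_max h hAf (hA.trans hX') hA0
          rcases B.eq_empty_or_nonempty with hB0 | hB0
          · have h3 := hA1 l hl
            unfold CLS_Fst at h3
            push Not at h3
            obtain ⟨q, hq, h4⟩ := h3
            exact ⟨l, hA hl, q, hq, h4, hl2,
              fun a ha => by rw [hB0] at ha; exact absurd ha (notMem_empty _)⟩
          · obtain ⟨u, hu, hu2⟩ := CLS_max h.swap hBf (hB.trans hX') hB0
            exact ⟨l, hA hl, u, hB hu, hAB l hl u hu, hl2, hu2⟩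
      obtain ⟨l, hl, u, hu, hlu, hl2, hu2⟩ := hlu
      obtain ⟨z, hz, hz2⟩ := hN x hx
      obtain ⟨y, hy, hly, hyu, hyz⟩ := hI l hl u hu hlu z hz
      refine ⟨y, hy, fun a ha => ?_, fun b hb => ?_, ⟨fun h3 => absurd h3 h1, fun h3 => ?_⟩,
        ⟨fun h3 => absurd h3 h2, fun h3 => ?_⟩, z, hz2, hyz⟩
      · exact (h.neg l (hX' hl) y (hX' hy) hly a (hX' (hA ha))).resolve_left (hl2 a ha)
      · exact (h.neg y (hX' hy) u (hX' hu) hyu b (hX' (hB hb))).resolve_right (hu2 b hb)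
      · exact absurd hly (h3 l hl)
      · exact absurd hyu (h3 u hu)

/-! ### Bijections with local automorphisms -/

section parts

variable {L : FirstOrder.Language.{0, 0}} {U : Type} [L.Structure U] {κ : Type}
  {R : κ → U → U → Prop} {o : κ → κ} {A E : Set U} {sg : κ → U → Bool}

private def CLS_G (L : FirstOrder.Language.{0, 0}) {U : Type} [L.Structure U] (A X Y : Set U)
    (f : U → U) : Prop :=
  BijOn f X Y ∧ ∀ s : Set U, s.Finite → s ⊆ X → ∃ g : U ≃[L] U, Fx L A g ∧ ∀ x ∈ s, g x = f x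

private theorem CLS_G_of_Sm {X Y : Set U} (h : Sm L A X Y) : ∃ f, CLS_G L A X Y f := by
  classical
  obtain ⟨e, he⟩ := h
  have h1 : ∀ x (hx : x ∈ X), (if h : x ∈ X then (e ⟨x, h⟩ : U) else x) = e ⟨x, hx⟩ :=
    fun x hx => dif_pos hx
  refine ⟨fun x => if h : x ∈ X then (e ⟨x, h⟩ : U) else x, ⟨?_, ?_, ?_⟩, ?_⟩
  · intro x hx
    show (if h : x ∈ X then (e ⟨x, h⟩ : U) else x) ∈ Y
    rw [h1 x hx]
    exact (e ⟨x, hx⟩).2
  · intro x hx y hy hxy
    have h2 : (if h : x ∈ X then (e ⟨x, h⟩ : U) else x) =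
      (if h : y ∈ X then (e ⟨y, h⟩ : U) else y) := hxy
    rw [h1 x hx, h1 y hy] at h2
    have h3 := e.injective (Subtype.ext h2)
    exact congrArg Subtype.val h3
  · intro y hy
    refine ⟨(e.symm ⟨y, hy⟩ : X), (e.symm ⟨y, hy⟩).2, ?_⟩
    show (if h : ((e.symm ⟨y, hy⟩ : X) : U) ∈ X then (e ⟨(e.symm ⟨y, hy⟩ : X), h⟩ : U) else
      ((e.symm ⟨y, hy⟩ : X) : U)) = y
    rw [h1 _ (e.symm ⟨y, hy⟩).2]
    simp
  · intro s hs hsX
    obtain ⟨g, hg, hg2⟩ := he (Subtype.val ⁻¹' s) (hs.preimage Subtype.val_injective.injOn)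
    refine ⟨g, hg, fun x hx => ?_⟩
    show g x = (if h : x ∈ X then (e ⟨x, h⟩ : U) else x)
    rw [h1 x (hsX hx)]
    exact hg2 ⟨x, hsX hx⟩ hx

private theorem CLS_G_symm {X Y : Set U} {f : U → U} (h : CLS_G L A X Y f) :
    ∃ f', CLS_G L A Y X f' ∧ ∀ x ∈ X, f' (f x) = x := by
  classical
  rcases X.eq_empty_or_nonempty with h0 | ⟨x0, hx0⟩
  · subst h0
    have hY : Y = ∅ := by
      rw [← h.1.image_eq, image_empty]
    subst hY
    exact ⟨f, h, fun x hx => absurd hx (notMem_empty _)⟩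
  have hne : Nonempty U := ⟨x0⟩
  have h1 : InvOn (Function.invFunOn f X) f X Y := h.1.invOn_invFunOn
  refine ⟨Function.invFunOn f X, ⟨h.1.symm h1.symm, fun s hs hsY => ?_⟩, h1.1⟩
  have h2 : (Function.invFunOn f X '' s) ⊆ X := by
    rintro _ ⟨y, hy, rfl⟩
    exact (h.1.symm h1.symm).mapsTo (hsY hy)
  obtain ⟨g, hg, hg2⟩ := h.2 (Function.invFunOn f X '' s) (hs.image _) h2
  refine ⟨g.symm, fun a ha => ?_, fun y hy => ?_⟩
  · have h3 := hg a ha
    calc g.symm a = g.symm (g a) := by rw [h3]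
      _ = a := g.symm_apply_apply a
  · have h3 := hg2 _ (mem_image_of_mem _ hy)
    rw [h1.2 (hsY hy)] at h3
    calc g.symm y = g.symm (g (Function.invFunOn f X y)) := by rw [h3]
      _ = _ := g.symm_apply_apply _

/-- the invariants of the back and forth construction -/
private structure CLS_P (L : FirstOrder.Language.{0, 0}) {U : Type} [L.Structure U] {κ : Type}
    (R : κ → U → U → Prop) (o : κ → κ) (A E : Set U) (sg : κ → U → Bool) (M M' : Set U)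
    (s : Set (U × U)) : Prop where
  m1 : ∀ c ∈ s, c.1 ∈ M ∩ E
  m2 : ∀ c ∈ s, c.2 ∈ M' ∩ E
  w : ∀ c ∈ s, ∀ c' ∈ s, (Ll L R o A sg c.1 c'.1 ↔ Ll L R o A sg c.2 c'.2)
  f1 : ∀ c ∈ s, (CLS_Fst (Ll L R o A sg) (M ∩ E) c.1 ↔ CLS_Fst (Ll L R o A sg) (M' ∩ E) c.2)
  f2 : ∀ c ∈ s, (CLS_Fst (fun a b => Ll L R o A sg b a) (M ∩ E) c.1 ↔
    CLS_Fst (fun a b => Ll L R o A sg b a) (M' ∩ E) c.2)
  e : ∀ c ∈ s, ∃ f, CLS_G L A (Itv L R o A E sg M c.1 c.1) (Itv L R o A E sg M' c.2 c.2) f ∧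
    ∀ c' ∈ s, ¬ Ll L R o A sg c'.1 c.1 → ¬ Ll L R o A sg c.1 c'.1 → f c'.1 = c'.2

private theorem CLS_P.swap {M M' : Set U} {s : Set (U × U)} (h : CLS_P L R o A E sg M M' s) :
    CLS_P L R o A E sg M' M (Prod.swap '' s) where
  m1 := by
    rintro _ ⟨c, hc, rfl⟩
    exact h.m2 c hc
  m2 := by
    rintro _ ⟨c, hc, rfl⟩
    exact h.m1 c hc
  w := by
    rintro _ ⟨c, hc, rfl⟩ _ ⟨c', hc', rfl⟩
    exact (h.w c hc c' hc').symm
  f1 := by
    rintro _ ⟨c, hc, rfl⟩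
    exact (h.f1 c hc).symm
  f2 := by
    rintro _ ⟨c, hc, rfl⟩
    exact (h.f2 c hc).symm
  e := by
    rintro _ ⟨c, hc, rfl⟩
    obtain ⟨f, hf, hf2⟩ := h.e c hc
    obtain ⟨f', hf', hf2'⟩ := CLS_G_symm hf
    refine ⟨f', hf', ?_⟩
    rintro _ ⟨c', hc', rfl⟩ h1 h2
    have h3 : ¬ Ll L R o A sg c'.1 c.1 := fun h4 => h1 ((h.w c' hc' c hc).1 h4)
    have h4 : ¬ Ll L R o A sg c.1 c'.1 := fun h5 => h2 ((h.w c hc c' hc').1 h5)
    have h5 := hf2 c' hc' h3 h4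
    show f' c'.2 = c'.1
    rw [← h5]
    exact hf2' c'.1 ⟨(h.m1 c' hc').1, (h.m1 c' hc').2, h3, h4⟩

private theorem CLS_itv (hW : CLS_WO (Ll L R o A sg) E) (M : Set U) {a b : U} (ha : a ∈ E)
    (hb : b ∈ E) (h1 : ¬ Ll L R o A sg a b) (h2 : ¬ Ll L R o A sg b a) :
    Itv L R o A E sg M a a = Itv L R o A E sg M b b := by
  ext z
  constructor
  · rintro ⟨hz, hzE, h3, h4⟩
    have h5 := hW.eqv ha hb h1 h2 hzE
    exact ⟨hz, hzE, fun h6 => h3 (h5.2.2 h6), fun h6 => h4 (h5.1.2 h6)⟩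
  · rintro ⟨hz, hzE, h3, h4⟩
    have h5 := hW.eqv ha hb h1 h2 hzE
    exact ⟨hz, hzE, fun h6 => h3 (h5.2.1 h6), fun h6 => h4 (h5.1.1 h6)⟩

/-- adding a point equivalent to an old one, or a point of a new cluster -/
private theorem CLS_insert (hW : CLS_WO (Ll L R o A sg) E) {M M' : Set U} {s : Set (U × U)}
    (h : CLS_P L R o A E sg M M' s) {x y y' : U} {f : U → U} (hx : x ∈ M ∩ E) (hy' : y' ∈ M' ∩ E)
    (hf : CLS_G L A (Itv L R o A E sg M x x) (Itv L R o A E sg M' y' y') f) (hy : f x = y)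
    (hw : ∀ c ∈ s, (Ll L R o A sg x c.1 ↔ Ll L R o A sg y' c.2) ∧
      (Ll L R o A sg c.1 x ↔ Ll L R o A sg c.2 y'))
    (h1 : CLS_Fst (Ll L R o A sg) (M ∩ E) x ↔ CLS_Fst (Ll L R o A sg) (M' ∩ E) y')
    (h2 : CLS_Fst (fun a b => Ll L R o A sg b a) (M ∩ E) x ↔
      CLS_Fst (fun a b => Ll L R o A sg b a) (M' ∩ E) y')
    (h3 : ∀ c ∈ s, ¬ Ll L R o A sg c.1 x → ¬ Ll L R o A sg x c.1 → f c.1 = c.2) :
    CLS_P L R o A E sg M M' (insert (x, y) s) := by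
  have hxI : x ∈ Itv L R o A E sg M x x := ⟨hx.1, hx.2, hW.irr x hx.2, hW.irr x hx.2⟩
  have hyI : y ∈ Itv L R o A E sg M' y' y' := hy ▸ hf.1.mapsTo hxI
  obtain ⟨hy1, hy2, hy3, hy4⟩ := hyI
  have hyy : ∀ {c : U}, c ∈ E → (Ll L R o A sg y c ↔ Ll L R o A sg y' c) ∧
    (Ll L R o A sg c y ↔ Ll L R o A sg c y') := fun hc => hW.eqv hy2 hy'.2 hy3 hy4 hc
  have hI : Itv L R o A E sg M' y y = Itv L R o A E sg M' y' y' := CLS_itv hW M' hy2 hy'.2 hy3 hy4
  refine ⟨?_, ?_, ?_, ?_, ?_, ?_⟩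
  · rintro c (rfl | hc)
    · exact hx
    · exact h.m1 c hc
  · rintro c (rfl | hc)
    · exact ⟨hy1, hy2⟩
    · exact h.m2 c hc
  · rintro c (rfl | hc) c' (rfl | hc')
    · exact ⟨fun h4 => absurd h4 (hW.irr x hx.2), fun h4 => absurd h4 (hW.irr y hy2)⟩
    · exact (hw c' hc').1.trans (hyy (h.m2 c' hc').2).1.symm
    · exact (hw c hc).2.trans (hyy (h.m2 c hc).2).2.symm
    · exact h.w c hc c' hc'
  · rintro c (rfl | hc)
    · refine h1.trans ⟨fun h4 q hq h5 => h4 q hq ((hyy hq.2).2.1 h5),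
        fun h4 q hq h5 => h4 q hq ((hyy hq.2).2.2 h5)⟩
    · exact h.f1 c hc
  · rintro c (rfl | hc)
    · refine h2.trans ⟨fun h4 q hq h5 => h4 q hq ((hyy hq.2).1.1 h5),
        fun h4 q hq h5 => h4 q hq ((hyy hq.2).1.2 h5)⟩
    · exact h.f2 c hc
  · rintro c (rfl | hc)
    · refine ⟨f, ?_, ?_⟩
      · show CLS_G L A (Itv L R o A E sg M x x) (Itv L R o A E sg M' y y) f
        rw [hI]
        exact hf
      · rintro c' (rfl | hc') h4 h5
        · exact hy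
        · exact h3 c' hc' h4 h5
    · by_cases hcx : ¬ Ll L R o A sg c.1 x ∧ ¬ Ll L R o A sg x c.1
      · have h6 := hw c hc
        have h7 := h.m2 c hc
        refine ⟨f, ?_, ?_⟩
        · rw [CLS_itv hW M (h.m1 c hc).2 hx.2 hcx.1 hcx.2,
            CLS_itv hW M' h7.2 hy'.2 (fun h8 => hcx.1 (h6.2.2 h8)) (fun h8 => hcx.2 (h6.1.2 h8))]
          exact hf
        · rintro c' (rfl | hc') h8 h9
          · exact hy
          · have h10 := hW.eqv (h.m1 c hc).2 hx.2 hcx.1 hcx.2 (h.m1 c' hc').2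
            exact h3 c' hc' (fun h11 => h8 (h10.2.2 h11)) (fun h11 => h9 (h10.1.2 h11))
      · obtain ⟨f', hf', hf2⟩ := h.e c hc
        refine ⟨f', hf', ?_⟩
        rintro c' (rfl | hc') h8 h9
        · exact absurd ⟨h9, h8⟩ hcx
        · exact hf2 c' hc' h8 h9

private theorem CLS_forth (hW : CLS_WO (Ll L R o A sg) E) {M M' : Set U}
    (s2 : ∀ X Y : Set U, Sm L A X Y → Sm L A Y X)
    (s3 : ∀ X Y Z : Set U, Sm L A X Y → Sm L A Y Z → Sm L A X Z)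
    (hD : CLS_D (Ll L R o A sg) (M ∩ E) (M' ∩ E)
      (fun x z => Sm L A (Itv L R o A E sg M x x) (Itv L R o A E sg univ z z))
      (fun x z => Sm L A (Itv L R o A E sg M' x x) (Itv L R o A E sg univ z z)))
    (hD' : CLS_D (fun a b => Ll L R o A sg b a) (M ∩ E) (M' ∩ E)
      (fun x z => Sm L A (Itv L R o A E sg M x x) (Itv L R o A E sg univ z z))
      (fun x z => Sm L A (Itv L R o A E sg M' x x) (Itv L R o A E sg univ z z)))
    (ht : (∃ p ∈ M ∩ E, ∃ q ∈ M ∩ E, Ll L R o A sg p q) ↔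
      ∃ p ∈ M' ∩ E, ∃ q ∈ M' ∩ E, Ll L R o A sg p q)
    (hN : ∀ x ∈ M ∩ E, ∃ z ∈ E, Sm L A (Itv L R o A E sg M x x) (Itv L R o A E sg univ z z))
    (hI : ∀ p ∈ M' ∩ E, ∀ q ∈ M' ∩ E, Ll L R o A sg p q → ∀ z ∈ E, ∃ z' ∈ M' ∩ E,
      Ll L R o A sg p z' ∧ Ll L R o A sg z' q ∧
        Sm L A (Itv L R o A E sg M' z' z') (Itv L R o A E sg univ z z))
    {s : Set (U × U)} (hs : s.Finite) (h : CLS_P L R o A E sg M M' s) {x : U}
    (hx : x ∈ M ∩ E) : ∃ y ∈ M' ∩ E, CLS_P L R o A E sg M M' (insert (x, y) s) := by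
  by_cases hc : ∃ c ∈ s, ¬ Ll L R o A sg c.1 x ∧ ¬ Ll L R o A sg x c.1
  · obtain ⟨c, hc, hc1, hc2⟩ := hc
    obtain ⟨f, hf, hf2⟩ := h.e c hc
    have hcE := h.m1 c hc
    have hf3 : CLS_G L A (Itv L R o A E sg M x x) (Itv L R o A E sg M' c.2 c.2) f := by
      rw [← CLS_itv hW M hcE.2 hx.2 hc1 hc2]
      exact hf
    have hxI : x ∈ Itv L R o A E sg M x x := ⟨hx.1, hx.2, hW.irr x hx.2, hW.irr x hx.2⟩
    have hy := hf3.1.mapsTo hxI
    have h0 : ∀ {d : U}, d ∈ E → (Ll L R o A sg c.1 d ↔ Ll L R o A sg x d) ∧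
      (Ll L R o A sg d c.1 ↔ Ll L R o A sg d x) := fun hd => hW.eqv hcE.2 hx.2 hc1 hc2 hd
    refine ⟨f x, ⟨hy.1, hy.2.1⟩, CLS_insert hW h hx (h.m2 c hc) hf3 rfl ?_ ?_ ?_ ?_⟩
    · intro c' hc'
      have h4 := h0 (h.m1 c' hc').2
      exact ⟨h4.1.symm.trans (h.w c hc c' hc'), h4.2.symm.trans (h.w c' hc' c hc)⟩
    · refine Iff.trans ⟨fun h4 q hq h5 => h4 q hq ((h0 hq.2).2.1 h5),
        fun h4 q hq h5 => h4 q hq ((h0 hq.2).2.2 h5)⟩ (h.f1 c hc)
    · refine Iff.trans ⟨fun h4 q hq h5 => h4 q hq ((h0 hq.2).1.1 h5),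
        fun h4 q hq h5 => h4 q hq ((h0 hq.2).1.2 h5)⟩ (h.f2 c hc)
    · intro c' hc' h4 h5
      have h6 := h0 (h.m1 c' hc').2
      exact hf2 c' hc' (fun h7 => h4 (h6.2.1 h7)) (fun h7 => h5 (h6.1.1 h7))
  · push Not at hc
    obtain ⟨y', hy', h1, h2, h3, h4, z, h5, h6⟩ := CLS_pos (T' := fun x z =>
        Sm L A (Itv L R o A E sg M' x x) (Itv L R o A E sg univ z z)) hW
      (inter_subset_right : M ∩ E ⊆ E) (inter_subset_right : M' ∩ E ⊆ E) hD hD' ht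
      (fun x hx p hp h1 h2 z h3 => by
        have h4 := CLS_itv (A := A) hW M hx.2 hp.2 h1 h2
        show Sm L A (Itv L R o A E sg M x x) (Itv L R o A E sg univ z z)
        rw [h4]
        exact h3) hN hI hx
      (A := {y | ∃ c ∈ s, Ll L R o A sg c.1 x ∧ c.2 = y})
      (B := {y | ∃ c ∈ s, Ll L R o A sg x c.1 ∧ c.2 = y})
      (by rintro _ ⟨c, hc, -, rfl⟩; exact h.m2 c hc)
      (by rintro _ ⟨c, hc, -, rfl⟩; exact h.m2 c hc)
      ((hs.image Prod.snd).subset (by rintro _ ⟨c, hc, -, rfl⟩; exact ⟨c, hc, rfl⟩))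
      ((hs.image Prod.snd).subset (by rintro _ ⟨c, hc, -, rfl⟩; exact ⟨c, hc, rfl⟩))
      (by
        rintro _ ⟨c, hc, h1, rfl⟩ _ ⟨c', hc', h2, rfl⟩
        exact (h.w c hc c' hc').1 (hW.tra _ (h.m1 c hc).2 x hx.2 _ (h.m1 c' hc').2 h1 h2))
      (by
        rintro _ ⟨c, hc, h1, rfl⟩ h2
        exact (h.f2 c hc).2 h2 x hx h1)
      (by
        rintro _ ⟨c, hc, h1, rfl⟩ h2
        exact (h.f1 c hc).2 h2 x hx h1)
      (by
        rintro ⟨_, c, hc, h1, rfl⟩ h2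
        exact h2 c.1 (h.m1 c hc) h1)
      (by
        rintro ⟨_, c, hc, h1, rfl⟩ h2
        exact h2 c.1 (h.m1 c hc) h1)
    obtain ⟨f, hf⟩ := CLS_G_of_Sm (s3 _ _ _ h5 (s2 _ _ h6))
    have hxI : x ∈ Itv L R o A E sg M x x := ⟨hx.1, hx.2, hW.irr x hx.2, hW.irr x hx.2⟩
    have hy := hf.1.mapsTo hxI
    refine ⟨f x, ⟨hy.1, hy.2.1⟩, CLS_insert hW h hx hy' hf rfl ?_ h3 h4 ?_⟩
    · intro c hcs
      have hcE := (h.m1 c hcs).2
      have hcE' := (h.m2 c hcs).2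
      by_cases h7 : Ll L R o A sg c.1 x
      · have h8 := h1 c.2 ⟨c, hcs, h7, rfl⟩
        exact ⟨⟨fun h9 => absurd h7 (hW.asy hx.2 hcE h9),
          fun h9 => absurd h8 (hW.asy hy'.2 hcE' h9)⟩, ⟨fun _ => h8, fun _ => h7⟩⟩
      · have h9 := hc c hcs h7
        have h8 := h2 c.2 ⟨c, hcs, h9, rfl⟩
        exact ⟨⟨fun _ => h8, fun _ => h9⟩, ⟨fun h10 => absurd h10 h7,
          fun h10 => absurd h8 (hW.asy hcE' hy'.2 h10)⟩⟩
    · intro c hcs h7 h8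
      exact absurd (hc c hcs h7) h8

private theorem CLS_aut (hGRP : St_GRP) (hC : Cx L R o) (hE : Ori L R o A E sg)
    (hW : CLS_WO (Ll L R o A sg) E) {M M' : Set U} {s : Set (U × U)} (hs : s.Finite)
    (h : CLS_P L R o A E sg M M' s) : ∃ g : U ≃[L] U, Fx L A g ∧ ∀ c ∈ s, g c.1 = c.2 := by
  classical
  have hfun : ∀ c ∈ s, ∀ c' ∈ s, c'.1 = c.1 → c'.2 = c.2 := by
    intro c hc c' hc' h1
    obtain ⟨f, hf, hf2⟩ := h.e c hc
    have h2 := hW.irr c.1 (h.m1 c hc).2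
    rw [← hf2 c hc h2 h2, ← hf2 c' hc' (by rw [h1]; exact h2) (by rw [h1]; exact h2), h1]
  obtain ⟨t, ht⟩ : ∃ t : U → U, ∀ c ∈ s, t c.1 = c.2 := by
    refine ⟨fun x => if h : ∃ c ∈ s, c.1 = x then h.choose.2 else x, fun c hc => ?_⟩
    have h1 : ∃ c' ∈ s, c'.1 = c.1 := ⟨c, hc, rfl⟩
    show (if h : ∃ c' ∈ s, c'.1 = c.1 then h.choose.2 else c.1) = c.2
    rw [dif_pos h1]
    exact hfun c hc _ h1.choose_spec.1 h1.choose_spec.2
  obtain ⟨g, hg, hg2⟩ := hGRP L U κ R o hC A E sg hE (Prod.fst '' s) t (hs.image _)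
    (by rintro _ ⟨c, hc, rfl⟩; exact (h.m1 c hc).2)
    (by rintro _ ⟨c, hc, rfl⟩; rw [ht c hc]; exact (h.m2 c hc).2)
    (by
      rintro _ ⟨c, hc, rfl⟩ _ ⟨c', hc', rfl⟩ h1
      rw [ht c hc, ht c' hc']
      exact (h.w c hc c' hc').1 h1)
    (by
      rintro _ ⟨c, hc, rfl⟩
      obtain ⟨f, hf, hf2⟩ := h.e c hc
      obtain ⟨g, hg, hg2⟩ := hf.2 {y | y ∈ Prod.fst '' s ∧ ¬ Ll L R o A sg c.1 y ∧
          ¬ Ll L R o A sg y c.1} ((hs.image _).subset (fun y hy => hy.1)) (by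
        rintro _ ⟨⟨c', hc', rfl⟩, h1, h2⟩
        exact ⟨(h.m1 c' hc').1, (h.m1 c' hc').2, h2, h1⟩)
      refine ⟨g, hg, ?_⟩
      rintro _ ⟨c', hc', rfl⟩ h1 h2
      rw [hg2 c'.1 ⟨⟨c', hc', rfl⟩, h1, h2⟩, hf2 c' hc' h2 h1, ht c' hc'])
  exact ⟨g, hg, fun c hc => (hg2 c.1 ⟨c, hc, rfl⟩).trans (ht c hc)⟩

end parts

private theorem CLS_D.symm {U : Type} {W : U → U → Prop} {X X' : Set U} {T T' : U → U → Prop}
    (h : CLS_D W X X' T T') : CLS_D W X' X T' T := by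
  rcases h with ⟨z, h1, h2⟩ | ⟨h1, h2⟩
  · exact Or.inl ⟨z, h2, h1⟩
  · exact Or.inr ⟨h2, h1⟩

/-- the label of the first cluster -/
private noncomputable def CLS_lab {U : Type} (W : U → U → Prop) (X : Set U) (T : U → U → Prop) :
    Option U := by
  classical
  exact if h : ∃ z, ∃ p ∈ X, CLS_Fst W X p ∧ T p z then some h.choose else none

private theorem CLS_lab_eq {U : Type} {W : U → U → Prop} {X X' : Set U} {T T' : U → U → Prop}
    (hN : ∀ p ∈ X, ∃ z, T p z) (hN' : ∀ p ∈ X', ∃ z, T' p z)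
    (h : CLS_lab W X T = CLS_lab W X' T') : CLS_D W X X' T T' := by
  classical
  unfold CLS_lab at h
  by_cases h1 : ∃ z, ∃ p ∈ X, CLS_Fst W X p ∧ T p z
  · by_cases h2 : ∃ z, ∃ p ∈ X', CLS_Fst W X' p ∧ T' p z
    · rw [dif_pos h1, dif_pos h2] at h
      have h3 := Option.some.inj h
      refine Or.inl ⟨h1.choose, h1.choose_spec, ?_⟩
      rw [h3]
      exact h2.choose_spec
    · rw [dif_pos h1, dif_neg h2] at h
      cases h
  · by_cases h2 : ∃ z, ∃ p ∈ X', CLS_Fst W X' p ∧ T' p z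
    · rw [dif_neg h1, dif_pos h2] at h
      cases h
    · refine Or.inr ⟨fun p hp h3 => ?_, fun p hp h3 => ?_⟩
      · obtain ⟨z, hz⟩ := hN p hp
        exact h1 ⟨z, p, hp, h3, hz⟩
      · obtain ⟨z, hz⟩ := hN' p hp
        exact h2 ⟨z, p, hp, h3, hz⟩

/-- [CLS] -/
theorem thm_CLS (hB : St_BAF) (hG : St_GRP) (hO : St_ORD) (hS : St_SMB) : St_CLS := by
  intro L U _ κ R o hC A E sg hE H1 H2
  classical
  obtain ⟨-, o2, o3, o4, -, -⟩ := hO L U κ R o hC A E sg hE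
  have hW : CLS_WO (Ll L R o A sg) E :=
    ⟨fun x hx => o2 x hx true, o3, o4⟩
  obtain ⟨s1, s2, s3, -⟩ := hS L U κ R o hC
  have hct : Countable U := hC.mon.ctb
  let T : Set U → U → U → Prop := fun M x z =>
    Sm L A (Itv L R o A E sg M x x) (Itv L R o A E sg univ z z)
  let dat : Set U → Option U × Option U × Prop := fun M =>
    (CLS_lab (Ll L R o A sg) (M ∩ E) (T M), CLS_lab (fun a b => Ll L R o A sg b a) (M ∩ E) (T M),
      ∃ p ∈ M ∩ E, ∃ q ∈ M ∩ E, Ll L R o A sg p q)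
  have key : ∀ M M' : Set U, Md L A M → Md L A M' → dat M = dat M' →
      Sm L A (M ∩ E) (M' ∩ E) := by
    intro M M' hM hM' hd
    have hd1 : CLS_lab (Ll L R o A sg) (M ∩ E) (T M) = CLS_lab (Ll L R o A sg) (M' ∩ E) (T M') :=
      congrArg (fun d => d.1) hd
    have hd2 : CLS_lab (fun a b => Ll L R o A sg b a) (M ∩ E) (T M) =
        CLS_lab (fun a b => Ll L R o A sg b a) (M' ∩ E) (T M') :=
      congrArg (fun d => d.2.1) hd
    have hd3 : (∃ p ∈ M ∩ E, ∃ q ∈ M ∩ E, Ll L R o A sg p q) ↔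
        ∃ p ∈ M' ∩ E, ∃ q ∈ M' ∩ E, Ll L R o A sg p q := by
      have h1 : (∃ p ∈ M ∩ E, ∃ q ∈ M ∩ E, Ll L R o A sg p q) =
        ∃ p ∈ M' ∩ E, ∃ q ∈ M' ∩ E, Ll L R o A sg p q := congrArg (fun d => d.2.2) hd
      exact iff_of_eq h1
    have hN : ∀ M : Set U, Md L A M → ∀ x ∈ M ∩ E, ∃ z ∈ E, T M x z :=
      fun M hM x hx => H1 M x hM hx.1 hx.2
    have hN' : ∀ M : Set U, Md L A M → ∀ x ∈ M ∩ E, ∃ z, T M x z := fun M hM x hx => by
      obtain ⟨z, -, hz⟩ := hN M hM x hx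
      exact ⟨z, hz⟩
    have hI : ∀ M : Set U, Md L A M → ∀ p ∈ M ∩ E, ∀ q ∈ M ∩ E, Ll L R o A sg p q → ∀ z ∈ E,
        ∃ z' ∈ M ∩ E, Ll L R o A sg p z' ∧ Ll L R o A sg z' q ∧ T M z' z := by
      intro M hM p hp q hq hpq z hz
      obtain ⟨z', h1, h2, h3, h4, h5⟩ := H2 M p q hM hp.1 hp.2 hq.1 hq.2 hpq z hz
      exact ⟨z', ⟨h1, h2⟩, h3, h4, h5⟩
    have hD : CLS_D (Ll L R o A sg) (M ∩ E) (M' ∩ E) (T M) (T M') :=
      CLS_lab_eq (hN' M hM) (hN' M' hM') hd1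
    have hD' : CLS_D (fun a b => Ll L R o A sg b a) (M ∩ E) (M' ∩ E) (T M) (T M') :=
      CLS_lab_eq (hN' M hM) (hN' M' hM') hd2
    refine hB L U A (M ∩ E) (M' ∩ E) (CLS_P L R o A E sg M M') (Set.to_countable _)
      (Set.to_countable _) ?_ ?_ ?_ ?_
    · exact ⟨fun c hc => absurd hc (notMem_empty _), fun c hc => absurd hc (notMem_empty _),
        fun c hc => absurd hc (notMem_empty _), fun c hc => absurd hc (notMem_empty _),
        fun c hc => absurd hc (notMem_empty _), fun c hc => absurd hc (notMem_empty _)⟩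
    · intro s hs h x hx
      exact CLS_forth hW (s2 A) (s3 A) hD hD' hd3 (hN M hM) (hI M' hM') hs h hx
    · intro s hs h y hy
      obtain ⟨x, hx, h1⟩ := CLS_forth hW (s2 A) (s3 A) hD.symm hD'.symm hd3.symm (hN M' hM')
        (hI M hM) (hs.image Prod.swap) h.swap hy
      refine ⟨x, hx, ?_⟩
      have h2 := h1.swap
      rw [image_insert_eq, image_image] at h2
      simpa using h2
    · intro s hs h
      exact CLS_aut hG hC hE hW hs h
  -- one model for each datum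
  have hcd : Countable (Option U × Option U × Prop) := inferInstance
  have hnd : Nonempty (Option U × Option U × Prop) := ⟨(none, none, True)⟩
  obtain ⟨en, hen⟩ := exists_surjective_nat (Option U × Option U × Prop)
  refine ⟨fun n => if h : ∃ M, Md L A M ∧ dat M = en n then h.choose else univ, fun M hM => ?_⟩
  obtain ⟨n, hn⟩ := hen (dat M)
  have h1 : ∃ M, Md L A M ∧ dat M = en n := ⟨M, hM, hn.symm⟩
  refine ⟨n, ?_⟩
  show Md L A (if h : ∃ M, Md L A M ∧ dat M = en n then h.choose else univ) ∧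
    Sm L A (M ∩ E) ((if h : ∃ M, Md L A M ∧ dat M = en n then h.choose else univ) ∩ E)
  rw [dif_pos h1]
  exact ⟨h1.choose_spec.1, key _ _ hM h1.choose_spec.1 (hn.symm.trans h1.choose_spec.2.symm)⟩

end Pool.Agent.PMC
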