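import Pool.Agent.PMC.StE

/-!
PMC [COE] (helper65): every structure with unary and binary relations has a code by two linear orders
with unary predicates.
-/

set_option autoImplicit false
set_option linter.unusedVariables false

namespace Pool.Agent.PMC

open FirstOrder.Language Set
open scoped FirstOrder
open Pool.Agent.Helper6.Str (PerfK CtblK Iso Code toStr RelIso)

noncomputable section

/-- the points of the code -/
abbrev COE_P : Type := (ℚ × ℕ) ⊕ (ℚ × ℕ) × (ℚ × ℕ)

/-- the value of a main point -/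
def COE_val (p : ℚ × ℕ) : ℝ := (p.1 : ℝ) + (p.2 : ℝ) * Real.sqrt 2

theorem COE_val_inj : Function.Injective COE_val := by
  rintro ⟨q, n⟩ ⟨q', n'⟩ h
  simp only [COE_val] at h
  by_cases hn : n = n'
  · subst hn
    have h1 : (q : ℝ) = q' := by linarith
    have h2 : q = q' := by exact_mod_cast h1
    rw [h2]
  · exfalso
    have h0 : ((n : ℝ) - n') ≠ 0 := by
      intro h1
      apply hn
      have h2 : (n : ℝ) = n' := by linarith
      exact_mod_cast h2
    have h1 : Real.sqrt 2 = (((q' - q) / ((n : ℚ) - n') : ℚ) : ℝ) := by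
      push_cast
      rw [eq_div_iff h0]
      linarith
    exact irrational_sqrt_two ⟨_, h1.symm⟩

theorem COE_dense (n : ℕ) (x y : ℝ) (h : x < y) : ∃ q : ℚ, x < COE_val (q, n) ∧
    COE_val (q, n) < y := by
  obtain ⟨q, h1, h2⟩ := exists_rat_btwn
    (show x - (n : ℝ) * Real.sqrt 2 < y - (n : ℝ) * Real.sqrt 2 by linarith)
  refine ⟨q, ?_, ?_⟩ <;> simp only [COE_val] <;> linarith

/-- first key -/
def COE_k1 (b : Bool) : COE_P → ℝ
  | .inl x => COE_val x
  | .inr z => if b then COE_val z.1 else COE_val z.2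

/-- second key -/
def COE_k2 : COE_P → ℕ
  | .inl _ => 0
  | .inr _ => 1

/-- third key -/
def COE_k3 (b : Bool) : COE_P → ℝ
  | .inl _ => 0
  | .inr z => if b then COE_val z.2 else COE_val z.1

/-- the order `b` of the points -/
def COE_LT (b : Bool) (p q : COE_P) : Prop :=
  COE_k1 b p < COE_k1 b q ∨ (COE_k1 b p = COE_k1 b q ∧
    (COE_k2 p < COE_k2 q ∨ (COE_k2 p = COE_k2 q ∧ COE_k3 b p < COE_k3 b q)))

theorem COE_irr (b : Bool) (p : COE_P) : ¬ COE_LT b p p := by
  rintro (h | ⟨-, h | ⟨-, h⟩⟩)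
  · exact lt_irrefl _ h
  · exact lt_irrefl _ h
  · exact lt_irrefl _ h

theorem COE_tra (b : Bool) (p q r : COE_P) (h : COE_LT b p q) (h' : COE_LT b q r) :
    COE_LT b p r := by
  rcases h with h | ⟨h0, h⟩
  · rcases h' with h' | ⟨h0', h'⟩
    · exact Or.inl (h.trans h')
    · exact Or.inl (h0' ▸ h)
  · rcases h' with h' | ⟨h0', h'⟩
    · exact Or.inl (h0.symm ▸ h')
    · refine Or.inr ⟨h0.trans h0', ?_⟩
      rcases h with h | ⟨h1, h⟩
      · rcases h' with h' | ⟨h1', h'⟩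
        · exact Or.inl (h.trans h')
        · exact Or.inl (h1' ▸ h)
      · rcases h' with h' | ⟨h1', h'⟩
        · exact Or.inl (h1.symm ▸ h')
        · exact Or.inr ⟨h1.trans h1', h.trans h'⟩

theorem COE_key_inj (b : Bool) (p q : COE_P) (h1 : COE_k1 b p = COE_k1 b q)
    (h2 : COE_k2 p = COE_k2 q) (h3 : COE_k3 b p = COE_k3 b q) : p = q := by
  rcases p with x | ⟨x, y⟩ <;> rcases q with x' | ⟨x', y'⟩
  · simp only [COE_k1] at h1
    rw [COE_val_inj h1]
  · simp [COE_k2] at h2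
  · simp [COE_k2] at h2
  · cases b
    · simp only [COE_k1, COE_k3, Bool.false_eq_true, if_false] at h1 h3
      rw [COE_val_inj h1, COE_val_inj h3]
    · simp only [COE_k1, COE_k3, if_true] at h1 h3
      rw [COE_val_inj h1, COE_val_inj h3]

theorem COE_tot (b : Bool) (p q : COE_P) (h : p ≠ q) : COE_LT b p q ∨ COE_LT b q p := by
  rcases lt_trichotomy (COE_k1 b p) (COE_k1 b q) with h1 | h1 | h1
  · exact Or.inl (Or.inl h1)
  · rcases lt_trichotomy (COE_k2 p) (COE_k2 q) with h2 | h2 | h2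
    · exact Or.inl (Or.inr ⟨h1, Or.inl h2⟩)
    · rcases lt_trichotomy (COE_k3 b p) (COE_k3 b q) with h3 | h3 | h3
      · exact Or.inl (Or.inr ⟨h1, Or.inr ⟨h2, h3⟩⟩)
      · exact absurd (COE_key_inj b p q h1 h2 h3) h
      · exact Or.inr (Or.inr ⟨h1.symm, Or.inr ⟨h2.symm, h3⟩⟩)
    · exact Or.inr (Or.inr ⟨h1.symm, Or.inl h2⟩)
  · exact Or.inr (Or.inl h1)

/-- order of the main points -/
theorem COE_main (b : Bool) (x y : ℚ × ℕ) :
    COE_LT b (.inl x) (.inl y) ↔ COE_val x < COE_val y := by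
  constructor
  · rintro (h | ⟨-, h | ⟨-, h⟩⟩)
    · exact h
    · exact absurd h (lt_irrefl _)
    · exact absurd h (lt_irrefl _)
  · exact fun h => Or.inl h

/-- a main point and a pair -/
theorem COE_mp (b : Bool) (x : ℚ × ℕ) (z : (ℚ × ℕ) × (ℚ × ℕ)) :
    COE_LT b (.inl x) (.inr z) ↔ COE_val x ≤ COE_val (if b then z.1 else z.2) := by
  have h0 : COE_k1 b (.inr z) = COE_val (if b then z.1 else z.2) := by
    cases b <;> rfl
  constructor
  · rintro (h | ⟨h, -⟩)
    · rw [h0] at h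
      exact le_of_lt h
    · rw [h0] at h
      exact le_of_eq h
  · intro h
    rcases lt_or_eq_of_le h with h | h
    · refine Or.inl ?_
      rw [h0]
      exact h
    · refine Or.inr ⟨?_, Or.inl ?_⟩
      · rw [h0]
        exact h
      · exact Nat.zero_lt_one

theorem COE_pm (b : Bool) (x : ℚ × ℕ) (z : (ℚ × ℕ) × (ℚ × ℕ)) :
    COE_LT b (.inr z) (.inl x) ↔ COE_val (if b then z.1 else z.2) < COE_val x := by
  have h0 : COE_k1 b (.inr z) = COE_val (if b then z.1 else z.2) := by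
    cases b <;> rfl
  constructor
  · rintro (h | ⟨-, h | ⟨h, -⟩⟩)
    · rw [h0] at h
      exact h
    · exact absurd h (Nat.not_lt_zero _)
    · exact absurd h Nat.one_ne_zero
  · intro h
    refine Or.inl ?_
    rw [h0]
    exact h

variable {L : FirstOrder.Language.{0, 0}}

/-- the unary predicates of the points -/
def COE_un (N : L.Structure ℕ) : Ix L → COE_P → Prop
  | .D, p => ∃ a, p = .inl a
  | .E, p => ∃ a c, p = .inr (a, c) ∧ a.2 = c.2
  | .u R, p => ∃ a, p = .inl a ∧ N.RelMap R ![a.2]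
  | .r R, p => ∃ a c, p = .inr (a, c) ∧ N.RelMap R ![a.2, c.2]

/-- the interpretation of the symbols -/
def COE_rel (N : L.Structure ℕ) (e : ℕ ≃ COE_P) : {n : ℕ} → Sy (Ix L) n → (Fin n → ℕ) → Prop
  | _, .un i, v => COE_un N i (e (v 0))
  | _, .lt b, v => COE_LT b (e (v 0)) (e (v 1))

/-- the code -/
@[instance_reducible]
def COE_S (N : L.Structure ℕ) (e : ℕ ≃ COE_P) : (LP (Ix L)).Structure ℕ where
  funMap := fun f _ => Empty.elim f
  RelMap := fun {n} R v => COE_rel N e R v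

variable (N : L.Structure ℕ) (e : ℕ ≃ COE_P)

theorem COE_us (i : Ix L) (x : ℕ) : us (COE_S N e) i x ↔ COE_un N i (e x) := Iff.rfl

theorem COE_ls (b : Bool) (x y : ℕ) : ls (COE_S N e) b x y ↔ COE_LT b (e x) (e y) := Iff.rfl

theorem COE_D {x : ℕ} (h : us (COE_S N e) .D x) : ∃ a, e x = .inl a := h

theorem COE_E {x : ℕ} (h : us (COE_S N e) .E x) : ∃ a c, e x = .inr (a, c) ∧ a.2 = c.2 := h

theorem COE_r {R : L.Relations 2} {x : ℕ} (h : us (COE_S N e) (.r R) x) :
    ∃ a c, e x = .inr (a, c) ∧ N.RelMap R ![a.2, c.2] := h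

theorem COE_abv (b : Bool) (x z : ℕ) : abv (COE_S N e) b x z ↔
    ∃ a c, e x = .inl (if b then a else c) ∧ e z = .inr (a, c) := by
  constructor
  · rintro ⟨h1, h2, h3, h4⟩
    obtain ⟨x', hx⟩ := COE_D N e h1
    rcases hz : e z with z' | ⟨a, c⟩
    · exact absurd ⟨z', hz⟩ h2
    · refine ⟨a, c, ?_, rfl⟩
      rw [COE_ls, hx, hz, COE_mp] at h3
      rcases lt_or_eq_of_le h3 with h3 | h3
      · exfalso
        have h5 := h4 (e.symm (.inl (if b then a else c)))
          ⟨if b then a else c, e.apply_symm_apply _⟩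
          (by rw [COE_ls, hx, e.apply_symm_apply, COE_main]; exact h3)
        rw [COE_ls, hz, e.apply_symm_apply, COE_pm] at h5
        exact lt_irrefl _ h5
      · rw [hx, COE_val_inj h3]
  · rintro ⟨a, c, hx, hz⟩
    refine ⟨⟨_, hx⟩, ?_, ?_, ?_⟩
    · intro hw
      obtain ⟨w, hw⟩ := COE_D N e hw
      rw [hz] at hw
      exact absurd hw (by simp)
    · rw [COE_ls, hx, hz, COE_mp]
    · intro w hw h
      obtain ⟨w', hw⟩ := COE_D N e hw
      rw [COE_ls, hx, hw, COE_main] at h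
      rw [COE_ls, hz, hw, COE_pm]
      exact h

theorem COE_ovr (x y z : ℕ) : ovr (COE_S N e) x y z ↔
    ∃ a c, e x = .inl a ∧ e y = .inl c ∧ e z = .inr (a, c) := by
  constructor
  · rintro ⟨h1, h2⟩
    rw [COE_abv] at h1 h2
    obtain ⟨a, c, h1, h1'⟩ := h1
    obtain ⟨a', c', h2, h2'⟩ := h2
    rw [h1'] at h2'
    have h3 : a = a' ∧ c = c' := by
      have h4 := Sum.inr.inj h2'
      exact ⟨(Prod.mk.inj h4).1, (Prod.mk.inj h4).2⟩
    obtain ⟨rfl, rfl⟩ := h3
    exact ⟨a, c, h1, h2, h1'⟩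
  · rintro ⟨a, c, h1, h2, h3⟩
    refine ⟨(COE_abv N e true x z).2 ⟨a, c, h1, h3⟩, (COE_abv N e false y z).2 ⟨a, c, h2, h3⟩⟩

theorem COE_rE (x y : ℕ) : rr (COE_S N e) .E x y ↔
    ∃ a c, e x = .inl a ∧ e y = .inl c ∧ a.2 = c.2 := by
  constructor
  · rintro ⟨z, h1, h2⟩
    rw [COE_ovr] at h1
    obtain ⟨a, c, h3, h4, h5⟩ := h1
    obtain ⟨a', c', h6, h7⟩ := COE_E N e h2
    rw [h5] at h6
    have h8 := Sum.inr.inj h6
    obtain ⟨rfl, rfl⟩ := Prod.mk.inj h8
    exact ⟨a, c, h3, h4, h7⟩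
  · rintro ⟨a, c, h1, h2, h3⟩
    refine ⟨e.symm (.inr (a, c)), ?_, ?_⟩
    · rw [COE_ovr]
      exact ⟨a, c, h1, h2, e.apply_symm_apply _⟩
    · rw [COE_us]
      exact ⟨a, c, e.apply_symm_apply _, h3⟩

theorem COE_rr (R : L.Relations 2) (x y : ℕ) : rr (COE_S N e) (.r R) x y ↔
    ∃ a c, e x = .inl a ∧ e y = .inl c ∧ N.RelMap R ![a.2, c.2] := by
  constructor
  · rintro ⟨z, h1, h2⟩
    rw [COE_ovr] at h1
    obtain ⟨a, c, h3, h4, h5⟩ := h1
    obtain ⟨a', c', h6, h7⟩ := COE_r N e h2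
    rw [h5] at h6
    have h8 := Sum.inr.inj h6
    obtain ⟨rfl, rfl⟩ := Prod.mk.inj h8
    exact ⟨a, c, h3, h4, h7⟩
  · rintro ⟨a, c, h1, h2, h3⟩
    refine ⟨e.symm (.inr (a, c)), ?_, ?_⟩
    · rw [COE_ovr]
      exact ⟨a, c, h1, h2, e.apply_symm_apply _⟩
    · rw [COE_us]
      exact ⟨a, c, e.apply_symm_apply _, h3⟩

theorem COE_inl {x : ℕ} {a b : ℚ × ℕ} (h : e x = .inl a) (h' : e x = .inl b) : a = b :=
  Sum.inl.inj (h.symm.trans h')

theorem COE_frame : Frame (COE_S N e) where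
  two := by
    intro b
    refine ⟨fun x => COE_irr b _, fun x y z => COE_tra b _ _ _, fun x y h => ?_⟩
    exact COE_tot b _ _ fun h' => h (e.injective h')
  ne := ⟨e.symm (.inl (0, 0)), ⟨(0, 0), e.apply_symm_apply _⟩⟩
  agr := by
    intro x y hx hy
    obtain ⟨a, hx⟩ := COE_D N e hx
    obtain ⟨c, hy⟩ := COE_D N e hy
    rw [COE_ls, COE_ls, hx, hy, COE_main, COE_main]
  dns := by
    intro x y w hx hy hw h
    obtain ⟨a, hx⟩ := COE_D N e hx
    obtain ⟨c, hy⟩ := COE_D N e hy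
    obtain ⟨d, hw⟩ := COE_D N e hw
    rw [COE_ls, hx, hy, COE_main] at h
    obtain ⟨q, h1, h2⟩ := COE_dense d.2 _ _ h
    refine ⟨e.symm (.inl (q, d.2)), ⟨_, e.apply_symm_apply _⟩, ?_, ?_, ?_⟩
    · rw [COE_ls, hx, e.apply_symm_apply, COE_main]
      exact h1
    · rw [COE_ls, hy, e.apply_symm_apply, COE_main]
      exact h2
    · rw [COE_rE]
      exact ⟨_, _, e.apply_symm_apply _, hw, rfl⟩
  lft := by
    intro x w hx hw
    obtain ⟨a, hx⟩ := COE_D N e hx
    obtain ⟨d, hw⟩ := COE_D N e hw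
    obtain ⟨q, h1, h2⟩ := COE_dense d.2 (COE_val a - 1) (COE_val a) (by linarith)
    refine ⟨e.symm (.inl (q, d.2)), ⟨_, e.apply_symm_apply _⟩, ?_, ?_⟩
    · rw [COE_ls, hx, e.apply_symm_apply, COE_main]
      exact h2
    · rw [COE_rE]
      exact ⟨_, _, e.apply_symm_apply _, hw, rfl⟩
  rgt := by
    intro x w hx hw
    obtain ⟨a, hx⟩ := COE_D N e hx
    obtain ⟨d, hw⟩ := COE_D N e hw
    obtain ⟨q, h1, h2⟩ := COE_dense d.2 (COE_val a) (COE_val a + 1) (by linarith)
    refine ⟨e.symm (.inl (q, d.2)), ⟨_, e.apply_symm_apply _⟩, ?_, ?_⟩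
    · rw [COE_ls, hx, e.apply_symm_apply, COE_main]
      exact h1
    · rw [COE_rE]
      exact ⟨_, _, e.apply_symm_apply _, hw, rfl⟩
  blw := by
    intro b z hz
    rcases h : e z with z' | ⟨a, c⟩
    · exact absurd ⟨z', h⟩ hz
    · refine ⟨e.symm (.inl (if b then a else c)), ?_⟩
      rw [COE_abv]
      exact ⟨a, c, e.apply_symm_apply _, h⟩
  pt := by
    intro x y hx hy
    obtain ⟨a, hx⟩ := COE_D N e hx
    obtain ⟨c, hy⟩ := COE_D N e hy
    refine ⟨e.symm (.inr (a, c)), ?_⟩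
    rw [COE_ovr]
    exact ⟨a, c, hx, hy, e.apply_symm_apply _⟩
  blk := by
    intro b x y y' z z' h1 h2 h3 h4
    rw [COE_abv] at h1 h2 h3 h4
    obtain ⟨a, c, h1, hz⟩ := h1
    obtain ⟨a', c', h2, hz'⟩ := h2
    obtain ⟨a1, c1, h3, hz1⟩ := h3
    obtain ⟨a2, c2, h4, hz2⟩ := h4
    rw [hz] at hz1
    rw [hz'] at hz2
    obtain ⟨rfl, rfl⟩ := Prod.mk.inj (Sum.inr.inj hz1)
    obtain ⟨rfl, rfl⟩ := Prod.mk.inj (Sum.inr.inj hz2)
    have h5 := COE_inl e h1 h2
    rw [COE_ls, COE_ls, hz, hz', h3, h4, COE_main]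
    cases b
    · simp only [Bool.false_eq_true, if_false] at h5
      subst h5
      constructor
      · rintro (h | ⟨-, h | ⟨-, h⟩⟩)
        · exact absurd h (lt_irrefl _)
        · exact absurd h (lt_irrefl _)
        · exact h
      · intro h
        exact Or.inr ⟨rfl, Or.inr ⟨rfl, h⟩⟩
    · simp only [if_true] at h5
      subst h5
      constructor
      · rintro (h | ⟨-, h | ⟨-, h⟩⟩)
        · exact absurd h (lt_irrefl _)
        · exact absurd h (lt_irrefl _)
        · exact h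
      · intro h
        exact Or.inr ⟨rfl, Or.inr ⟨rfl, h⟩⟩
  rfl' := by
    intro x hx
    obtain ⟨a, hx⟩ := COE_D N e hx
    rw [COE_rE]
    exact ⟨a, a, hx, hx, rfl⟩
  sym := by
    intro x y h
    rw [COE_rE] at h ⊢
    obtain ⟨a, c, h1, h2, h3⟩ := h
    exact ⟨c, a, h2, h1, h3.symm⟩
  trs := by
    intro x y z h h'
    rw [COE_rE] at h h' ⊢
    obtain ⟨a, c, h1, h2, h3⟩ := h
    obtain ⟨a', c', h1', h2', h3'⟩ := h'
    have h4 := COE_inl e h2 h1'
    subst h4
    exact ⟨a, c', h1, h2', h3.trans h3'⟩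
  ui := by
    intro R x y h h'
    rw [COE_rE] at h
    obtain ⟨a, c, h1, h2, h3⟩ := h
    obtain ⟨a', h4, h5⟩ : ∃ a', e x = .inl a' ∧ N.RelMap R ![a'.2] := h'
    have h6 := COE_inl e h1 h4
    subst h6
    refine ⟨c, h2, ?_⟩
    rw [← h3]
    exact h5
  bi := by
    intro R x y x' y' h h' h''
    rw [COE_rE] at h h'
    rw [COE_rr] at h'' ⊢
    obtain ⟨a, a', h1, h2, h3⟩ := h
    obtain ⟨c, c', h1', h2', h3'⟩ := h'
    obtain ⟨a1, c1, h4, h5, h6⟩ := h''
    have h7 := COE_inl e h1 h4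
    have h8 := COE_inl e h1' h5
    subst h7
    subst h8
    refine ⟨a', c', h2, h2', ?_⟩
    rw [← h3, ← h3']
    exact h6
  ud := by
    rintro R z ⟨a, h, -⟩
    exact ⟨a, h⟩
  rd := by
    intro R z h h'
    obtain ⟨a, c, h, -⟩ := COE_r N e h
    obtain ⟨a', h'⟩ := COE_D N e h'
    rw [h] at h'
    exact absurd h' (by simp)
  ed := by
    intro z h h'
    obtain ⟨a, c, h, -⟩ := COE_E N e h
    obtain ⟨a', h'⟩ := COE_D N e h'
    rw [h] at h'
    exact absurd h' (by simp)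

/-- the colour of a point -/
def COE_col (e : ℕ ≃ COE_P) (x : ℕ) : ℕ := Sum.elim (fun a => a.2) (fun _ => 0) (e x)

theorem COE_col_inl {x : ℕ} {a : ℚ × ℕ} (h : e x = .inl a) : COE_col e x = a.2 := by
  rw [COE_col, h]
  rfl

/-- the class of a main point as a natural number -/
def COE_cls : Qt (COE_S N e) → ℕ :=
  Quot.lift (fun x => COE_col e x.1) (by
    intro x y h
    rw [COE_rE] at h
    obtain ⟨a, c, h1, h2, h3⟩ := h
    rw [COE_col_inl e h1, COE_col_inl e h2, h3])

/-- the main point `(0, n)` -/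
def COE_pt (n : ℕ) : {x : ℕ // us (COE_S N e) .D x} :=
  ⟨e.symm (.inl (0, n)), ⟨(0, n), e.apply_symm_apply _⟩⟩

/-- the classes are the natural numbers -/
def COE_eqv : Qt (COE_S N e) ≃ ℕ where
  toFun := COE_cls N e
  invFun := fun n => Quot.mk _ (COE_pt N e n)
  left_inv := by
    intro q
    induction q using Quot.ind with
    | _ x =>
      obtain ⟨x, a, hx⟩ := x
      apply Quot.sound
      rw [COE_rE]
      refine ⟨_, a, e.apply_symm_apply _, hx, ?_⟩
      exact COE_col_inl e hx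
  right_inv := by
    intro n
    exact COE_col_inl e (e.apply_symm_apply (.inl ((0 : ℚ), n)))

theorem COE_cls_mk (x : {x : ℕ // us (COE_S N e) .D x}) (a : ℚ × ℕ) (h : e x.1 = .inl a) :
    COE_eqv N e (Quot.mk _ x) = a.2 := COE_col_inl e h

theorem thm_COE : St_COE := by
  intro L hL N
  have hf : ∀ n, IsEmpty (L.Functions n) := hL.fn
  obtain ⟨e⟩ : Nonempty (ℕ ≃ COE_P) := by
    have : Infinite COE_P := inferInstance
    have : Countable COE_P := inferInstance
    exact ⟨(nonempty_denumerable COE_P).some.eqv.symm⟩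
  refine ⟨COE_S N e, COE_frame N e, COE_eqv N e, ?_⟩
  intro n R v
  by_cases h1 : n = 1
  · subst h1
    constructor
    · rintro ⟨x, hx, h⟩
      obtain ⟨a, h2, h3⟩ := h
      have h4 : (COE_eqv N e ∘ v) = ![a.2] := by
        funext i
        have hi : i = 0 := Subsingleton.elim _ _
        subst hi
        change COE_eqv N e (v 0) = a.2
        rw [← hx 0]
        exact COE_cls_mk N e (x 0) a h2
      rw [h4]
      exact h3
    · intro h
      refine ⟨fun i => COE_pt N e (COE_eqv N e (v i)), fun i => ?_, ?_⟩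
      · exact (COE_eqv N e).symm_apply_apply (v i)
      · refine ⟨_, e.apply_symm_apply _, ?_⟩
        have h4 : (COE_eqv N e ∘ v) = ![((0 : ℚ), COE_eqv N e (v 0)).2] := by
          funext i
          have hi : i = 0 := Subsingleton.elim _ _
          subst hi
          rfl
        rw [← h4]
        exact h
  · by_cases h2 : n = 2
    · subst h2
      constructor
      · rintro ⟨x, hx, h⟩
        have h' : rr (COE_S N e) (.r R) (x 0).1 (x 1).1 := h
        rw [COE_rr] at h'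
        obtain ⟨a, c, h2, h3, h4⟩ := h'
        have h5 : (COE_eqv N e ∘ v) = ![a.2, c.2] := by
          funext i
          fin_cases i
          · change COE_eqv N e (v 0) = a.2
            rw [← hx 0]
            exact COE_cls_mk N e (x 0) a h2
          · change COE_eqv N e (v 1) = c.2
            rw [← hx 1]
            exact COE_cls_mk N e (x 1) c h3
        rw [h5]
        exact h4
      · intro h
        refine ⟨fun i => COE_pt N e (COE_eqv N e (v i)), fun i => ?_, ?_⟩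
        · exact (COE_eqv N e).symm_apply_apply (v i)
        · change rr (COE_S N e) (.r R) _ _
          rw [COE_rr]
          refine ⟨_, _, e.apply_symm_apply _, e.apply_symm_apply _, ?_⟩
          have h4 : (COE_eqv N e ∘ v) = ![((0 : ℚ), COE_eqv N e (v 0)).2,
              ((0 : ℚ), COE_eqv N e (v 1)).2] := by
            funext i
            fin_cases i
            · rfl
            · rfl
          rw [← h4]
          exact h
    · exact ((hL.ar n h1 h2).false R).elim

end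

end Pool.Agent.PMC
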