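import Pool.Agent.PMC.StE

/-!
# PMC/DIS: isomorphic codes have isomorphic coded structures
-/

set_option autoImplicit false
set_option linter.unusedVariables false

namespace Pool.Agent.PMC

open FirstOrder.Language Set
open scoped FirstOrder
open Pool.Agent.Helper6.Str (PerfK CtblK Iso Code toStr RelIso)

section

variable {L : FirstOrder.Language.{0, 0}} {M M' : Type} {S : (LP (Ix L)).Structure M}
  {S' : (LP (Ix L)).Structure M'} {e : M ≃ M'}

theorem DIS_us (h : RelIso S S' e) (i : Ix L) (x : M) : us S i x ↔ us S' i (e x) := by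
  have h1 := h 1 (Sy.un i : Sy (Ix L) 1) ![x]
  have h2 : (e ∘ ![x] : Fin 1 → M') = ![e x] := by
    funext k
    fin_cases k
    rfl
  rw [h2] at h1
  exact h1

theorem DIS_ls (h : RelIso S S' e) (b : Bool) (x y : M) : ls S b x y ↔ ls S' b (e x) (e y) := by
  have h1 := h 2 (Sy.lt b : Sy (Ix L) 2) ![x, y]
  have h2 : (e ∘ ![x, y] : Fin 2 → M') = ![e x, e y] := by
    funext k
    fin_cases k <;> rfl
  rw [h2] at h1
  exact h1

theorem DIS_abv (h : RelIso S S' e) (b : Bool) (x z : M) : abv S b x z ↔ abv S' b (e x) (e z) := by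
  unfold abv
  rw [DIS_us h, DIS_us h, DIS_ls h]
  refine and_congr Iff.rfl (and_congr Iff.rfl (and_congr Iff.rfl ?_))
  constructor
  · intro H w
    obtain ⟨w, rfl⟩ := e.surjective w
    rw [← DIS_us h, ← DIS_ls h, ← DIS_ls h]
    exact H w
  · intro H w
    rw [DIS_us h, DIS_ls h, DIS_ls h]
    exact H (e w)

theorem DIS_ovr (h : RelIso S S' e) (x y z : M) : ovr S x y z ↔ ovr S' (e x) (e y) (e z) := by
  unfold ovr
  rw [DIS_abv h, DIS_abv h]

theorem DIS_rr (h : RelIso S S' e) (i : Ix L) (x y : M) : rr S i x y ↔ rr S' i (e x) (e y) := by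
  constructor
  · rintro ⟨z, h1, h2⟩
    exact ⟨e z, (DIS_ovr h x y z).1 h1, (DIS_us h i z).1 h2⟩
  · rintro ⟨z, h1, h2⟩
    obtain ⟨z, rfl⟩ := e.surjective z
    exact ⟨z, (DIS_ovr h x y z).2 h1, (DIS_us h i z).2 h2⟩

theorem DIS_hol (h : RelIso S S' e) {n : ℕ} (R : L.Relations n) (x : Fin n → M) :
    hol S R x ↔ hol S' R fun i => e (x i) := by
  match n, R, x with
  | 0, R, x => exact Iff.rfl
  | 1, R, x => exact DIS_us h _ _
  | 2, R, x => exact DIS_rr h _ _ _
  | (n + 3), R, x => exact Iff.rfl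

end

theorem thm_DIS : St_DIS := by
  rintro L hL M M' S S' ⟨e, h⟩
  let e' : {x : M // us S .D x} ≃ {x : M' // us S' .D x} :=
    e.subtypeEquiv fun x => DIS_us h .D x
  have he' : ∀ x, (e' x).1 = e x.1 := fun _ => rfl
  let E : Qt S ≃ Qt S' := Quot.congr e' fun x y => by
    rw [he', he']
    exact DIS_rr h .E x.1 y.1
  have hE : ∀ x, E (Quot.mk _ x) = Quot.mk _ (e' x) := fun _ => rfl
  refine ⟨E, ?_⟩
  intro n R v
  constructor
  · rintro ⟨x, h1, h2⟩
    refine ⟨fun i => e' (x i), fun i => ?_, ?_⟩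
    · change _ = E (v i)
      rw [← h1 i, hE]
    · exact (DIS_hol h R fun i => (x i).1).1 h2
  · rintro ⟨y, h1, h2⟩
    have hy : ∀ i, e' (e'.symm (y i)) = y i := fun i => e'.apply_symm_apply (y i)
    refine ⟨fun i => e'.symm (y i), fun i => ?_, ?_⟩
    · apply E.injective
      rw [hE, hy]
      exact h1 i
    · refine (DIS_hol h R fun i => (e'.symm (y i)).1).2 ?_
      have h3 : (fun i => e ((e'.symm (y i)).1)) = fun i => (y i).1 := by
        funext i
        rw [← he', hy]
      rw [h3]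
      exact h2

end Pool.Agent.PMC
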