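import Pool.Agent.PMC.StE

/-!
PMC, module DMS: measurable decoding (helper55)
-/

set_option autoImplicit false
set_option linter.unusedVariables false
set_option linter.unusedSectionVars false

namespace Pool.Agent.PMC

open FirstOrder.Language Set
open scoped FirstOrder
open Pool.Agent.Helper6.Str (PerfK CtblK Iso Code toStr)

section code

variable {L : FirstOrder.Language.{0, 0}} {M : Type} (S : (LP (Ix L)).Structure M)

private theorem DMS_D {a b : M} {i : Ix L} (h : rr S i a b) : us S .D a ∧ us S .D b := by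
  obtain ⟨z, ⟨h1, h2⟩, -⟩ := h
  exact ⟨h1.1, h2.1⟩

private theorem DMS_quot (hS : Frame S) (a b : {x : M // us S .D x})
    (h : Quot.mk (fun x y : {x : M // us S .D x} => rr S .E x.1 y.1) a =
      Quot.mk (fun x y : {x : M // us S .D x} => rr S .E x.1 y.1) b) : rr S .E a.1 b.1 := by
  have h1 := Quot.eqvGen_exact h
  clear h
  induction h1 with
  | rel x y h => exact h
  | refl x => exact hS.rfl' x.1 x.2
  | symm x y _ ih => exact hS.sym _ _ ih
  | trans x y z _ _ ih1 ih2 => exact hS.trs _ _ _ ih1 ih2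

private theorem DMS_hol (hS : Frame S) : ∀ {n : ℕ} (R : L.Relations n) (x y : Fin n → M),
    (∀ i, rr S .E (x i) (y i)) → hol S R x → hol S R y
  | 0, _, _, _, _, h => h.elim
  | 1, R, x, y, he, h => hS.ui R _ _ (he 0) h
  | 2, R, x, y, he, h => hS.bi R _ _ _ _ (he 0) (he 1) h
  | _ + 3, _, _, _, _, h => h.elim

end code

section meas

variable {L : FirstOrder.Language.{0, 0}} {F : (ℕ → Bool) → (LP (Ix L)).Structure ℕ}

private theorem DMS_us (hc : ∀ (n : ℕ) (R : (LP (Ix L)).Relations n) (a : Fin n → ℕ),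
    IsClopen {x | (F x).RelMap R a}) (i : Ix L) (a : ℕ) : Measurable fun x => us (F x) i a :=
  measurableSet_setOfPred.1 (hc 1 (Sy.un i) ![a]).isOpen.measurableSet

private theorem DMS_ls (hc : ∀ (n : ℕ) (R : (LP (Ix L)).Relations n) (a : Fin n → ℕ),
    IsClopen {x | (F x).RelMap R a}) (b : Bool) (u v : ℕ) :
    Measurable fun x => ls (F x) b u v :=
  measurableSet_setOfPred.1 (hc 2 (Sy.lt b) ![u, v]).isOpen.measurableSet

private theorem DMS_abv (hc : ∀ (n : ℕ) (R : (LP (Ix L)).Relations n) (a : Fin n → ℕ),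
    IsClopen {x | (F x).RelMap R a}) (b : Bool) (u v : ℕ) :
    Measurable fun x => abv (F x) b u v := by
  unfold abv
  refine (DMS_us hc _ _).and ((DMS_us hc _ _).not.and ((DMS_ls hc _ _ _).and ?_))
  exact Measurable.forall fun w => (DMS_us hc _ _).imp ((DMS_ls hc _ _ _).imp (DMS_ls hc _ _ _))

private theorem DMS_rr (hc : ∀ (n : ℕ) (R : (LP (Ix L)).Relations n) (a : Fin n → ℕ),
    IsClopen {x | (F x).RelMap R a}) (i : Ix L) (u v : ℕ) :
    Measurable fun x => rr (F x) i u v := by
  unfold rr ovr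
  exact Measurable.exists fun z => ((DMS_abv hc _ _ _).and (DMS_abv hc _ _ _)).and (DMS_us hc _ _)

private theorem DMS_holm (hc : ∀ (n : ℕ) (R : (LP (Ix L)).Relations n) (a : Fin n → ℕ),
    IsClopen {x | (F x).RelMap R a}) : ∀ {n : ℕ} (R : L.Relations n) (w : Fin n → ℕ),
    Measurable fun x => hol (F x) R w
  | 0, _, _ => measurable_const
  | 1, R, w => DMS_us hc _ _
  | 2, R, w => DMS_rr hc _ _ _
  | _ + 3, _, _ => measurable_const

open Classical in
private theorem DMS_count {X : Type} [MeasurableSpace X] {A : X → Set ℕ}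
    (hA : ∀ p, Measurable fun x => p ∈ A x) (m : ℕ) :
    ∀ n, Measurable fun x => Nat.count (· ∈ A x) m = n := by
  induction m with
  | zero =>
    intro n
    simp only [Nat.count_zero]
    exact measurable_const
  | succ m ih =>
    intro n
    have h1 : (fun x => Nat.count (· ∈ A x) (m + 1) = n) = fun x =>
        ((m ∈ A x ∧ Nat.count (· ∈ A x) m + 1 = n) ∨
          (¬ m ∈ A x ∧ Nat.count (· ∈ A x) m = n)) := by
      funext x
      simp only [Nat.count_succ]
      by_cases h : m ∈ A x <;> simp [h]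
    rw [h1]
    refine ((hA m).and ?_).or ((hA m).not.and (ih n))
    cases n with
    | zero =>
      simp only [Nat.add_eq_zero_iff, one_ne_zero, and_false]
      exact measurable_const
    | succ n => simpa only [Nat.add_right_cancel_iff] using ih n

open Classical in
private theorem DMS_nth {X : Type} [MeasurableSpace X] {A : X → Set ℕ}
    (hA : ∀ p, Measurable fun x => p ∈ A x) (hinf : ∀ x, (A x).Infinite) (n m : ℕ) :
    Measurable fun x => Nat.nth (· ∈ A x) n = m := by
  have h1 : (fun x => Nat.nth (· ∈ A x) n = m) = fun x =>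
      (m ∈ A x ∧ Nat.count (· ∈ A x) m = n) := by
    funext x
    have hi : (Set.ofPred (· ∈ A x)).Infinite := hinf x
    apply propext
    constructor
    · rintro rfl
      exact ⟨Nat.nth_mem_of_infinite hi n, Nat.count_nth_of_infinite hi n⟩
    · rintro ⟨h1, rfl⟩
      exact Nat.nth_count h1
  rw [h1]
  exact (hA m).and (DMS_count hA m n)

end meas

theorem thm_DMS : St_DMS := by
  classical
  intro L hL F hF hinf hc
  have hfn := hL.fn
  let A : (ℕ → Bool) → Set ℕ := fun x => {a | us (F x) .D a ∧ ∀ a' < a, ¬ rr (F x) .E a a'}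
  have hA : ∀ p, Measurable fun x => p ∈ A x := by
    intro p
    show Measurable fun x => (us (F x) .D p ∧ ∀ a' < p, ¬ rr (F x) .E p a')
    refine (DMS_us hc _ _).and (Measurable.forall fun a' => ?_)
    exact (Measurable.imp measurable_const (DMS_rr hc _ _ _).not)
  -- the class of a point of `A x`
  let c : ∀ x, A x → Qt (F x) := fun x a => Quot.mk _ ⟨a.1, a.2.1⟩
  have hcinj : ∀ x, Function.Injective (c x) := by
    rintro x ⟨a, ha⟩ ⟨b, hb⟩ hab
    have h1 := DMS_quot (F x) (hF x) _ _ hab
    rcases lt_trichotomy a b with h | h | h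
    · exact absurd ((hF x).sym _ _ h1) (hb.2 a h)
    · exact Subtype.ext h
    · exact absurd h1 (ha.2 b h)
  have hcsurj : ∀ x, Function.Surjective (c x) := by
    intro x q
    induction q using Quot.ind with
    | mk a0 =>
      have hex : ∃ a, rr (F x) .E a a0.1 := ⟨a0.1, (hF x).rfl' _ a0.2⟩
      have h1 := Nat.find_spec hex
      refine ⟨⟨Nat.find hex, (DMS_D (F x) h1).1, fun a' ha' h2 => ?_⟩, ?_⟩
      · exact Nat.find_min hex ha' ((hF x).trs _ _ _ ((hF x).sym _ _ h2) h1)
      · exact Quot.sound h1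
  have hAinf : ∀ x, (A x).Infinite := by
    intro x
    have h1 := hinf x
    have h2 : Infinite (A x) := Infinite.of_surjective (c x) (hcsurj x)
    exact Set.infinite_coe_iff.1 h2
  let d : (ℕ → Bool) → ℕ → ℕ := fun x => Nat.nth (· ∈ A x)
  have hd : ∀ x n, d x n ∈ A x := fun x n => Nat.nth_mem_of_infinite (hAinf x) n
  let f : ∀ x, ℕ → Qt (F x) := fun x n => c x ⟨d x n, hd x n⟩
  have hfinj : ∀ x, Function.Injective (f x) := by
    intro x n m hnm
    have h1 := congrArg Subtype.val (hcinj x hnm)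
    exact Nat.nth_injective (hAinf x) h1
  have hfsurj : ∀ x, Function.Surjective (f x) := by
    intro x q
    obtain ⟨a, rfl⟩ := hcsurj x q
    refine ⟨Nat.count (· ∈ A x) a.1, ?_⟩
    have h1 : d x (Nat.count (· ∈ A x) a.1) = a.1 := Nat.nth_count a.2
    exact congrArg (c x) (Subtype.ext h1)
  let e : ∀ x, ℕ ≃ Qt (F x) := fun x => Equiv.ofBijective (f x) ⟨hfinj x, hfsurj x⟩
  refine ⟨fun x p => decide (hol (F x) p.2.1 fun i => d x (p.2.2 i)), ?_, ?_⟩
  · rw [measurable_pi_iff]
    rintro ⟨n, R, v⟩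
    refine measurable_to_bool ?_
    have h1 : (fun x => decide (hol (F x) R fun i => d x (v i))) ⁻¹' {true} =
        {x | ∃ w : Fin n → ℕ, (∀ i, d x (v i) = w i) ∧ hol (F x) R w} := by
      ext x
      simp only [mem_preimage, mem_singleton_iff, decide_eq_true_eq, mem_ofPred_eq]
      constructor
      · intro h
        exact ⟨_, fun i => rfl, h⟩
      · rintro ⟨w, hw, h⟩
        rwa [funext hw]
    show MeasurableSet ((fun x => decide (hol (F x) R fun i => d x (v i))) ⁻¹' {true})
    rw [h1]
    refine measurableSet_setOfPred.2 (Measurable.exists fun w => Measurable.and ?_ (DMS_holm hc R w))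
    exact Measurable.forall fun i => DMS_nth hA hAinf _ _
  · intro x
    refine ⟨(e x).symm, fun n R v => ?_⟩
    show (∃ y : Fin n → {y : ℕ // us (F x) .D y}, (∀ i, Quot.mk _ (y i) = v i) ∧
      hol (F x) R fun i => (y i).1) ↔
      decide (hol (F x) R fun i => d x ((⇑(e x).symm ∘ v) i)) = true
    rw [decide_eq_true_eq]
    have hv : ∀ i, f x ((e x).symm (v i)) = v i := fun i => (e x).apply_symm_apply (v i)
    constructor
    · rintro ⟨y, hy, h⟩
      refine DMS_hol (F x) (hF x) R _ _ (fun i => ?_) h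
      exact DMS_quot (F x) (hF x) (y i) ⟨d x ((e x).symm (v i)), (hd x _).1⟩
        ((hy i).trans (hv i).symm)
    · intro h
      exact ⟨fun i => ⟨d x ((e x).symm (v i)), (hd x _).1⟩, fun i => hv i, h⟩

end Pool.Agent.PMC
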