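import Pool.Agent.PMC.StD
import Pool.Agent.PMC.Base

/-!
PMC: [END] the count.
-/

set_option autoImplicit false
set_option linter.unusedVariables false

namespace Pool.Agent.PMC

open FirstOrder.Language Set
open scoped FirstOrder
open Pool.Agent.WOM (tp Mon IsEl IsoM CtU Fx Orb)

section

variable {L : FirstOrder.Language.{0, 0}} {U : Type} [L.Structure U] {κ : Type}
  {R : κ → U → U → Prop} {o : κ → κ}

/-- the pieces over the empty set which are not rigid -/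
private def END_N (L : FirstOrder.Language.{0, 0}) {U : Type} [L.Structure U] {κ : Type}
    (R : κ → U → U → Prop) (o : κ → κ) : Set (Set U) :=
  {Q : Set U | ∃ z, Q = Pc L R o ∅ z ∧ ∃ M, Md L ∅ M ∧ ¬ Sm L ∅ (M ∩ Q) Q}

/-- the type of a model -/
private def END_Typ (L : FirstOrder.Language.{0, 0}) {U : Type} [L.Structure U] {κ : Type}
    (R : κ → U → U → Prop) (o : κ → κ) (B : Finset U) (M : Set U) : Prop :=
  (B : Set U) ⊆ M ∧ (∀ x ∈ B, ∃ Q ∈ END_N L R o, x ∈ Q) ∧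
    ∀ Q ∈ END_N L R o, (Q ∩ M).Nonempty → ∃ x ∈ B, x ∈ Q ∧ ∀ x' ∈ B, x' ∈ Q → x' = x

private theorem END_uniq {Q Q' : Set U} (hQ : Q ∈ END_N L R o) (hQ' : Q' ∈ END_N L R o) {x : U}
    (h : x ∈ Q) (h' : x ∈ Q') : Q = Q' := by
  obtain ⟨z, rfl, -⟩ := hQ
  obtain ⟨z', rfl, -⟩ := hQ'
  rw [← pc_eq h, ← pc_eq h']

/-- every model has a type -/
private theorem END_typ (hfin : (END_N L R o).Finite) (M : Set U) :
    ∃ B : Finset U, END_Typ L R o B M := by
  classical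
  let S : Set (Set U) := {Q | Q ∈ END_N L R o ∧ (Q ∩ M).Nonempty}
  have hS : S.Finite := hfin.subset fun Q hQ => hQ.1
  let p : Set U → Set U := fun Q => if h : (Q ∩ M).Nonempty then {h.choose} else ∅
  have hch : ∀ Q (h : (Q ∩ M).Nonempty), h.choose ∈ Q ∩ M := fun Q h => h.choose_spec
  have hBf : (⋃ Q ∈ S, p Q).Finite := by
    refine hS.biUnion fun Q _ => ?_
    by_cases h : (Q ∩ M).Nonempty
    · simp only [p, dif_pos h]
      exact Set.finite_singleton _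
    · simp only [p, dif_neg h]
      exact Set.finite_empty
  have hmem : ∀ x, x ∈ hBf.toFinset ↔ ∃ Q, ∃ h : (Q ∩ M).Nonempty, Q ∈ END_N L R o ∧
      x = h.choose := by
    intro x
    rw [Set.Finite.mem_toFinset, Set.mem_iUnion₂]
    constructor
    · rintro ⟨Q, hQ, hx⟩
      have hne : (Q ∩ M).Nonempty := hQ.2
      simp only [p, dif_pos hne] at hx
      exact ⟨Q, hne, hQ.1, hx⟩
    · rintro ⟨Q, hne, hQ, rfl⟩
      refine ⟨Q, ⟨hQ, hne⟩, ?_⟩
      simp only [p, dif_pos hne]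
      rfl
  refine ⟨hBf.toFinset, ?_, ?_, ?_⟩
  · intro x hx
    obtain ⟨Q, hne, -, rfl⟩ := (hmem x).1 hx
    exact (hch Q hne).2
  · intro x hx
    obtain ⟨Q, hne, hQ, rfl⟩ := (hmem x).1 hx
    exact ⟨Q, hQ, (hch Q hne).1⟩
  · intro Q hQ hne
    refine ⟨hne.choose, (hmem _).2 ⟨Q, hne, hQ, rfl⟩, (hch Q hne).1, ?_⟩
    intro x' hx' hxQ
    obtain ⟨Q', hne', hQ', rfl⟩ := (hmem x').1 hx'
    have h1 : Q' = Q := END_uniq hQ' hQ (hch Q' hne').1 hxQ
    subst h1
    rfl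

/-- countably many classes from countably many values -/
private theorem END_ct {T : Type} [Countable T] (c : T → Set U → Prop)
    (h1 : ∀ M, IsEl L M → ∃ t, c t M)
    (h2 : ∀ M M' t, IsEl L M → IsEl L M' → c t M → c t M' → IsoM L M M') : CtU L U := by
  classical
  rcases isEmpty_or_nonempty T with hT | hT
  · refine ⟨fun _ => ∅, fun M hM => ?_⟩
    obtain ⟨t, -⟩ := h1 M hM
    exact hT.elim t
  · obtain ⟨e, he⟩ := exists_surjective_nat T
    refine ⟨fun n => if h : ∃ M, IsEl L M ∧ c (e n) M then h.choose else ∅, fun M hM => ?_⟩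
    obtain ⟨t, ht⟩ := h1 M hM
    obtain ⟨n, rfl⟩ := he t
    have h : ∃ M, IsEl L M ∧ c (e n) M := ⟨M, hM, ht⟩
    refine ⟨n, ?_⟩
    simp only [dif_pos h]
    exact h2 M _ (e n) hM h.choose_spec.1 ht h.choose_spec.2

end

theorem thm_END (hLOC : St_LOC) (hSMB : St_SMB) (hTWO : St_TWO) (hXSP : St_XSP) (hNRF : St_NRF)
    (hXTY : St_XTY) (hINN : St_INN) (hEXB : St_EXB) : St_END := by
  classical
  intro L U _ κ R o hC hN
  obtain ⟨s1, s2, s3, -, s5, s6, s7⟩ := hSMB L U κ R o hC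
  have hfin : (END_N L R o).Finite := hNRF L U κ R o hC hN ∅ Set.finite_empty
  obtain ⟨j0⟩ := hC.ne
  have : Countable U := hC.mon.ctb
  -- the extreme pieces and the sequences
  have key : ∀ (B : Finset U) (x : U), ∃ (y1 y2 : U) (c1 c2 : ℕ → Set U), x ∈ B →
      Nd L ((B : Set U) \ {x}) x →
      (∀ z ∈ Pc L R o ((B : Set U) \ {x}) x, z ∈ XS L R o ((B : Set U) \ {x}) B →
        z ∈ Pc L R o B y1 ∨ z ∈ Pc L R o B y2) ∧
      (∀ M : Set U, Md L (B : Set U) M → ∃ n, Sm L (B : Set U) (M ∩ Pc L R o B y1)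
        (c1 n ∩ Pc L R o B y1)) ∧
      ∀ M : Set U, Md L (B : Set U) M → ∃ n, Sm L (B : Set U) (M ∩ Pc L R o B y2)
        (c2 n ∩ Pc L R o B y2) := by
    intro B x
    by_cases hx : x ∈ B ∧ Nd L ((B : Set U) \ {x}) x
    swap
    · exact ⟨x, x, fun _ => ∅, fun _ => ∅, fun h1 h2 => absurd ⟨h1, h2⟩ hx⟩
    obtain ⟨hxB, hnd⟩ := hx
    set A : Set U := (B : Set U) \ {x} with hA
    have hAB : A ⊆ (B : Set U) := Set.sdiff_subset
    have hBf : (B : Set U).Finite := B.finite_toSet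
    have hAf : A.Finite := hBf.subset hAB
    have hins : insert x A = (B : Set U) := by
      rw [hA, Set.insert_sdiff_singleton]
      exact Set.insert_eq_of_mem hxB
    have hX : ∀ b, ∃ y, y ∈ ext L R o b (B : Set U) j0 (cel L R o A j0 x) ∧
        y ∈ Pc L R o A x ∧ y ∈ XS L R o A (B : Set U) := by
      intro b
      obtain ⟨⟨y, hy⟩, -⟩ := hEXB L U κ R o hC A B j0 x b hAB hBf hnd
      have hyc : y ∈ cel L R o A j0 x := hy.1
      refine ⟨y, hy, cel_sub_pc hC hAf j0 x hyc, ?_⟩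
      refine (hXSP L U κ R o hC A B hAB hBf).1 y j0 b (nd_cel hC hnd hyc) ?_
      rw [cel_eq hyc]
      exact hy
    obtain ⟨y1, hy1, hp1, hx1⟩ := hX true
    obtain ⟨y2, hy2, hp2, hx2⟩ := hX false
    have hc : ∀ y, y ∈ Pc L R o A x → y ∈ XS L R o A (B : Set U) → ∃ c : ℕ → Set U,
        ∀ M : Set U, Md L (B : Set U) M → ∃ n, Sm L (B : Set U) (M ∩ Pc L R o B y)
        (c n ∩ Pc L R o B y) := by
      intro y hy hyx
      have h := hXTY L U κ R o hC hN A x y hAf hnd hy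
      rw [hins] at h
      exact h hyx
    obtain ⟨c1, hc1⟩ := hc y1 hp1 hx1
    obtain ⟨c2, hc2⟩ := hc y2 hp2 hx2
    exact ⟨y1, y2, c1, c2, fun _ _ => ⟨(hTWO L U κ R o hC A B x y1 y2 j0 hAB hBf hnd hy1 hy2).1,
      hc1, hc2⟩⟩
  choose y1 y2 c1 c2 hkey using key
  -- the classification
  refine END_ct (T := Σ B : Finset U, ({x // x ∈ B} → ℕ × ℕ))
    (fun t M => END_Typ L R o t.1 M ∧ ∀ x : {x // x ∈ t.1}, Nd L ((t.1 : Set U) \ {x.1}) x.1 →
      Sm L (t.1 : Set U) (M ∩ Pc L R o t.1 (y1 t.1 x.1))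
        (c1 t.1 x.1 (t.2 x).1 ∩ Pc L R o t.1 (y1 t.1 x.1)) ∧
      Sm L (t.1 : Set U) (M ∩ Pc L R o t.1 (y2 t.1 x.1))
        (c2 t.1 x.1 (t.2 x).2 ∩ Pc L R o t.1 (y2 t.1 x.1))) ?_ ?_
  · intro M hM
    obtain ⟨B, hB⟩ := END_typ hfin M
    have h1 : ∀ x : {x // x ∈ B}, ∃ n : ℕ × ℕ, Nd L ((B : Set U) \ {x.1}) x.1 →
        Sm L (B : Set U) (M ∩ Pc L R o B (y1 B x.1))
          (c1 B x.1 n.1 ∩ Pc L R o B (y1 B x.1)) ∧
        Sm L (B : Set U) (M ∩ Pc L R o B (y2 B x.1))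
          (c2 B x.1 n.2 ∩ Pc L R o B (y2 B x.1)) := by
      intro x
      by_cases hnd : Nd L ((B : Set U) \ {x.1}) x.1
      · obtain ⟨-, h2, h3⟩ := hkey B x.1 x.2 hnd
        obtain ⟨n1, hn1⟩ := h2 M ⟨hM, hB.1⟩
        obtain ⟨n2, hn2⟩ := h3 M ⟨hM, hB.1⟩
        exact ⟨(n1, n2), fun _ => ⟨hn1, hn2⟩⟩
      · exact ⟨(0, 0), fun h => absurd h hnd⟩
    choose n hn using h1
    exact ⟨⟨B, n⟩, hB, hn⟩
  · rintro M M' ⟨B, n⟩ hM hM' ⟨hT, hn⟩ ⟨hT', hn'⟩
    dsimp only at hT hn hT' hn'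
    have hBf : (B : Set U).Finite := B.finite_toSet
    refine s6 (B : Set U) M M' (s5 (B : Set U) M M' hBf fun z => ?_)
    by_cases hz : Nd L (B : Set U) z
    swap
    · -- a definable point
      have hin : ∀ N : Set U, IsEl L N → (B : Set U) ⊆ N → z ∈ N := by
        intro N hN hBN
        have h1 : (B : Set U).Definable₁ L {z} := not_not.1 hz
        obtain ⟨w, hw, hwN⟩ := hN {z} (def_mono hBN h1) ⟨z, rfl⟩
        rw [Set.mem_singleton_iff.1 hw] at hwN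
        exact hwN
      rw [pc_def hC hz]
      have h1 : M ∩ {z} = M' ∩ {z} := by
        rw [Set.inter_eq_right.2 (Set.singleton_subset_iff.2 (hin M hM hT.1)),
          Set.inter_eq_right.2 (Set.singleton_subset_iff.2 (hin M' hM' hT'.1))]
      rw [h1]
      exact s1 _ _
    have hsub : Pc L R o (B : Set U) z ⊆ Pc L R o ∅ z := pc_anti (Set.empty_subset _) z
    by_cases hQ : Pc L R o (∅ : Set U) z ∈ END_N L R o
    swap
    · -- a rigid piece
      have hdis : Disjoint (Pc L R o (∅ : Set U) z) (B : Set U) := by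
        rw [Set.disjoint_left]
        intro x hx hxB
        obtain ⟨Q', hQ', hxQ'⟩ := hT.2.1 x hxB
        obtain ⟨z', rfl, hh⟩ := hQ'
        have h1 : Pc L R o ∅ z' = Pc L R o ∅ z := by rw [← pc_eq hx, ← pc_eq hxQ']
        exact hQ ⟨z, rfl, h1 ▸ hh⟩
      have hPc : Pc L R o (B : Set U) z = Pc L R o ∅ z :=
        (hLOC L U κ R o hC ∅ B _ (Set.empty_subset _) hBf (cls_pc _ _) hdis z (mem_pc _ _)).2
      have hrig : ∀ N : Set U, IsEl L N → Sm L ∅ (N ∩ Pc L R o ∅ z) (Pc L R o ∅ z) := by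
        intro N hN
        by_contra hcon
        exact hQ ⟨z, rfl, N, ⟨hN, Set.empty_subset _⟩, hcon⟩
      rw [hPc]
      exact s7 ∅ B (Pc L R o ∅ z) _ _ hBf (Set.empty_subset _) (cls_pc _ _) hdis
        Set.inter_subset_right Set.inter_subset_right
        (s3 _ _ _ _ (hrig M hM) (s2 _ _ _ (hrig M' hM')))
    by_cases hxB : ∃ x ∈ B, x ∈ Pc L R o (∅ : Set U) z
    swap
    · -- the piece does not meet the models
      have hemp : ∀ N : Set U, END_Typ L R o B N → N ∩ Pc L R o (B : Set U) z = ∅ := by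
        intro N hN
        by_contra hcon
        obtain ⟨w, hwN, hw⟩ := Set.nonempty_iff_ne_empty.2 hcon
        obtain ⟨x, hx, hxQ, -⟩ := hN.2.2 _ hQ ⟨w, hsub hw, hwN⟩
        exact hxB ⟨x, hx, hxQ⟩
      rw [hemp M hT, hemp M' hT']
      exact s1 _ _
    obtain ⟨x, hx, hxQ⟩ := hxB
    set A : Set U := (B : Set U) \ {x} with hA
    have hAB : A ⊆ (B : Set U) := Set.sdiff_subset
    have hAf : A.Finite := hBf.subset hAB
    have hins : insert x A = (B : Set U) := by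
      rw [hA, Set.insert_sdiff_singleton]
      exact Set.insert_eq_of_mem hx
    have hdis : Disjoint (Pc L R o (∅ : Set U) z) A := by
      rw [Set.disjoint_left]
      rintro y hy ⟨hyB, hyx⟩
      obtain ⟨x0, -, -, hu⟩ := hT.2.2 _ hQ ⟨x, hxQ, hT.1 hx⟩
      exact hyx (by rw [Set.mem_singleton_iff, hu y hyB hy, hu x hx hxQ])
    have hloc := hLOC L U κ R o hC ∅ A _ (Set.empty_subset _) hAf (cls_pc _ _) hdis
    have hzx : z ∈ Pc L R o A x := by
      rw [(hloc x hxQ).2, pc_eq hxQ]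
      exact mem_pc _ _
    have hndz : Nd L A z := nd_anti hAB hz
    have hndx : Nd L A x := (pc_nd hC hzx).1 hndz
    obtain ⟨hk, -, -⟩ := hkey B x hx hndx
    have hx1 := hn ⟨x, hx⟩ hndx
    have hx2 := hn' ⟨x, hx⟩ hndx
    by_cases hzX : z ∈ XS L R o A (B : Set U)
    · rcases hk z hzx hzX with h | h
      · rw [pc_eq h]
        exact s3 _ _ _ _ hx1.1 (s2 _ _ _ hx2.1)
      · rw [pc_eq h]
        exact s3 _ _ _ _ hx1.2 (s2 _ _ _ hx2.2)
    · have hr : ∀ N : Set U, IsEl L N → (B : Set U) ⊆ N →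
          Sm L (B : Set U) (N ∩ Pc L R o (B : Set U) z) (Pc L R o (B : Set U) z) := by
        intro N hN1 hBN
        have h := hINN L U κ R o hC hN A x z hAf hndx hzx
        rw [hins] at h
        exact h hz hzX N ⟨hN1, hBN⟩
      exact s3 _ _ _ _ (hr M hM hT.1) (s2 _ _ _ (hr M' hM' hT'.1))

end Pool.Agent.PMC
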