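import Pool.Agent.PMC.Base
import Pool.Agent.PMC.StA

/-!
PMC: extreme cells.
-/

set_option autoImplicit false
set_option linter.unusedVariables false

namespace Pool.Agent.PMC

open FirstOrder.Language Set
open scoped FirstOrder
open Pool.Agent.WOM (tp Mon IsEl IsoM CtU Fx Orb)

section EXB

variable {L : FirstOrder.Language.{0, 0}} {U : Type} [L.Structure U] {κ : Type}
  {R : κ → U → U → Prop} {o : κ → κ}

private theorem EXB_trans (hC : Cx L R o) {b : Bool} {j : κ} {x y z : U}
    (h1 : lts R o b j x y) (h2 : lts R o b j y z) : lts R o b j x z := by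
  cases b
  · simp only [lts, Bool.false_eq_true, if_false] at *
    exact hC.tra j _ _ _ h2 h1
  · simp only [lts, if_true] at *
    exact hC.tra j _ _ _ h1 h2

private theorem EXB_irr (hC : Cx L R o) {b : Bool} {j : κ} {x : U} : ¬ lts R o b j x x := by
  cases b
  · simp only [lts, Bool.false_eq_true, if_false]
    exact hC.irr j x
  · simp only [lts, if_true]
    exact hC.irr j x

private theorem EXB_tot (hC : Cx L R o) {b : Bool} {j : κ} {x y : U} (h : x ≠ y) :
    lts R o b j x y ∨ lts R o b j y x := by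
  cases b
  · simp only [lts, Bool.false_eq_true, if_false]
    exact (hC.tot j x y h).symm
  · simp only [lts, if_true]
    exact hC.tot j x y h

/-- a cut in the direction `b` -/
private def EXB_side (b : Bool) (C : Set U) : Set U := {x | x ∈ C ↔ b = false}

private theorem EXB_up {b : Bool} {j : κ} {C : Set U} (hI : Ini R o j C) {x y : U}
    (hx : x ∈ EXB_side b C) (hxy : lts R o b j x y) : y ∈ EXB_side b C := by
  cases b
  · simp only [lts, Bool.false_eq_true, if_false, EXB_side, Set.mem_setOf_eq, iff_true] at *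
    exact hI x hx y hxy
  · simp only [lts, if_true, EXB_side, Set.mem_setOf_eq, Bool.true_eq_false, iff_false] at *
    exact fun hy => hx (hI y hy x hxy)

private theorem EXB_def {b : Bool} {B C : Set U} (hd : B.Definable₁ L C) :
    B.Definable₁ L (EXB_side b C) := by
  cases b
  · have : EXB_side false C = C := by
      ext x; simp [EXB_side]
    rw [this]; exact hd
  · have : EXB_side true C = Cᶜ := by
      ext x; simp [EXB_side]
    rw [this]; exact def_compl hd

private theorem EXB_sin {b : Bool} {C K : Set U} (h : Sin C K) : ∃ x ∈ K, x ∈ EXB_side b C := by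
  cases b
  · obtain ⟨⟨x, hx, hxC⟩, -⟩ := h
    exact ⟨x, hx, by simpa [EXB_side] using hxC⟩
  · obtain ⟨-, ⟨x, hx, hxC⟩⟩ := h
    exact ⟨x, hx, by simpa [EXB_side] using hxC⟩

private theorem EXB_one (hC : Cx L R o) {A B : Set U} {j : κ} {z : U} {b : Bool} (hAB : A ⊆ B)
    (hB : B.Finite) : (ext L R o b B j (cel L R o A j z)).Nonempty := by
  obtain ⟨v, hv, hv2⟩ := sat_cel hC hB hAB (j := j) (z := z)
    (F := {s | ∃ C, Dc L R o B j C ∧ Sin C (cel L R o A j z) ∧ s = EXB_side b C})
    (by
      rintro s ⟨C, hD, -, rfl⟩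
      exact EXB_def hD.1)
    (by
      intro G hG hGf
      induction G, hGf using Set.Finite.induction_on with
      | empty => exact ⟨z, mem_cel A j z, by simp⟩
      | insert hn hf ih =>
        rename_i s G
        obtain ⟨v, hv, hvG⟩ := ih (fun t ht => hG (Set.mem_insert_of_mem _ ht))
        obtain ⟨C, hD, hS, hs⟩ := hG (Set.mem_insert s G)
        obtain ⟨x, hx, hxC⟩ := EXB_sin (b := b) hS
        by_cases hvx : v = x
        · refine ⟨x, hx, ?_⟩
          intro t ht
          rcases ht with rfl | ht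
          · rw [hs]; exact hxC
          · exact hvx ▸ hvG t ht
        · rcases EXB_tot hC (b := b) (j := j) hvx with h | h
          · refine ⟨x, hx, ?_⟩
            intro t ht
            rcases ht with rfl | ht
            · rw [hs]; exact hxC
            · obtain ⟨C', hD', hS', ht'⟩ := hG (Set.mem_insert_of_mem s ht)
              have := hvG t ht
              rw [ht'] at this ⊢
              exact EXB_up hD'.2 this h
          · refine ⟨v, hv, ?_⟩
            intro t ht
            rcases ht with rfl | ht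
            · rw [hs]; exact EXB_up hD.2 hxC h
            · exact hvG t ht)
  exact ⟨v, hv, fun C hD hS => hv2 _ ⟨C, hD, hS, rfl⟩⟩

private theorem EXB_two (hC : Cx L R o) {A B : Set U} {j : κ} {z : U} {b : Bool} (hAB : A ⊆ B)
    {v : U} (hv : v ∈ ext L R o b B j (cel L R o A j z)) :
    cel L R o B j v = ext L R o b B j (cel L R o A j z) := by
  apply Set.Subset.antisymm
  · intro v' hv'
    refine ⟨?_, fun C hD hS => ?_⟩
    · have h1 := cel_anti hAB j v hv'
      rwa [cel_eq hv.1] at h1
    · exact (hv' C hD).trans (hv.2 C hD hS)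
  · intro v' hv' C hD
    by_cases hS : Sin C (cel L R o A j z)
    · exact (hv'.2 C hD hS).trans (hv.2 C hD hS).symm
    · constructor
      · intro h
        by_contra hn
        exact hS ⟨⟨v', hv'.1, h⟩, ⟨v, hv.1, hn⟩⟩
      · intro h
        by_contra hn
        exact hS ⟨⟨v, hv.1, h⟩, ⟨v', hv'.1, hn⟩⟩

private theorem EXB_four (hC : Cx L R o) {A B : Set U} {j : κ} {z : U} {b : Bool} (hAB : A ⊆ B)
    (hB : B.Finite) (hz : Nd L A z) {p : U} (hp : p ∈ cel L R o A j z) :
    ∃ v ∈ ext L R o b B j (cel L R o A j z), lts R o b j p v := by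
  obtain ⟨v, hv⟩ := EXB_one hC (A := A) (B := insert p B) (j := j) (z := z) (b := b)
    (hAB.trans (Set.subset_insert p B)) (hB.insert p)
  refine ⟨v, ⟨hv.1, fun C hD hS => hv.2 C (dc_mono (Set.subset_insert p B) hD) hS⟩, ?_⟩
  obtain ⟨y, hy, hpy⟩ := exists_lts hC (hB.subset hAB) hz hp b
  cases b
  · have h1 := hv.2 _ (lt_dc hC j p B) ⟨⟨y, hy, by simpa [lts] using hpy⟩,
      ⟨p, hp, by simpa using hC.irr j p⟩⟩
    simp only [lts, Bool.false_eq_true, if_false]
    simpa using h1
  · have h1 := hv.2 _ (le_dc hC j p B) ⟨⟨p, hp, by simpa using hC.irr j p⟩,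
      ⟨y, hy, by simpa [lts] using hpy⟩⟩
    simp only [lts, if_true]
    simpa using h1

theorem thm_EXB : St_EXB := by
  intro L U _ κ R o hC A B j z b hAB hB hz
  have h3 : ∀ v ∈ ext L R o b B j (cel L R o A j z), Nd L B v := by
    intro v hv hd
    obtain ⟨v', hv', hlt⟩ := EXB_four hC (b := b) hAB hB hz hv.1
    rw [← EXB_two hC hAB hv, cel_def hC (fun h => h hd) j] at hv'
    rw [Set.mem_singleton_iff] at hv'
    subst hv'
    exact EXB_irr hC hlt
  refine ⟨EXB_one hC hAB hB, fun v hv => EXB_two hC hAB hv, h3,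
    fun p hp => EXB_four hC hAB hB hz hp, ?_, ?_, ?_⟩
  · intro v hv p hp
    obtain ⟨v', hv', hlt⟩ := EXB_four hC (b := b) hAB hB hz hp
    rw [← EXB_two hC hAB hv] at hv'
    obtain ⟨g, hg, hgl⟩ := move hC hB (h3 v hv) hv' (mem_cel B j v) b
    exact ⟨g, hg, EXB_trans hC hlt hgl⟩
  · intro v hv p hp hvp
    refine ⟨hp, fun C hD hS => ?_⟩
    exact EXB_up hD.2 (show v ∈ EXB_side b C from hv.2 C hD hS) hvp
  · rintro ⟨C, hD, hS⟩ v hv hv'
    have h1 := hv.2 C hD hS
    have h2 := hv'.2 C hD hS
    cases b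
    · simp at h1 h2
      exact h2 h1
    · simp at h1 h2
      exact h1 h2

end EXB

end Pool.Agent.PMC
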