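import Pool.Agent.PMC.StB
import Pool.Agent.PMC.Base

/-!
PMC, module FAI: basic facts on good pieces (helper68)
-/

set_option autoImplicit false
set_option linter.unusedVariables false

namespace Pool.Agent.PMC

open FirstOrder.Language Set
open scoped FirstOrder
open Pool.Agent.WOM (tp Mon IsEl IsoM CtU Fx Orb)

section fai

variable {L : FirstOrder.Language.{0, 0}} {U : Type} [L.Structure U] {κ : Type}
  {R : κ → U → U → Prop} {o : κ → κ} {A E : Set U} {sg : κ → U → Bool}

private theorem FAI_ex (b : Bool) (w : U) (j : κ) (z : U) :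
    Ex L R o A (fun j z => !sg j z) b w j z ↔ Ex L R o A sg (!b) w j z := by
  unfold Ex
  refine forall_congr' fun C => forall_congr' fun _ => forall_congr' fun _ => ?_
  have h1 : (!sg (o j) z) ≠ b ↔ sg (o j) z ≠ !b := by
    cases sg (o j) z <;> cases b <;> simp
  exact iff_congr Iff.rfl h1

private theorem FAI_rev (hO : Ori L R o A E sg) : Ori L R o A E (fun j z => !sg j z) where
  fin := hO.fin
  ne := hO.ne
  nd := hO.nd
  clo := hO.clo
  cut := hO.cut
  cst := fun j z hz y hy => by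
    show (!sg (o j) y) = !sg (o j) z
    rw [hO.cst j z hz y hy]
  con := fun w hw u hu z hz i j hs b => by
    rw [FAI_ex, hO.con w hw u hu z hz i j hs (!b)]
    have h1 : {v | v ∈ cel L R o A j z ∧ Ex L R o A (fun j z => !sg j z) b w j v} =
        {v | v ∈ cel L R o A j z ∧ Ex L R o A sg (!b) w j v} := by
      ext v
      exact and_congr Iff.rfl (FAI_ex b w j v)
    rw [h1]

private theorem FAI_two (hC : Cx L R o) (hO : Ori L R o A E sg) {w z : U} (hw : w ∈ E)
    (hz : z ∈ E) {b : Bool} {i : κ} (h : Ex L R o A sg b w i z) : Fa L R o A sg b w z := by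
  intro j C hD hS
  have h1 : Sin (ct R (o j) z) (cel L R o A (o j) z) := by
    rw [cel_oo hC]
    exact sin_self hC hO.fin j (hO.nd z hz)
  obtain ⟨⟨v1, ⟨hv1, hx1⟩, hr1⟩, ⟨v2, ⟨hv2, hx2⟩, hr2⟩⟩ :=
    (hO.con w hw z hz z hz i (o j) h1 b).1 h
  have key : ∀ v, v ∈ cel L R o A (o j) z → Ex L R o A sg b w (o j) v →
      (v ∈ C ↔ sg (o j) z ≠ b) := by
    intro v hv hx
    have h2 := hx C ((dc_oo hC).2 hD) (by rw [cel_eq hv, cel_oo hC]; exact hS)
    rw [hO.cst (o j) z hz v hv, hC.oo j] at h2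
    exact h2
  have k1 := key v1 hv1 hx1
  have k2 := key v2 hv2 hx2
  constructor
  · intro hzC
    exact k1.1 (hD.2 z hzC v1 hr1)
  · intro hs
    have h3 := k2.2 hs
    by_cases h4 : z = v2
    · rw [h4]; exact h3
    · rcases hC.tot j z v2 h4 with h5 | h5
      · exact hD.2 v2 h3 z h5
      · exact absurd h5 hr2

private theorem FAI_cel (hC : Cx L R o) (hO : Ori L R o A E sg) {z : U} (hz : z ∈ E) (j : κ) :
    cel L R o A j z ⊆ E :=
  (cel_sub_pc hC hO.fin j z).trans (pc_sub hO.clo hz)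

private theorem FAI_img (hC : Cx L R o) (hO : Ori L R o A E sg) {g : U ≃[L] U} (hg : Fx L A g)
    {w z : U} (hw : w ∈ E) (hz : z ∈ E) {b : Bool} (h : Fa L R o A sg b w z) :
    Fa L R o A sg b (g w) (g z) := by
  intro j C hD hS
  have hgz : g z ∈ cel L R o A j z := fx_cel hC j z hg
  have hA' : g.symm '' (insert (g w) A) = insert w A := by
    rw [image_insert_eq, g.symm_apply_apply]
    congr 1
    ext x
    constructor
    · rintro ⟨a, ha, rfl⟩
      rw [fx_symm hg a ha]
      exact ha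
    · intro hx
      exact ⟨x, hx, fx_symm hg x hx⟩
  have hD' : Dc L R o (insert w A) j (g.symm '' C) := by
    have h1 := dc_img hC hD g.symm
    rwa [hA'] at h1
  have hS' : Sin (g.symm '' C) (cel L R o A j z) := by
    rw [cel_eq hgz] at hS
    exact sin_img hC (fx_img_cel hC j z (fx_symm hg)) hS
  have h1 := h j (g.symm '' C) hD' hS'
  rw [hO.cst j z hz (g z) hgz, ← h1]
  constructor
  · intro h2
    exact ⟨g z, h2, g.symm_apply_apply z⟩
  · rintro ⟨y, hy, hyz⟩
    have h2 : g z = y := by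
      rw [← hyz]
      exact g.apply_symm_apply y
    rw [h2]
    exact hy

private theorem FAI_sd (b s : Bool) : sd b s = false ↔ s ≠ b := by
  unfold sd
  cases b <;> cases s <;> simp

private theorem FAI_ext (hC : Cx L R o) (hO : Ori L R o A E sg) {w z : U} (hw : w ∈ E)
    (hz : z ∈ E) (b : Bool) (j : κ) (v : U) :
    v ∈ ext L R o (sd b (sg (o j) z)) (insert w A) j (cel L R o A j z) ↔
      v ∈ cel L R o A j z ∧ Fa L R o A sg b w v := by
  constructor
  · rintro ⟨hv, hx⟩
    refine ⟨hv, ?_⟩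
    refine FAI_two hC hO hw (FAI_cel hC hO hz j hv) (i := j) ?_
    intro C hD hS
    rw [cel_eq hv] at hS
    rw [hx C hD hS, FAI_sd, hO.cst j z hz v hv]
  · rintro ⟨hv, hx⟩
    refine ⟨hv, fun C hD hS => ?_⟩
    have h1 := hx j C hD (by rw [cel_eq hv]; exact hS)
    rw [h1, FAI_sd, hO.cst j z hz v hv]

end fai

theorem thm_FAI (h1 : St_EXB) : St_FAI := by
  intro L U _ κ R o hC A E sg hO
  have hX := fun (w z : U) (hz : z ∈ E) (j : κ) (b : Bool) =>
    h1 L U κ R o hC A (insert w A) j z b (subset_insert w A) (hO.fin.insert w) (hO.nd z hz)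
  refine ⟨⟨FAI_rev hO, fun b w j z => FAI_ex b w j z⟩, ?_, ?_, ?_, ?_, ?_, ?_, ?_⟩
  · intro w hw z hz b i h
    exact FAI_two hC hO hw hz h
  · intro g hg
    refine ⟨fun x => cls_fx hC hO.fin hO.clo hg x, fun w hw z hz b => ⟨fun h => ?_, fun h =>
      FAI_img hC hO hg hw hz h⟩⟩
    have h2 := FAI_img hC hO (fx_symm hg) ((cls_fx hC hO.fin hO.clo hg w).2 hw)
      ((cls_fx hC hO.fin hO.clo hg z).2 hz) h
    rwa [g.symm_apply_apply, g.symm_apply_apply] at h2
  · intro w hw z hz j b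
    obtain ⟨v, hv⟩ := (hX w z hz j (sd b (sg (o j) z))).1
    exact ⟨v, ((FAI_ext hC hO hw hz b j v).1 hv).1, ((FAI_ext hC hO hw hz b j v).1 hv).2⟩
  · intro w hw z hz j b v hv hF
    have hv' := (FAI_ext hC hO hw hz b j v).2 ⟨hv, hF⟩
    refine ⟨(hX w z hz j (sd b (sg (o j) z))).2.2.1 v hv', ?_⟩
    rw [(hX w z hz j (sd b (sg (o j) z))).2.1 v hv']
    ext y
    exact FAI_ext hC hO hw hz b j y
  · intro w hw z hz b h h'
    obtain ⟨j⟩ := hC.ne
    obtain ⟨C, hD, hS⟩ := hO.cut w hw z hz j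
    have h2 := (h j C hD hS).symm.trans (h' j C hD hS)
    cases b <;> cases hs : sg (o j) z <;> simp [hs] at h2
  · intro w hw z hz j b y hy hF hl
    have hz' := (FAI_ext hC hO hw hz b j z).2 ⟨mem_cel A j z, hF⟩
    have h2 := (hX w z hz j (sd b (sg (o j) z))).2.2.2.2.2.1 z hz' y hy hl
    exact ((FAI_ext hC hO hw hz b j y).1 h2).2
  · intro w hw z hz j b p hp hF
    have hz' := (FAI_ext hC hO hw hz b j z).2 ⟨mem_cel A j z, hF⟩
    exact (hX w z hz j (sd b (sg (o j) z))).2.2.2.2.1 z hz' p hp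

end Pool.Agent.PMC
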