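import Pool.Agent.PMC.StB
import Pool.Agent.PMC.Base

/-!
PMC, module FCT: facts between `z << z'` (helper87).
-/

set_option autoImplicit false

namespace Pool.Agent.PMC

open FirstOrder.Language Set
open scoped FirstOrder
open Pool.Agent.WOM (tp Mon IsEl IsoM CtU Fx Orb)

theorem FCT_one {L : FirstOrder.Language.{0, 0}} {U : Type} [L.Structure U] {κ : Type}
    {R : κ → U → U → Prop} {o : κ → κ} (hC : Cx L R o) {A E : Set U} {sg : κ → U → Bool}
    (hO : Ori L R o A E sg) {u v : U} (hv : v ∈ E) {g g' : U ≃[L] U}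
    (hg : Fx L A g) (hg' : Fx L A g') {b : Bool} (h : Fa L R o A sg b u v)
    (h' : Fa L R o A sg b (g u) (g' v)) (j : κ) : R j v u ↔ R j (g' v) (g u) := by
  have hJ : g' v ∈ cel L R o A j v := fx_cel hC j v hg'
  have hJe : cel L R o A j (g' v) = cel L R o A j v := cel_eq hJ
  have hgJ : g '' cel L R o A j v = cel L R o A j v := fx_img_cel hC j v hg
  have hct : g '' ct R j u = ct R j (g u) := img_ct hC j u g
  show v ∈ ct R j u ↔ g' v ∈ ct R j (g u)
  by_cases hs : Sin (ct R j u) (cel L R o A j v)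
  · have h1 := h j (ct R j u) (ct_dc hC j u A) hs
    have hs' : Sin (ct R j (g u)) (cel L R o A j (g' v)) := by
      rw [hJe, ← hct]
      exact sin_img hC hgJ hs
    have h2 := h' j (ct R j (g u)) (ct_dc hC j (g u) A) hs'
    rw [h1, h2, hO.cst j v hv (g' v) hJ]
  · by_cases h1 : ∃ x ∈ cel L R o A j v, x ∈ ct R j u
    · have h2 : ∀ x ∈ cel L R o A j v, x ∈ ct R j u := by
        intro x hx
        by_contra hxn
        exact hs ⟨h1, x, hx, hxn⟩
      have h3 : g' v ∈ ct R j (g u) := by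
        rw [← hct]
        have h4 : g' v ∈ g '' cel L R o A j v := by rw [hgJ]; exact hJ
        obtain ⟨c, hc, hce⟩ := h4
        exact ⟨c, h2 c hc, hce⟩
      exact ⟨fun _ => h3, fun _ => h2 v (mem_cel A j v)⟩
    · have h2 : ∀ x ∈ cel L R o A j v, x ∉ ct R j u := by
        intro x hx hxc
        exact h1 ⟨x, hx, hxc⟩
      have h3 : g' v ∉ ct R j (g u) := by
        rw [← hct]
        rintro ⟨c, hc, hce⟩
        refine h2 c ?_ hc
        rw [← fx_mem_cel hC j c v hg, hce]
        exact hJ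
      exact ⟨fun h4 => absurd h4 (h2 v (mem_cel A j v)), fun h4 => absurd h4 h3⟩

theorem thm_FCT (hORD : St_ORD) : St_FCT := by
  intro L U _ κ R o hC A E sg hO z hz z' hz' g g' hg hg' h h' j
  obtain ⟨h1, -⟩ := hORD L U κ R o hC A E sg hO
  have hgz : g z ∈ E := (cls_fx hC hO.fin hO.clo hg z).2 hz
  have hgz' : g' z' ∈ E := (cls_fx hC hO.fin hO.clo hg' z').2 hz'
  refine ⟨?_, ?_⟩
  · have h2 : Fa L R o A sg false z' z := (h1 z hz z' hz' true).1 h
    have h3 : Fa L R o A sg false (g' z') (g z) := (h1 (g z) hgz (g' z') hgz' true).1 h'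
    exact FCT_one hC hO hz hg' hg h2 h3 j
  · exact FCT_one hC hO hz' hg hg' h h' j

end Pool.Agent.PMC
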