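import Pool.Agent.PMC.StE

/-!
PMC: `Frame` is a set of sentences
-/

set_option autoImplicit false
set_option linter.unusedVariables false

namespace Pool.Agent.PMC

open FirstOrder.Language Set
open scoped FirstOrder

/-- definable families of relations -/
private def FRM_Df (ι : Type) (n : ℕ)
    (P : (M : Type) → (LP ι).Structure M → (Fin n → M) → Prop) : Prop :=
  ∃ ψ : (LP ι).BoundedFormula Empty n, ∀ (M : Type) (S : (LP ι).Structure M) (v : Fin n → M),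
    @BoundedFormula.Realize (LP ι) M S Empty n ψ default v ↔ P M S v

/-- variables -/
private def FRM_T (n : ℕ) (t : (M : Type) → (Fin n → M) → M) : Prop :=
  ∃ i : Fin n, ∀ (M : Type) (v : Fin n → M), t M v = v i

private theorem FRM_v {n : ℕ} (i : Fin n) : FRM_T n fun M v => v i := ⟨i, fun _ _ => rfl⟩

private theorem FRM_up {n : ℕ} {t : (M : Type) → (Fin n → M) → M} (h : FRM_T n t) :
    FRM_T (n + 1) fun M w => t M (fun i => w i.castSucc) := by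
  obtain ⟨i, hi⟩ := h
  exact ⟨i.castSucc, fun M w => hi M _⟩

private theorem FRM_un {ι : Type} {n : ℕ} (i : ι) {t : (M : Type) → (Fin n → M) → M}
    (h : FRM_T n t) : FRM_Df ι n fun M S v => us S i (t M v) := by
  obtain ⟨a, ha⟩ := h
  refine ⟨BoundedFormula.rel (L := LP ι) (Sy.un i : Sy ι 1) (fun _ => Term.var (Sum.inr a)),
    fun M S v => ?_⟩
  show @Structure.RelMap (LP ι) M S 1 (Sy.un i) (fun _ => v a) ↔ us S i (t M v)
  rw [ha]
  have h : (fun _ : Fin 1 => v a) = ![v a] := by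
    funext k
    rw [Subsingleton.elim k 0]
    rfl
  rw [h]
  exact Iff.rfl

private theorem FRM_ls {ι : Type} {n : ℕ} (b : Bool) {t t' : (M : Type) → (Fin n → M) → M}
    (h : FRM_T n t) (h' : FRM_T n t') :
    FRM_Df ι n fun M S v => ls S b (t M v) (t' M v) := by
  obtain ⟨x, hx⟩ := h
  obtain ⟨y, hy⟩ := h'
  refine ⟨BoundedFormula.rel (L := LP ι) (Sy.lt b : Sy ι 2)
    (fun k => Term.var (Sum.inr (if k = 0 then x else y))), fun M S v => ?_⟩
  show @Structure.RelMap (LP ι) M S 2 (Sy.lt b) (fun k => v (if k = 0 then x else y)) ↔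
    ls S b (t M v) (t' M v)
  rw [hx, hy]
  have h : (fun k : Fin 2 => v (if k = 0 then x else y)) = ![v x, v y] := by
    funext k
    match k with
    | 0 => rfl
    | 1 => rfl
  rw [h]
  exact Iff.rfl

private theorem FRM_eq {ι : Type} {n : ℕ} {t t' : (M : Type) → (Fin n → M) → M}
    (h : FRM_T n t) (h' : FRM_T n t') : FRM_Df ι n fun M S v => t M v = t' M v := by
  obtain ⟨x, hx⟩ := h
  obtain ⟨y, hy⟩ := h'
  refine ⟨BoundedFormula.equal (Term.var (Sum.inr x)) (Term.var (Sum.inr y)), fun M S v => ?_⟩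
  show _ ↔ t M v = t' M v
  rw [hx, hy]
  exact Iff.rfl

private theorem FRM_imp {ι : Type} {n : ℕ}
    {P Q : (M : Type) → (LP ι).Structure M → (Fin n → M) → Prop}
    (hP : FRM_Df ι n P) (hQ : FRM_Df ι n Q) : FRM_Df ι n fun M S v => P M S v → Q M S v := by
  obtain ⟨φ, hφ⟩ := hP
  obtain ⟨ψ, hψ⟩ := hQ
  refine ⟨φ.imp ψ, fun M S v => ?_⟩
  rw [BoundedFormula.realize_imp, hφ, hψ]

private theorem FRM_not {ι : Type} {n : ℕ}
    {P : (M : Type) → (LP ι).Structure M → (Fin n → M) → Prop}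
    (hP : FRM_Df ι n P) : FRM_Df ι n fun M S v => ¬ P M S v := by
  obtain ⟨φ, hφ⟩ := hP
  refine ⟨φ.not, fun M S v => ?_⟩
  rw [BoundedFormula.realize_not, hφ]

private theorem FRM_and {ι : Type} {n : ℕ}
    {P Q : (M : Type) → (LP ι).Structure M → (Fin n → M) → Prop}
    (hP : FRM_Df ι n P) (hQ : FRM_Df ι n Q) : FRM_Df ι n fun M S v => P M S v ∧ Q M S v := by
  obtain ⟨φ, hφ⟩ := hP
  obtain ⟨ψ, hψ⟩ := hQ
  refine ⟨φ ⊓ ψ, fun M S v => ?_⟩
  rw [BoundedFormula.realize_inf, hφ, hψ]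

private theorem FRM_or {ι : Type} {n : ℕ}
    {P Q : (M : Type) → (LP ι).Structure M → (Fin n → M) → Prop}
    (hP : FRM_Df ι n P) (hQ : FRM_Df ι n Q) : FRM_Df ι n fun M S v => P M S v ∨ Q M S v := by
  obtain ⟨φ, hφ⟩ := hP
  obtain ⟨ψ, hψ⟩ := hQ
  refine ⟨φ ⊔ ψ, fun M S v => ?_⟩
  rw [BoundedFormula.realize_sup, hφ, hψ]

private theorem FRM_iff {ι : Type} {n : ℕ}
    {P Q : (M : Type) → (LP ι).Structure M → (Fin n → M) → Prop}
    (hP : FRM_Df ι n P) (hQ : FRM_Df ι n Q) : FRM_Df ι n fun M S v => (P M S v ↔ Q M S v) := by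
  obtain ⟨φ, hφ⟩ := hP
  obtain ⟨ψ, hψ⟩ := hQ
  refine ⟨φ.iff ψ, fun M S v => ?_⟩
  rw [BoundedFormula.realize_iff, hφ, hψ]

private theorem FRM_bool {ι : Type} {n : ℕ}
    {P : Bool → (M : Type) → (LP ι).Structure M → (Fin n → M) → Prop}
    (hP : ∀ b, FRM_Df ι n (P b)) : FRM_Df ι n fun M S v => ∀ b, P b M S v := by
  obtain ⟨φ, hφ⟩ := hP true
  obtain ⟨ψ, hψ⟩ := hP false
  refine ⟨φ ⊓ ψ, fun M S v => ?_⟩
  rw [BoundedFormula.realize_inf, hφ, hψ]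
  constructor
  · rintro ⟨h1, h2⟩ (_ | _)
    · exact h2
    · exact h1
  · exact fun h => ⟨h true, h false⟩

private theorem FRM_snoc {n : ℕ} {M : Type} (v : Fin n → M) (y : M) :
    (fun i : Fin n => (Fin.snoc v y : Fin (n + 1) → M) i.castSucc) = v := by
  funext i
  exact Fin.snoc_castSucc (α := fun _ => M) y v i

private theorem FRM_all {ι : Type} {n : ℕ}
    {B : (M : Type) → (LP ι).Structure M → (Fin n → M) → M → Prop}
    (hP : FRM_Df ι (n + 1) fun M S w => B M S (fun i => w i.castSucc) (w (Fin.last n))) :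
    FRM_Df ι n fun M S v => ∀ y, B M S v y := by
  obtain ⟨φ, hφ⟩ := hP
  refine ⟨φ.all, fun M S v => ?_⟩
  rw [BoundedFormula.realize_all]
  refine forall_congr' fun y => ?_
  have h1 : _ ↔ B M S (fun i => (Fin.snoc v y : Fin (n + 1) → M) i.castSucc)
      ((Fin.snoc v y : Fin (n + 1) → M) (Fin.last n)) := hφ M S (Fin.snoc v y)
  rw [FRM_snoc, Fin.snoc_last] at h1
  exact h1

private theorem FRM_ex {ι : Type} {n : ℕ}
    {B : (M : Type) → (LP ι).Structure M → (Fin n → M) → M → Prop}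
    (hP : FRM_Df ι (n + 1) fun M S w => B M S (fun i => w i.castSucc) (w (Fin.last n))) :
    FRM_Df ι n fun M S v => ∃ y, B M S v y := by
  obtain ⟨φ, hφ⟩ := hP
  refine ⟨φ.ex, fun M S v => ?_⟩
  rw [BoundedFormula.realize_ex]
  refine exists_congr fun y => ?_
  have h1 : _ ↔ B M S (fun i => (Fin.snoc v y : Fin (n + 1) → M) i.castSucc)
      ((Fin.snoc v y : Fin (n + 1) → M) (Fin.last n)) := hφ M S (Fin.snoc v y)
  rw [FRM_snoc, Fin.snoc_last] at h1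
  exact h1

variable {L : FirstOrder.Language.{0, 0}}

private theorem FRM_abv {n : ℕ} (b : Bool) {t t' : (M : Type) → (Fin n → M) → M}
    (h : FRM_T n t) (h' : FRM_T n t') :
    FRM_Df (Ix L) n fun M S v => abv S b (t M v) (t' M v) :=
  FRM_and (FRM_un _ h) (FRM_and (FRM_not (FRM_un _ h')) (FRM_and (FRM_ls _ h h')
    (FRM_all (ι := Ix L) (B := fun M S v w => us S Ix.D w → ls S b (t M v) w → ls S b (t' M v) w)
      (FRM_imp (FRM_un _ (FRM_v _)) (FRM_imp (FRM_ls _ (FRM_up h) (FRM_v _))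
        (FRM_ls _ (FRM_up h') (FRM_v _)))))))

private theorem FRM_ovr {n : ℕ} {t t' t'' : (M : Type) → (Fin n → M) → M}
    (h : FRM_T n t) (h' : FRM_T n t') (h'' : FRM_T n t'') :
    FRM_Df (Ix L) n fun M S v => ovr S (t M v) (t' M v) (t'' M v) :=
  FRM_and (FRM_abv _ h h'') (FRM_abv _ h' h'')

private theorem FRM_rr {n : ℕ} (i : Ix L) {t t' : (M : Type) → (Fin n → M) → M}
    (h : FRM_T n t) (h' : FRM_T n t') :
    FRM_Df (Ix L) n fun M S v => rr S i (t M v) (t' M v) :=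
  FRM_ex (ι := Ix L) (B := fun M S v z => ovr S (t M v) (t' M v) z ∧ us S i z)
    (FRM_and (FRM_ovr (FRM_up h) (FRM_up h') (FRM_v _)) (FRM_un _ (FRM_v _)))

/-- axiomatisable classes -/
private def FRM_Ax (ι : Type) (P : (M : Type) → (LP ι).Structure M → Prop) : Prop :=
  ∃ F : (LP ι).Theory, ∀ (M : Type) (S : (LP ι).Structure M),
    @FirstOrder.Language.Theory.Model (LP ι) M S F ↔ P M S

private theorem FRM_sen {ι : Type} {P : (M : Type) → (LP ι).Structure M → Prop}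
    (h : FRM_Df ι 0 fun M S _ => P M S) : FRM_Ax ι P := by
  obtain ⟨φ, hφ⟩ := h
  refine ⟨{φ}, fun M S => ?_⟩
  rw [@Theory.model_iff (LP ι) M S]
  constructor
  · intro h1
    exact (hφ M S default).1 (h1 φ rfl)
  · intro h1 ψ hψ
    rw [Set.mem_singleton_iff.1 hψ]
    exact (hφ M S default).2 h1

private theorem FRM_fam {ι J : Type} {P : J → (M : Type) → (LP ι).Structure M → Prop}
    (h : ∀ j, FRM_Ax ι (P j)) : FRM_Ax ι fun M S => ∀ j, P j M S := by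
  choose F hF using h
  refine ⟨⋃ j, F j, fun M S => ?_⟩
  rw [@Theory.model_iff (LP ι) M S]
  constructor
  · intro h1 j
    rw [← hF, @Theory.model_iff (LP ι) M S]
    exact fun φ hφ => h1 φ (Set.mem_iUnion.2 ⟨j, hφ⟩)
  · intro h1 φ hφ
    obtain ⟨j, hj⟩ := Set.mem_iUnion.1 hφ
    have h2 := h1 j
    rw [← hF, @Theory.model_iff (LP ι) M S] at h2
    exact h2 φ hj

private theorem FRM_both {ι : Type} {P Q : (M : Type) → (LP ι).Structure M → Prop}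
    (hP : FRM_Ax ι P) (hQ : FRM_Ax ι Q) : FRM_Ax ι fun M S => P M S ∧ Q M S := by
  obtain ⟨F, hF⟩ := hP
  obtain ⟨G, hG⟩ := hQ
  refine ⟨F ∪ G, fun M S => ?_⟩
  show _ ↔ (P M S ∧ Q M S)
  rw [@Theory.model_iff (LP ι) M S, ← hF, ← hG, @Theory.model_iff (LP ι) M S,
    @Theory.model_iff (LP ι) M S]
  constructor
  · intro h
    exact ⟨fun φ hφ => h φ (Or.inl hφ), fun φ hφ => h φ (Or.inr hφ)⟩
  · rintro ⟨h1, h2⟩ φ (hφ | hφ)
    · exact h1 φ hφ
    · exact h2 φ hφ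

theorem thm_FRM : St_FRM := by
  intro L
  have e1 : FRM_Ax (Ix L) fun M S => Two S := by
    refine FRM_sen (FRM_bool fun b => FRM_and (FRM_all ?_) (FRM_and (FRM_all (FRM_all (FRM_all ?_)))
      (FRM_all (FRM_all ?_))))
    · exact FRM_not (FRM_ls _ (FRM_v _) (FRM_v _))
    · exact FRM_imp (FRM_ls _ (FRM_v _) (FRM_v _)) (FRM_imp (FRM_ls _ (FRM_v _) (FRM_v _))
        (FRM_ls _ (FRM_v _) (FRM_v _)))
    · exact FRM_imp (FRM_not (FRM_eq (FRM_v _) (FRM_v _))) (FRM_or (FRM_ls _ (FRM_v _) (FRM_v _))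
        (FRM_ls _ (FRM_v _) (FRM_v _)))
  have e2 : FRM_Ax (Ix L) fun M S => ∃ x, us S .D x :=
    FRM_sen (FRM_ex (FRM_un _ (FRM_v _)))
  have e3 : FRM_Ax (Ix L) fun M S => ∀ x y, us S .D x → us S .D y →
      (ls S true x y ↔ ls S false x y) :=
    FRM_sen (FRM_all (FRM_all (FRM_imp (FRM_un _ (FRM_v _)) (FRM_imp (FRM_un _ (FRM_v _))
      (FRM_iff (FRM_ls _ (FRM_v _) (FRM_v _)) (FRM_ls _ (FRM_v _) (FRM_v _)))))))
  have e4 : FRM_Ax (Ix L) fun M S => ∀ x y w, us S .D x → us S .D y → us S .D w → ls S true x y →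
      ∃ v, us S .D v ∧ ls S true x v ∧ ls S true v y ∧ rr S .E v w :=
    FRM_sen (FRM_all (FRM_all (FRM_all (FRM_imp (FRM_un _ (FRM_v _)) (FRM_imp (FRM_un _ (FRM_v _))
      (FRM_imp (FRM_un _ (FRM_v _)) (FRM_imp (FRM_ls _ (FRM_v _) (FRM_v _))
        (FRM_ex (FRM_and (FRM_un _ (FRM_v _)) (FRM_and (FRM_ls _ (FRM_v _) (FRM_v _))
          (FRM_and (FRM_ls _ (FRM_v _) (FRM_v _)) (FRM_rr _ (FRM_v _) (FRM_v _)))))))))))))
  have e5 : FRM_Ax (Ix L) fun M S => ∀ x w, us S .D x → us S .D w →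
      ∃ v, us S .D v ∧ ls S true v x ∧ rr S .E v w :=
    FRM_sen (FRM_all (FRM_all (FRM_imp (FRM_un _ (FRM_v _)) (FRM_imp (FRM_un _ (FRM_v _))
      (FRM_ex (FRM_and (FRM_un _ (FRM_v _)) (FRM_and (FRM_ls _ (FRM_v _) (FRM_v _))
        (FRM_rr _ (FRM_v _) (FRM_v _)))))))))
  have e6 : FRM_Ax (Ix L) fun M S => ∀ x w, us S .D x → us S .D w →
      ∃ v, us S .D v ∧ ls S true x v ∧ rr S .E v w :=
    FRM_sen (FRM_all (FRM_all (FRM_imp (FRM_un _ (FRM_v _)) (FRM_imp (FRM_un _ (FRM_v _))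
      (FRM_ex (FRM_and (FRM_un _ (FRM_v _)) (FRM_and (FRM_ls _ (FRM_v _) (FRM_v _))
        (FRM_rr _ (FRM_v _) (FRM_v _)))))))))
  have e7 : FRM_Ax (Ix L) fun M S => ∀ b z, ¬ us S .D z → ∃ x, abv S b x z :=
    FRM_sen (FRM_bool fun b => FRM_all (FRM_imp (FRM_not (FRM_un _ (FRM_v _)))
      (FRM_ex (FRM_abv _ (FRM_v _) (FRM_v _)))))
  have e8 : FRM_Ax (Ix L) fun M S => ∀ x y, us S .D x → us S .D y → ∃ z, ovr S x y z :=
    FRM_sen (FRM_all (FRM_all (FRM_imp (FRM_un _ (FRM_v _)) (FRM_imp (FRM_un _ (FRM_v _))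
      (FRM_ex (FRM_ovr (FRM_v _) (FRM_v _) (FRM_v _)))))))
  have e9 : FRM_Ax (Ix L) fun M S => ∀ b x y y' z z', abv S b x z → abv S b x z' →
      abv S (!b) y z → abv S (!b) y' z' → (ls S b z z' ↔ ls S b y y') :=
    FRM_sen (FRM_bool fun b => FRM_all (FRM_all (FRM_all (FRM_all (FRM_all
      (FRM_imp (FRM_abv _ (FRM_v _) (FRM_v _)) (FRM_imp (FRM_abv _ (FRM_v _) (FRM_v _))
        (FRM_imp (FRM_abv _ (FRM_v _) (FRM_v _)) (FRM_imp (FRM_abv _ (FRM_v _) (FRM_v _))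
          (FRM_iff (FRM_ls _ (FRM_v _) (FRM_v _)) (FRM_ls _ (FRM_v _) (FRM_v _))))))))))))
  have e10 : FRM_Ax (Ix L) fun M S => ∀ x, us S .D x → rr S .E x x :=
    FRM_sen (FRM_all (FRM_imp (FRM_un _ (FRM_v _)) (FRM_rr _ (FRM_v _) (FRM_v _))))
  have e11 : FRM_Ax (Ix L) fun M S => ∀ x y, rr S .E x y → rr S .E y x :=
    FRM_sen (FRM_all (FRM_all (FRM_imp (FRM_rr _ (FRM_v _) (FRM_v _))
      (FRM_rr _ (FRM_v _) (FRM_v _)))))
  have e12 : FRM_Ax (Ix L) fun M S => ∀ x y z, rr S .E x y → rr S .E y z → rr S .E x z :=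
    FRM_sen (FRM_all (FRM_all (FRM_all (FRM_imp (FRM_rr _ (FRM_v _) (FRM_v _))
      (FRM_imp (FRM_rr _ (FRM_v _) (FRM_v _)) (FRM_rr _ (FRM_v _) (FRM_v _)))))))
  have e13 : FRM_Ax (Ix L) fun M S => ∀ (R : L.Relations 1) x y, rr S .E x y → us S (.u R) x →
      us S (.u R) y :=
    FRM_fam fun R => FRM_sen (FRM_all (FRM_all (FRM_imp (FRM_rr _ (FRM_v _) (FRM_v _))
      (FRM_imp (FRM_un _ (FRM_v _)) (FRM_un _ (FRM_v _))))))
  have e14 : FRM_Ax (Ix L) fun M S => ∀ (R : L.Relations 2) x y x' y', rr S .E x x' →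
      rr S .E y y' → rr S (.r R) x y → rr S (.r R) x' y' :=
    FRM_fam fun R => FRM_sen (FRM_all (FRM_all (FRM_all (FRM_all
      (FRM_imp (FRM_rr _ (FRM_v _) (FRM_v _)) (FRM_imp (FRM_rr _ (FRM_v _) (FRM_v _))
        (FRM_imp (FRM_rr _ (FRM_v _) (FRM_v _)) (FRM_rr _ (FRM_v _) (FRM_v _)))))))))
  have e15 : FRM_Ax (Ix L) fun M S => ∀ (R : L.Relations 1) z, us S (.u R) z → us S .D z :=
    FRM_fam fun R => FRM_sen (FRM_all (FRM_imp (FRM_un _ (FRM_v _)) (FRM_un _ (FRM_v _))))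
  have e16 : FRM_Ax (Ix L) fun M S => ∀ (R : L.Relations 2) z, us S (.r R) z → ¬ us S .D z :=
    FRM_fam fun R => FRM_sen (FRM_all (FRM_imp (FRM_un _ (FRM_v _)) (FRM_not (FRM_un _ (FRM_v _)))))
  have e17 : FRM_Ax (Ix L) fun M S => ∀ z, us S .E z → ¬ us S .D z :=
    FRM_sen (FRM_all (FRM_imp (FRM_un _ (FRM_v _)) (FRM_not (FRM_un _ (FRM_v _)))))
  obtain ⟨F, hF⟩ := FRM_both e1 (FRM_both e2 (FRM_both e3 (FRM_both e4 (FRM_both e5 (FRM_both e6
    (FRM_both e7 (FRM_both e8 (FRM_both e9 (FRM_both e10 (FRM_both e11 (FRM_both e12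
      (FRM_both e13 (FRM_both e14 (FRM_both e15 (FRM_both e16 e17)))))))))))))))
  refine ⟨F, fun M S => ?_⟩
  rw [hF]
  constructor
  · rintro ⟨h1, h2, h3, h4, h5, h6, h7, h8, h9, h10, h11, h12, h13, h14, h15, h16, h17⟩
    exact ⟨h1, h2, h3, h4, h5, h6, h7, h8, h9, h10, h11, h12, h13, h14, h15, h16, h17⟩
  · intro h
    exact ⟨h.two, h.ne, h.agr, h.dns, h.lft, h.rgt, h.blw, h.pt, h.blk, h.rfl', h.sym, h.trs,
      h.ui, h.bi, h.ud, h.rd, h.ed⟩

end Pool.Agent.PMC
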