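import Pool.Agent.PMC.StB
import Pool.Agent.PMC.Base

/-!
PMC, module FTW: cuts of `u` beyond `w` (helper60)
-/

set_option autoImplicit false
set_option linter.unusedVariables false

namespace Pool.Agent.PMC

open FirstOrder.Language Set
open scoped FirstOrder
open Pool.Agent.WOM (tp Mon IsEl IsoM CtU Fx Orb)

private theorem FTW_bool (s b : Bool) : (s ≠ (!b)) ↔ ¬ (s ≠ b) := by
  cases s <;> cases b <;> simp

private theorem FTW_lts {U κ : Type} (R : κ → U → U → Prop) (o : κ → κ) (s b : Bool) (j : κ)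
    (x y : U) : lts R o (sd (!b) s) j x y ↔ lts R o (sd b s) j y x := by
  cases s <;> cases b <;> simp [lts, sd]

private theorem FTW_side {U κ : Type} {R : κ → U → U → Prop} {o : κ → κ} {s b : Bool} {j : κ}
    {C : Set U} (hC : Ini R o j C) {x y : U} (h : lts R o (sd b s) j x y)
    (hx : x ∈ C ↔ s ≠ b) : y ∈ C ↔ s ≠ b := by
  cases s <;> cases b <;> simp [lts, sd] at h hx ⊢
  · exact fun hy => hx (hC y hy x h)
  · exact hC x hx y h
  · exact hC x hx y h
  · exact fun hy => hx (hC y hy x h)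

private theorem FTW_img {L : FirstOrder.Language.{0, 0}} {U : Type} [L.Structure U] {A : Set U}
    {g : U ≃[L] U} (hg : Fx L A g) (u : U) : g '' (insert u A) = insert (g u) A := by
  rw [Set.image_insert_eq]
  congr 1
  ext x
  constructor
  · rintro ⟨y, hy, rfl⟩
    rw [hg y hy]
    exact hy
  · intro hx
    exact ⟨x, hx, hg x hx⟩

theorem thm_FTW (h1 : St_FAI) (h2 : St_GPR) : St_FTW := by
  intro L U _ κ R o hC A E sg hO w hw u hu b hwu z hz j C C' hCu hC'w hCK hC'K
  obtain ⟨-, -, f3, f4, -, f6, f7, f8⟩ := h1 L U κ R o hC A E sg hO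
  have hA := hO.fin
  by_contra hno
  push Not at hno
  -- points beyond `w` in the cell
  have hcel : ∀ y ∈ cel L R o A j z, cel L R o A j y = cel L R o A j z := fun y hy => cel_eq hy
  have hsg : ∀ y ∈ cel L R o A j z, sg (o j) y = sg (o j) z := fun y hy => hO.cst j z hz y hy
  have hKb : ∀ y ∈ cel L R o A j z, Fa L R o A sg b w y → (y ∈ C ↔ sg (o j) z ≠ b) := by
    intro y hy hwy
    have e1 := hwy j C' hC'w (by rw [hcel y hy]; exact hC'K)
    rw [hsg y hy] at e1
    by_contra h3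
    have h4 : y ∈ C ↔ sg (o j) z ≠ (!b) := by
      rw [FTW_bool]
      tauto
    have h5 := hno y hy h4
    tauto
  have hns : ∀ D : Set U, (∀ y ∈ cel L R o A j z, Fa L R o A sg b w y →
      (y ∈ D ↔ sg (o j) z ≠ b)) →
      ¬ Sin D {y | y ∈ cel L R o A j z ∧ Fa L R o A sg b w y} := by
    rintro D hD ⟨⟨x, ⟨hx, hx'⟩, hxD⟩, ⟨y, ⟨hy, hy'⟩, hyD⟩⟩
    have e1 := hD x hx hx'
    have e2 := hD y hy hy'
    tauto
  have hCw : Dc L R o (insert w A) j C := by
    refine h2 L U κ R o hC A E sg hO w hw b {u} (Set.finite_singleton u)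
      (Set.singleton_subset_iff.2 hu) (fun d hd => ?_) z hz j C ?_ hCK (hns C hKb)
    · rw [Set.mem_singleton_iff.1 hd]
      exact hwu
    · rw [Set.union_singleton]
      exact hCu
  obtain ⟨v0, hv0, hwv0⟩ := f4 w hw z hz j (!b)
  obtain ⟨y0, hy0, hy0C⟩ : ∃ y ∈ cel L R o A j z, (y ∈ C ↔ sg (o j) z ≠ b) := by
    obtain ⟨⟨x, hx, hxC⟩, ⟨y, hy, hyC⟩⟩ := hCK
    by_cases hs : sg (o j) z ≠ b
    · exact ⟨x, hx, by tauto⟩
    · exact ⟨y, hy, by tauto⟩
  obtain ⟨t, ht, htl⟩ := move hC hA (hO.nd z hz) hv0 hy0 (sd (!b) (sg (o j) z))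
  rw [FTW_lts] at htl
  have hinj : ∀ (g : U ≃[L] U) (D : Set U) (x : U), g x ∈ g '' D ↔ x ∈ D := by
    intro g D x
    constructor
    · rintro ⟨y, hy, hyx⟩
      rw [← g.injective hyx]
      exact hy
    · exact fun hx => ⟨x, hx, rfl⟩
  have htCu : Dc L R o (insert (t u) A) j (t '' C) := by
    have e := dc_img hC hCu t
    rwa [FTW_img ht] at e
  have htCw : Dc L R o (insert (t w) A) j (t '' C) := by
    have e := dc_img hC hCw t
    rwa [FTW_img ht] at e
  have hv0C : v0 ∈ t '' C ↔ sg (o j) z ≠ b := by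
    refine FTW_side htCu.2 htl ?_
    rw [hinj]
    exact hy0C
  obtain ⟨hE, hF⟩ := f3 t ht
  have htw : t w ∈ E := (hE w).2 hw
  have htu : t u ∈ E := (hE u).2 hu
  have htwu : Fa L R o A sg b (t w) (t u) := (hF w hw u hu b).2 hwu
  obtain ⟨i⟩ := hC.ne
  obtain ⟨p, hp, hwp⟩ := f4 w hw (t u) htu i b
  have hpE : p ∈ E := pc_sub hO.clo htu (cel_sub_pc hC hA i (t u) hp)
  obtain ⟨r, hr, hrl⟩ := f8 (t w) htw (t u) htu i b p hp htwu
  have hrA : Fx L A r := fx_mono (Set.subset_insert _ _) hr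
  have hru : r (t u) ∈ cel L R o A i p := by
    rw [cel_eq hp]
    exact fx_cel hC i (t u) hrA
  have hwr : Fa L R o A sg b w (r (t u)) := by
    refine f7 w hw p hpE i b (r (t u)) hru hwp ?_
    rw [hO.cst i (t u) htu p hp]
    exact hrl
  have hrE : r (t u) ∈ E := ((f3 r hrA).1 (t u)).2 htu
  have htCr : Dc L R o (insert (r (t u)) A) j (t '' C) := by
    have e := dc_img hC htCu r
    rw [FTW_img hrA, dc_fix htCw hr] at e
    exact e
  have hKb' : ∀ y ∈ cel L R o A j z, Fa L R o A sg b w y → (y ∈ t '' C ↔ sg (o j) z ≠ b) := by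
    intro y hy hwy
    have hlt : lts R o (sd b (sg (o j) z)) j v0 y := by
      by_contra h3
      have hyv : y ≠ v0 := by
        rintro rfl
        exact f6 w hw y (pc_sub hO.clo hz (cel_sub_pc hC hA j z hy)) b hwy hwv0
      have h4 : lts R o (sd b (sg (o j) z)) j y v0 := by
        rcases hC.tot j y v0 hyv with h5 | h5
        · revert h3
          cases sd b (sg (o j) z) <;> simp [lts, h5]
        · revert h3
          cases sd b (sg (o j) z) <;> simp [lts, h5]
      have hyE : y ∈ E := pc_sub hO.clo hz (cel_sub_pc hC hA j z hy)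
      have hv0E : v0 ∈ E := pc_sub hO.clo hz (cel_sub_pc hC hA j z hv0)
      have h6 : Fa L R o A sg b w v0 := by
        refine f7 w hw y hyE j b v0 ?_ hwy ?_
        · rw [hcel y hy]
          exact hv0
        · rw [hsg y hy]
          exact h4
      exact f6 w hw v0 hv0E b h6 hwv0
    exact FTW_side htCu.2 hlt hv0C
  have hfin : Dc L R o (insert w A) j (t '' C) := by
    refine h2 L U κ R o hC A E sg hO w hw b {r (t u)} (Set.finite_singleton _)
      (Set.singleton_subset_iff.2 hrE) (fun d hd => ?_) z hz j (t '' C) ?_ ?_ (hns _ hKb')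
    · rw [Set.mem_singleton_iff.1 hd]
      exact hwr
    · rw [Set.union_singleton]
      exact htCr
    · exact sin_img hC (fx_img_cel hC j z ht) hCK
  have e1 := hwv0 j (t '' C) hfin (by
    rw [hcel v0 hv0]
    exact sin_img hC (fx_img_cel hC j z ht) hCK)
  rw [hsg v0 hv0, FTW_bool] at e1
  tauto

end Pool.Agent.PMC
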