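import Pool.Agent.PMC.Base
import Pool.Agent.PMC.StB

/-!
PMC, MP_5df2c5_lc: module GPR (definability of cuts over one point).
-/

set_option autoImplicit false
set_option linter.unusedVariables false

namespace Pool.Agent.PMC

open FirstOrder.Language Set
open scoped FirstOrder
open Pool.Agent.WOM (tp Mon IsEl IsoM CtU Fx Orb)

/-- [GPR] -/
theorem thm_GPR (hGLE : St_GLE) (hFAI : St_FAI) : St_GPR := by
  classical
  intro L U _ κ R o hC A E sg hE w hw b D hD hDE hDF z hz j C hDC hSin hNS
  refine ⟨?_, hDC.2⟩
  have hA : A.Finite := hE.fin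
  refine def_of_fix hC.mon (hA.insert w) (hA.union hD) hDC.1 ?_
  intro g hg
  obtain ⟨h, hh, hh1, hh2⟩ := hGLE L U κ R o hC A E sg hE w hw b g hg
  have hhA : Fx L A h := fx_mono (subset_insert w A) hh
  have hgA : Fx L A g := fx_mono (subset_insert w A) hg
  -- `h` and `g` agree on `A ∪ D`
  have hag : ∀ a ∈ A ∪ D, h a = g a := by
    rintro a (ha | ha)
    · rw [hhA a ha, hgA a ha]
    · exact hh1 a (hDE ha) (hDF a ha)
  have hfx : Fx L (A ∪ D) (h.symm.comp g) := by
    intro a ha
    rw [comp_apply', ← hag a ha]
    exact h.symm_apply_apply a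
  -- `h` preserves `C`
  have hKE : cel L R o A j z ⊆ E :=
    (cel_sub_pc hC hA j z).trans (pc_sub hE.clo hz)
  have hfa := (hFAI L U κ R o hC A E sg hE).2.2.1 h hhA
  have hFw : ∀ y ∈ E, (Fa L R o A sg b w (h y) ↔ Fa L R o A sg b w y) := by
    intro y hy
    have h1 := hfa.2 w hw y hy b
    rw [hh w (mem_insert w A)] at h1
    exact h1
  obtain ⟨⟨x1, hx1, hx1'⟩, ⟨x2, hx2, hx2'⟩⟩ := hSin
  have hCh : ∀ y, h y ∈ C ↔ y ∈ C := by
    intro y
    by_cases hyK : y ∈ cel L R o A j z
    · have hhyK : h y ∈ cel L R o A j z := (fx_mem_cel hC j y z hhA).2 hyK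
      have hyE : y ∈ E := hKE hyK
      by_cases hyF : Fa L R o A sg b w y
      · have hhyF : Fa L R o A sg b w (h y) := (hFw y hyE).2 hyF
        constructor
        · intro h3
          by_contra h4
          exact hNS ⟨⟨h y, ⟨hhyK, hhyF⟩, h3⟩, ⟨y, ⟨hyK, hyF⟩, h4⟩⟩
        · intro h3
          by_contra h4
          exact hNS ⟨⟨y, ⟨hyK, hyF⟩, h3⟩, ⟨h y, ⟨hhyK, hhyF⟩, h4⟩⟩
      · rw [hh2 y (fun h3 => hyF h3.2)]
    · -- outside of the cell
      have hhyK : h y ∉ cel L R o A j z := fun h3 => hyK ((fx_mem_cel hC j y z hhA).1 h3)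
      have hyc : h y ∈ cel L R o A j y := fx_cel hC j y hhA
      -- `y` below or above the cell
      have hout : ∀ v, v ∉ cel L R o A j z → (v ∈ C ↔ R (o j) v z) := by
        intro v hv
        constructor
        · intro hvC
          by_contra hvz
          have hne : v ≠ z := by
            rintro rfl
            exact hv (mem_cel A j v)
          have hzv : R (o j) z v := (hC.tot j v z hne).resolve_left hvz
          -- `x2 ∉ C`, so `v` is below `x2`
          have hx2v : ¬ R (o j) x2 v := fun h3 => hx2' (hDC.2 v hvC x2 h3)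
          exact hv (cel_conv hC (mem_cel A j z) hx2 (fun h3 => hvz h3) hx2v)
        · intro hvz
          by_contra hvC
          have hx1v : ¬ R (o j) v x1 := fun h3 => hvC (hDC.2 x1 hx1' v h3)
          exact hv (cel_conv hC hx1 (mem_cel A j z) hx1v (asymm' hC j hvz))
      rw [hout y hyK, hout (h y) hhyK]
      -- the cells of `y` and `z` are separated
      have hsep : ∀ v, v ∈ cel L R o A j y → (R (o j) v z ↔ R (o j) y z) := by
        intro v hv
        constructor
        · intro h3
          by_contra h4
          have hne : y ≠ z := by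
            rintro rfl
            exact hyK (mem_cel A j y)
          have hzy : R (o j) z y := (hC.tot j y z hne).resolve_left h4
          exact hyK (cel_symm (cel_conv hC hv (mem_cel A j y) (asymm' hC j h3)
            (asymm' hC j hzy)))
        · intro h3
          by_contra h4
          have hne : v ≠ z := by
            rintro rfl
            exact hyK (cel_symm hv)
          have hzv : R (o j) z v := (hC.tot j v z hne).resolve_left h4
          exact hyK (cel_symm (cel_conv hC (mem_cel A j y) hv (asymm' hC j h3)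
            (asymm' hC j hzv)))
      exact hsep (h y) hyc
  intro x hx
  have h3 : (h.symm.comp g) x ∈ C := (def_mem hDC.1 hfx x).2 hx
  rw [comp_apply'] at h3
  have h4 := (hCh (h.symm (g x))).2 h3
  rw [h.apply_symm_apply] at h4
  exact h4

end Pool.Agent.PMC
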