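import Pool.Agent.PMC.StC
import Pool.Agent.PMC.Base

/-!
PMC [GRP]: gluing of automorphisms along clusters (helper63).
-/

set_option autoImplicit false
set_option linter.unusedVariables false

namespace Pool.Agent.PMC

open FirstOrder.Language Set
open scoped FirstOrder
open Pool.Agent.WOM (tp Mon IsEl IsoM CtU Fx Orb)

/-- last points of finite sets, for a strict order on `E` -/
private theorem GRP_last {U : Type} {E : Set U} {lt : U → U → Prop}
    (hirr : ∀ w ∈ E, ¬ lt w w)
    (htra : ∀ u ∈ E, ∀ v ∈ E, ∀ w ∈ E, lt u v → lt v w → lt u w)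
    {F : Set U} (hF : F.Finite) : F ⊆ E → F.Nonempty → ∃ x ∈ F, ∀ y ∈ F, ¬ lt x y := by
  induction F, hF using Set.Finite.induction_on with
  | empty => intro _ h; exact absurd h Set.not_nonempty_empty
  | @insert a s has hs ih =>
    intro hsub _
    have haE : a ∈ E := hsub (mem_insert a s)
    have hsE : s ⊆ E := fun x hx => hsub (mem_insert_of_mem a hx)
    rcases s.eq_empty_or_nonempty with h0 | h0
    · refine ⟨a, mem_insert a s, fun y hy => ?_⟩
      rcases hy with rfl | hy
      · exact hirr _ haE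
      · rw [h0] at hy; exact absurd hy (Set.notMem_empty y)
    · obtain ⟨x, hx, hxm⟩ := ih hsE h0
      by_cases hxa : lt x a
      · refine ⟨a, mem_insert a s, fun y hy => ?_⟩
        rcases hy with rfl | hy
        · exact hirr _ haE
        · intro hay
          exact hxm y hy (htra x (hsE hx) a haE y (hsE hy) hxa hay)
      · refine ⟨x, mem_insert_of_mem a hx, fun y hy => ?_⟩
        rcases hy with rfl | hy
        · exact hxa
        · exact hxm y hy

theorem thm_GRP (h1 : St_FAI) (h2 : St_ORD) (h3 : St_ORT) : St_GRP := by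
  intro L U _ κ R o hC A E sg hO
  obtain ⟨-, -, hI, -⟩ := h1 L U κ R o hC A E sg hO
  obtain ⟨-, hirr, hO3, hO4, -⟩ := h2 L U κ R o hC A E sg hO
  obtain ⟨-, hT2, -⟩ := h3 L U κ R o hC A E sg hO
  have key : ∀ n : ℕ, ∀ (F : Set U) (t : U → U), F.Finite → F.ncard = n → F ⊆ E →
      (∀ x ∈ F, t x ∈ E) →
      (∀ x ∈ F, ∀ y ∈ F, Ll L R o A sg x y → Ll L R o A sg (t x) (t y)) →
      (∀ x ∈ F, ∃ g : U ≃[L] U, Fx L A g ∧
        ∀ y ∈ F, ¬ Ll L R o A sg x y → ¬ Ll L R o A sg y x → g y = t y) →
      ∃ g : U ≃[L] U, Fx L A g ∧ ∀ x ∈ F, g x = t x := by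
    intro n
    induction n using Nat.strong_induction_on with
    | _ n ih =>
      intro F t hF hn hFE htE hmon hloc
      rcases F.eq_empty_or_nonempty with h0 | h0
      · refine ⟨_, fx_refl A, fun x hx => ?_⟩
        rw [h0] at hx
        exact absurd hx (Set.notMem_empty x)
      obtain ⟨x0, hx0, hlast⟩ := GRP_last (lt := Ll L R o A sg)
        (fun w hw => hirr w hw true) hO4 hF hFE h0
      set W : Set U := {x | x ∈ F ∧ Ll L R o A sg x x0} with hW
      set S : Set U := {x | x ∈ F ∧ ¬ Ll L R o A sg x x0} with hS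
      have hWF : W ⊆ F := fun x hx => hx.1
      have hSF : S ⊆ F := fun x hx => hx.1
      have hx0W : x0 ∉ W := fun h => hirr x0 (hFE hx0) true h.2
      have hlt : W.ncard < n := by
        rw [← hn]
        exact Set.ncard_lt_ncard ⟨hWF, fun h => hx0W (h hx0)⟩ hF
      obtain ⟨g', hg', hg't⟩ := ih W.ncard hlt W t (hF.subset hWF) rfl (hWF.trans hFE)
        (fun x hx => htE x hx.1) (fun x hx y hy h => hmon x hx.1 y hy.1 h)
        (fun x hx => by
          obtain ⟨g, hg, hgt⟩ := hloc x hx.1
          exact ⟨g, hg, fun y hy => hgt y hy.1⟩)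
      obtain ⟨g0, hg0, hg0t⟩ := hloc x0 hx0
      have hg0S : ∀ s ∈ S, g0 s = t s := fun s hs => hg0t s hs.1 (hlast s hs.1) hs.2
      have hWS : LL L R o A sg W S := by
        intro w hw s hs
        rcases hO3 w (hFE hw.1) x0 (hFE hx0) hw.2 s (hFE hs.1) with h | h
        · exact h
        · exact absurd h hs.2
      have hk : Fx L A (g'.symm.comp g0) := fx_comp (fx_symm hg') hg0
      have hWk : LL L R o A sg W ((g'.symm.comp g0) '' S) := by
        rintro w hw _ ⟨s, hs, rfl⟩
        have e1 : Ll L R o A sg (g' w) (g0 s) := by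
          rw [hg't w hw, hg0S s hs]
          exact hmon w hw.1 s hs.1 (hWS w hw s hs)
        have e2 : g' w ∈ E := by rw [hg't w hw]; exact htE w hw.1
        have e3 : g0 s ∈ E := by rw [hg0S s hs]; exact htE s hs.1
        have e4 := ((hI g'.symm (fx_symm hg')).2 (g' w) e2 (g0 s) e3 true).2 e1
        rw [g'.symm_apply_apply] at e4
        exact e4
      obtain ⟨h, hh, hhS⟩ := hT2 S W (hF.subset hSF) (hF.subset hWF) (hSF.trans hFE)
        (hWF.trans hFE) hWS (g'.symm.comp g0) hk hWk
      refine ⟨g'.comp h, fx_comp hg' (fx_mono subset_union_left hh), fun x hx => ?_⟩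
      by_cases hxW : Ll L R o A sg x x0
      · have e1 : h x = x := hh x (Or.inr ⟨hx, hxW⟩)
        rw [comp_apply', e1]
        exact hg't x ⟨hx, hxW⟩
      · have hxS : x ∈ S := ⟨hx, hxW⟩
        rw [comp_apply', hhS x hxS, comp_apply', g'.apply_symm_apply]
        exact hg0S x hxS
  intro F t hF hFE htE hmon hloc
  exact key F.ncard F t hF rfl hFE htE hmon hloc

end Pool.Agent.PMC
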