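import Pool.Agent.PMC.StD
import Pool.Agent.PMC.Base

/-!
PMC, module INN: inner pieces are rigid (helper68)
-/

set_option autoImplicit false
set_option linter.unusedVariables false

namespace Pool.Agent.PMC

open FirstOrder.Language Set
open scoped FirstOrder
open Pool.Agent.WOM (tp Mon IsEl IsoM CtU Fx Orb)

section inn

variable {L : FirstOrder.Language.{0, 0}} {U : Type} [L.Structure U]

private theorem INN_mono {A A' X Y : Set U} (h : A ⊆ A') (hS : Sm L A' X Y) : Sm L A X Y := by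
  obtain ⟨e, he⟩ := hS
  exact ⟨e, fun s hs => let ⟨g, hg, h2⟩ := he s hs; ⟨g, fx_mono h hg, h2⟩⟩

private theorem INN_symm_img (g : U ≃[L] U) (X : Set U) : g.symm '' (g '' X) = X := by
  ext x
  constructor
  · rintro ⟨_, ⟨y, hy, rfl⟩, rfl⟩
    rw [g.symm_apply_apply]
    exact hy
  · intro hx
    exact ⟨g x, ⟨x, hx, rfl⟩, g.symm_apply_apply x⟩

private theorem INN_fx_img {A : Set U} {g : U ≃[L] U} (hg : Fx L A g) : g '' A = A := by
  ext x
  constructor
  · rintro ⟨a, ha, rfl⟩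
    rw [hg a ha]
    exact ha
  · intro hx
    exact ⟨x, hx, hg x hx⟩

private theorem INN_img {A X Y : Set U} (g : U ≃[L] U) (hS : Sm L A X Y) :
    Sm L (g '' A) (g '' X) (g '' Y) := by
  obtain ⟨e, he⟩ := hS
  refine ⟨((Equiv.image g.toEquiv X).symm.trans e).trans (Equiv.image g.toEquiv Y),
    fun s hs => ?_⟩
  obtain ⟨h, hh, h2⟩ := he ((Equiv.image g.toEquiv X).symm '' s) (hs.image _)
  refine ⟨(g.comp h).comp g.symm, ?_, ?_⟩
  · rintro _ ⟨a, ha, rfl⟩
    show g (h (g.symm (g a))) = g a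
    rw [g.symm_apply_apply, hh a ha]
  · intro x hx
    have h3 := h2 _ (mem_image_of_mem _ hx)
    have h4 : ((Equiv.image g.toEquiv X).symm x : U) = g.symm x := by
      obtain ⟨y, rfl⟩ := (Equiv.image g.toEquiv X).surjective x
      rw [Equiv.symm_apply_apply]
      show (y : U) = g.symm (g y)
      rw [g.symm_apply_apply]
    show g (h (g.symm x)) = g (e ((Equiv.image g.toEquiv X).symm x))
    rw [← h4, h3]

/-- fix one point -/
private theorem INN_pt {A X Y : Set U} (hS : Sm L A X Y) {x : U} (hx : x ∈ X) :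
    ∃ g : U ≃[L] U, Fx L A g ∧ g x ∈ Y ∧ Sm L (insert x A) X (g.symm '' Y) := by
  obtain ⟨e, he⟩ := hS
  obtain ⟨g, hg, h2⟩ := he {⟨x, hx⟩} (finite_singleton _)
  have h3 : g x = e ⟨x, hx⟩ := h2 ⟨x, hx⟩ rfl
  refine ⟨g, hg, by rw [h3]; exact (e ⟨x, hx⟩).2,
    e.trans (Equiv.image g.symm.toEquiv Y), fun s hs => ?_⟩
  obtain ⟨h, hh, h4⟩ := he (insert ⟨x, hx⟩ s) (hs.insert _)
  refine ⟨g.symm.comp h, ?_, ?_⟩
  · intro b hb
    rcases hb with rfl | hb
    · show g.symm (h b) = b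
      rw [h4 ⟨b, hx⟩ (mem_insert _ _), ← h3, g.symm_apply_apply]
    · exact fx_comp (fx_symm hg) hh b hb
  · intro v hv
    show g.symm (h v) = g.symm (e v)
    rw [h4 v (mem_insert_of_mem _ hv)]

private theorem INN_el {κ : Type} {R : κ → U → U → Prop} {o : κ → κ} (hC : Cx L R o)
    {M : Set U} (hM : IsEl L M) (t : U ≃[L] U) : IsEl L (t '' M) := by
  intro s hs hne
  have h1 := def_img hC.mon t.symm hs
  rw [INN_symm_img] at h1
  obtain ⟨z, ⟨y, hy, rfl⟩, hz2⟩ := hM _ h1 (hne.image _)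
  refine ⟨y, hy, t.symm y, hz2, ?_⟩
  exact t.apply_symm_apply y

end inn

theorem thm_INN (h1 : St_UNP) (h2 : St_SMB) (h3 : St_NWL) (h4 : St_AEI) (h5 : St_ORD)
    (h6 : St_FAI) : St_INN := by
  intro L U _ κ R o hC hNP A x y hA hx hy hny hnX M hM
  obtain ⟨t, z0, sg, htA, hO, hxE, hxP, hP⟩ := h4 L U κ R o hC A x y hA hx hy hny hnX
  set B := insert x A with hB
  have hBf : B.Finite := hA.insert x
  set P := Pc L R o B y with hPdef
  set E := Pc L R o B z0 with hE
  set B' := t '' B with hB'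
  have hB'f : B'.Finite := hBf.image t
  set P' := t '' P with hP'
  have hP'pc : P' = Pc L R o B' (t y) := by rw [hP', hPdef, img_pc hC, hB']
  have hxB' : t x ∈ B' := ⟨x, mem_insert x A, rfl⟩
  have hAB' : A ⊆ B' := fun a ha => ⟨a, mem_insert_of_mem x ha, htA a ha⟩
  have hcP' : Cls L R o B' P' := by rw [hP'pc]; exact cls_pc B' (t y)
  -- the submodel
  set m : U → Set U := fun z => {v | z ∈ P' → v ∈ t '' M} with hm
  have hm1 : ∀ z ∈ P', m z = t '' M := by
    intro z hz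
    ext v
    exact ⟨fun h => h hz, fun h _ => h⟩
  have hm2 : ∀ z ∉ P', m z = univ := by
    intro z hz
    ext v
    exact ⟨fun _ => mem_univ v, fun _ h => absurd h hz⟩
  have hM' : Md L B' {z | z ∈ m z} := by
    refine h1 L U κ R o hC B' hB'f m ?_ ?_
    · intro z
      by_cases hz : z ∈ P'
      · rw [hm1 z hz]
        exact ⟨INN_el hC hM.1 t, image_mono hM.2⟩
      · rw [hm2 z hz]
        exact ⟨fun s _ hne => by rwa [inter_univ], subset_univ _⟩
    · intro z v hv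
      by_cases hz : z ∈ P'
      · rw [hm1 z hz, hm1 v (pc_sub hcP' hz hv)]
      · have hv' : v ∉ P' := by
          intro h
          have h7 : z ∈ Pc L R o B' v := by rw [pc_eq hv]; exact mem_pc B' z
          exact hz (pc_sub hcP' h h7)
        rw [hm2 z hz, hm2 v hv']
  set M' : Set U := {z | z ∈ m z} with hM'def
  have hMB : Md L B M' := by
    refine ⟨hM'.1, fun b hb => ?_⟩
    rcases hb with rfl | hb
    · show b ∈ m b
      rw [hm2 b hxP]
      exact mem_univ b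
    · exact hM'.2 (hAB' hb)
  obtain ⟨-, -, fai3, -⟩ := h6 L U κ R o hC B E sg hO
  obtain ⟨-, ord2, ord3, -⟩ := h5 L U κ R o hC B E sg hO
  obtain ⟨-, -, -, smb4, -⟩ := h2 L U κ R o hC
  have hxI : t x ∈ Itv L R o B E sg M' (t x) (t x) :=
    ⟨hM'.2 hxB', hxE, ord2 (t x) hxE true, ord2 (t x) hxE true⟩
  obtain ⟨z, hz, hS⟩ := h3 L U κ R o hC hNP B E sg hO M' (t x) hMB (hM'.2 hxB') hxE
  obtain ⟨g, hg, hgw, hS2⟩ := INN_pt hS hxI
  have hB'sub : B' ⊆ insert (t x) B := by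
    rintro _ ⟨b, hb, rfl⟩
    rcases hb with rfl | hb
    · exact mem_insert _ _
    · rw [htA b hb]
      exact mem_insert_of_mem _ (mem_insert_of_mem _ hb)
  have hS3 := smb4 (insert (t x) B) _ _ P' (fun k hk v => by
    exact cls_fx hC hB'f hcP' (fx_mono hB'sub hk) v) hS2
  have e1 : Itv L R o B E sg M' (t x) (t x) ∩ P' = t '' (M ∩ P) := by
    ext v
    constructor
    · rintro ⟨⟨hv1, -⟩, hv2⟩
      have h7 : v ∈ m v := hv1
      rw [hm1 v hv2] at h7
      obtain ⟨a, ha, rfl⟩ := h7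
      obtain ⟨b, hb, hab⟩ := hv2
      have h8 : b = a := t.injective hab
      subst h8
      exact ⟨b, ⟨ha, hb⟩, rfl⟩
    · rintro ⟨a, ⟨ha, haP⟩, rfl⟩
      have h8 : t a ∈ P' := ⟨a, haP, rfl⟩
      refine ⟨⟨?_, (hP a haP).1, (hP a haP).2.2, (hP a haP).2.1⟩, h8⟩
      show t a ∈ m (t a)
      rw [hm1 (t a) h8]
      exact ⟨a, ha, rfl⟩
  have e2 : (g.symm '' Itv L R o B E sg univ z z) ∩ P' = P' := by
    refine inter_eq_right.2 ?_
    rintro _ ⟨a, haP, rfl⟩
    obtain ⟨haE, hn1, hn2⟩ := hP a haP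
    refine ⟨g (t a), ?_, g.symm_apply_apply _⟩
    have hgaE : g (t a) ∈ E := ((fai3 g hg).1 (t a)).2 haE
    have hgxE : g (t x) ∈ E := hgw.2.1
    have hn3 : ¬ Ll L R o B sg (g (t x)) (g (t a)) := fun h =>
      hn1 (((fai3 g hg).2 (t x) hxE (t a) haE true).1 h)
    have hn4 : ¬ Ll L R o B sg (g (t a)) (g (t x)) := fun h =>
      hn2 (((fai3 g hg).2 (t a) haE (t x) hxE true).1 h)
    refine ⟨mem_univ _, hgaE, fun h => ?_, fun h => ?_⟩
    · rcases ord3 (g (t a)) hgaE z hz h (g (t x)) hgxE with h7 | h7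
      · exact hn4 h7
      · exact hgw.2.2.1 h7
    · rcases ord3 z hz (g (t a)) hgaE h (g (t x)) hgxE with h7 | h7
      · exact hgw.2.2.2 h7
      · exact hn3 h7
  rw [e1, e2] at hS3
  have hS4 := INN_img t.symm (INN_mono hB'sub hS3)
  rw [INN_symm_img, INN_symm_img, hP', INN_symm_img] at hS4
  exact hS4

end Pool.Agent.PMC
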