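import Pool.Agent.PMC.StC
import Mathlib.Data.Prod.Lex
import Mathlib.Order.WithBot

/-!
PMC: insertion of copies of an interval of a model (helper62): `St_INS`.
-/

set_option autoImplicit false
set_option linter.unusedVariables false

namespace Pool.Agent.PMC

open FirstOrder.Language Set
open scoped FirstOrder
open Pool.Agent.WOM (tp Mon IsEl IsoM CtU Fx Orb)

namespace InsProof

section order

variable {O : Type} [LinearOrder O] {U : Type} {E : Set U} {c : ℚ → U}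

/-- the order of the indices, with one additional first element -/
abbrev W (O : Type) : Type := WithBot O ×ₗ WithBot ℚ

/-- the first element -/
def w0 : W O := toLex (⊥, ⊥)

/-- the rational points -/
def rat (a : WithBot O) (r : ℚ) : W O := toLex (a, (r : WithBot ℚ))

theorem above_bot (hc : ∀ z ∈ E, ∀ a b : ℚ, a < b → ∃ q, a < q ∧ q < b ∧ c q = z)
    {z : U} (hz : z ∈ E) (β : WithBot ℚ) : ∃ r : ℚ, c r = z ∧ β < (r : WithBot ℚ) := by
  induction β using WithBot.recBotCoe with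
  | bot =>
    obtain ⟨r, _, _, hr⟩ := hc z hz 0 1 (by norm_num)
    exact ⟨r, hr, WithBot.bot_lt_coe r⟩
  | coe b =>
    obtain ⟨r, h1, _, hr⟩ := hc z hz b (b + 1) (by linarith)
    exact ⟨r, hr, WithBot.coe_lt_coe.2 h1⟩

theorem between_bot (hc : ∀ z ∈ E, ∀ a b : ℚ, a < b → ∃ q, a < q ∧ q < b ∧ c q = z)
    {z : U} (hz : z ∈ E) (β β' : WithBot ℚ) (h : β < β') :
    ∃ r : ℚ, c r = z ∧ β < (r : WithBot ℚ) ∧ (r : WithBot ℚ) < β' := by
  induction β' using WithBot.recBotCoe with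
  | bot => exact absurd h (not_lt_bot)
  | coe b' =>
    induction β using WithBot.recBotCoe with
    | bot =>
      obtain ⟨r, _, h2, hr⟩ := hc z hz (b' - 1) b' (by linarith)
      exact ⟨r, hr, WithBot.bot_lt_coe r, WithBot.coe_lt_coe.2 h2⟩
    | coe b =>
      obtain ⟨r, h1, h2, hr⟩ := hc z hz b b' (WithBot.coe_lt_coe.1 h)
      exact ⟨r, hr, WithBot.coe_lt_coe.2 h1, WithBot.coe_lt_coe.2 h2⟩

theorem above_rat (hc : ∀ z ∈ E, ∀ a b : ℚ, a < b → ∃ q, a < q ∧ q < b ∧ c q = z)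
    {z : U} (hz : z ∈ E) (d : W O) : ∃ (a : WithBot O) (r : ℚ), c r = z ∧ d < rat a r := by
  obtain ⟨r, h1, h2⟩ := above_bot hc hz (ofLex d).2
  exact ⟨(ofLex d).1, r, h1, (Prod.Lex.lt_iff).2 (Or.inr ⟨rfl, h2⟩)⟩

theorem between_rat (hc : ∀ z ∈ E, ∀ a b : ℚ, a < b → ∃ q, a < q ∧ q < b ∧ c q = z)
    {z : U} (hz : z ∈ E) (d d' : W O) (h : d < d') :
    ∃ (a : WithBot O) (r : ℚ), c r = z ∧ d < rat a r ∧ rat a r < d' := by
  rcases (Prod.Lex.lt_iff).1 h with h | ⟨h, h'⟩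
  · obtain ⟨r, h1, h2⟩ := above_bot hc hz (ofLex d).2
    exact ⟨(ofLex d).1, r, h1, (Prod.Lex.lt_iff).2 (Or.inr ⟨rfl, h2⟩),
      (Prod.Lex.lt_iff).2 (Or.inl h)⟩
  · obtain ⟨r, h1, h2, h3⟩ := between_bot hc hz _ _ h'
    exact ⟨(ofLex d).1, r, h1, (Prod.Lex.lt_iff).2 (Or.inr ⟨rfl, h2⟩),
      (Prod.Lex.lt_iff).2 (Or.inr ⟨h, h3⟩)⟩

theorem w0_lt (d : W O) (h : d ≠ w0) : w0 < d := by
  rcases lt_trichotomy w0 d with h1 | h1 | h1
  · exact h1
  · exact absurd h1.symm h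
  · exfalso
    rcases (Prod.Lex.lt_iff).1 h1 with h2 | ⟨_, h2⟩
    · exact absurd h2 not_lt_bot
    · exact absurd h2 not_lt_bot

omit [LinearOrder O] in
theorem rat_ne (a : WithBot O) (r : ℚ) : (rat a r : W O) ≠ w0 := by
  intro h
  have h1 : (ofLex (rat a r : W O)).2 = (ofLex (w0 : W O)).2 := by rw [h]
  exact WithBot.coe_ne_bot h1

/-- the model of an index -/
def mo (M : Set U) (β : WithBot ℚ) : Set U :=
  WithBot.recBotCoe (C := fun _ => Set U) M (fun _ => univ) β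

/-- the point of an index -/
def po (p : U) (c : ℚ → U) (β : WithBot ℚ) : U := WithBot.recBotCoe (C := fun _ => U) p c β

theorem po_mem {p : U} (hp : p ∈ E) (hc : ∀ r, c r ∈ E) (β : WithBot ℚ) : po p c β ∈ E := by
  induction β using WithBot.recBotCoe with
  | bot => exact hp
  | coe r => exact hc r

theorem po_mo {M : Set U} {p : U} (hp : p ∈ M) (β : WithBot ℚ) : po p c β ∈ mo M β := by
  induction β using WithBot.recBotCoe with
  | bot => exact hp
  | coe r => exact mem_univ _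

theorem po_lt {lt : U → U → Prop} {p q : U} (h : ¬ lt q p) (hc : ∀ r, ¬ lt (c r) (c r))
    (β : WithBot ℚ) : ¬ lt (po q c β) (po p c β) := by
  induction β using WithBot.recBotCoe with
  | bot => exact h
  | coe r => exact hc r

end order

end InsProof

open InsProof in
theorem thm_INS (h1 : St_DNF) (h2 : St_PLC) (h3 : St_SUM) (h4 : St_ORD) (h5 : St_FAI) :
    St_INS := by
  intro L U _ κ R o hC A E sg hO M p q hM hpM hpE hqM hqE hqp O _ _
  obtain ⟨_, _, fInv, _, _, _, _, _⟩ := h5 L U κ R o hC A E sg hO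
  obtain ⟨_, oIrr, oCmp, oTr, _, _⟩ := h4 L U κ R o hC A E sg hO
  have irr : ∀ w ∈ E, ¬ Ll L R o A sg w w := fun w hw => oIrr w hw true
  have invE : ∀ g : U ≃[L] U, Fx L A g → ∀ x, g x ∈ E ↔ x ∈ E := fun g hg => (fInv g hg).1
  have inv : ∀ g : U ≃[L] U, Fx L A g → ∀ w ∈ E, ∀ z ∈ E,
      (Ll L R o A sg (g w) (g z) ↔ Ll L R o A sg w z) :=
    fun g hg w hw z hz => (fInv g hg).2 w hw z hz true
  have := hC.mon.ctb
  obtain ⟨c, hcE, hc⟩ := h1 U E (Set.to_countable E) hO.ne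
  have : Countable (WithBot O) := inferInstanceAs (Countable (Option O))
  have : Countable (WithBot ℚ) := inferInstanceAs (Countable (Option ℚ))
  have : Countable (W O) := inferInstanceAs (Countable (WithBot O × WithBot ℚ))
  let D := {d : W O // d ≠ w0}
  let s2 : D → WithBot ℚ := fun d => (ofLex d.1).2
  let mm : D → Set U := fun d => mo M (s2 d)
  let pp : D → U := fun d => po p c (s2 d)
  let qq : D → U := fun d => po q c (s2 d)
  have hpp : ∀ d, pp d ∈ E := fun d => po_mem hpE hcE _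
  have hqq : ∀ d, qq d ∈ E := fun d => po_mem hqE hcE _
  have hqp' : ∀ d, ¬ Ll L R o A sg (qq d) (pp d) := fun d =>
    po_lt hqp (fun r => irr _ (hcE r)) _
  obtain ⟨g, hg, hlt⟩ := h2 L U κ R o hC A E sg hO D pp qq hpp hqq hqp'
  let P : D → Set U := fun d => (g d) '' Itv L R o A E sg (mm d) (pp d) (qq d)
  have hPE : ∀ d, ∀ x ∈ P d, x ∈ E := by
    rintro d _ ⟨x, hx, rfl⟩
    exact (invE _ (hg d) x).2 hx.2.1
  have hPp : ∀ d, ∀ x ∈ P d, ¬ Ll L R o A sg x (g d (pp d)) := by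
    rintro d _ ⟨x, hx, rfl⟩ h
    exact hx.2.2.1 ((inv _ (hg d) x hx.2.1 _ (hpp d)).1 h)
  have hPq : ∀ d, ∀ x ∈ P d, ¬ Ll L R o A sg (g d (qq d)) x := by
    rintro d _ ⟨x, hx, rfl⟩ h
    exact hx.2.2.2 ((inv _ (hg d) _ (hqq d) x hx.2.1).1 h)
  have hgp : ∀ d, g d (pp d) ∈ E := fun d => (invE _ (hg d) _).2 (hpp d)
  have hgq : ∀ d, g d (qq d) ∈ E := fun d => (invE _ (hg d) _).2 (hqq d)
  have hPlt : ∀ d d', d < d' → ∀ x ∈ P d, ∀ y ∈ P d', Ll L R o A sg x y := by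
    intro d d' hd x hx y hy
    have e1 : Ll L R o A sg x (g d' (pp d')) := by
      rcases oCmp _ (hgq d) _ (hgp d') (hlt d d' hd) x (hPE d x hx) with h | h
      · exact absurd h (hPq d x hx)
      · exact h
    rcases oCmp _ (hPE d x hx) _ (hgp d') e1 y (hPE d' y hy) with h | h
    · exact h
    · exact absurd h (hPp d' y hy)
  -- the indices
  have hia : ∀ a : O, (toLex ((a : WithBot O), (⊥ : WithBot ℚ)) : W O) ≠ w0 := by
    intro a h
    have h' : (ofLex (toLex ((a : WithBot O), (⊥ : WithBot ℚ)) : W O)).1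
        = (ofLex (w0 : W O)).1 := by rw [h]
    exact WithBot.coe_ne_bot h'
  let ia : O → D := fun a => ⟨toLex ((a : WithBot O), (⊥ : WithBot ℚ)), hia a⟩
  let ra : WithBot O → ℚ → D := fun a r => ⟨rat a r, rat_ne a r⟩
  have ia_of : ∀ d : D, s2 d = ⊥ → ∃ a, d = ia a := by
    rintro ⟨d, hd⟩ h
    have h' : (ofLex d).2 = ⊥ := h
    rcases hα : (ofLex d).1 with _ | a
    · exfalso
      apply hd
      show d = toLex (⊥, ⊥)
      have : ofLex d = (⊥, ⊥) := Prod.ext hα h'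
      rw [← this]
      rfl
    · refine ⟨a, Subtype.ext ?_⟩
      have : ofLex d = ((a : WithBot O), ⊥) := Prod.ext hα h'
      show d = toLex ((a : WithBot O), ⊥)
      rw [← this]
      rfl
  have ia_lt : ∀ a a', a < a' → ia a < ia a' := by
    intro a a' h
    exact (Prod.Lex.lt_iff).2 (Or.inl (WithBot.coe_lt_coe.2 h))
  have ia_ne : ∀ a (d : D), s2 d ≠ ⊥ → d ≠ ia a := by
    rintro a d hd rfl
    exact hd rfl
  have ra_ne : ∀ a r, s2 (ra a r) ≠ ⊥ := fun a r => WithBot.coe_ne_bot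
  have ra_mem : ∀ a r, g (ra a r) (c r) ∈ P (ra a r) := by
    intro a r
    exact ⟨c r, ⟨mem_univ _, hcE r, irr _ (hcE r), irr _ (hcE r)⟩, rfl⟩
  have btw : ∀ d d' : D, d < d' → ∀ z ∈ E, ∃ (a : WithBot O) (r : ℚ), c r = z ∧ d < ra a r ∧
      ra a r < d' := by
    intro d d' h z hz
    obtain ⟨a, r, e1, e2, e3⟩ := between_rat hc hz d.1 d'.1 h
    exact ⟨a, r, e1, e2, e3⟩
  have abv : ∀ d : D, ∀ z ∈ E, ∃ (a : WithBot O) (r : ℚ), c r = z ∧ d < ra a r := by
    intro d z hz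
    obtain ⟨a, r, e1, e2⟩ := above_rat hc hz d.1
    exact ⟨a, r, e1, e2⟩
  have blw : ∀ d : D, ∀ z ∈ E, ∃ (a : WithBot O) (r : ℚ), c r = z ∧ ra a r < d := by
    intro d z hz
    obtain ⟨a, r, e1, _, e3⟩ := between_rat hc hz w0 d.1 (w0_lt d.1 d.2)
    exact ⟨a, r, e1, e3⟩
  let X0 : Set U := {x | x ∉ E ∨ ∃ d, s2 d ≠ ⊥ ∧ x ∈ P d}
  have hX0 : ∀ x ∈ X0, x ∈ E → ∃ d, s2 d ≠ ⊥ ∧ x ∈ P d := by
    rintro x (h | h) hx
    · exact absurd hx h
    · exact h
  -- points of a rational index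
  have hcl : ∀ d, s2 d ≠ ⊥ → mm d = univ ∧ qq d = pp d := by
    intro d hd
    show mo M (s2 d) = univ ∧ po q c (s2 d) = po p c (s2 d)
    rcases hβ : s2 d with _ | r
    · exact absurd hβ hd
    · exact ⟨rfl, rfl⟩
  refine ⟨X0, fun a => g (ia a), fun a => hg _, fun x hx => Or.inl hx, ?_, ?_, ?_, ?_, ?_, ?_⟩
  · intro S
    let D' := {d : D // ∀ a, d = ia a → a ∈ S}
    let rb : WithBot O → ℚ → D' := fun a r => ⟨ra a r, fun b hb => absurd hb (ia_ne b _ (ra_ne a r))⟩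
    have key := h3 L U κ R o hC A E sg hO D' {d | s2 d.1 ≠ ⊥} (fun d => mm d.1)
      (fun d => pp d.1) (fun d => qq d.1) (fun d => g d.1) (fun d => hg _) ?_ ?_ ?_ ?_ ?_
    · have : (X0 ∪ ⋃ a ∈ S, (g (ia a)) '' Itv L R o A E sg M p q) =
          Eᶜ ∪ ⋃ d : D', (g d.1) '' Itv L R o A E sg (mm d.1) (pp d.1) (qq d.1) := by
        ext x
        constructor
        · rintro ((h | ⟨d, hd, hx⟩) | h)
          · exact Or.inl h
          · exact Or.inr (mem_iUnion.2 ⟨⟨d, fun b hb => absurd hb (ia_ne b _ hd)⟩, hx⟩)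
          · obtain ⟨a, ha, hx⟩ := mem_iUnion₂.1 h
            refine Or.inr (mem_iUnion.2 ⟨⟨ia a, fun b hb => ?_⟩, hx⟩)
            have e1 : (ofLex (ia a).1).1 = (ofLex (ia b).1).1 := by rw [hb]
            have e2 : a = b := WithBot.coe_injective e1
            rw [← e2]
            exact ha
        · rintro (h | h)
          · exact Or.inl (Or.inl h)
          · obtain ⟨⟨d, hd⟩, hx⟩ := mem_iUnion.1 h
            by_cases hb : s2 d = ⊥
            · obtain ⟨a, rfl⟩ := ia_of d hb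
              exact Or.inr (mem_iUnion₂.2 ⟨a, hd a rfl, hx⟩)
            · exact Or.inl (Or.inr ⟨d, hb, hx⟩)
      rw [this]
      exact key
    · intro d
      by_cases hb : s2 d.1 = ⊥
      · obtain ⟨a, ha⟩ := ia_of d.1 hb
        have e1 : mm d.1 = M := by rw [ha]; rfl
        show Md L A (mm d.1)
        rw [e1]
        exact hM
      · show Md L A (mm d.1)
        rw [(hcl d.1 hb).1]
        refine ⟨fun s _ hs => ?_, subset_univ _⟩
        rw [inter_univ]
        exact hs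
    · exact fun d => ⟨po_mo hpM _, hpp _⟩
    · exact fun d => ⟨po_mo hqM _, hqq _⟩
    · exact fun d d' h => hlt d.1 d'.1 h
    · intro x hx
      refine ⟨?_, ?_, ?_, ?_⟩
      · obtain ⟨r, e1, _⟩ := above_bot hc hx ⊥
        refine ⟨rb ⊥ r, ra_ne _ _, g (ra ⊥ r), hg _, ?_⟩
        rw [← e1]
        exact ra_mem ⊥ r
      · intro d
        obtain ⟨a, r, e1, e2⟩ := blw d.1 x hx
        refine ⟨rb a r, ra_ne _ _, e2, g (ra a r), hg _, ?_⟩
        rw [← e1]
        exact ra_mem a r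
      · intro d
        obtain ⟨a, r, e1, e2⟩ := abv d.1 x hx
        refine ⟨rb a r, ra_ne _ _, e2, g (ra a r), hg _, ?_⟩
        rw [← e1]
        exact ra_mem a r
      · intro d d' h
        obtain ⟨a, r, e1, e2, e3⟩ := btw d.1 d'.1 h x hx
        refine ⟨rb a r, ra_ne _ _, e2, e3, g (ra a r), hg _, ?_⟩
        rw [← e1]
        exact ra_mem a r
  · intro a x hx hx0
    have hxa : x ∈ P (ia a) := hx
    obtain ⟨d, hd, hxd⟩ := hX0 x hx0 (hPE _ x hxa)
    rcases lt_trichotomy d (ia a) with h | h | h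
    · exact irr x (hPE _ x hxa) (hPlt d _ h x hxd x hxa)
    · exact ia_ne a d hd h
    · exact irr x (hPE _ x hxa) (hPlt _ d h x hxa x hxd)
  · intro a a' h x hx y hy
    exact hPlt (ia a) (ia a') (ia_lt a a' h) x hx y hy
  · intro x hx0 hx a
    obtain ⟨d, hd, hxd⟩ := hX0 x hx0 hx
    rcases lt_trichotomy d (ia a) with h | h | h
    · exact Or.inl fun y hy => hPlt d _ h x hxd y hy
    · exact absurd h (ia_ne a d hd)
    · exact Or.inr fun y hy => hPlt _ d h y hy x hxd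
  · intro x hx0 hx y hy hxy hyx
    obtain ⟨d, hd, hxd⟩ := hX0 x hx0 hx
    refine Or.inr ⟨d, hd, ?_⟩
    obtain ⟨e1, e2⟩ := hcl d hd
    have f1 : ¬ Ll L R o A sg y (g d (pp d)) := by
      intro h
      rcases oCmp _ hy _ (hgp d) h x hx with h' | h'
      · exact hyx h'
      · exact hPp d x hxd h'
    have f2 : ¬ Ll L R o A sg (g d (qq d)) y := by
      intro h
      rcases oCmp _ (hgq d) _ hy h x hx with h' | h'
      · exact hPq d x hxd h'
      · exact hxy h'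
    have e3 : g d ((g d).symm y) = y := (g d).apply_symm_apply y
    have hy' : (g d).symm y ∈ E := by
      rw [← invE _ (hg d), e3]
      exact hy
    refine ⟨(g d).symm y, ⟨?_, hy', ?_, ?_⟩, e3⟩
    · rw [e1]
      exact mem_univ _
    · rw [← inv _ (hg d) _ hy' _ (hpp d), e3]
      exact f1
    · rw [← inv _ (hg d) _ (hqq d) _ hy', e3]
      exact f2
  · intro x hx y hy hx0 hy0 hxy hno z hz
    have idx : ∀ x ∈ E, (x ∈ X0 ∨ ∃ a, x ∈ (g (ia a)) '' Itv L R o A E sg M p q) →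
        ∃ d, x ∈ P d := by
      rintro x hx (h | ⟨a, ha⟩)
      · obtain ⟨d, _, hd⟩ := hX0 x h hx
        exact ⟨d, hd⟩
      · exact ⟨ia a, ha⟩
    obtain ⟨d, hd⟩ := idx x hx hx0
    obtain ⟨d', hd'⟩ := idx y hy hy0
    rcases lt_trichotomy d d' with h | h | h
    · obtain ⟨a, r, e1, e2, e3⟩ := btw d d' h z hz
      have e4 := ra_mem a r
      rw [e1] at e4
      exact ⟨g (ra a r), hg _, Or.inr ⟨_, ra_ne a r, e4⟩, hPlt _ _ e2 x hd _ e4,
        hPlt _ _ e3 _ e4 y hd'⟩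
    · exfalso
      subst h
      by_cases hb : s2 d = ⊥
      · obtain ⟨a, rfl⟩ := ia_of d hb
        exact hno ⟨a, hd, hd'⟩
      · obtain ⟨e1, e2⟩ := hcl d hb
        rcases oCmp _ hx _ hy hxy _ (hgp d) with h' | h'
        · exact hPp d x hd h'
        · apply hPq d y hd'
          rw [e2]
          exact h'
    · exact absurd (oTr _ hx _ hy _ hx hxy (hPlt _ _ h y hd' x hd)) (irr x hx)

end Pool.Agent.PMC
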