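import Pool.Agent.PMC.StA
import Pool.Agent.PMC.Base

/-!
PMC: parameters outside a piece (helper50).
-/

set_option autoImplicit false
set_option linter.unusedVariables false

namespace Pool.Agent.PMC

open FirstOrder.Language Set
open scoped FirstOrder
open Pool.Agent.WOM (tp Mon IsEl IsoM CtU Fx Orb)

theorem thm_LOC (hPRD : St_PRD) : St_LOC := by
  intro L U _ κ R o hC A B Q hAB hB hQ hdis
  have hA : A.Finite := hB.subset hAB
  have hnc : ∀ z ∈ Q, ∀ j, ¬ Ct L R o B j (cel L R o A j z) := by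
    rintro z hz j ⟨C, hCB, hS⟩
    have hKQ : cel L R o A j z ⊆ Q :=
      (cel_sub_pc hC hA j z).trans (pc_sub hQ hz)
    have hdef : A.Definable₁ L C := by
      refine def_of_fix hC.mon hA hB hCB.1 ?_
      intro g hg x hx
      obtain ⟨h, hh, h1, h2⟩ := hPRD L U κ R o hC A Q hA hQ g hg
      have hhB : Fx L B h := by
        intro b hb
        exact h2 b (fun hbQ => Set.disjoint_left.1 hdis hbQ hb)
      have hCC : h '' C = C := dc_fix hCB hhB
      by_cases hxK : x ∈ cel L R o A j z
      · rw [← h1 x (hKQ hxK)]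
        rw [← hCC]
        exact Set.mem_image_of_mem _ hx
      · obtain ⟨⟨p, hpK, hpC⟩, q, hqK, hqC⟩ := hS
        -- `x` is below `p`
        have hxq : ¬ R (o j) q x := fun hr => hqC (hCB.2 x hx q hr)
        have hxp : R (o j) x p := by
          by_contra hcon
          exact hxK (cel_conv hC hpK hqK hcon hxq)
        have hgxK : g x ∉ cel L R o A j z := by
          rw [fx_mem_cel hC j x z hg]
          exact hxK
        have hgpK : g p ∈ cel L R o A j z := (fx_mem_cel hC j p z hg).2 hpK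
        have hgxp : R (o j) (g x) (g p) := (R_img hC (o j) x p g).2 hxp
        have hgx : R (o j) (g x) p := by
          by_contra hcon
          exact hgxK (cel_conv hC hpK hgpK hcon (asymm' hC j hgxp))
        exact hCB.2 p hpC _ hgx
    exact not_sin_cel ⟨hdef, hCB.2⟩ z hS
  have hcel : ∀ z ∈ Q, ∀ j, cel L R o B j z = cel L R o A j z :=
    fun z hz j => cel_of_not_ct hC hAB (hnc z hz j)
  have hgen : ∀ a b, Relation.EqvGen (Lk L R o A) a b →
      (a ∈ Q ↔ b ∈ Q) ∧ (a ∈ Q → Relation.EqvGen (Lk L R o B) a b) := by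
    intro a b hab
    induction hab with
    | rel a b h =>
      refine ⟨hQ a b h, fun ha => Relation.EqvGen.rel _ _ ?_⟩
      have hb : b ∈ Q := (hQ a b h).1 ha
      obtain ⟨j, hj⟩ := h
      refine ⟨j, ?_⟩
      rw [hcel b hb j]
      exact hj
    | refl a => exact ⟨Iff.rfl, fun _ => Relation.EqvGen.refl a⟩
    | symm a b _ ih => exact ⟨ih.1.symm, fun hb => (ih.2 (ih.1.2 hb)).symm⟩
    | trans a b c _ _ ih1 ih2 =>
      exact ⟨ih1.1.trans ih2.1, fun ha => (ih1.2 ha).trans _ _ _ (ih2.2 (ih1.1.1 ha))⟩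
  intro z hz
  refine ⟨hcel z hz, Set.Subset.antisymm (pc_anti hAB z) ?_⟩
  intro y hy
  exact (hgen z y hy).2 hz

end Pool.Agent.PMC
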