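import Pool.Agent.PMC.StA
import Pool.Agent.PMC.Base

/-!
PMC: [MKO] extreme pieces are good, with the orientation outwards.
-/

set_option autoImplicit false
set_option linter.unusedVariables false

namespace Pool.Agent.PMC

open FirstOrder.Language Set
open scoped FirstOrder
open Pool.Agent.WOM (tp Mon IsEl IsoM CtU Fx Orb)

section

variable {L : FirstOrder.Language.{0, 0}} {U : Type} [L.Structure U] {κ : Type}
  {R : κ → U → U → Prop} {o : κ → κ}

/-- extreme segments are invariant -/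
private theorem MKO_ext (hC : Cx L R o) {A B : Set U} (hAB : A ⊆ B) {j : κ} {z : U} {b : Bool}
    {g : U ≃[L] U} (hg : Fx L B g) {v : U} (hv : v ∈ ext L R o b B j (cel L R o A j z)) :
    g v ∈ ext L R o b B j (cel L R o A j z) :=
  ⟨(fx_mem_cel hC j v z (fx_mono hAB hg)).2 hv.1, fun C hD hS =>
    (def_mem hD.1 hg v).trans (hv.2 C hD hS)⟩

/-- `x` in the cut, `y` not in the cut -/
private theorem MKO_lt (hC : Cx L R o) {j : κ} {C : Set U} (hI : Ini R o j C) {x y : U}
    (hx : x ∈ C) (hy : y ∉ C) : R (o j) x y := by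
  have hne : x ≠ y := fun h => hy (h ▸ hx)
  rcases hC.tot j x y hne with h | h
  · exact h
  · exact absurd (hI x hx y h) hy

/-- the inner extreme segment is bounded in the cell over `A` -/
private theorem MKO_bd (hC : Cx L R o) {A B B' : Set U} {j : κ} {z : U} {t : Bool}
    (hJ : cel L R o B j z = ext L R o t B j (cel L R o A j z))
    (h1 : Ct L R o B j (cel L R o A j z)) (h2 : Ct L R o B' j (cel L R o B j z)) :
    ∃ c ∈ cel L R o A j z, ∃ c' ∈ cel L R o A j z,
      ∀ v ∈ ext L R o (!t) B' j (cel L R o B j z), R (o j) c v ∧ R (o j) v c' := by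
  obtain ⟨C0, hD0, hS0⟩ := h1
  obtain ⟨C, hD, hS⟩ := h2
  have hS' := hS
  have hS0' := hS0
  obtain ⟨⟨x0, hx0, hx0'⟩, ⟨y0, hy0, hy0'⟩⟩ := hS0
  obtain ⟨⟨x, hx, hx'⟩, ⟨y, hy, hy'⟩⟩ := hS
  cases t
  · refine ⟨x, ?_, y0, hy0, ?_⟩
    · rw [hJ] at hx
      exact hx.1
    · intro v hv
      have hvJ : v ∈ ext L R o false B j (cel L R o A j z) := by
        rw [← hJ]
        exact hv.1
      refine ⟨MKO_lt hC hD.2 hx' ?_, MKO_lt hC hD0.2 ?_ hy0'⟩
      · intro hvC
        exact Bool.noConfusion ((hv.2 C hD hS').1 hvC)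
      · exact (hvJ.2 C0 hD0 hS0').2 rfl
  · refine ⟨x0, hx0, y, ?_, ?_⟩
    · rw [hJ] at hy
      exact hy.1
    · intro v hv
      have hvJ : v ∈ ext L R o true B j (cel L R o A j z) := by
        rw [← hJ]
        exact hv.1
      refine ⟨MKO_lt hC hD0.2 hx0' ?_, MKO_lt hC hD.2 ?_ hy'⟩
      · intro hvC
        exact Bool.noConfusion ((hvJ.2 C0 hD0 hS0').1 hvC)
      · exact (hv.2 C hD hS').2 rfl

/-- cuts and elements go in the same direction -/
private theorem MKO_key (hAT : St_AT) (hEXB : St_EXB) (hC : Cx L R o) {A B B' : Set U}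
    (hAB : A ⊆ B) (hBB : B ⊆ B') (hB' : B'.Finite) {i j : κ} {u z : U} {s t : Bool}
    (huA : Nd L A u) (hzA : Nd L A z) (huB : Nd L B u) (hzB : Nd L B z)
    (hK : cel L R o B i u = ext L R o s B i (cel L R o A i u))
    (hJ : cel L R o B j z = ext L R o t B j (cel L R o A j z))
    (k1 : Ct L R o B i (cel L R o A i u)) (k2 : Ct L R o B' i (cel L R o B i u))
    (j1 : Ct L R o B j (cel L R o A j z)) (j2 : Ct L R o B' j (cel L R o B j z)) (b : Bool)
    (hu : u ∈ ext L R o (s == b) B' i (cel L R o B i u)) :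
    ¬ Sin (ct R j u) (ext L R o (t == !b) B' j (cel L R o B j z)) := by
  intro hS
  have hB : B.Finite := hB'.subset hBB
  have hA : A.Finite := hB.subset hAB
  have hAB' : A ⊆ B' := hAB.trans hBB
  cases b
  · -- (b): `u` inwards, the cut outwards
    have e1 : (s == false) = !s := by cases s <;> rfl
    have e2 : (t == !false) = t := by cases t <;> rfl
    rw [e1] at hu
    rw [e2] at hS
    obtain ⟨p, hp, p', hp', hpp⟩ := MKO_bd hC hK k1 k2
    obtain ⟨-, a2⟩ := hAT L U κ R o hC A i j u z t hA huA hzA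
    obtain ⟨c, hc, hcc⟩ := a2 p hp p' hp'
    have key : ∀ g : U ≃[L] U, Fx L B' g → (c ∈ ct R j (g u) ↔ t = false) := by
      intro g hg
      have hgu := MKO_ext hC hBB hg hu
      obtain ⟨q1, q2⟩ := hpp (g u) hgu
      refine hcc (g u) (fx_cel hC i u (fx_mono hAB' hg)) (asymm' hC i q1) (asymm' hC i q2) ?_
      have h3 : Sin (ct R j u) (cel L R o A j z) := by
        refine sin_mono ?_ hS
        intro v hv
        exact cel_anti hAB j z hv.1
      have h4 := sin_img hC (fx_img_cel hC j z (fx_mono hAB' hg)) h3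
      rwa [img_ct hC] at h4
    obtain ⟨-, -, -, m4, -, -, -⟩ := hEXB L U κ R o hC A B j z t hAB hB hzA
    obtain ⟨v, hv, hcv⟩ := m4 c hc
    rw [← hJ] at hv
    obtain ⟨-, -, -, -, n5, -, -⟩ := hEXB L U κ R o hC B B' j z t hBB hB' hzB
    obtain ⟨⟨y, hy, hyc⟩, ⟨y', hy', hyc'⟩⟩ := hS
    cases t
    · obtain ⟨g, hg, hlt⟩ := n5 y' hy' v hv
      have h3 : c ∈ ct R j (g u) := (key g hg).2 rfl
      have h4 : lts R o false j c (g y') := lts_trans hC false j hcv hlt
      rw [lts_false] at h4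
      exact hyc' ((mem_ct_img hC j u y' g).1 (ini' hC j (g u) c h3 (g y') h4))
    · obtain ⟨g, hg, hlt⟩ := n5 y hy v hv
      have h3 : g y ∈ ct R j (g u) := (mem_ct_img hC j u y g).2 hyc
      have h4 : lts R o true j c (g y) := lts_trans hC true j hcv hlt
      rw [lts_true] at h4
      exact Bool.noConfusion ((key g hg).1 (ini' hC j (g u) (g y) h3 c h4))
  · -- (a): `u` outwards, the cut inwards
    have e1 : (s == true) = s := by cases s <;> rfl
    have e2 : (t == !true) = !t := by cases t <;> rfl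
    rw [e1] at hu
    rw [e2] at hS
    obtain ⟨c, hc, c', hc', hcc⟩ := MKO_bd hC hJ j1 j2
    obtain ⟨a1, -⟩ := hAT L U κ R o hC A i j u z s hA huA hzA
    obtain ⟨p, hp, hpq⟩ := a1 c hc c' hc'
    obtain ⟨-, -, -, m4, -, -, -⟩ := hEXB L U κ R o hC A B i u s hAB hB huA
    obtain ⟨v, hv, hpv⟩ := m4 p hp
    rw [← hK] at hv
    obtain ⟨-, -, -, -, n5, -, -⟩ := hEXB L U κ R o hC B B' i u s hBB hB' huB
    obtain ⟨g, hg, hlt⟩ := n5 u hu v hv
    obtain ⟨⟨y, hy, hyc⟩, ⟨y', hy', hyc'⟩⟩ := hS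
    refine hpq (g u) (fx_cel hC i u (fx_mono hAB' hg)) ?_ ?_ (lts_trans hC s i hpv hlt)
    · have h3 : g y ∈ ct R j (g u) := (mem_ct_img hC j u y g).2 hyc
      exact ini' hC j (g u) (g y) h3 c (hcc (g y) (MKO_ext hC hBB hg hy)).1
    · intro h3
      have h4 := ini' hC j (g u) c' h3 (g y') (hcc (g y') (MKO_ext hC hBB hg hy')).2
      exact hyc' ((mem_ct_img hC j u y' g).1 h4)

/-- exceeding is extremality -/
private theorem MKO_ex {B B' : Set U} {sg : κ → U → Bool} {b : Bool} {w : U} {j : κ} {v : U}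
    (hB' : B' = insert w B) :
    Ex L R o B sg b w j v ↔ v ∈ ext L R o (sg (o j) v == b) B' j (cel L R o B j v) := by
  subst hB'
  have e : ((sg (o j) v == b) = false) ↔ sg (o j) v ≠ b := by
    cases sg (o j) v <;> cases b <;> decide
  constructor
  · intro h
    refine ⟨mem_cel B j v, fun C hD hS => ?_⟩
    rw [e]
    exact h C hD hS
  · intro h C hD hS
    rw [← e]
    exact h.2 C hD hS

end

theorem thm_MKO (hAT : St_AT) (hAG : St_AG) (hEXB : St_EXB) (hAV : St_AV) (hXSP : St_XSP) :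
    St_MKO := by
  intro L U _ κ R o hC A x z0 hA hx hz0 hX0
  obtain ⟨B, hBdef⟩ : ∃ B : Set U, B = insert x A := ⟨_, rfl⟩
  rw [← hBdef] at hX0 ⊢
  have hAB : A ⊆ B := hBdef ▸ subset_insert x A
  have hxB : x ∈ B := hBdef ▸ mem_insert x A
  have hB : B.Finite := hBdef ▸ hA.insert x
  obtain ⟨j0⟩ := hC.ne
  have hEA : Pc L R o B z0 ⊆ Pc L R o A x := by
    intro y hy
    rw [← pc_eq hz0]
    exact pc_anti hAB z0 hy
  have hEX : Pc L R o B z0 ⊆ XS L R o A B := pc_sub (hXSP L U κ R o hC A B hAB hB).2 hX0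
  have hndA : ∀ z ∈ Pc L R o B z0, Nd L A z := fun z hz => (hEX hz).1
  have hcutA : ∀ z ∈ Pc L R o B z0, ∀ j, Ct L R o B j (cel L R o A j z) := fun z hz =>
    hAG L U κ R o hC A B x z hAB hB hxB hx (hEA hz)
  have hoo : ∀ (b : Bool) (j : κ) (z : U), ext L R o b B (o j) (cel L R o A (o j) z) =
      ext L R o b B j (cel L R o A j z) := by
    intro b j z
    rw [cel_oo hC]
    ext v
    constructor
    · rintro ⟨h1, h2⟩
      exact ⟨h1, fun C hD hS => h2 C ((dc_oo hC).2 hD) hS⟩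
    · rintro ⟨h1, h2⟩
      exact ⟨h1, fun C hD hS => h2 C ((dc_oo hC).1 hD) hS⟩
  classical
  obtain ⟨sg, hsgdef⟩ : ∃ sg : κ → U → Bool, ∀ j z,
      sg j z = decide (z ∈ ext L R o true B j (cel L R o A j z)) := ⟨fun j z => decide _, fun _ _ => rfl⟩
  have hsg : ∀ z ∈ Pc L R o B z0, ∀ j, z ∈ ext L R o (sg (o j) z) B j (cel L R o A j z) := by
    intro z hz j
    rw [hsgdef, hoo]
    by_cases h : z ∈ ext L R o true B j (cel L R o A j z)
    · rw [decide_eq_true h]
      exact h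
    · rw [decide_eq_false h]
      obtain ⟨b, hb⟩ := (hEX hz).2 j
      cases b
      · exact hb
      · exact absurd hb h
  have huniq : ∀ z ∈ Pc L R o B z0, ∀ j b, z ∈ ext L R o b B j (cel L R o A j z) →
      b = sg (o j) z := by
    intro z hz j b hb
    by_contra hne
    have hb' : (!b) = sg (o j) z := by
      generalize sg (o j) z = s at hne
      cases b <;> cases s <;> first | rfl | exact absurd rfl hne
    have h1 := hsg z hz j
    rw [← hb'] at h1
    exact (hEXB L U κ R o hC A B j z b hAB hB (hndA z hz)).2.2.2.2.2.2 (hcutA z hz j) z hb h1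
  have hcel : ∀ z ∈ Pc L R o B z0, ∀ j, cel L R o B j z =
      ext L R o (sg (o j) z) B j (cel L R o A j z) := fun z hz j =>
    (hEXB L U κ R o hC A B j z _ hAB hB (hndA z hz)).2.1 z (hsg z hz j)
  have hndB : ∀ z ∈ Pc L R o B z0, Nd L B z := fun z hz =>
    (hEXB L U κ R o hC A B j0 z _ hAB hB (hndA z hz)).2.2.1 z (hsg z hz j0)
  have hcut : ∀ w ∈ Pc L R o B z0, ∀ z ∈ Pc L R o B z0, ∀ j,
      Ct L R o (insert w B) j (cel L R o B j z) := by
    intro w hw z hz
    refine hAG L U κ R o hC B (insert w B) w z (subset_insert w B) (hB.insert w)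
      (mem_insert w B) (hndB w hw) ?_
    rw [pc_eq hw]
    exact hz
  have hcst : ∀ j, ∀ z ∈ Pc L R o B z0, ∀ y ∈ cel L R o B j z, sg (o j) y = sg (o j) z := by
    intro j z hz y hy
    have hyE : y ∈ Pc L R o B z0 := by
      rw [← pc_eq hz]
      exact cel_sub_pc hC hB j z hy
    have hyA : y ∈ cel L R o A j z := cel_anti hAB j z hy
    symm
    refine huniq y hyE j _ ?_
    rw [cel_eq hyA, ← hcel z hz j]
    exact hy
  refine ⟨sg, ⟨hB, ⟨z0, mem_pc B z0⟩, hndB, cls_pc B z0, hcut, hcst, ?_⟩, hsg, hEA⟩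
  intro w hw u hu z hz i j hS b
  obtain ⟨B', hB'def⟩ : ∃ B' : Set U, B' = insert w B := ⟨_, rfl⟩
  have hBB : B ⊆ B' := hB'def ▸ subset_insert w B
  have hB' : B'.Finite := hB'def ▸ hB.insert w
  have hset : {v | v ∈ cel L R o B j z ∧ Ex L R o B sg b w j v} =
      ext L R o (sg (o j) z == b) B' j (cel L R o B j z) := by
    ext v
    constructor
    · rintro ⟨h1, h2⟩
      have h3 := (MKO_ex hB'def).1 h2
      rw [hcst j z hz v h1, cel_eq h1] at h3
      exact h3
    · intro h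
      refine ⟨h.1, (MKO_ex hB'def).2 ?_⟩
      rw [hcst j z hz v h.1, cel_eq h.1]
      exact h
  rw [hset, MKO_ex hB'def]
  have key := fun b' => MKO_key hAT hEXB hC hAB hBB hB' (hndA u hu) (hndA z hz) (hndB u hu)
    (hndB z hz) (hcel u hu i) (hcel z hz j) (hcutA u hu i) (hB'def ▸ hcut w hw u hu i)
    (hcutA z hz j) (hB'def ▸ hcut w hw z hz j) b'
  have hav := hAV L U κ R o hC B B' i j u z hBB hB' (hndB u hu) hS
  have hbool : ∀ (c s b' : Bool), c = (s == b') ∨ c = (s == !b') := by decide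
  constructor
  · intro h
    obtain ⟨c, hc⟩ := hav.1 ⟨_, h⟩
    rcases hbool c (sg (o j) z) b with h1 | h1
    · rw [← h1]
      exact hc
    · exact absurd (h1 ▸ hc) (key b h)
  · intro h
    obtain ⟨c, hc⟩ := hav.2 ⟨_, h⟩
    rcases hbool c (sg (o i) u) b with h1 | h1
    · rw [← h1]
      exact hc
    · rw [h1] at hc
      have h2 := key (!b) hc
      rw [Bool.not_not] at h2
      exact absurd h h2

end Pool.Agent.PMC
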