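import Pool.Agent.PMC.StB
import Pool.Agent.PMC.Base

/-!
PMC, module MVT: moving finite sets (helper19)
-/

set_option autoImplicit false
set_option linter.unusedVariables false

namespace Pool.Agent.PMC

open FirstOrder.Language Set
open scoped FirstOrder
open Pool.Agent.WOM (tp Mon IsEl IsoM CtU Fx Orb)

section mvt

variable {L : FirstOrder.Language.{0, 0}} {U : Type} [L.Structure U] {κ : Type}
  {R : κ → U → U → Prop} {o : κ → κ} {A E : Set U} {sg : κ → U → Bool}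

private theorem MVT_lts (s : Bool) (j : κ) (x y : U) (h : lts R o (!s) j x y) :
    lts R o s j y x := by
  cases s
  · simpa [lts] using h
  · simpa [lts] using h

private theorem MVT_one (hFAI : St_FAI) (hORD : St_ORD) (hBTW : St_BTW) (hTUP : St_TUP)
    (hC : Cx L R o) (hO : Ori L R o A E sg) {D V Z : Set U} (hD : D.Finite) (hV : V.Finite)
    (hZ : Z.Finite) (hDE : D ⊆ E) (hVE : V ⊆ E) (hZE : Z ⊆ E) (hDV : LL L R o A sg D V)
    (hDZ : LL L R o A sg D Z) :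
    ∃ g : U ≃[L] U, Fx L (A ∪ D) g ∧ LL L R o A sg D (g '' Z) ∧ LL L R o A sg (g '' Z) V := by
  obtain ⟨-, -, f3, -, -, -, -, -⟩ := hFAI L U κ R o hC A E sg hO
  obtain ⟨o1, -, -, o4, o5, -⟩ := hORD L U κ R o hC A E sg hO
  obtain ⟨z, hz⟩ := hO.ne
  obtain ⟨j⟩ := hC.ne
  have hKE : cel L R o A j z ⊆ E :=
    (cel_sub_pc hC hO.fin j z).trans (pc_sub hO.clo hz)
  obtain ⟨e, heK, heDZ, -⟩ := hBTW L U κ R o hC A E sg hO (D ∪ Z) ∅ (hD.union hZ) finite_empty
    (union_subset hDE hZE) (empty_subset _) (fun d _ v hv => absurd hv (notMem_empty v)) z hz j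
  obtain ⟨p, hpK, hpD, hpV⟩ := hBTW L U κ R o hC A E sg hO D V hD hV hDE hVE hDV z hz j
  have heD : ∀ d ∈ D, Ll L R o A sg d e := fun d hd => heDZ d (Or.inl hd) e rfl
  -- one cell over `A ∪ D`
  have hcell : ∀ x ∈ cel L R o A j z, (∀ d ∈ D, Ll L R o A sg d x) →
      ∀ y ∈ cel L R o A j z, (∀ d ∈ D, Ll L R o A sg d y) → x ∈ cel L R o (A ∪ D) j y := by
    intro x hx hxD y hy hyD C hCC
    by_cases hS : Sin C (cel L R o A j z)
    · have h1 := hTUP L U κ R o hC A E sg hO D hD hDE z hz j C hCC hS x hx false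
        (fun d hd => (o1 d (hDE hd) x (hKE hx) true).1 (hxD d hd))
      have h2 := hTUP L U κ R o hC A E sg hO D hD hDE z hz j C hCC hS y hy false
        (fun d hd => (o1 d (hDE hd) y (hKE hy) true).1 (hyD d hd))
      exact h1.trans h2.symm
    · constructor
      · intro hxC
        by_contra hyC
        exact hS ⟨⟨x, hx, hxC⟩, ⟨y, hy, hyC⟩⟩
      · intro hyC
        by_contra hxC
        exact hS ⟨⟨y, hy, hyC⟩, ⟨x, hx, hxC⟩⟩
  -- `e` is not definable over `A ∪ D`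
  have hnd : Nd L (A ∪ D) e := by
    by_contra hcon
    obtain ⟨y, hyK, hy⟩ := exists_lts hC hO.fin (hO.nd z hz) heK (sg (o j) z)
    have hyD : ∀ d ∈ D, Ll L R o A sg d y := fun d hd =>
      (o5 z hz j e heK y hyK hy d (hDE hd)).1 (heD d hd)
    have h1 := hcell y hyK hyD e heK heD
    rw [cel_def hC hcon j] at h1
    have h2 : y = e := h1
    rw [h2] at hy
    have h3 : R (o j) e e := by
      have h4 := hy
      unfold lts at h4
      split_ifs at h4
      · exact h4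
      · exact h4
    exact hC.irr j e h3
  obtain ⟨g, hg, hgl⟩ := move hC (hO.fin.union hD) hnd
    (hcell p hpK (fun d hd => hpD d hd p rfl) e heK heD) (mem_cel (A ∪ D) j e) (!sg (o j) z)
  have hgA : Fx L A g := fx_mono subset_union_left hg
  have hgK : g e ∈ cel L R o A j z := (fx_mem_cel hC j e z hgA).2 heK
  obtain ⟨g1, g2⟩ := f3 g hgA
  have hgl' : lts R o (sg (o j) z) j (g e) p := MVT_lts _ j _ _ hgl
  refine ⟨g, hg, ?_, ?_⟩
  · rintro d hd _ ⟨x, hx, rfl⟩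
    have h1 : g d = d := hg d (Or.inr hd)
    have h2 := (g2 d (hDE hd) x (hZE hx) true).2 (hDZ d hd x hx)
    rw [h1] at h2
    exact h2
  · rintro _ ⟨x, hx, rfl⟩ v hv
    have h1 : Ll L R o A sg (g x) (g e) :=
      (g2 x (hZE hx) e (hKE heK) true).2 (heDZ x (Or.inr hx) e rfl)
    have h2 : Ll L R o A sg (g e) v :=
      (o5 z hz j (g e) hgK p hpK hgl' v (hVE hv)).2 (hpV p rfl v hv)
    exact o4 (g x) ((g1 x).2 (hZE hx)) (g e) (hKE hgK) v (hVE hv) h1 h2

/-- [MVT] moving finite sets. -/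
theorem thm_MVT (hFAI : St_FAI) (hORD : St_ORD) (hBTW : St_BTW) (hTUP : St_TUP) : St_MVT := by
  intro L U _ κ R o hC A E sg hO D V Z hD hV hZ hDE hVE hZE hDV
  refine ⟨fun hDZ => MVT_one hFAI hORD hBTW hTUP hC hO hD hV hZ hDE hVE hZE hDV hDZ,
    fun hZV => ?_⟩
  obtain ⟨⟨rev, ex⟩, -, -, -, -, -, -, -⟩ := hFAI L U κ R o hC A E sg hO
  obtain ⟨o1, -, -, -, -, -⟩ := hORD L U κ R o hC A E sg hO
  have key : ∀ w ∈ E, ∀ u ∈ E, Ll L R o A (fun j z => !sg j z) w u ↔ Ll L R o A sg u w := by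
    intro w hw u hu
    have h1 : Ll L R o A (fun j z => !sg j z) w u ↔ Fa L R o A sg false w u :=
      forall_congr' fun j => ex true w j u
    rw [h1]
    exact o1 w hw u hu false
  obtain ⟨g, hg, h1, h2⟩ := MVT_one hFAI hORD hBTW hTUP hC rev (D := V) (V := D) (Z := Z) hV hD hZ
    hVE hDE hZE (fun v hv d hd => (key v (hVE hv) d (hDE hd)).2 (hDV d hd v hv))
    (fun v hv x hx => (key v (hVE hv) x (hZE hx)).2 (hZV x hx v hv))
  obtain ⟨-, -, f3, -, -, -, -, -⟩ := hFAI L U κ R o hC A E sg hO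
  have hgE : ∀ x ∈ Z, g x ∈ E := fun x hx =>
    ((f3 g (fx_mono subset_union_left hg)).1 x).2 (hZE hx)
  refine ⟨g, hg, ?_, ?_⟩
  · rintro d hd _ ⟨x, hx, rfl⟩
    exact (key (g x) (hgE x hx) d (hDE hd)).1 (h2 (g x) ⟨x, hx, rfl⟩ d hd)
  · rintro _ ⟨x, hx, rfl⟩ v hv
    exact (key v (hVE hv) (g x) (hgE x hx)).1 (h1 v hv (g x) ⟨x, hx, rfl⟩)

end mvt

end Pool.Agent.PMC
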