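import Pool.Agent.PMC.StA
import Pool.Agent.PMC.StD
import Pool.Agent.PMC.Base

/-!
PMC: [NRF] only finitely many pieces are not rigid.
-/

set_option autoImplicit false
set_option linter.unusedVariables false

namespace Pool.Agent.PMC

open FirstOrder.Language Set
open scoped FirstOrder
open Pool.Agent.WOM (tp Mon IsEl IsoM CtU Fx Orb)

/-- [NRF] -/
theorem thm_NRF (h1 : St_UNP) (h2 : St_SMB) : St_NRF := by
  classical
  intro L U _ κ R o hC hN A hA
  by_contra hinf
  have hinf' : {Q : Set U | ∃ z, Q = Pc L R o A z ∧ ∃ M, Md L A M ∧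
    ¬ Sm L A (M ∩ Q) Q}.Infinite := hinf
  let q := hinf'.natEmbedding
  have hq : ∀ n, ∃ z M, (q n).1 = Pc L R o A z ∧ Md L A M ∧
      ¬ Sm L A (M ∩ (q n).1) (q n).1 := by
    intro n
    obtain ⟨z, h3, M, h4, h5⟩ := (q n).2
    exact ⟨z, M, h3, h4, h5⟩
  choose z M hz hM hS using hq
  have huniq : ∀ n m y, y ∈ Pc L R o A (z n) → y ∈ Pc L R o A (z m) → n = m := by
    intro n m y hn hm
    apply q.injective
    apply Subtype.ext
    rw [hz, hz, ← pc_eq hn, ← pc_eq hm]
  let mm : (ℕ → Bool) → U → Set U := fun f y =>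
    {v | ∀ n, f n = true → y ∈ Pc L R o A (z n) → v ∈ M n}
  have hmm : ∀ f y, Md L A (mm f y) := by
    intro f y
    by_cases h : ∃ n, f n = true ∧ y ∈ Pc L R o A (z n)
    · obtain ⟨n, h3, h4⟩ := h
      have : mm f y = M n := by
        ext v
        constructor
        · intro hv
          exact hv n h3 h4
        · intro hv m _ h6
          rw [huniq m n y h6 h4]
          exact hv
      rw [this]
      exact hM n
    · have : mm f y = univ := by
        ext v
        refine ⟨fun _ => mem_univ v, fun _ n h3 h4 => absurd ⟨n, h3, h4⟩ h⟩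
      rw [this]
      refine ⟨fun s _ hs => ?_, subset_univ A⟩
      rw [inter_univ]
      exact hs
  have hcst : ∀ f x, ∀ y ∈ Pc L R o A x, mm f y = mm f x := by
    intro f x y hy
    have h3 : ∀ n, y ∈ Pc L R o A (z n) ↔ x ∈ Pc L R o A (z n) := by
      intro n
      constructor
      · intro h
        rw [← pc_eq h, pc_eq hy]
        exact mem_pc A x
      · intro h
        rw [← pc_eq h, ← pc_eq hy]
        exact mem_pc A y
    ext v
    exact forall_congr' fun n => imp_congr Iff.rfl (imp_congr (h3 n) Iff.rfl)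
  obtain ⟨f, f', hff, hSm⟩ := hN A (fun f => {y | y ∈ mm f y}) hA
    (fun f => h1 L U κ R o hC A hA (mm f) (hmm f) (hcst f)) (by
      intro v
      by_cases h : ∃ n, v ∈ Pc L R o A (z n)
      · obtain ⟨n, hn⟩ := h
        have h3 : {f : ℕ → Bool | v ∈ {y | y ∈ mm f y}} =
            (fun f : ℕ → Bool => f n) ⁻¹' {c | c = true → v ∈ M n} := by
          ext f
          constructor
          · intro h4 h5
            exact h4 n h5 hn
          · intro h4 m h5 h6
            have h7 := huniq m n v h6 hn
            subst h7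
            exact h4 h5
        show IsClopen {f : ℕ → Bool | v ∈ {y | y ∈ mm f y}}
        rw [h3]
        exact (isClopen_discrete _).preimage (continuous_apply n)
      · have h3 : {f : ℕ → Bool | v ∈ {y | y ∈ mm f y}} = univ := by
          ext f
          exact ⟨fun _ => mem_univ f, fun _ n _ h5 => absurd ⟨n, h5⟩ h⟩
        show IsClopen {f : ℕ → Bool | v ∈ {y | y ∈ mm f y}}
        rw [h3]
        exact isClopen_univ)
  obtain ⟨n, hn⟩ : ∃ n, f n ≠ f' n := by
    by_contra h
    push Not at h
    exact hff (funext h)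
  obtain ⟨-, hsymm, -, hcap, -⟩ := h2 L U κ R o hC
  have hinv : ∀ g : U ≃[L] U, Fx L A g → ∀ x, g x ∈ Pc L R o A (z n) ↔ x ∈ Pc L R o A (z n) :=
    fun g hg x => cls_fx hC hA (cls_pc A (z n)) hg x
  have ht : ∀ f : ℕ → Bool, f n = true →
      {y | y ∈ mm f y} ∩ Pc L R o A (z n) = M n ∩ Pc L R o A (z n) := by
    intro f hf
    ext y
    constructor
    · rintro ⟨h3, h4⟩
      exact ⟨h3 n hf h4, h4⟩
    · rintro ⟨h3, h4⟩
      refine ⟨fun m _ h6 => ?_, h4⟩
      rw [huniq m n y h6 h4]
      exact h3
  have hfa : ∀ f : ℕ → Bool, f n = false →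
      {y | y ∈ mm f y} ∩ Pc L R o A (z n) = Pc L R o A (z n) := by
    intro f hf
    ext y
    constructor
    · rintro ⟨h3, h4⟩
      exact h4
    · intro h4
      refine ⟨fun m h5 h6 => ?_, h4⟩
      rw [huniq m n y h6 h4, hf] at h5
      exact Bool.noConfusion h5
  have hc := hcap A _ _ _ hinv hSm
  have hSn := hS n
  rw [hz n] at hSn
  rcases hfn : f n with _ | _
  · have hfn' : f' n = true := by
      rcases h : f' n with _ | _
      · exact absurd (hfn.trans h.symm) hn
      · rfl
    rw [hfa f hfn, ht f' hfn'] at hc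
    exact hSn (hsymm A _ _ hc)
  · have hfn' : f' n = false := by
      rcases h : f' n with _ | _
      · rfl
      · exact absurd (hfn.trans h.symm) hn
    rw [ht f hfn, hfa f' hfn'] at hc
    exact hSn hc

end Pool.Agent.PMC
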