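import Pool.Agent.PMC.StC
import Pool.Agent.PMC.Base

/-!
PMC: all labels occur in `U` (helper50).
-/

set_option autoImplicit false
set_option linter.unusedVariables false

namespace Pool.Agent.PMC

open FirstOrder.Language Set
open scoped FirstOrder
open Pool.Agent.WOM (tp Mon IsEl IsoM CtU Fx Orb)

namespace NWLaux

/-- restriction of a bijection as in `Sm` -/
theorem sm_restrict {L : FirstOrder.Language.{0, 0}} {U : Type} [L.Structure U] {A X Y P Q : Set U}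
    (e : X ≃ Y)
    (he : ∀ s : Set X, s.Finite → ∃ g : U ≃[L] U, Fx L A g ∧ ∀ x ∈ s, g x = e x)
    (hP : P ⊆ X) (hQ : Q ⊆ Y) (h : ∀ x : X, (x : U) ∈ P ↔ ((e x : Y) : U) ∈ Q) :
    Sm L A P Q := by
  refine ⟨⟨fun x => ⟨(e ⟨x, hP x.2⟩ : Y), (h _).1 x.2⟩,
    fun y => ⟨(e.symm ⟨y, hQ y.2⟩ : X), (h _).2 (by rw [Equiv.apply_symm_apply]; exact y.2)⟩,
    ?_, ?_⟩, ?_⟩
  · rintro ⟨x, hx⟩
    apply Subtype.ext
    show ((e.symm ⟨(e ⟨x, hP hx⟩ : Y), _⟩ : X) : U) = x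
    have h1 : (⟨((e ⟨x, hP hx⟩ : Y) : U), (e ⟨x, hP hx⟩ : Y).2⟩ : Y) = e ⟨x, hP hx⟩ := rfl
    rw [h1, Equiv.symm_apply_apply]
  · rintro ⟨y, hy⟩
    apply Subtype.ext
    show ((e ⟨(e.symm ⟨y, hQ hy⟩ : X), _⟩ : Y) : U) = y
    have h1 : (⟨((e.symm ⟨y, hQ hy⟩ : X) : U), (e.symm ⟨y, hQ hy⟩ : X).2⟩ : X)
        = e.symm ⟨y, hQ hy⟩ := rfl
    rw [h1, Equiv.apply_symm_apply]
  · intro s hs
    obtain ⟨g, hg, hgs⟩ := he ((fun x : P => (⟨x, hP x.2⟩ : X)) '' s) (hs.image _)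
    refine ⟨g, hg, ?_⟩
    intro x hx
    exact hgs ⟨x, hP x.2⟩ (Set.mem_image_of_mem _ hx)

/-- the image under an automorphism -/
theorem sm_image {L : FirstOrder.Language.{0, 0}} {U : Type} [L.Structure U] {A : Set U}
    (X : Set U) (g : U ≃[L] U) (hg : Fx L A g) : Sm L A X (g '' X) :=
  ⟨g.toEquiv.image X, fun s hs => ⟨g, hg, fun x hx => rfl⟩⟩

end NWLaux

open NWLaux

theorem thm_NWL (hCNO : St_CNO) (hCOD : St_COD) (hINS : St_INS) (hFAI : St_FAI) (hORD : St_ORD)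
    (hSMB : St_SMB) : St_NWL := by
  intro L U _ κ R o hC hN A E sg hOri M p hM hpM hpE
  by_contra hcon
  push Not at hcon
  obtain ⟨_, _, hF3, _, _, hF6, _, _⟩ := hFAI L U κ R o hC A E sg hOri
  obtain ⟨_, hO2, hO3, hO4, _, _⟩ := hORD L U κ R o hC A E sg hOri
  obtain ⟨hSr, hSs, hSt, _⟩ := hSMB L U κ R o hC
  have hirr : ∀ x ∈ E, ¬ Ll L R o A sg x x := fun x hx => hO2 x hx true
  have hasy : ∀ x ∈ E, ∀ y ∈ E, Ll L R o A sg x y → ¬ Ll L R o A sg y x :=
    fun x hx y hy h h' => hirr x hx (hO4 x hx y hy x hx h h')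
  obtain ⟨O, _, _, S, hclo, hSinj⟩ := hCNO
  obtain ⟨X0, r, hrA, hE0, hEl, hdis, hlt, hc3, hd, -⟩ :=
    hINS L U κ R o hC A E sg hOri M p p hM hpM hpE hpM hpE (hirr p hpE) O
  set I : Set U := Itv L R o A E sg M p p with hI
  have hpI : p ∈ I := ⟨hpM, hpE, hirr p hpE, hirr p hpE⟩
  set P : O → Set U := fun a => (r a) '' I with hP
  have hPE : ∀ a, ∀ x ∈ P a, x ∈ E := by
    rintro a _ ⟨y, hy, rfl⟩
    exact ((hF3 (r a) (hrA a)).1 y).2 hy.2.1
  have hPn : ∀ a, ∀ x ∈ P a, ∀ y ∈ P a, ¬ Ll L R o A sg x y := by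
    rintro a _ ⟨x, hx, rfl⟩ _ ⟨y, hy, rfl⟩ h
    have h1 : Ll L R o A sg x y := ((hF3 (r a) (hrA a)).2 x hx.2.1 y hy.2.1 true).1 h
    rcases hO3 x hx.2.1 y hy.2.1 h1 p hpE with h2 | h2
    · exact hx.2.2.1 h2
    · exact hy.2.2.2 h2
  have hPne : ∀ a, (P a).Nonempty := fun a => ⟨r a p, Set.mem_image_of_mem _ hpI⟩
  have hPuniq : ∀ a a' x, x ∈ P a → x ∈ P a' → a = a' := by
    intro a a' x hx hx'
    rcases lt_trichotomy a a' with h | h | h
    · exact absurd (hlt a a' h x hx x hx') (hirr x (hPE a x hx))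
    · exact h
    · exact absurd (hlt a' a h x hx' x hx) (hirr x (hPE a x hx))
  set X : (ℕ → Bool) → Set U := fun f => X0 ∪ ⋃ a ∈ S f, P a with hX
  -- membership in `X f`
  have hXm : ∀ f x, x ∈ X f ↔ x ∈ X0 ∨ ∃ a ∈ S f, x ∈ P a := by
    intro f x
    simp only [hX, Set.mem_union, Set.mem_iUnion, exists_prop]
  have hAX0 : A ⊆ X0 := by
    intro a ha
    apply hE0
    intro haE
    apply hOri.nd a haE
    obtain ⟨j⟩ := hC.ne
    have h1 := (lt_dc hC j a A).1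
    have h2 := (le_dc hC j a A).1
    rw [Set.insert_eq_of_mem ha] at h1 h2
    have h3 := def_inter h2 (def_compl h1)
    have h4 : ({x | ¬ R (o j) a x} ∩ {x | R (o j) x a}ᶜ : Set U) = {a} := by
      ext x
      simp only [Set.mem_inter_iff, Set.mem_setOf_eq, Set.mem_compl_iff, Set.mem_singleton_iff]
      constructor
      · rintro ⟨h5, h6⟩
        by_contra hne
        rcases hC.tot j x a hne with h7 | h7
        · exact h6 h7
        · exact h5 h7
      · rintro rfl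
        exact ⟨hC.irr j x, hC.irr j x⟩
    rw [h4] at h3
    exact h3
  have hXmd : ∀ f, Md L A (X f) := by
    intro f
    exact ⟨hEl (S f), fun a ha => Or.inl (hAX0 ha)⟩
  have hXc : ∀ v, IsClopen {f | v ∈ X f} := by
    intro v
    by_cases h0 : v ∈ X0
    · have h1 : {f | v ∈ X f} = Set.univ := by
        ext f
        simp only [Set.mem_setOf_eq, Set.mem_univ, iff_true]
        exact (hXm f v).2 (Or.inl h0)
      rw [h1]; exact isClopen_univ
    · by_cases h2 : ∃ a, v ∈ P a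
      · obtain ⟨a, ha⟩ := h2
        have h1 : {f | v ∈ X f} = {f | a ∈ S f} := by
          ext f
          simp only [Set.mem_setOf_eq]
          rw [hXm]
          constructor
          · rintro (h3 | ⟨a', ha', hv⟩)
            · exact absurd h3 h0
            · rw [hPuniq a a' v ha hv]; exact ha'
          · intro h3
            exact Or.inr ⟨a, h3, ha⟩
        rw [h1]; exact hclo a
      · have h1 : {f | v ∈ X f} = ∅ := by
          ext f
          simp only [Set.mem_setOf_eq, Set.mem_empty_iff_false, iff_false]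
          rw [hXm]
          rintro (h3 | ⟨a', ha', hv⟩)
          · exact h0 h3
          · exact h2 ⟨a', hv⟩
        rw [h1]; exact isClopen_empty
  obtain ⟨f, f', hne, e, he⟩ := hN A X hOri.fin hXmd hXc
  -- clusters in `X f`
  have hclP : ∀ f, ∀ a ∈ S f, ∀ x ∈ P a, Itv L R o A E sg (X f) x x = P a := by
    intro f a ha x hx
    ext y
    constructor
    · rintro ⟨hy, hyE, h1, h2⟩
      rcases (hXm f y).1 hy with h3 | ⟨a', ha', hy'⟩
      · rcases hc3 y h3 hyE a with h4 | h4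
        · exact absurd (h4 x hx) h1
        · exact absurd (h4 x hx) h2
      · rcases lt_trichotomy a a' with h | h | h
        · exact absurd (hlt a a' h x hx y hy') h2
        · rw [h]; exact hy'
        · exact absurd (hlt a' a h y hy' x hx) h1
    · intro hy
      exact ⟨(hXm f y).2 (Or.inr ⟨a, ha, hy⟩), hPE a y hy, hPn a y hy x hx, hPn a x hx y hy⟩
  have hcl0 : ∀ f, ∀ x ∈ X0, x ∈ E → Itv L R o A E sg (X f) x x = Itv L R o A E sg univ x x := by
    intro f x hx hxE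
    ext y
    constructor
    · rintro ⟨_, hyE, h1, h2⟩
      exact ⟨Set.mem_univ _, hyE, h1, h2⟩
    · rintro ⟨_, hyE, h1, h2⟩
      exact ⟨(hXm f y).2 (Or.inl (hd x hx hxE y hyE h2 h1)), hyE, h1, h2⟩
  -- the set `N f`
  set N : (ℕ → Bool) → Set U := fun f =>
    {x | x ∈ X f ∧ x ∈ E ∧ ∀ z ∈ E, ¬ Sm L A (Itv L R o A E sg (X f) x x)
      (Itv L R o A E sg univ z z)} with hNdef
  have hNP : ∀ f x, x ∈ N f ↔ ∃ a ∈ S f, x ∈ P a := by
    intro f x
    constructor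
    · rintro ⟨hx, hxE, hz⟩
      rcases (hXm f x).1 hx with h3 | h3
      · exfalso
        apply hz x hxE
        rw [hcl0 f x h3 hxE]
        exact hSr _ _
      · exact h3
    · rintro ⟨a, ha, hx⟩
      refine ⟨(hXm f x).2 (Or.inr ⟨a, ha, hx⟩), hPE a x hx, ?_⟩
      intro z hz hs
      rw [hclP f a ha x hx] at hs
      exact hcon z hz (hSt _ _ _ _ (sm_image I (r a) (hrA a)) hs)
  -- properties of `e`
  have heE : ∀ x : X f, ((e x : X f') : U) ∈ E ↔ (x : U) ∈ E := by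
    intro x
    obtain ⟨g, hg, hgx⟩ := he {x} (Set.finite_singleton x)
    rw [← hgx x rfl]
    exact (hF3 g hg).1 x
  have heL : ∀ x y : X f, (x : U) ∈ E → (y : U) ∈ E →
      (Ll L R o A sg ((e x : X f') : U) ((e y : X f') : U) ↔ Ll L R o A sg (x : U) (y : U)) := by
    intro x y hx hy
    obtain ⟨g, hg, hgx⟩ := he {x, y} (Set.toFinite _)
    rw [← hgx x (by simp), ← hgx y (by simp)]
    exact (hF3 g hg).2 x hx y hy true
  have heSm : ∀ x : X f, (x : U) ∈ E → Sm L A (Itv L R o A E sg (X f) x x)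
      (Itv L R o A E sg (X f') ((e x : X f') : U) ((e x : X f') : U)) := by
    intro x hx
    refine sm_restrict e he (fun y hy => hy.1) (fun y hy => hy.1) ?_
    intro y
    constructor
    · rintro ⟨_, hyE, h1, h2⟩
      refine ⟨(e y).2, (heE y).2 hyE, ?_, ?_⟩
      · rw [heL y x hyE hx]; exact h1
      · rw [heL x y hx hyE]; exact h2
    · rintro ⟨_, hyE, h1, h2⟩
      have hyE' := (heE y).1 hyE
      refine ⟨y.2, hyE', ?_, ?_⟩
      · rw [heL y x hyE' hx] at h1; exact h1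
      · rw [heL x y hx hyE'] at h2; exact h2
  have heN : ∀ x : X f, (x : U) ∈ N f ↔ ((e x : X f') : U) ∈ N f' := by
    intro x
    constructor
    · rintro ⟨_, hxE, hz⟩
      refine ⟨(e x).2, (heE x).2 hxE, ?_⟩
      intro z hzE hs
      exact hz z hzE (hSt _ _ _ _ (heSm x hxE) hs)
    · rintro ⟨_, hxE, hz⟩
      have hxE' := (heE x).1 hxE
      refine ⟨x.2, hxE', ?_⟩
      intro z hzE hs
      exact hz z hzE (hSt _ _ _ _ (hSs _ _ _ (heSm x hxE')) hs)
  have hNX : ∀ f, ∀ x, (∃ a ∈ S f, x ∈ P a) → x ∈ X f := fun f x hx => (hXm f x).2 (Or.inr hx)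
  have hsame : ∀ f, ∀ x y, (∃ a ∈ S f, x ∈ P a) → (∃ a ∈ S f, y ∈ P a) →
      ((∃ a ∈ S f, x ∈ P a ∧ y ∈ P a) ↔ ¬ Ll L R o A sg x y ∧ ¬ Ll L R o A sg y x) := by
    rintro f x y ⟨a, ha, hx⟩ ⟨a', ha', hy⟩
    constructor
    · rintro ⟨c, hc, h1, h2⟩
      exact ⟨hPn c x h1 y h2, hPn c y h2 x h1⟩
    · rintro ⟨h1, h2⟩
      rcases lt_trichotomy a a' with h | h | h
      · exact absurd (hlt a a' h x hx y hy) h1
      · subst h
        exact ⟨a, ha, hx, hy⟩
      · exact absurd (hlt a' a h y hy x hx) h2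
  -- the bijection
  have hfw : ∀ x : {x : U // ∃ a ∈ S f, x ∈ P a},
      ∃ a ∈ S f', ((e ⟨x, hNX f x x.2⟩ : X f') : U) ∈ P a := by
    intro x
    rw [← hNP f']
    rw [← heN ⟨x, hNX f x x.2⟩]
    exact (hNP f x).2 x.2
  have hbw : ∀ y : {x : U // ∃ a ∈ S f', x ∈ P a},
      ∃ a ∈ S f, ((e.symm ⟨y, hNX f' y y.2⟩ : X f) : U) ∈ P a := by
    intro y
    rw [← hNP f, heN (e.symm ⟨y, hNX f' y y.2⟩), Equiv.apply_symm_apply]
    exact (hNP f' y).2 y.2
  let φ : {x : U // ∃ a ∈ S f, x ∈ P a} ≃ {x : U // ∃ a ∈ S f', x ∈ P a} :=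
    ⟨fun x => ⟨((e ⟨x, hNX f x x.2⟩ : X f') : U), hfw x⟩,
      fun y => ⟨((e.symm ⟨y, hNX f' y y.2⟩ : X f) : U), hbw y⟩,
      by
        rintro ⟨x, hx⟩
        apply Subtype.ext
        have h1 : (⟨((e ⟨x, hNX f x hx⟩ : X f') : U), (e ⟨x, hNX f x hx⟩ : X f').2⟩ : X f')
            = e ⟨x, hNX f x hx⟩ := rfl
        show ((e.symm ⟨((e ⟨x, hNX f x hx⟩ : X f') : U), _⟩ : X f) : U) = x
        rw [h1, Equiv.symm_apply_apply],
      by
        rintro ⟨y, hy⟩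
        apply Subtype.ext
        have h1 : (⟨((e.symm ⟨y, hNX f' y hy⟩ : X f) : U),
            (e.symm ⟨y, hNX f' y hy⟩ : X f).2⟩ : X f) = e.symm ⟨y, hNX f' y hy⟩ := rfl
        show ((e ⟨((e.symm ⟨y, hNX f' y hy⟩ : X f) : U), _⟩ : X f') : U) = y
        rw [h1, Equiv.apply_symm_apply]⟩
  have hφL : ∀ x y : {x : U // ∃ a ∈ S f, x ∈ P a},
      (Ll L R o A sg ((φ x : {x : U // ∃ a ∈ S f', x ∈ P a}) : U)
        ((φ y : {x : U // ∃ a ∈ S f', x ∈ P a}) : U) ↔ Ll L R o A sg (x : U) (y : U)) := by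
    intro x y
    have hx : (x : U) ∈ E := by
      obtain ⟨a, _, h⟩ := x.2
      exact hPE a _ h
    have hy : (y : U) ∈ E := by
      obtain ⟨a, _, h⟩ := y.2
      exact hPE a _ h
    exact heL ⟨x, hNX f x x.2⟩ ⟨y, hNX f y y.2⟩ hx hy
  have hφE : ∀ f, ∀ x : {x : U // ∃ a ∈ S f, x ∈ P a}, (x : U) ∈ E := by
    intro f x
    obtain ⟨a, _, h⟩ := x.2
    exact hPE a _ h
  have hres : Nonempty (S f ≃o S f') := by
    refine hCOD U O (fun x y => x ∈ E ∧ y ∈ E ∧ Ll L R o A sg x y) P (S f) (S f') φ hPne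
      (fun x h => hirr x h.1 h.2.2) (fun x y h h' => hasy x h.1 y h.2.1 h.2.2 h'.2.2)
      (fun a b hab x hx y hy => ⟨hPE a x hx, hPE b y hy, hlt a b hab x hx y hy⟩) ?_ ?_
    · intro x y
      rw [hsame f x y x.2 y.2, hsame f' _ _ (φ x).2 (φ y).2, hφL x y, hφL y x]
    · intro x y _
      constructor
      · rintro ⟨_, _, h⟩
        exact ⟨hφE f' (φ x), hφE f' (φ y), (hφL x y).2 h⟩
      · rintro ⟨_, _, h⟩
        exact ⟨hφE f x, hφE f y, (hφL x y).1 h⟩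
  exact hne (hSinj f f' hres)

end Pool.Agent.PMC
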