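import Pool.Agent.PMC.StB
import Pool.Agent.PMC.Base

/-!
PMC, module ORD: the weak order on a good piece (helper55)
-/

set_option autoImplicit false
set_option linter.unusedVariables false

namespace Pool.Agent.PMC

open FirstOrder.Language Set
open scoped FirstOrder
open Pool.Agent.WOM (tp Mon IsEl IsoM CtU Fx Orb)

private theorem ORD_bool (s b : Bool) : (s ≠ (!b)) ↔ ¬ (s ≠ b) := by
  cases s <;> cases b <;> simp

private theorem ORD_lts {U κ : Type} (R : κ → U → U → Prop) (o : κ → κ) (s b : Bool) (j : κ)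
    (x y : U) : lts R o (sd (!b) s) j x y ↔ lts R o (sd b s) j y x := by
  cases s <;> cases b <;> simp [lts, sd]

/-- a point beyond a point of the side is on the side -/
private theorem ORD_side {U κ : Type} {R : κ → U → U → Prop} {o : κ → κ} {s b : Bool} {j : κ}
    {C : Set U} (hC : Ini R o j C) {x y : U} (h : lts R o (sd b s) j x y)
    (hx : x ∈ C ↔ s ≠ b) : y ∈ C ↔ s ≠ b := by
  cases s <;> cases b <;> simp [lts, sd] at h hx ⊢
  · exact fun hy => hx (hC y hy x h)
  · exact hC x hx y h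
  · exact hC x hx y h
  · exact fun hy => hx (hC y hy x h)

/-- a point of the side is beyond the points of the other side -/
private theorem ORD_bey {L : FirstOrder.Language.{0, 0}} {U : Type} [L.Structure U] {κ : Type}
    {R : κ → U → U → Prop} {o : κ → κ} (hC : Cx L R o) {s b : Bool} {j : κ}
    {C : Set U} (hI : Ini R o j C) {x y : U} (hx : x ∈ C ↔ s ≠ (!b)) (hy : y ∈ C ↔ s ≠ b) :
    lts R o (sd b s) j x y := by
  have hne : x ≠ y := by
    rintro rfl
    rw [ORD_bool] at hx
    tauto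
  rcases hC.tot j x y hne with h | h
  · cases s <;> cases b <;> simp [lts, sd] at hx hy ⊢
    · exact h
    · exact absurd (hI y hy x h) hx
    · exact absurd (hI y hy x h) hx
    · exact h
  · cases s <;> cases b <;> simp [lts, sd] at hx hy ⊢
    · exact absurd (hI x hx y h) hy
    · exact h
    · exact h
    · exact absurd (hI x hx y h) hy

private theorem ORD_cut {L : FirstOrder.Language.{0, 0}} {U : Type} [L.Structure U] {κ : Type}
    {R : κ → U → U → Prop} {o : κ → κ} (hC : Cx L R o) {A : Set U} (hA : A.Finite) {w : U}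
    (hw : Nd L A w) (j : κ) (s b : Bool) : ∃ C, Dc L R o (insert w A) j C ∧
      Sin C (cel L R o A j w) ∧ (w ∈ C ↔ s ≠ (!b)) ∧
      ∀ y, (y ∈ C ↔ s ≠ b) → lts R o (sd b s) j w y := by
  have h1 := sin_self hC hA j hw
  have h2 : Sin {x | ¬ R (o j) w x} (cel L R o A j w) := by
    obtain ⟨y, hy, hl⟩ := exists_lts hC hA (j := j) hw (mem_cel A j w) true
    refine ⟨⟨w, mem_cel A j w, ?_⟩, ⟨y, hy, ?_⟩⟩
    · exact hC.irr j w
    · simp only [lts, if_true] at hl
      exact fun h => h hl
  cases s <;> cases b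
  · refine ⟨_, le_dc hC j w A, h2, ?_, ?_⟩
    · simp [hC.irr j w]
    · intro y hy
      simp [lts, sd] at hy ⊢
      exact hy
  · refine ⟨_, lt_dc hC j w A, h1, ?_, ?_⟩
    · simp [hC.irr j w]
    · intro y hy
      simp [lts, sd] at hy ⊢
      exact hy
  · refine ⟨_, lt_dc hC j w A, h1, ?_, ?_⟩
    · simp [hC.irr j w]
    · intro y hy
      simp [lts, sd] at hy ⊢
      exact hy
  · refine ⟨_, le_dc hC j w A, h2, ?_, ?_⟩
    · simp [hC.irr j w]
    · intro y hy
      simp [lts, sd] at hy ⊢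
      exact hy

theorem thm_ORD (h1 : St_FAI) (h2 : St_FTW) : St_ORD := by
  intro L U _ κ R o hC A E sg hO
  obtain ⟨-, f2, -, -, -, f6, f7, -⟩ := h1 L U κ R o hC A E sg hO
  have ftw := h2 L U κ R o hC A E sg hO
  have hA := hO.fin
  have g1 : ∀ w ∈ E, ∀ u ∈ E, ∀ b, Fa L R o A sg b w u → Fa L R o A sg (!b) u w := by
    intro w hw u hu b h j C hD hS
    by_contra hno
    have hwC : w ∈ C ↔ sg (o j) w ≠ b := by
      rw [ORD_bool] at hno
      tauto
    obtain ⟨C', hD', hS', hw', hy'⟩ := ORD_cut hC hA (hO.nd w hw) j (sg (o j) w) b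
    obtain ⟨y, hy, hyC, hyC'⟩ := ftw w hw u hu b h w hw j C C' hD hD' hS hS'
    have h3 := ORD_side hD.2 (hy' y hyC') hwC
    rw [ORD_bool] at hyC
    tauto
  have g2 : ∀ w ∈ E, ∀ u ∈ E, ∀ b, (Fa L R o A sg b w u ↔ Fa L R o A sg (!b) u w) := by
    intro w hw u hu b
    refine ⟨g1 w hw u hu b, fun h => ?_⟩
    have h3 := g1 u hu w hw (!b) h
    rwa [Bool.not_not] at h3
  have g3 : ∀ u ∈ E, ∀ w ∈ E, Ll L R o A sg u w → ∀ v ∈ E,
      Ll L R o A sg u v ∨ Ll L R o A sg v w := by
    intro u hu w hw huw v hv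
    by_contra hno
    push Not at hno
    obtain ⟨hn1, hn2⟩ := hno
    have h3 : ¬ Fa L R o A sg false w v := fun h => hn2 ((g2 v hv w hw true).2 h)
    unfold Fa Ex at h3
    push Not at h3
    obtain ⟨j, C', hD', hS', hx⟩ := h3
    apply hn1
    refine f2 u hu v hv true j ?_
    intro C hD hS
    obtain ⟨y, hy, hyC, hyC'⟩ := ftw w hw u hu false (g1 u hu w hw true huw) v hv j C C' hD hD'
      hS hS'
    have h4 : lts R o (sd true (sg (o j) v)) j y v := by
      refine ORD_bey hC hD'.2 (b := true) hyC' ?_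
      have h5 := ORD_bool (sg (o j) v) false
      simp only [Bool.not_false] at h5
      rw [h5]
      tauto
    exact ORD_side hD.2 h4 hyC
  refine ⟨g2, ?_, g3, ?_, ?_, ?_⟩
  · intro w hw b h
    obtain ⟨j⟩ := hC.ne
    obtain ⟨C', hD', hS', hw', -⟩ := ORD_cut hC hA (hO.nd w hw) j (sg (o j) w) b
    have h3 := h j C' hD' hS'
    rw [ORD_bool] at hw'
    tauto
  · intro u hu v hv w hw huv hvw
    rcases g3 u hu v hv huv w hw with h | h
    · exact h
    · exact absurd (g1 w hw v hv true h) (f6 v hv w hw true hvw)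
  · intro z hz j y hy y' hy' hl w hw
    have hE : ∀ x ∈ cel L R o A j z, x ∈ E := fun x hx =>
      pc_sub hO.clo hz (cel_sub_pc hC hA j z hx)
    constructor
    · intro h
      refine f7 w hw y (hE y hy) j true y' ?_ h ?_
      · rw [cel_eq hy]
        exact hy'
      · rw [hO.cst j z hz y hy]
        exact hl
    · intro h
      refine (g2 y (hE y hy) w hw true).2 ?_
      refine f7 w hw y' (hE y' hy') j (!true) y ?_ (g1 y' (hE y' hy') w hw true h) ?_
      · rw [cel_eq hy']
        exact hy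
      · rw [hO.cst j z hz y' hy', ORD_lts]
        exact hl
  · intro z hz j y hy y' hy' h
    have hE : ∀ x ∈ cel L R o A j z, x ∈ E := fun x hx =>
      pc_sub hO.clo hz (cel_sub_pc hC hA j z hx)
    obtain ⟨C', hD', hS', -, hb⟩ := ORD_cut hC hA (hO.nd y (hE y hy)) j (sg (o j) z) true
    refine hb y' ?_
    have h3 := h j C' hD' (by rw [cel_eq hy']; rwa [cel_eq hy] at hS')
    rwa [hO.cst j z hz y' hy'] at h3

end Pool.Agent.PMC
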