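import Pool.Agent.PMC.Base
import Pool.Agent.PMC.StB

/-!
PMC: orthogonality.
-/

set_option autoImplicit false
set_option linter.unusedVariables false

namespace Pool.Agent.PMC

open FirstOrder.Language Set
open scoped FirstOrder
open Pool.Agent.WOM (tp Mon IsEl IsoM CtU Fx Orb)

section ORT

variable {L : FirstOrder.Language.{0, 0}} {U : Type} [L.Structure U] {κ : Type}
  {R : κ → U → U → Prop} {o : κ → κ}

private theorem ORT_sub (h1 : St_FAI) (hC : Cx L R o) {A E : Set U} {sg : κ → U → Bool}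
    (hO : Ori L R o A E sg) {g : U ≃[L] U} (hg : Fx L A g) {S : Set U} (hS : S ⊆ E) :
    g '' S ⊆ E := by
  rintro _ ⟨x, hx, rfl⟩
  exact (((h1 L U κ R o hC A E sg hO).2.2.1 g hg).1 x).2 (hS hx)

private theorem ORT_one (h1 : St_FAI) (h2 : St_ORD) (h3 : St_MVT) (h4 : St_CHN) (hC : Cx L R o)
    {A E : Set U} {sg : κ → U → Bool} (hO : Ori L R o A E sg) (S W : Set U) (hS : S.Finite)
    (hW : W.Finite) (hSE : S ⊆ E) (hWE : W ⊆ E) (hSW : LL L R o A sg S W) (g : U ≃[L] U)
    (hg : Fx L A g) (hgW : LL L R o A sg (g '' S) W) :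
    ∃ h : U ≃[L] U, Fx L (A ∪ W) h ∧ ∀ b ∈ S, h b = g b := by
  rcases S.eq_empty_or_nonempty with rfl | ⟨s, hs⟩
  · exact ⟨FirstOrder.Language.Equiv.refl L U, fx_refl _, by simp⟩
  have hgS : g '' S ⊆ E := ORT_sub h1 hC hO hg hSE
  obtain ⟨t, ht, -, htS⟩ := (h3 L U κ R o hC A E sg hO ∅ (S ∪ g '' S) S Set.finite_empty
    (hS.union (hS.image g)) hS (Set.empty_subset _) (Set.union_subset hSE hgS) hSE
    (fun d hd => absurd hd (by simp))).1 (fun d hd => absurd hd (by simp))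
  have htA : Fx L A t := fx_mono Set.subset_union_left ht
  have htE : t '' S ⊆ E := ORT_sub h1 hC hO htA hSE
  have htr := (h2 L U κ R o hC A E sg hO).2.2.2.1
  have htW : LL L R o A sg (t '' S) W := fun d hd w hw =>
    htr d (htE hd) s (hSE hs) w (hWE hw) (htS d hd s (Or.inl hs)) (hSW s hs w hw)
  have e1 : t.symm '' (t '' S) = S := by
    ext x
    constructor
    · rintro ⟨_, ⟨y, hy, rfl⟩, rfl⟩
      rw [t.symm_apply_apply]; exact hy
    · intro hx
      exact ⟨t x, ⟨x, hx, rfl⟩, t.symm_apply_apply x⟩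
  have e2 : (g.comp t.symm) '' (t '' S) = g '' S := by
    ext x
    constructor
    · rintro ⟨_, ⟨y, hy, rfl⟩, rfl⟩
      refine ⟨y, hy, ?_⟩
      show g y = g (t.symm (t y))
      rw [t.symm_apply_apply]
    · rintro ⟨y, hy, rfl⟩
      refine ⟨t y, ⟨y, hy, rfl⟩, ?_⟩
      show g (t.symm (t y)) = g y
      rw [t.symm_apply_apply]
  obtain ⟨k1, hk1, hk1'⟩ := h4 L U κ R o hC A E sg hO (t '' S) W (hS.image t) hW htE hWE htW
    t.symm (fx_symm htA) (by rw [e1]; exact fun d hd v hv => htS d hd v (Or.inl hv))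
    (by rw [e1]; exact hSW)
  obtain ⟨k2, hk2, hk2'⟩ := h4 L U κ R o hC A E sg hO (t '' S) W (hS.image t) hW htE hWE htW
    (g.comp t.symm) (fx_comp hg (fx_symm htA))
    (by rw [e2]; exact fun d hd v hv => htS d hd v (Or.inr hv)) (by rw [e2]; exact hgW)
  refine ⟨k2.comp k1.symm, fx_comp hk2 (fx_symm hk1), fun b hb => ?_⟩
  have h5 : k1 (t b) = b := by
    rw [hk1' (t b) ⟨b, hb, rfl⟩]; exact t.symm_apply_apply b
  have h6 : k1.symm b = t b := by
    have := k1.symm_apply_apply (t b)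
    rwa [h5] at this
  show k2 (k1.symm b) = g b
  rw [h6, hk2' (t b) ⟨b, hb, rfl⟩]
  show g (t.symm (t b)) = g b
  rw [t.symm_apply_apply]

private theorem ORT_rev (h1 : St_FAI) (h2 : St_ORD) (hC : Cx L R o)
    {A E : Set U} {sg : κ → U → Bool} (hO : Ori L R o A E sg) {D V : Set U} (hD : D ⊆ E)
    (hV : V ⊆ E) : LL L R o A (fun j z => !sg j z) D V ↔ LL L R o A sg V D := by
  have hex := (h1 L U κ R o hC A E sg hO).1.2
  have hsw := (h2 L U κ R o hC A E sg hO).1
  have key : ∀ d ∈ E, ∀ v ∈ E, (Ll L R o A (fun j z => !sg j z) d v ↔ Ll L R o A sg v d) := by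
    intro d hd v hv
    have a1 : Ll L R o A (fun j z => !sg j z) d v ↔ Fa L R o A sg false d v := by
      constructor
      · intro h j
        exact (hex true d j v).1 (h j)
      · intro h j
        exact (hex true d j v).2 (h j)
    rw [a1, hsw d hd v hv false]
    exact Iff.rfl
  constructor
  · intro h v hv d hd
    exact (key d (hD hd) v (hV hv)).1 (h d hd v hv)
  · intro h d hd v hv
    exact (key d (hD hd) v (hV hv)).2 (h v hv d hd)

theorem thm_ORT (h1 : St_FAI) (h2 : St_ORD) (h3 : St_MVT) (h4 : St_CHN) : St_ORT := by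
  intro L U _ κ R o hC A E sg hO
  have p1 := ORT_one h1 h2 h3 h4 hC hO
  have hO' : Ori L R o A E (fun j z => !sg j z) := (h1 L U κ R o hC A E sg hO).1.1
  have p2 : ∀ (S W : Set U), S.Finite → W.Finite → S ⊆ E → W ⊆ E → LL L R o A sg W S →
      ∀ g : U ≃[L] U, Fx L A g → LL L R o A sg W (g '' S) →
      ∃ h : U ≃[L] U, Fx L (A ∪ W) h ∧ ∀ b ∈ S, h b = g b := by
    intro S W hS hW hSE hWE hWS g hg hWg
    exact ORT_one h1 h2 h3 h4 hC hO' S W hS hW hSE hWE
      ((ORT_rev h1 h2 hC hO hSE hWE).2 hWS) g hg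
      ((ORT_rev h1 h2 hC hO (ORT_sub h1 hC hO hg hSE) hWE).2 hWg)
  refine ⟨p1, p2, ?_, ?_⟩
  · intro D M V hD hM hV hDE hME hVE hDV hDM hMV g hg hDg hgV
    obtain ⟨k1, hk1, hk1'⟩ := p1 M V hM hV hME hVE hMV g hg hgV
    have e1 : k1 '' (M ∪ V) = g '' M ∪ V := by
      rw [Set.image_union]
      congr 1
      · exact Set.image_congr hk1'
      · ext x
        constructor
        · rintro ⟨y, hy, rfl⟩
          rw [hk1 y (Or.inr hy)]; exact hy
        · intro hx
          exact ⟨x, hx, hk1 x (Or.inr hx)⟩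
    obtain ⟨k2, hk2, hk2'⟩ := p2 (M ∪ V) D (hM.union hV) hD (Set.union_subset hME hVE) hDE
      (fun d hd v hv => hv.elim (hDM d hd v) (hDV d hd v)) k1
      (fx_mono Set.subset_union_left hk1)
      (by rw [e1]; exact fun d hd v hv => hv.elim (hDg d hd v) (hDV d hd v))
    refine ⟨k2, ?_, fun m hm => ?_⟩
    · intro a ha
      rcases ha with ha | ha
      · exact hk2 a ha
      · rw [hk2' a (Or.inr ha)]; exact hk1 a (Or.inr ha)
    · rw [hk2' m (Or.inl hm)]; exact hk1' m hm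
  · intro D V Z hD hV hZ hDE hVE hZE hDV
    obtain ⟨g1, hg1, -, hg1V⟩ := (h3 L U κ R o hC A E sg hO ∅ V Z Set.finite_empty hV hZ
      (Set.empty_subset _) hVE hZE (fun d hd => absurd hd (by simp))).1
      (fun d hd => absurd hd (by simp))
    have hg1A : Fx L A g1 := fx_mono Set.subset_union_left hg1
    obtain ⟨g2, hg2, hD2, hV2⟩ := (h3 L U κ R o hC A E sg hO D V (g1 '' Z) hD hV (hZ.image g1)
      hDE hVE (ORT_sub h1 hC hO hg1A hZE) hDV).2 hg1V
    refine ⟨g2.comp g1, fx_comp (fx_mono Set.subset_union_left hg2) hg1A, ?_, ?_⟩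
    · have e : (g2.comp g1) '' Z = g2 '' (g1 '' Z) := by
        rw [Set.image_image]; rfl
      rw [e]; exact hD2
    · have e : (g2.comp g1) '' Z = g2 '' (g1 '' Z) := by
        rw [Set.image_image]; rfl
      rw [e]; exact hV2

end ORT

end Pool.Agent.PMC
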