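import Pool.Agent.PMC.Base
import Pool.Agent.PMC.StA

/-!
PMC, MP_5df2c5_lc: module PRD (gluing along unions of pieces).
-/

set_option autoImplicit false
set_option linter.unusedVariables false

namespace Pool.Agent.PMC

open FirstOrder.Language Set
open scoped FirstOrder
open Pool.Agent.WOM (tp Mon IsEl IsoM CtU Fx Orb)

/-- [PRD] -/
theorem thm_PRD : St_PRD := by
  classical
  intro L U _ κ R o hC A Q hA hQ g hg
  have hgs : Fx L A g.symm := fx_symm hg
  have hgQ : ∀ x, g x ∈ Q ↔ x ∈ Q := cls_fx hC hA hQ hg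
  have hsQ : ∀ x, g.symm x ∈ Q ↔ x ∈ Q := cls_fx hC hA hQ hgs
  have key : ∀ (j : κ) (u x y : U), ¬ (u ∈ Q ↔ x ∈ Q) → y ∈ cel L R o A j x →
      (R j y u ↔ R j x u) := by
    intro j u x y hne hy
    have hs : ¬ Sin (ct R j u) (cel L R o A j x) := fun h => hne (hQ u x ⟨j, h⟩)
    constructor
    · intro h
      by_contra hx
      exact hs ⟨⟨y, hy, h⟩, ⟨x, mem_cel A j x, hx⟩⟩
    · intro h
      by_contra hy'
      exact hs ⟨⟨x, mem_cel A j x, h⟩, ⟨y, hy, hy'⟩⟩
  let e : U ≃ U :=
    { toFun := fun x => if x ∈ Q then g x else x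
      invFun := fun x => if x ∈ Q then g.symm x else x
      left_inv := by
        intro x
        by_cases hx : x ∈ Q
        · simp only [if_pos hx, if_pos ((hgQ x).2 hx)]
          exact g.symm_apply_apply x
        · simp only [if_neg hx]
      right_inv := by
        intro x
        by_cases hx : x ∈ Q
        · simp only [if_pos hx, if_pos ((hsQ x).2 hx)]
          exact g.apply_symm_apply x
        · simp only [if_neg hx] }
  have he1 : ∀ x ∈ Q, e x = g x := fun x hx => if_pos hx
  have he2 : ∀ x ∉ Q, e x = x := fun x hx => if_neg hx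
  have hR : ∀ j x y, R j (e x) (e y) ↔ R j x y := by
    intro j x y
    by_cases hx : x ∈ Q
    · by_cases hy : y ∈ Q
      · rw [he1 x hx, he1 y hy]
        exact R_img hC j x y g
      · rw [he1 x hx, he2 y hy]
        exact key j y x (g x) (fun h => hy (h.2 hx)) (fx_cel hC j x hg)
    · by_cases hy : y ∈ Q
      · rw [he2 x hx, he1 y hy]
        have h1 := R_img hC j x (g y) g.symm
        rw [g.symm_apply_apply] at h1
        rw [← h1]
        exact key j y x (g.symm x) (fun h => hx (h.1 hy)) (fx_cel hC j x hgs)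
      · rw [he2 x hx, he2 y hy]
  obtain ⟨h, hh⟩ := hC.det e hR (fun x => by
    by_cases hx : x ∈ Q
    · exact ⟨g, (he1 x hx).symm⟩
    · exact ⟨FirstOrder.Language.Equiv.refl L U, (he2 x hx).symm⟩)
  refine ⟨h, fun a ha => ?_, fun x hx => by rw [hh, he1 x hx], fun x hx => by rw [hh, he2 x hx]⟩
  rw [hh]
  by_cases hx : a ∈ Q
  · rw [he1 a hx]
    exact hg a ha
  · exact he2 a hx

end Pool.Agent.PMC
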