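import Pool.Agent.PMC.StC
import Pool.Agent.PMC.Base

/-!
PMC: ordered sums of intervals are elementary submodels (block SUM)
-/

set_option autoImplicit false
set_option linter.unusedVariables false

namespace Pool.Agent.PMC

open FirstOrder.Language Set
open scoped FirstOrder
open Pool.Agent.WOM (tp Mon IsEl IsoM CtU Fx Orb)

theorem SUM_def {L : FirstOrder.Language.{0, 0}} {U : Type} [L.Structure U] {A : Set U} {y : U}
    (hy : y ∈ A) : A.Definable₁ L {y} := by
  have hs : ({y} : Set U).Definable₁ L {y} := by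
    unfold Set.Definable₁
    rw [Set.definable_iff_exists_formula_sum]
    refine ⟨(FirstOrder.Language.Term.var (Sum.inr 0)).equal
      (FirstOrder.Language.Term.var (Sum.inl ⟨y, rfl⟩)), ?_⟩
    ext v
    simp [FirstOrder.Language.Formula.realize_equal]
  exact Set.Definable.mono hs (by simpa using hy)

/-- [SUM] -/
theorem thm_SUM (hPRD : St_PRD) (hFAI : St_FAI) (hORD : St_ORD) (hORT : St_ORT) : St_SUM := by
  classical
  intro L U _ κ R o hC A E sg hO D _ D0 M p q g hgA hM hp hq hpq hrich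
  obtain ⟨-, -, F3, -, -, -, -, -⟩ := hFAI L U κ R o hC A E sg hO
  obtain ⟨O1, O2, O3, O4, -, -⟩ := hORD L U κ R o hC A E sg hO
  obtain ⟨-, -, T3, -⟩ := hORT L U κ R o hC A E sg hO
  let lt : U → U → Prop := Ll L R o A sg
  let P : D → Set U := fun d => (g d) '' Itv L R o A E sg (M d) (p d) (q d)
  have hlt : ∀ x y, lt x y ↔ Ll L R o A sg x y := fun _ _ => Iff.rfl
  have asym : ∀ x ∈ E, ∀ y ∈ E, lt x y → ¬ lt y x := fun x hx y hy h h' =>
    O2 x hx true (O4 x hx y hy x hx h h')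
  have hE : ∀ h : U ≃[L] U, Fx L A h → ∀ x, h x ∈ E ↔ x ∈ E := fun h hh => (F3 h hh).1
  have hL : ∀ h : U ≃[L] U, Fx L A h → ∀ x ∈ E, ∀ y ∈ E, (lt (h x) (h y) ↔ lt x y) :=
    fun h hh x hx y hy => (F3 h hh).2 x hx y hy true
  have hAE : ∀ a ∈ A, a ∉ E := fun a ha haE => hO.nd a haE (SUM_def ha)
  -- the blocks
  have hPE : ∀ d, ∀ x ∈ P d, x ∈ E := by
    rintro d x ⟨z, hz, rfl⟩
    exact (hE _ (hgA d) z).2 hz.2.1
  have hgp : ∀ d, g d (p d) ∈ E := fun d => (hE _ (hgA d) _).2 (hp d).2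
  have hgq : ∀ d, g d (q d) ∈ E := fun d => (hE _ (hgA d) _).2 (hq d).2
  have hPp : ∀ d, ∀ x ∈ P d, ¬ lt x (g d (p d)) := by
    rintro d x ⟨z, hz, rfl⟩ h
    exact hz.2.2.1 ((hL _ (hgA d) z hz.2.1 _ (hp d).2).1 h)
  have hPq : ∀ d, ∀ x ∈ P d, ¬ lt (g d (q d)) x := by
    rintro d x ⟨z, hz, rfl⟩ h
    exact hz.2.2.2 ((hL _ (hgA d) _ (hq d).2 z hz.2.1).1 h)
  have hPP : ∀ d d', d < d' → ∀ x ∈ P d, ∀ y ∈ P d', lt x y := by
    intro d d' hdd x hx y hy
    have h1 : lt x (g d' (p d')) := by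
      rcases O3 _ (hgq d) _ (hgp d') (hpq d d' hdd) x (hPE d x hx) with h | h
      · exact absurd h (hPq d x hx)
      · exact h
    rcases O3 x (hPE d x hx) _ (hgp d') h1 y (hPE d' y hy) with h | h
    · exact h
    · exact absurd h (hPp d' y hy)
  -- the set
  have hAX : A ⊆ Eᶜ ∪ ⋃ d, P d := fun a ha => Or.inl (hAE a ha)
  change IsEl L (Eᶜ ∪ ⋃ d, P d)
  refine isEl_of_orb hC.mon hO.fin hAX ?_
  intro B hBf hAB hBX x hdef
  by_cases hxE : x ∉ E
  · exact ⟨x, Or.inl hxE, FirstOrder.Language.Equiv.refl L U, fx_refl B, rfl⟩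
  rw [not_not] at hxE
  -- blocks of the parameters
  have hBE : ∀ b ∈ B, b ∈ E → ∃ d, b ∈ P d := by
    intro b hb hbE
    rcases hBX hb with h | h
    · exact absurd hbE h
    · exact mem_iUnion.1 h
  -- gluing: an automorphism which fixes `B ∩ E` and the type of `x`
  have glue : ∀ (k : U ≃[L] U), Fx L A k → (∀ b ∈ B, b ∈ E → k b = b) → k x ∈ Orb L B x := by
    intro k hk hkB
    obtain ⟨k', hk'A, hk'E, hk'⟩ := hPRD L U κ R o hC A E hO.fin hO.clo k hk
    refine ⟨k', ?_, hk'E x hxE⟩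
    intro b hb
    by_cases hbE : b ∈ E
    · rw [hk'E b hbE, hkB b hb hbE]
    · exact hk' b hbE
  by_cases hcase : ∃ d, ∃ y ∈ B, y ∈ P d ∧ ∃ y' ∈ B, y' ∈ P d ∧ ¬ lt x y ∧ ¬ lt y' x
  · -- case (a)
    obtain ⟨d, y, hyB, hyP, y', hy'B, hy'P, hxy, hy'x⟩ := hcase
    let Dn : Set U := {b | b ∈ B ∧ ∃ c, c < d ∧ b ∈ P c}
    let Vn : Set U := {b | b ∈ B ∧ ∃ c, d < c ∧ b ∈ P c}
    let Bd : Set U := {b | b ∈ B ∧ b ∈ P d}
    have hDf : Dn.Finite := hBf.subset fun b hb => hb.1
    have hVf : Vn.Finite := hBf.subset fun b hb => hb.1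
    have hBdf : Bd.Finite := hBf.subset fun b hb => hb.1
    have hDE : Dn ⊆ E := by
      rintro b ⟨-, c, -, hb⟩
      exact hPE c b hb
    have hVE : Vn ⊆ E := by
      rintro b ⟨-, c, -, hb⟩
      exact hPE c b hb
    have hBdE : Bd ⊆ E := fun b hb => hPE d b hb.2
    have hyE := hPE d y hyP
    have hy'E := hPE d y' hy'P
    have hlow : ∀ z ∈ E, ¬ lt z y → ∀ b ∈ Dn, lt b z := by
      rintro z hz hzy b ⟨-, c, hc, hb⟩
      rcases O3 b (hPE c b hb) y hyE (hPP c d hc b hb y hyP) z hz with h | h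
      · exact h
      · exact absurd h hzy
    have hhigh : ∀ z ∈ E, ¬ lt y' z → ∀ b ∈ Vn, lt z b := by
      rintro z hz hyz b ⟨-, c, hc, hb⟩
      rcases O3 y' hy'E b (hPE c b hb) (hPP d c hc y' hy'P b hb) z hz with h | h
      · exact absurd h hyz
      · exact h
    have hDV : LL L R o A sg Dn Vn := by
      rintro b ⟨-, c, hc, hb⟩ b' ⟨-, c', hc', hb'⟩
      exact hPP c c' (hc.trans hc') b hb b' hb'
    have hMf : (insert x Bd).Finite := hBdf.insert x
    have hME : insert x Bd ⊆ E := insert_subset hxE hBdE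
    have hDM : LL L R o A sg Dn (insert x Bd) := by
      intro b hb v hv
      rcases hv with rfl | hv
      · exact hlow v hxE hxy b hb
      · obtain ⟨-, c, hc, hb'⟩ := hb
        exact hPP c d hc b hb' v hv.2
    have hMV : LL L R o A sg (insert x Bd) Vn := by
      intro v hv b hb
      rcases hv with rfl | hv
      · exact hhigh v hxE hy'x b hb
      · obtain ⟨-, c, hc, hb'⟩ := hb
        exact hPP d c hc v hv.2 b hb'
    let B' : Set U := A ∪ Bd
    have hB'B : B' ⊆ B := by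
      rintro b (hb | hb)
      · exact hAB hb
      · exact hb.1
    have hB'f : B'.Finite := hO.fin.union hBdf
    have key : ∀ h : U ≃[L] U, Fx L B' h → h x ∈ Orb L B x ∧ ¬ lt (h x) y ∧ ¬ lt y' (h x) := by
      intro h hh
      have hhA : Fx L A h := fx_mono subset_union_left hh
      have hhy : h y = y := hh y (Or.inr ⟨hyB, hyP⟩)
      have hhy' : h y' = y' := hh y' (Or.inr ⟨hy'B, hy'P⟩)
      have hhxE : h x ∈ E := (hE h hhA x).2 hxE
      have n1 : ¬ lt (h x) y := by
        intro h1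
        rw [← hhy] at h1
        exact hxy ((hL h hhA x hxE y hyE).1 h1)
      have n2 : ¬ lt y' (h x) := by
        intro h1
        rw [← hhy'] at h1
        exact hy'x ((hL h hhA y' hy'E x hxE).1 h1)
      refine ⟨?_, n1, n2⟩
      have hfixBd : ∀ b ∈ Bd, h b = b := fun b hb => hh b (Or.inr hb)
      have hD2 : LL L R o A sg Dn (h '' insert x Bd) := by
        rintro b hb _ ⟨v, hv, rfl⟩
        rcases hv with rfl | hv
        · exact hlow _ hhxE n1 b hb
        · rw [hfixBd v hv]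
          exact hDM b hb v (Or.inr hv)
      have hV2 : LL L R o A sg (h '' insert x Bd) Vn := by
        rintro _ ⟨v, hv, rfl⟩ b hb
        rcases hv with rfl | hv
        · exact hhigh _ hhxE n2 b hb
        · rw [hfixBd v hv]
          exact hMV v (Or.inr hv) b hb
      obtain ⟨k, hk, hkM⟩ := T3 Dn (insert x Bd) Vn hDf hMf hVf hDE hME hVE hDV hDM hMV h hhA hD2 hV2
      have hkA : Fx L A k := fx_mono (subset_union_left.trans subset_union_left) hk
      rw [← hkM x (mem_insert _ _)]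
      refine glue k hkA fun b hb hbE => ?_
      obtain ⟨c, hc⟩ := hBE b hb hbE
      rcases lt_trichotomy c d with h1 | h1 | h1
      · exact hk b (Or.inl (Or.inr ⟨hb, c, h1, hc⟩))
      · subst h1
        rw [hkM b (Or.inr ⟨hb, hc⟩)]
        exact hfixBd b ⟨hb, hc⟩
      · exact hk b (Or.inr ⟨hb, c, h1, hc⟩)
    have hO' : Orb L B x = Orb L B' x := by
      ext z
      constructor
      · rintro ⟨h, hh, rfl⟩
        exact ⟨h, fx_mono hB'B hh, rfl⟩
      · rintro ⟨h, hh, rfl⟩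
        exact (key h hh).1
    have hdef' : B'.Definable₁ L (Orb L B' x) := by
      refine def_of_fix hC.mon hB'f hBf (hO' ▸ hdef) ?_
      rintro f hf _ ⟨h, hh, rfl⟩
      exact ⟨f.comp h, fx_comp hf hh, rfl⟩
    have hAg : ∀ a ∈ A, (g d).symm a = a := fun a ha => fx_symm (hgA d) a ha
    have himg : ((g d).symm '' B').Definable₁ L ((g d).symm '' Orb L B' x) :=
      def_img hC.mon (g d).symm hdef'
    have hsubM : (g d).symm '' B' ⊆ M d := by
      rintro _ ⟨b, hb, rfl⟩
      rcases hb with hb | hb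
      · rw [hAg b hb]
        exact (hM d).2 hb
      · obtain ⟨z, hz, hzb⟩ := hb.2
        rw [← hzb, FirstOrder.Language.Equiv.symm_apply_apply]
        exact hz.1
    obtain ⟨w, hw, hwM⟩ := (hM d).1 _ (def_mono hsubM himg)
      ⟨_, x, ⟨FirstOrder.Language.Equiv.refl L U, fx_refl _, rfl⟩, rfl⟩
    obtain ⟨z, ⟨h, hh, hhz⟩, hzw⟩ := hw
    have hgw : g d w = h x := by
      rw [← hzw, FirstOrder.Language.Equiv.apply_symm_apply, hhz]
    obtain ⟨k1, k2, k3⟩ := key h hh
    have hhA : Fx L A h := fx_mono subset_union_left hh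
    have hhxE : h x ∈ E := (hE h hhA x).2 hxE
    have hwE : w ∈ E := by
      rw [← hE (g d) (hgA d) w, hgw]
      exact hhxE
    refine ⟨h x, Or.inr (mem_iUnion.2 ⟨d, w, ⟨hwM, hwE, ?_, ?_⟩, hgw⟩), k1⟩
    · intro h1
      have h2 : lt (h x) (g d (p d)) := by
        rw [← hgw]
        exact (hL (g d) (hgA d) w hwE _ (hp d).2).2 h1
      rcases O3 (h x) hhxE _ (hgp d) h2 y hyE with h3 | h3
      · exact k2 h3
      · exact hPp d y hyP h3
    · intro h1
      have h2 : lt (g d (q d)) (h x) := by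
        rw [← hgw]
        exact (hL (g d) (hgA d) _ (hq d).2 w hwE).2 h1
      rcases O3 _ (hgq d) (h x) hhxE h2 y' hy'E with h3 | h3
      · exact hPq d y' hy'P h3
      · exact k3 h3
  · -- case (b)
    have hno : ∀ d, ∀ y ∈ B, y ∈ P d → ∀ y' ∈ B, y' ∈ P d → lt x y ∨ lt y' x := by
      intro d y hy hyP y' hy' hy'P
      by_contra hcon
      rw [not_or] at hcon
      exact hcase ⟨d, y, hy, hyP, y', hy', hy'P, hcon.1, hcon.2⟩
    let Lo : Set U := {b | b ∈ B ∧ b ∈ E ∧ lt b x}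
    let Hi : Set U := {b | b ∈ B ∧ b ∈ E ∧ lt x b}
    have hLf : Lo.Finite := hBf.subset fun b hb => hb.1
    have hHf : Hi.Finite := hBf.subset fun b hb => hb.1
    have hdich : ∀ b ∈ B, b ∈ E → b ∈ Lo ∨ b ∈ Hi := by
      intro b hb hbE
      obtain ⟨d, hd⟩ := hBE b hb hbE
      rcases hno d b hb hd b hb hd with h | h
      · exact Or.inr ⟨hb, hbE, h⟩
      · exact Or.inl ⟨hb, hbE, h⟩
    -- indices
    have hidx : ∃ idx : U → D, ∀ b ∈ B, b ∈ E → b ∈ P (idx b) := by
      obtain ⟨c0, -, -⟩ := (hrich x hxE).1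
      refine ⟨fun b => if h : ∃ d, b ∈ P d then h.choose else c0, fun b hb hbE => ?_⟩
      have h := hBE b hb hbE
      simp only [dif_pos h]
      exact h.choose_spec
    obtain ⟨idx, hidx⟩ := hidx
    have hLH : ∀ b ∈ Lo, ∀ b' ∈ Hi, idx b < idx b' := by
      intro b hb b' hb'
      have hbP := hidx b hb.1 hb.2.1
      have hb'P := hidx b' hb'.1 hb'.2.1
      rcases lt_trichotomy (idx b) (idx b') with h | h | h
      · exact h
      · exfalso
        rw [← h] at hb'P
        rcases hno (idx b) b hb.1 hbP b' hb'.1 hb'P with h1 | h1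
        · exact asym x hxE b hb.2.1 h1 hb.2.2
        · exact asym x hxE b' hb'.2.1 hb'.2.2 h1
      · exfalso
        have h1 := hPP _ _ h b' hb'P b hbP
        have h2 : lt b b' := O4 b hb.2.1 x hxE b' hb'.2.1 hb.2.2 hb'.2.2
        exact asym b hb.2.1 b' hb'.2.1 h2 h1
    obtain ⟨r1, r2, r3, r4⟩ := hrich x hxE
    have hc : ∃ c ∈ D0, (∀ b ∈ Lo, idx b < c) ∧ (∀ b ∈ Hi, c < idx b) ∧
        ∃ h : U ≃[L] U, Fx L A h ∧ h x ∈ P c := by
      rcases Lo.eq_empty_or_nonempty with hLe | hLn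
      · rcases Hi.eq_empty_or_nonempty with hHe | hHn
        · obtain ⟨c, hc, h, hh, hhx⟩ := r1
          refine ⟨c, hc, ?_, ?_, h, hh, hhx⟩
          · intro b hb
            rw [hLe] at hb
            exact absurd hb (notMem_empty b)
          · intro b hb
            rw [hHe] at hb
            exact absurd hb (notMem_empty b)
        · obtain ⟨b0, hb0, hmin⟩ := Set.exists_min_image Hi idx hHf hHn
          obtain ⟨c, hc, hlt', h, hh, hhx⟩ := r2 (idx b0)
          refine ⟨c, hc, ?_, fun b hb => lt_of_lt_of_le hlt' (hmin b hb), h, hh, hhx⟩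
          intro b hb
          rw [hLe] at hb
          exact absurd hb (notMem_empty b)
      · obtain ⟨a0, ha0, hmax⟩ := Set.exists_max_image Lo idx hLf hLn
        rcases Hi.eq_empty_or_nonempty with hHe | hHn
        · obtain ⟨c, hc, hlt', h, hh, hhx⟩ := r3 (idx a0)
          refine ⟨c, hc, fun b hb => lt_of_le_of_lt (hmax b hb) hlt', ?_, h, hh, hhx⟩
          intro b hb
          rw [hHe] at hb
          exact absurd hb (notMem_empty b)
        · obtain ⟨b0, hb0, hmin⟩ := Set.exists_min_image Hi idx hHf hHn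
          obtain ⟨c, hc, hl1, hl2, h, hh, hhx⟩ := r4 (idx a0) (idx b0) (hLH a0 ha0 b0 hb0)
          exact ⟨c, hc, fun b hb => lt_of_le_of_lt (hmax b hb) hl1,
            fun b hb => lt_of_lt_of_le hl2 (hmin b hb), h, hh, hhx⟩
    obtain ⟨c, hcD, hcL, hcH, h, hh, hhx⟩ := hc
    have hlo : ∀ b ∈ Lo, lt b (h x) := fun b hb =>
      hPP _ _ (hcL b hb) b (hidx b hb.1 hb.2.1) _ hhx
    have hhi : ∀ b ∈ Hi, lt (h x) b := fun b hb =>
      hPP _ _ (hcH b hb) _ hhx b (hidx b hb.1 hb.2.1)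
    obtain ⟨k, hk, hkM⟩ := T3 Lo {x} Hi hLf (finite_singleton x) hHf (fun b hb => hb.2.1)
      (singleton_subset_iff.2 hxE) (fun b hb => hb.2.1)
      (fun b hb b' hb' => O4 b hb.2.1 x hxE b' hb'.2.1 hb.2.2 hb'.2.2)
      (by
        rintro b hb v hv
        rw [mem_singleton_iff] at hv
        subst hv
        exact hb.2.2)
      (by
        rintro v hv b hb
        rw [mem_singleton_iff] at hv
        subst hv
        exact hb.2.2) h hh
      (by
        rintro b hb _ ⟨v, hv, rfl⟩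
        rw [mem_singleton_iff] at hv
        subst hv
        exact hlo b hb)
      (by
        rintro _ ⟨v, hv, rfl⟩ b hb
        rw [mem_singleton_iff] at hv
        subst hv
        exact hhi b hb)
    have hkA : Fx L A k := fx_mono (subset_union_left.trans subset_union_left) hk
    refine ⟨h x, Or.inr (mem_iUnion.2 ⟨c, hhx⟩), ?_⟩
    rw [← hkM x (mem_singleton x)]
    refine glue k hkA fun b hb hbE => ?_
    rcases hdich b hb hbE with h1 | h1
    · exact hk b (Or.inl (Or.inr h1))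
    · exact hk b (Or.inr h1)

end Pool.Agent.PMC
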