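import Pool.Agent.PMC.StE

/-!
PMC: translation of the sentences true in the coded structure
-/

set_option autoImplicit false
set_option linter.unusedVariables false

namespace Pool.Agent.PMC

open FirstOrder.Language Set
open scoped FirstOrder

/-- definable families of relations -/
private def TRN_Df (ι : Type) (n : ℕ)
    (P : (M : Type) → (LP ι).Structure M → (Fin n → M) → Prop) : Prop :=
  ∃ ψ : (LP ι).BoundedFormula Empty n, ∀ (M : Type) (S : (LP ι).Structure M) (v : Fin n → M),
    @BoundedFormula.Realize (LP ι) M S Empty n ψ default v ↔ P M S v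

private theorem TRN_un {ι : Type} {n : ℕ} (i : ι) (a : Fin n) :
    TRN_Df ι n fun M S v => us S i (v a) := by
  refine ⟨BoundedFormula.rel (L := LP ι) (Sy.un i : Sy ι 1) (fun _ => Term.var (Sum.inr a)),
    fun M S v => ?_⟩
  show @Structure.RelMap (LP ι) M S 1 (Sy.un i) (fun _ => v a) ↔ _
  have h : (fun _ : Fin 1 => v a) = ![v a] := by
    funext k
    rw [Subsingleton.elim k 0]
    rfl
  rw [h]
  exact Iff.rfl

private theorem TRN_ls {ι : Type} {n : ℕ} (b : Bool) (x y : Fin n) :
    TRN_Df ι n fun M S v => ls S b (v x) (v y) := by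
  refine ⟨BoundedFormula.rel (L := LP ι) (Sy.lt b : Sy ι 2)
    (fun k => Term.var (Sum.inr (if k = 0 then x else y))), fun M S v => ?_⟩
  show @Structure.RelMap (LP ι) M S 2 (Sy.lt b) (fun k => v (if k = 0 then x else y)) ↔ _
  have h : (fun k : Fin 2 => v (if k = 0 then x else y)) = ![v x, v y] := by
    funext k
    match k with
    | 0 => rfl
    | 1 => rfl
  rw [h]
  exact Iff.rfl

private theorem TRN_imp {ι : Type} {n : ℕ} {P Q : (M : Type) → (LP ι).Structure M → (Fin n → M) → Prop}
    (hP : TRN_Df ι n P) (hQ : TRN_Df ι n Q) : TRN_Df ι n fun M S v => P M S v → Q M S v := by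
  obtain ⟨φ, hφ⟩ := hP
  obtain ⟨ψ, hψ⟩ := hQ
  refine ⟨φ.imp ψ, fun M S v => ?_⟩
  rw [BoundedFormula.realize_imp, hφ, hψ]

private theorem TRN_not {ι : Type} {n : ℕ} {P : (M : Type) → (LP ι).Structure M → (Fin n → M) → Prop}
    (hP : TRN_Df ι n P) : TRN_Df ι n fun M S v => ¬ P M S v := by
  obtain ⟨φ, hφ⟩ := hP
  refine ⟨φ.not, fun M S v => ?_⟩
  rw [BoundedFormula.realize_not, hφ]

private theorem TRN_and {ι : Type} {n : ℕ} {P Q : (M : Type) → (LP ι).Structure M → (Fin n → M) → Prop}
    (hP : TRN_Df ι n P) (hQ : TRN_Df ι n Q) : TRN_Df ι n fun M S v => P M S v ∧ Q M S v := by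
  obtain ⟨φ, hφ⟩ := hP
  obtain ⟨ψ, hψ⟩ := hQ
  refine ⟨φ ⊓ ψ, fun M S v => ?_⟩
  rw [BoundedFormula.realize_inf, hφ, hψ]

private theorem TRN_all {ι : Type} {n : ℕ}
    {P : (M : Type) → (LP ι).Structure M → (Fin (n + 1) → M) → Prop}
    (hP : TRN_Df ι (n + 1) P) : TRN_Df ι n fun M S v => ∀ y, P M S (Fin.snoc v y) := by
  obtain ⟨φ, hφ⟩ := hP
  refine ⟨φ.all, fun M S v => ?_⟩
  rw [BoundedFormula.realize_all]
  exact forall_congr' fun y => hφ M S _

private theorem TRN_ex {ι : Type} {n : ℕ}
    {P : (M : Type) → (LP ι).Structure M → (Fin (n + 1) → M) → Prop}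
    (hP : TRN_Df ι (n + 1) P) : TRN_Df ι n fun M S v => ∃ y, P M S (Fin.snoc v y) := by
  obtain ⟨φ, hφ⟩ := hP
  refine ⟨φ.ex, fun M S v => ?_⟩
  rw [BoundedFormula.realize_ex]
  exact exists_congr fun y => hφ M S _

private theorem TRN_abv {L : FirstOrder.Language.{0, 0}} {n : ℕ} (b : Bool) (x z : Fin n) :
    TRN_Df (Ix L) n fun M S v => abv S b (v x) (v z) := by
  have h := TRN_and (TRN_un (ι := Ix L) .D x) (TRN_and (TRN_not (TRN_un .D z))
    (TRN_and (TRN_ls b x z) (TRN_all (TRN_imp (TRN_un .D (Fin.last n))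
      (TRN_imp (TRN_ls b x.castSucc (Fin.last n)) (TRN_ls b z.castSucc (Fin.last n)))))))
  simp only [Fin.snoc_castSucc, Fin.snoc_last] at h
  exact h

private theorem TRN_rr {L : FirstOrder.Language.{0, 0}} {n : ℕ} (i : Ix L) (x y : Fin n) :
    TRN_Df (Ix L) n fun M S v => rr S i (v x) (v y) := by
  have h := TRN_ex (TRN_and (TRN_and (TRN_abv (L := L) true x.castSucc (Fin.last n))
    (TRN_abv false y.castSucc (Fin.last n))) (TRN_un i (Fin.last n)))
  simp only [Fin.snoc_castSucc, Fin.snoc_last] at h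
  exact h

private theorem TRN_quot {L : FirstOrder.Language.{0, 0}} {M : Type} {S : (LP (Ix L)).Structure M}
    (hS : Frame S) (x y : {x : M // us S .D x}) :
    ((Quot.mk _ x : Qt S) = Quot.mk _ y) ↔ rr S .E x.1 y.1 := by
  constructor
  · intro h
    have h' := Quot.eqvGen_exact h
    clear h
    induction h' with
    | rel _ _ h => exact h
    | refl x => exact hS.rfl' x.1 x.2
    | symm _ _ _ ih => exact hS.sym _ _ ih
    | trans _ _ _ h1 h2 ih1 ih2 => exact hS.trs _ _ _ ih1 ih2
  · intro h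
    exact Quot.sound h

private theorem TRN_main {L : FirstOrder.Language.{0, 0}} (hL : Bin L) {n : ℕ}
    (φ : L.BoundedFormula Empty n) : ∃ ψ : (LP (Ix L)).BoundedFormula Empty n,
      ∀ (M : Type) (S : (LP (Ix L)).Structure M), Frame S → ∀ x : Fin n → {x : M // us S .D x},
        @BoundedFormula.Realize (LP (Ix L)) M S Empty n ψ default (fun i => (x i).1) ↔
          @BoundedFormula.Realize L (Qt S) (@dec L M S hL.fn) Empty n φ default
            (fun i => Quot.mk _ (x i)) := by
  have hterm : ∀ {m : ℕ} (t : L.Term (Empty ⊕ Fin m)), ∃ i : Fin m, t = Term.var (Sum.inr i) := by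
    intro m t
    match t with
    | .var (.inl e) => exact e.elim
    | .var (.inr i) => exact ⟨i, rfl⟩
    | .func f _ => exact ((hL.fn _).false f).elim
  have key : ∀ {m : ℕ} (N : Type) (T : L.Structure N) (v : Fin m → N) (t : L.Term (Empty ⊕ Fin m))
      (i : Fin m), t = Term.var (Sum.inr i) →
        @Term.realize L N T _ (Sum.elim (default : Empty → N) v) t = v i := by
    intro m N T v t i h
    subst h
    rfl
  induction φ with
  | falsum => exact ⟨⊥, fun M S hS x => Iff.rfl⟩
  | @equal m t₁ t₂ =>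
      obtain ⟨i, rfl⟩ := hterm t₁
      obtain ⟨j, rfl⟩ := hterm t₂
      obtain ⟨ψ, hψ⟩ := TRN_rr (L := L) .E i j
      refine ⟨ψ, fun M S hS x => ?_⟩
      rw [hψ]
      exact (TRN_quot hS (x i) (x j)).symm
  | @rel m l R ts =>
      match l, R, ts with
      | 0, R, _ => exact ((hL.ar 0 (by decide) (by decide)).false R).elim
      | 1, R, ts =>
          obtain ⟨i, hi⟩ := hterm (ts 0)
          obtain ⟨ψ, hψ⟩ := TRN_un (ι := Ix L) (.u R) i
          refine ⟨ψ, fun M S hS x => ?_⟩
          rw [hψ]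
          have hts : ∀ k, ts k = Term.var (Sum.inr i) := fun k => by
            rw [Subsingleton.elim k 0]
            exact hi
          constructor
          · intro h
            exact ⟨fun _ => x i, fun k => (key (Qt S) (@dec L M S hL.fn) (fun i => Quot.mk _ (x i)) _ _ (hts k)).symm, h⟩
          · rintro ⟨y, hy, h⟩
            have h1 := (hy 0).trans (key (Qt S) (@dec L M S hL.fn) _ _ _ hi)
            exact hS.ui R _ _ ((TRN_quot hS (y 0) (x i)).1 h1) h
      | 2, R, ts =>
          obtain ⟨i, hi⟩ := hterm (ts 0)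
          obtain ⟨j, hj⟩ := hterm (ts 1)
          obtain ⟨ψ, hψ⟩ := TRN_rr (L := L) (.r R) i j
          refine ⟨ψ, fun M S hS x => ?_⟩
          rw [hψ]
          constructor
          · intro h
            refine ⟨![x i, x j], fun k => ?_, h⟩
            match k with
            | 0 => exact (key (Qt S) (@dec L M S hL.fn) (fun i => Quot.mk _ (x i)) _ _ hi).symm
            | 1 => exact (key (Qt S) (@dec L M S hL.fn) (fun i => Quot.mk _ (x i)) _ _ hj).symm
          · rintro ⟨y, hy, h⟩
            have h1 := (hy 0).trans (key (Qt S) (@dec L M S hL.fn) _ _ _ hi)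
            have h2 := (hy 1).trans (key (Qt S) (@dec L M S hL.fn) _ _ _ hj)
            exact hS.bi R _ _ _ _ ((TRN_quot hS (y 0) (x i)).1 h1)
              ((TRN_quot hS (y 1) (x j)).1 h2) h
      | (k + 3), R, _ => exact ((hL.ar (k + 3) (by omega) (by omega)).false R).elim
  | @imp m φ₁ φ₂ ih₁ ih₂ =>
      obtain ⟨ψ₁, h₁⟩ := ih₁
      obtain ⟨ψ₂, h₂⟩ := ih₂
      refine ⟨ψ₁.imp ψ₂, fun M S hS x => ?_⟩
      rw [BoundedFormula.realize_imp]
      exact (imp_congr (h₁ M S hS x) (h₂ M S hS x))
  | @all m φ ih =>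
      obtain ⟨ψ, hψ⟩ := ih
      obtain ⟨δ, hδ⟩ := TRN_un (ι := Ix L) (n := m + 1) .D (Fin.last m)
      refine ⟨(δ.imp ψ).all, fun M S hS x => ?_⟩
      have hsn : ∀ y : {x : M // us S .D x}, (Fin.snoc (fun i => (x i).1) y.1 : Fin (m + 1) → M) =
          fun i => ((Fin.snoc x y : Fin (m + 1) → {x : M // us S .D x}) i).1 := by
        intro y
        funext i
        refine Fin.lastCases ?_ (fun j => ?_) i
        · rw [Fin.snoc_last, Fin.snoc_last]
        · rw [Fin.snoc_castSucc, Fin.snoc_castSucc]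
      have hsq : ∀ y : {x : M // us S .D x},
          (Fin.snoc (fun i => (Quot.mk _ (x i) : Qt S)) (Quot.mk _ y) : Fin (m + 1) → Qt S) =
          fun i => Quot.mk _ ((Fin.snoc x y : Fin (m + 1) → {x : M // us S .D x}) i) := by
        intro y
        funext i
        refine Fin.lastCases ?_ (fun j => ?_) i
        · rw [Fin.snoc_last, Fin.snoc_last]
        · rw [Fin.snoc_castSucc, Fin.snoc_castSucc]
      constructor
      · intro h q
        obtain ⟨y, rfl⟩ := Quot.exists_rep q
        have h1 := h y.1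
        rw [BoundedFormula.realize_imp, hδ, hsn y] at h1
        have h0 : us S .D ((Fin.snoc x y : Fin (m + 1) → {x : M // us S .D x}) (Fin.last m)).1 := by
          rw [Fin.snoc_last]
          exact y.2
        have h2 := (hψ M S hS (Fin.snoc x y)).1 (h1 h0)
        rw [← hsq y] at h2
        exact h2
      · intro h y
        rw [BoundedFormula.realize_imp, hδ]
        intro hy'
        have hy : us S .D y := by
          have h3 : us S .D ((Fin.snoc (fun i => (x i).1) y : Fin (m + 1) → M) (Fin.last m)) := hy'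
          rw [Fin.snoc_last] at h3
          exact h3
        have h1 := h (Quot.mk _ ⟨y, hy⟩)
        have h2 := (hψ M S hS (Fin.snoc x ⟨y, hy⟩)).2 (by rw [← hsq ⟨y, hy⟩]; exact h1)
        rw [← hsn ⟨y, hy⟩] at h2
        exact h2

theorem thm_TRN : St_TRN := by
  intro L hL σ
  obtain ⟨τ, hτ⟩ := TRN_main hL σ
  refine ⟨τ, fun M S hS => ?_⟩
  have h := hτ M S hS (fun i => i.elim0)
  have e1 : (fun i : Fin 0 => ((fun i : Fin 0 => (i.elim0 : {x : M // us S .D x})) i).1) =
      (default : Fin 0 → M) := Subsingleton.elim _ _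
  have e2 : (fun i : Fin 0 => (Quot.mk _ ((fun i : Fin 0 => (i.elim0 : {x : M // us S .D x})) i) :
      Qt S)) = (default : Fin 0 → Qt S) := Subsingleton.elim _ _
  rw [e1, e2] at h
  exact h

end Pool.Agent.PMC
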