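import Pool.Agent.PMC.StB
import Pool.Agent.PMC.Base

/-!
PMC [TUP] (helper33): cuts of finite sets.
-/

set_option autoImplicit false

namespace Pool.Agent.PMC

open FirstOrder.Language Set
open scoped FirstOrder
open Pool.Agent.WOM (tp Mon IsEl IsoM CtU Fx Orb)

section

variable {L : FirstOrder.Language.{0, 0}} {U : Type} [L.Structure U] {κ : Type}
  {R : κ → U → U → Prop} {o : κ → κ}

/-- beyond and sides -/
private theorem TUP_side {j : κ} {C : Set U} (hI : Ini R o j C) {b s : Bool} {x y : U}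
    (hx : x ∈ C ↔ s ≠ b) (h : lts R o (sd b s) j x y) : y ∈ C ↔ s ≠ b := by
  unfold lts sd at h
  cases b <;> cases s <;> simp at h hx ⊢
  · intro hy
    exact hx (hI y hy x h)
  · exact hI x hx y h
  · exact hI x hx y h
  · intro hy
    exact hx (hI y hy x h)

private theorem TUP_rev {j : κ} {b s : Bool} {x y : U} (h : lts R o (sd (!b) s) j x y) :
    lts R o (sd b s) j y x := by
  unfold lts sd at h ⊢
  cases b <;> cases s <;> simpa using h

end

/-- [TUP] -/
theorem thm_TUP (hFAI : St_FAI) (hGPR : St_GPR) (hORD : St_ORD) (hBTW : St_BTW) : St_TUP := by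
  intro L U _ κ R o hC A E sg hO D hD hDE z hz j C hCd hS v hv b hvd
  obtain ⟨-, f2, f3, f4, -, -, f7, f8⟩ := hFAI L U κ R o hC A E sg hO
  obtain ⟨o1, -, -, o4, -, o6⟩ := hORD L U κ R o hC A E sg hO
  have hsub : ∀ z ∈ E, ∀ i, ∀ y ∈ cel L R o A i z, y ∈ E := fun z hz i y hy =>
    pc_sub hO.clo hz (cel_sub_pc hC hO.fin i z hy)
  have hvE : v ∈ E := hsub z hz j v hv
  -- transitivity
  have htr : ∀ x ∈ E, ∀ y ∈ E, ∀ w ∈ E, Fa L R o A sg b x y → Fa L R o A sg b y w →
      Fa L R o A sg b x w := by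
    intro x hx y hy w hw h1 h2
    cases b with
    | true => exact o4 x hx y hy w hw h1 h2
    | false =>
      rw [o1 x hx w hw]
      rw [o1 x hx y hy] at h1
      rw [o1 y hy w hw] at h2
      exact o4 w hw y hy x hx h2 h1
  -- beyond
  have hbe : ∀ x ∈ cel L R o A j z, ∀ y ∈ cel L R o A j z, Fa L R o A sg b x y →
      lts R o (sd b (sg (o j) z)) j x y := by
    intro x hx y hy h
    cases b with
    | true => exact o6 z hz j x hx y hy h
    | false =>
      rw [o1 x (hsub z hz j x hx) y (hsub z hz j y hy)] at h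
      have h1 := o6 z hz j y hy x hx h
      have h2 : lts R o (sd (!false) (sg (o j) z)) j y x := h1
      exact TUP_rev h2
  by_contra hcon
  have hvC : v ∈ C ↔ sg (o j) z ≠ b := by
    by_cases h1 : v ∈ C
    · have h2 : ¬ (sg (o j) z ≠ (!b)) := fun h => hcon ⟨fun _ => h, fun _ => h1⟩
      refine ⟨fun _ h => h2 ?_, fun _ => h1⟩
      rw [h]
      cases b <;> simp
    · have h2 : sg (o j) z ≠ (!b) := by
        intro h
        exact hcon ⟨fun h' => absurd h' h1, fun h' => absurd h h'⟩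
      refine ⟨fun h => absurd h h1, fun h => absurd ?_ h⟩
      revert h2
      generalize sg (o j) z = s
      intro h2
      cases s <;> cases b
      · rfl
      · exact absurd rfl h2
      · exact absurd rfl h2
      · rfl
  -- sets of points on the `b`-side have no inner cut
  have hns : ∀ (x : U) (C' : Set U), x ∈ cel L R o A j z → Ini R o j C' →
      (x ∈ C' ↔ sg (o j) z ≠ b) → (∀ y ∈ cel L R o A j z, Fa L R o A sg b v y →
        Fa L R o A sg b x y ∨ x = v) →
      ¬ Sin C' {y | y ∈ cel L R o A j z ∧ Fa L R o A sg b v y} := by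
    rintro x C' hx hI hxC hh ⟨⟨y, ⟨hy, hy'⟩, hyC⟩, w, ⟨hw, hw'⟩, hwC⟩
    have key : ∀ y ∈ cel L R o A j z, Fa L R o A sg b v y → (y ∈ C' ↔ sg (o j) z ≠ b) := by
      intro y hy hy'
      have h1 : Fa L R o A sg b x y := by
        rcases hh y hy hy' with h | h
        · exact h
        · rw [h]
          exact hy'
      exact TUP_side hI hxC (hbe x hx y hy h1)
    exact hwC ((key w hw hw').2 ((key y hy hy').1 hyC))
  have hC1 : Dc L R o (insert v A) j C :=
    hGPR L U κ R o hC A E sg hO v hvE b D hD hDE hvd z hz j C hCd hS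
      (hns v C hv hCd.2 hvC fun _ _ _ => Or.inr rfl)
  obtain ⟨v0, hv0, hfv0⟩ := f4 v hvE z hz j (!b)
  obtain ⟨t, htA, ht⟩ := move hC hO.fin (hO.nd z hz) hv0 hv (sd (!b) (sg (o j) z))
  have hdct : Dc L R o (t '' insert v A) j (t '' C) := dc_img hC hC1 t
  have hEt : ∀ g : U ≃[L] U, Fx L A g → ∀ x, g x ∈ E ↔ x ∈ E := fun g hg => (f3 g hg).1
  have himA : ∀ g : U ≃[L] U, Fx L A g → g '' A = A := by
    intro g hg
    ext x
    constructor
    · rintro ⟨y, hy, rfl⟩
      rw [hg y hy]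
      exact hy
    · intro hx
      exact ⟨x, hx, hg x hx⟩
  rw [image_insert_eq, himA t htA] at hdct
  have hdct2 : Dc L R o (A ∪ t '' D) j (t '' C) := by
    have := dc_img hC hCd t
    rwa [image_union, himA t htA] at this
  have hv0C : v0 ∈ t '' C ↔ sg (o j) z ≠ b := by
    refine TUP_side hdct.2 (x := t v) ?_ (TUP_rev ht)
    rw [← hvC]
    exact t.injective.mem_set_image
  -- the point between
  obtain ⟨e, heK, hve, hed⟩ : ∃ e ∈ cel L R o A j z, Fa L R o A sg b v e ∧
      ∀ d ∈ D, Fa L R o A sg b e d := by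
    cases b with
    | true =>
      obtain ⟨p, hp, h1, h2⟩ := hBTW L U κ R o hC A E sg hO {v} D (finite_singleton v) hD
        (singleton_subset_iff.2 hvE) hDE (by
          rintro _ rfl d hd
          exact hvd d hd) z hz j
      exact ⟨p, hp, h1 v rfl p rfl, fun d hd => h2 p rfl d hd⟩
    | false =>
      obtain ⟨p, hp, h1, h2⟩ := hBTW L U κ R o hC A E sg hO D {v} hD (finite_singleton v)
        hDE (singleton_subset_iff.2 hvE) (by
          rintro d hd _ rfl
          exact (o1 _ hvE d (hDE hd) false).1 (hvd d hd)) z hz j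
      have hpE := hsub z hz j p hp
      exact ⟨p, hp, (o1 v hvE p hpE false).2 (h2 p rfl v rfl), fun d hd =>
        (o1 p hpE d (hDE hd) false).2 (h1 d hd p rfl)⟩
  have heE : e ∈ E := hsub z hz j e heK
  have hteE : t e ∈ E := (hEt t htA e).2 heE
  have htvE : t v ∈ E := (hEt t htA v).2 hvE
  obtain ⟨p, hp, hvp⟩ := f4 v hvE (t e) hteE j b
  have hpE : p ∈ E := hsub (t e) hteE j p hp
  have htve : Fa L R o A sg b (t v) (t e) := ((f3 t htA).2 v hvE e heE b).2 hve
  obtain ⟨r, hr, hpr⟩ := f8 (t v) htvE (t e) hteE j b p hp htve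
  have hrA : Fx L A r := fx_mono (subset_insert _ _) hr
  have hrteE : r (t e) ∈ E := (hEt r hrA _).2 hteE
  have hcs : sg (o j) p = sg (o j) (t e) := hO.cst j (t e) hteE p hp
  have hvrte : Fa L R o A sg b v (r (t e)) := by
    refine f7 v hvE p hpE j b (r (t e)) ?_ hvp ?_
    · rw [cel_eq hp]
      exact fx_cel hC j (t e) hrA
    · rw [hcs]
      exact hpr
  have hD' : ∀ d' ∈ r '' (t '' D), d' ∈ E ∧ Fa L R o A sg b v d' := by
    rintro _ ⟨_, ⟨d, hd, rfl⟩, rfl⟩
    have htd : t d ∈ E := (hEt t htA d).2 (hDE hd)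
    have h1 : r (t d) ∈ E := (hEt r hrA _).2 htd
    have h2 : Fa L R o A sg b (t e) (t d) := ((f3 t htA).2 e heE d (hDE hd) b).2 (hed d hd)
    have h3 : Fa L R o A sg b (r (t e)) (r (t d)) :=
      ((f3 r hrA).2 (t e) hteE (t d) htd b).2 h2
    exact ⟨h1, htr v hvE _ hrteE _ h1 hvrte h3⟩
  have hrC : r '' (t '' C) = t '' C := dc_fix hdct hr
  have hdct3 : Dc L R o (A ∪ r '' (t '' D)) j (t '' C) := by
    have := dc_img hC hdct2 r
    rwa [image_union, himA r hrA, hrC] at this
  have hS' : Sin (t '' C) (cel L R o A j z) := sin_img hC (fx_img_cel hC j z htA) hS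
  have hv0E := hsub z hz j v0 hv0
  have hv0v : Fa L R o A sg b v0 v := (o1 v0 hv0E v hvE b).2 hfv0
  have hfin := hGPR L U κ R o hC A E sg hO v hvE b (r '' (t '' D)) ((hD.image _).image _)
    (fun d hd => (hD' d hd).1) (fun d hd => (hD' d hd).2) z hz j (t '' C) hdct3 hS'
    (hns v0 (t '' C) hv0 hdct.2 hv0C fun y hy hy' =>
      Or.inl (htr v0 hv0E v hvE y (hsub z hz j y hy) hv0v hy'))
  have h1 := hfv0 j (t '' C) hfin (by rw [cel_eq hv0]; exact hS')
  rw [hO.cst j z hz v0 hv0] at h1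
  rw [h1] at hv0C
  cases hs : sg (o j) z <;> cases b <;> simp [hs] at hv0C

end Pool.Agent.PMC
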