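import Pool.Agent.PMC.StA
import Pool.Agent.PMC.Base

/-!
PMC: at most two extreme pieces inside a piece, and they meet all cells (helper57).
-/

set_option autoImplicit false
set_option linter.unusedVariables false

namespace Pool.Agent.PMC

open FirstOrder.Language Set
open scoped FirstOrder
open Pool.Agent.WOM (tp Mon IsEl IsoM CtU Fx Orb)

/-- the cell of `y` (index `j`) contains an extreme point which belongs to `E` -/
def TWO_P (L : FirstOrder.Language.{0, 0}) {U : Type} [L.Structure U] {κ : Type}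
    (R : κ → U → U → Prop) (o : κ → κ) (A B E : Set U) (j : κ) (y : U) : Prop :=
  ∃ v ∈ XS L R o A B, v ∈ cel L R o A j y ∧ v ∈ E

theorem TWO_sin_mono {U : Type} {C K K' : Set U} (h : Sin C K) (hK : K ⊆ K') : Sin C K' := by
  obtain ⟨⟨x, hx, hx'⟩, y, hy, hy'⟩ := h
  exact ⟨⟨x, hK hx, hx'⟩, y, hK hy, hy'⟩

/-- an extreme point in a cell is extreme in this cell -/
theorem TWO_ext {L : FirstOrder.Language.{0, 0}} {U : Type} [L.Structure U] {κ : Type}
    {R : κ → U → U → Prop} {o : κ → κ} {A B : Set U} {v y : U} {j : κ}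
    (hv : v ∈ XS L R o A B) (hvy : v ∈ cel L R o A j y) :
    ∃ b, v ∈ ext L R o b B j (cel L R o A j y) := by
  obtain ⟨b, hb⟩ := hv.2 j
  rw [cel_eq hvy] at hb
  exact ⟨b, hb⟩

/-- (a) from `u` to `y` -/
theorem TWO_a (h1 : St_EXB) (h2 : St_AV) (h3 : St_XSP) {L : FirstOrder.Language.{0, 0}}
    {U : Type} [L.Structure U] {κ : Type} {R : κ → U → U → Prop} {o : κ → κ} (hC : Cx L R o)
    {A B E : Set U} (hAB : A ⊆ B) (hB : B.Finite) (hE : Cls L R o B E) {u y : U} {i j : κ}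
    (hu : Nd L A u) (hs : Sin (ct R j u) (cel L R o A j y)) (h : TWO_P L R o A B E i u) :
    TWO_P L R o A B E j y := by
  have hA : A.Finite := hB.subset hAB
  obtain ⟨v, hv, hvu, hvE⟩ := h
  obtain ⟨b, hb⟩ := TWO_ext hv hvu
  obtain ⟨g, hg, hlt⟩ := move hC hA hu hvu (mem_cel A i u) b
  have hy : Nd L A y := nd_of_sin hC hs
  have hgu : g u ∈ cel L R o A i u := fx_cel hC i u hg
  have hex : g u ∈ ext L R o b B i (cel L R o A i u) :=
    (h1 L U κ R o hC A B i u b hAB hB hu).2.2.2.2.2.1 v hb (g u) hgu hlt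
  have hcel := (h1 L U κ R o hC A B i u b hAB hB hu).2.1 v hb
  have hguE : g u ∈ E := by
    have h4 : g u ∈ cel L R o B i v := by
      rw [hcel]
      exact hex
    exact pc_sub hE hvE (cel_sub_pc hC hB i v h4)
  have hs' : Sin (ct R j (g u)) (cel L R o A j y) := by
    rw [← img_ct hC]
    exact sin_img hC (fx_img_cel hC j y hg) hs
  have hgn : Nd L A (g u) := (nd_fx hC hg).2 hu
  have hex' : ∃ b, g u ∈ ext L R o b B i (cel L R o A i (g u)) := by
    rw [cel_eq hgu]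
    exact ⟨b, hex⟩
  obtain ⟨b', hb'⟩ := (h2 L U κ R o hC A B i j (g u) y hAB hB hgn hs').1 hex'
  obtain ⟨v', hv', -⟩ := hb'.1
  have hcel' := (h1 L U κ R o hC A B j y b' hAB hB hy).2.1 v' hv'
  have hlk : Lk L R o B (g u) v' := by
    refine ⟨j, ?_⟩
    rw [hcel']
    exact hb'
  refine ⟨v', ?_, hv'.1, (hE _ _ hlk).1 hguE⟩
  refine (h3 L U κ R o hC A B hAB hB).1 v' j b' (nd_cel hC hy hv'.1) ?_
  rw [cel_eq hv'.1]
  exact hv'

/-- (b) from `y` to `u` -/
theorem TWO_b (h1 : St_EXB) (h2 : St_AV) (h3 : St_XSP) {L : FirstOrder.Language.{0, 0}}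
    {U : Type} [L.Structure U] {κ : Type} {R : κ → U → U → Prop} {o : κ → κ} (hC : Cx L R o)
    {A B E : Set U} (hAB : A ⊆ B) (hB : B.Finite) (hE : Cls L R o B E) {u y : U} {i j : κ}
    (hu : Nd L A u) (hs : Sin (ct R j u) (cel L R o A j y)) (h : TWO_P L R o A B E j y) :
    TWO_P L R o A B E i u := by
  have hA : A.Finite := hB.subset hAB
  obtain ⟨v, hv, hvy, hvE⟩ := h
  obtain ⟨b, hb⟩ := TWO_ext hv hvy
  have hy : Nd L A y := nd_of_sin hC hs
  obtain ⟨⟨x1, hx1, hx1'⟩, x2, hx2, hx2'⟩ := hs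
  have h12 : R (o j) x1 x2 := by
    rcases hC.tot j x1 x2 (fun h => hx2' (h ▸ hx1')) with h | h
    · exact h
    · exact absurd (ini' hC j u x1 hx1' x2 h) hx2'
  have hcel := (h1 L U κ R o hC A B j y b hAB hB hy).2.1 v hb
  have hup := (h1 L U κ R o hC A B j y b hAB hB hy).2.2.2.2.2.1 v hb
  have key : ∃ g : U ≃[L] U, Fx L A g ∧ g x1 ∈ ext L R o b B j (cel L R o A j y) ∧
      g x2 ∈ ext L R o b B j (cel L R o A j y) := by
    cases b with
    | true =>
      obtain ⟨g, hg, hlt⟩ := move hC hA hy hvy hx1 true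
      have hlt' : R (o j) v (g x1) := by simpa [lts] using hlt
      refine ⟨g, hg, hup (g x1) ((fx_mem_cel hC j x1 y hg).2 hx1) hlt,
        hup (g x2) ((fx_mem_cel hC j x2 y hg).2 hx2) ?_⟩
      have h4 : R (o j) v (g x2) := by
        have h5 : R (o j) (g x1) (g x2) := (R_img hC (o j) x1 x2 g).2 h12
        exact hC.tra j _ _ _ hlt' h5
      simpa [lts] using h4
    | false =>
      obtain ⟨g, hg, hlt⟩ := move hC hA hy hvy hx2 false
      have hlt' : R (o j) (g x2) v := by simpa [lts] using hlt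
      refine ⟨g, hg, hup (g x1) ((fx_mem_cel hC j x1 y hg).2 hx1) ?_,
        hup (g x2) ((fx_mem_cel hC j x2 y hg).2 hx2) hlt⟩
      have h4 : R (o j) (g x1) v := by
        have h5 : R (o j) (g x1) (g x2) := (R_img hC (o j) x1 x2 g).2 h12
        exact hC.tra j _ _ _ h5 hlt'
      simpa [lts] using h4
  obtain ⟨g, hg, hg1, hg2⟩ := key
  have hs1 : Sin (ct R j (g u)) (ext L R o b B j (cel L R o A j y)) :=
    ⟨⟨g x1, hg1, (mem_ct_img hC j u x1 g).2 hx1'⟩,
      g x2, hg2, fun h => hx2' ((mem_ct_img hC j u x2 g).1 h)⟩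
  have hs2 : Sin (ct R j (g u)) (cel L R o A j y) := TWO_sin_mono hs1 (fun _ h => h.1)
  have hgn : Nd L A (g u) := (nd_fx hC hg).2 hu
  obtain ⟨b', hb'⟩ := (h2 L U κ R o hC A B i j (g u) y hAB hB hgn hs2).2 ⟨b, hs1⟩
  have hlk : Lk L R o B (g u) v := by
    refine ⟨j, ?_⟩
    rw [hcel]
    exact hs1
  exact ⟨g u, (h3 L U κ R o hC A B hAB hB).1 (g u) i b' hgn hb', fx_cel hC i u hg,
    (hE _ _ hlk).2 hvE⟩

/-- (c) inside one point -/
theorem TWO_c (h1 : St_EXB) (h2 : St_AV) (h3 : St_XSP) {L : FirstOrder.Language.{0, 0}}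
    {U : Type} [L.Structure U] {κ : Type} {R : κ → U → U → Prop} {o : κ → κ} (hC : Cx L R o)
    {A B E : Set U} (hAB : A ⊆ B) (hB : B.Finite) (hE : Cls L R o B E) {y : U} {i j : κ}
    (hy : Nd L A y) (h : TWO_P L R o A B E i y) :
    TWO_P L R o A B E j y := by
  have hs : Sin (ct R (o j) y) (cel L R o A (o j) y) := by
    have h4 := sin_self hC (hB.subset hAB) (o j) hy
    rw [hC.oo] at h4
    exact h4
  obtain ⟨v, hv, hvy, hvE⟩ := TWO_a h1 h2 h3 hC hAB hB hE hy hs h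
  rw [cel_oo hC] at hvy
  exact ⟨v, hv, hvy, hvE⟩

theorem TWO_lk (h1 : St_EXB) (h2 : St_AV) (h3 : St_XSP) {L : FirstOrder.Language.{0, 0}}
    {U : Type} [L.Structure U] {κ : Type} {R : κ → U → U → Prop} {o : κ → κ} (hC : Cx L R o)
    {A B E : Set U} (hAB : A ⊆ B) (hB : B.Finite) (hE : Cls L R o B E) {u y : U}
    (hl : Lk L R o A u y) :
    (∀ j, TWO_P L R o A B E j u) ↔ ∀ j, TWO_P L R o A B E j y := by
  obtain ⟨hu, hy⟩ := lk_nd hC hl
  obtain ⟨j, hj⟩ := hl
  constructor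
  · intro h j'
    exact TWO_c h1 h2 h3 hC hAB hB hE hy (TWO_a h1 h2 h3 hC hAB hB hE hu hj (h j))
  · intro h j'
    exact TWO_b h1 h2 h3 hC hAB hB hE hu hj (h j)

theorem TWO_pc (h1 : St_EXB) (h2 : St_AV) (h3 : St_XSP) {L : FirstOrder.Language.{0, 0}}
    {U : Type} [L.Structure U] {κ : Type} {R : κ → U → U → Prop} {o : κ → κ} (hC : Cx L R o)
    {A B E : Set U} (hAB : A ⊆ B) (hB : B.Finite) (hE : Cls L R o B E) {x y : U}
    (h : Relation.EqvGen (Lk L R o A) x y) :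
    (∀ j, TWO_P L R o A B E j x) ↔ ∀ j, TWO_P L R o A B E j y := by
  induction h with
  | rel a b hab => exact TWO_lk h1 h2 h3 hC hAB hB hE hab
  | refl a => exact Iff.rfl
  | symm a b _ ih => exact ih.symm
  | trans a b c _ _ ih1 ih2 => exact ih1.trans ih2

theorem thm_TWO (h1 : St_EXB) (h2 : St_AV) (h3 : St_XSP) : St_TWO := by
  intro L U _ κ R o hC A B x y1 y2 j0 hAB hB hx hy1 hy2
  have key : ∀ z ∈ Pc L R o A x, z ∈ XS L R o A B → ∀ y ∈ Pc L R o A x, ∀ j,
      TWO_P L R o A B (Pc L R o B z) j y := by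
    intro z hz hzX y hy
    have h4 : ∀ j, TWO_P L R o A B (Pc L R o B z) j z :=
      fun j => ⟨z, hzX, mem_cel A j z, mem_pc B z⟩
    have hE := cls_pc (L := L) (R := R) (o := o) B z
    exact (TWO_pc h1 h2 h3 hC hAB hB hE hy).1 ((TWO_pc h1 h2 h3 hC hAB hB hE hz).2 h4)
  refine ⟨?_, ?_⟩
  · intro z hz hzX
    obtain ⟨v, hv, hvx, hvz⟩ := key z hz hzX x (mem_pc A x) j0
    obtain ⟨b, hb⟩ := TWO_ext hv hvx
    have hpc : Pc L R o B v = Pc L R o B z := pc_eq hvz
    have h4 := (h1 L U κ R o hC A B j0 x b hAB hB hx).2.1 v hb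
    cases b with
    | true =>
      left
      have h5 : y1 ∈ cel L R o B j0 v := by
        rw [h4]
        exact hy1
      have h6 : Pc L R o B y1 = Pc L R o B z := by
        rw [← hpc]
        exact pc_eq (cel_sub_pc hC hB j0 v h5)
      rw [h6]
      exact mem_pc B z
    | false =>
      right
      have h5 : y2 ∈ cel L R o B j0 v := by
        rw [h4]
        exact hy2
      have h6 : Pc L R o B y2 = Pc L R o B z := by
        rw [← hpc]
        exact pc_eq (cel_sub_pc hC hB j0 v h5)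
      rw [h6]
      exact mem_pc B z
  · intro z hz hzX y hy j
    obtain ⟨v, hv, hvy, hvz⟩ := key z hz hzX y hy j
    exact ⟨v, hvz, hvy, hv⟩

end Pool.Agent.PMC
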