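import Pool.Agent.PMC.StA
import Pool.Agent.PMC.Base

/-!
PMC, MP_5df2c5_lc: module UNP (an elementary submodel may be chosen for every piece).
-/

set_option autoImplicit false
set_option linter.unusedVariables false

namespace Pool.Agent.PMC

open FirstOrder.Language Set
open scoped FirstOrder
open Pool.Agent.WOM (tp Mon IsEl IsoM CtU Fx Orb)

theorem thm_UNP (hPRD : St_PRD) : St_UNP := by
  intro L U _ κ R o hC A hA m hm hmm
  have hAX : A ⊆ {z | z ∈ m z} := fun a ha => (hm a).2 ha
  refine ⟨isEl_of_orb hC.mon hA hAX ?_, hAX⟩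
  intro B hB hAB hBX x hO
  by_cases hx : Nd L A x
  · set P : Set U := Pc L R o A x with hP
    have hPc : Cls L R o A P := cls_pc A x
    have hxP : x ∈ P := mem_pc A x
    set B' : Set U := A ∪ (B ∩ P) with hB'
    have hB'B : B' ⊆ B := union_subset hAB inter_subset_left
    have hB'f : B'.Finite := hB.subset hB'B
    have hAB' : A ⊆ B' := subset_union_left
    have key : ∀ g : U ≃[L] U, Fx L B' g → g x ∈ Orb L B x := by
      intro g hg
      obtain ⟨h, hhA, hhP, hhn⟩ := hPRD L U κ R o hC A P hA hPc g (fx_mono hAB' hg)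
      refine ⟨h, ?_, hhP x hxP⟩
      intro b hb
      by_cases hbP : b ∈ P
      · rw [hhP b hbP]
        exact hg b (Or.inr ⟨hb, hbP⟩)
      · exact hhn b hbP
    have hdef : B'.Definable₁ L (Orb L B x) := by
      refine def_of_fix hC.mon hB'f hB hO ?_
      intro g hg y hy
      obtain ⟨k, hk, rfl⟩ := hy
      exact key (g.comp k) (fx_comp hg (fx_mono hB'B hk))
    have heq : Orb L B' x = Orb L B x := by
      apply Subset.antisymm
      · rintro y ⟨g, hg, rfl⟩
        exact key g hg
      · rintro y ⟨g, hg, rfl⟩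
        exact ⟨g, fx_mono hB'B hg, rfl⟩
    have hsub : B' ⊆ m x := by
      rintro y (hy | ⟨hyB, hyP⟩)
      · exact (hm x).2 hy
      · have h1 : y ∈ m y := hBX hyB
        rw [hmm x y hyP] at h1
        exact h1
    obtain ⟨y, hym, hyO⟩ := orb_meets (hm x).1 hsub (x := x) (heq ▸ hdef)
    rw [heq] at hyO
    refine ⟨y, ?_, hyO⟩
    obtain ⟨g, hg, rfl⟩ := hyO
    have hyP : g x ∈ P := (cls_fx hC hA hPc (fx_mono hAB hg) x).2 hxP
    show g x ∈ m (g x)
    rw [hmm x (g x) hyP]
    exact hym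
  · refine ⟨x, ?_, ⟨FirstOrder.Language.Equiv.refl L U, fx_refl B, rfl⟩⟩
    have h1 : A.Definable₁ L ({x} : Set U) := by
      by_contra h
      exact hx h
    obtain ⟨y, hy1, hy2⟩ := (hm x).1 {x} (def_mono (hm x).2 h1) ⟨x, rfl⟩
    rw [mem_singleton_iff] at hy1
    subst hy1
    exact hy2

end Pool.Agent.PMC
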