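import Pool.Agent.PMC.StE
import Mathlib.Order.CountableDenseLinearOrder

/-!
PMC, [UNQ]: codes with isomorphic coded structures are isomorphic (back and forth, dense colours).
-/

set_option autoImplicit false
set_option linter.unusedVariables false

namespace Pool.Agent.PMC

open FirstOrder.Language Set
open Pool.Agent.Helper6.Str (PerfK CtblK Iso Code toStr)

namespace UNQ

/-! ### Back and forth -/

section bf

variable {A B C : Type}

/-- all colours are dense, and there are no ends -/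
def Dn [LinearOrder A] (c : A → C) : Prop :=
  (∀ k, ∃ v, c v = k) ∧ (∀ x k, ∃ v, v < x ∧ c v = k) ∧ (∀ x k, ∃ v, x < v ∧ c v = k) ∧
    ∀ x y k, x < y → ∃ v, x < v ∧ v < y ∧ c v = k

private theorem btw [LinearOrder A] (c : A → C) (h : Dn c) (lo hi : Finset A)
    (hlt : ∀ x ∈ lo, ∀ y ∈ hi, x < y) (k : C) :
    ∃ m, c m = k ∧ (∀ x ∈ lo, x < m) ∧ ∀ y ∈ hi, m < y := by
  obtain ⟨h0, h1, h2, h3⟩ := h
  rcases lo.eq_empty_or_nonempty with rfl | nlo
  · rcases hi.eq_empty_or_nonempty with rfl | nhi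
    · obtain ⟨v, hv⟩ := h0 k
      exact ⟨v, hv, by simp, by simp⟩
    · obtain ⟨v, hv, hc⟩ := h1 (hi.min' nhi) k
      exact ⟨v, hc, by simp, fun y hy => lt_of_lt_of_le hv (Finset.min'_le hi y hy)⟩
  · rcases hi.eq_empty_or_nonempty with rfl | nhi
    · obtain ⟨v, hv, hc⟩ := h2 (lo.max' nlo) k
      exact ⟨v, hc, fun x hx => lt_of_le_of_lt (Finset.le_max' lo x hx) hv, by simp⟩
    · obtain ⟨v, hv, hv', hc⟩ :=
        h3 _ _ k (hlt _ (Finset.max'_mem _ nlo) _ (Finset.min'_mem _ nhi))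
      exact ⟨v, hc, fun x hx => lt_of_le_of_lt (Finset.le_max' lo x hx) hv,
        fun y hy => lt_of_lt_of_le hv' (Finset.min'_le hi y hy)⟩

variable [LinearOrder A] [LinearOrder B] (cA : A → C) (cB : B → C)

/-- finite order isomorphisms (between subsets) which respect the colours -/
def OK (f : Finset (A × B)) : Prop :=
  (∀ p ∈ f, ∀ q ∈ f, cmp p.1 q.1 = cmp p.2 q.2) ∧ ∀ p ∈ f, cA p.1 = cB p.2

private theorem across (hB : Dn cB) (f : Finset (A × B)) (hf : OK cA cB f) (a : A) :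
    ∃ b, cB b = cA a ∧ ∀ p ∈ f, cmp p.1 a = cmp p.2 b := by
  classical
  by_cases h : ∃ b, (a, b) ∈ f
  · obtain ⟨b, hb⟩ := h
    exact ⟨b, (hf.2 _ hb).symm, fun p hp => hf.1 _ hp _ hb⟩
  have H : ∀ x ∈ (f.filter fun p : A × B => p.1 < a).image Prod.snd,
      ∀ y ∈ (f.filter fun p : A × B => a < p.1).image Prod.snd, x < y := by
    intro x hx y hy
    rw [Finset.mem_image] at hx hy
    rcases hx with ⟨p, hp1, rfl⟩
    rcases hy with ⟨q, hq1, rfl⟩
    rw [Finset.mem_filter] at hp1 hq1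
    rw [← lt_iff_lt_of_cmp_eq_cmp (hf.1 _ hp1.1 _ hq1.1)]
    exact lt_trans hp1.2 hq1.2
  obtain ⟨b, hbc, hb⟩ := btw cB hB _ _ H (cA a)
  refine ⟨b, hbc, ?_⟩
  rintro ⟨p1, p2⟩ hp
  have : p1 ≠ a := fun he => h ⟨p2, he ▸ hp⟩
  rcases lt_or_gt_of_ne this with hl | hr
  · have : p1 < a ∧ p2 < b :=
      ⟨hl, hb.1 _ (Finset.mem_image.mpr ⟨(p1, p2), Finset.mem_filter.mpr ⟨hp, hl⟩, rfl⟩)⟩
    rw [← cmp_eq_lt_iff, ← cmp_eq_lt_iff] at this
    exact this.1.trans this.2.symm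
  · have : a < p1 ∧ b < p2 :=
      ⟨hr, hb.2 _ (Finset.mem_image.mpr ⟨(p1, p2), Finset.mem_filter.mpr ⟨hp, hr⟩, rfl⟩)⟩
    rw [← cmp_eq_gt_iff, ← cmp_eq_gt_iff] at this
    exact this.1.trans this.2.symm

private theorem ins (f : Finset (A × B)) (hf : OK cA cB f) (a : A) (b : B) (hc : cB b = cA a)
    (h : ∀ p ∈ f, cmp p.1 a = cmp p.2 b) : OK cA cB (insert (a, b) f) := by
  refine ⟨fun p hp q hq => ?_, fun p hp => ?_⟩
  · rw [Finset.mem_insert] at hp hq
    rcases hp with (rfl | pf) <;> rcases hq with (rfl | qf)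
    · simp only [cmp_self_eq_eq]
    · rw [cmp_eq_cmp_symm]
      exact h _ qf
    · exact h _ pf
    · exact hf.1 _ pf _ qf
  · rw [Finset.mem_insert] at hp
    rcases hp with (rfl | pf)
    · exact hc.symm
    · exact hf.2 _ pf

private theorem acrossR (hA : Dn cA) (f : Finset (A × B)) (hf : OK cA cB f) (b : B) :
    ∃ a, cA a = cB b ∧ ∀ p ∈ f, cmp p.1 a = cmp p.2 b := by
  classical
  have hf' : OK cB cA (f.image Prod.swap) := by
    refine ⟨fun p hp q hq => ?_, fun p hp => ?_⟩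
    · rw [Finset.mem_image] at hp hq
      obtain ⟨p, hp, rfl⟩ := hp
      obtain ⟨q, hq, rfl⟩ := hq
      exact (hf.1 _ hp _ hq).symm
    · rw [Finset.mem_image] at hp
      obtain ⟨p, hp, rfl⟩ := hp
      exact (hf.2 _ hp).symm
  obtain ⟨a, h1, h2⟩ := across cB cA hA _ hf' b
  exact ⟨a, h1, fun p hp => (h2 p.swap (Finset.mem_image.mpr ⟨p, hp, rfl⟩)).symm⟩

private theorem bf0 [Countable A] [Countable B] (hA : Dn cA) (hB : Dn cB) :
    ∃ g : A ≃o B, ∀ a, cB (g a) = cA a := by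
  classical
  cases nonempty_encodable A
  cases nonempty_encodable B
  let P := {f : Finset (A × B) // OK cA cB f}
  let dl : A → Order.Cofinal P := fun a =>
    { carrier := {f | ∃ b : B, (a, b) ∈ f.val}
      isCofinal := fun f => by
        obtain ⟨b, hb, hp⟩ := across cA cB hB f.1 f.2 a
        exact ⟨⟨insert (a, b) f.1, ins cA cB f.1 f.2 a b hb hp⟩, ⟨b, Finset.mem_insert_self _ _⟩,
          Finset.subset_insert _ _⟩ }
  let dr : B → Order.Cofinal P := fun b =>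
    { carrier := {f | ∃ a : A, (a, b) ∈ f.val}
      isCofinal := fun f => by
        obtain ⟨a, ha, hp⟩ := acrossR cA cB hA f.1 f.2 b
        exact ⟨⟨insert (a, b) f.1, ins cA cB f.1 f.2 a b ha.symm hp⟩,
          ⟨a, Finset.mem_insert_self _ _⟩, Finset.subset_insert _ _⟩ }
  let tc : A ⊕ B → Order.Cofinal P := fun p => Sum.recOn p dl dr
  let I : Order.Ideal P := Order.idealOfCofinals
    ⟨∅, fun p hp => (Finset.notMem_empty _ hp).elim, fun p hp => (Finset.notMem_empty _ hp).elim⟩ tc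
  have hF : ∀ a, ∃ b, ∃ f ∈ I, (a, b) ∈ f.1 := by
    intro a
    obtain ⟨f, ⟨b, hb⟩, hf⟩ := Order.cofinal_meets_idealOfCofinals
      ⟨∅, fun p hp => (Finset.notMem_empty _ hp).elim, fun p hp =>
        (Finset.notMem_empty _ hp).elim⟩ tc (Sum.inl a)
    exact ⟨b, f, hf, hb⟩
  have hG : ∀ b, ∃ a, ∃ f ∈ I, (a, b) ∈ f.1 := by
    intro b
    obtain ⟨f, ⟨a, ha⟩, hf⟩ := Order.cofinal_meets_idealOfCofinals
      ⟨∅, fun p hp => (Finset.notMem_empty _ hp).elim, fun p hp =>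
        (Finset.notMem_empty _ hp).elim⟩ tc (Sum.inr b)
    exact ⟨a, f, hf, ha⟩
  choose F hF using hF
  choose G hG using hG
  refine ⟨OrderIso.ofCmpEqCmp F G fun a b => ?_, fun a => ?_⟩
  · rcases hF a with ⟨f, hf, ha⟩
    rcases hG b with ⟨g, hg, hb⟩
    rcases I.directed _ hf _ hg with ⟨m, _, fm, gm⟩
    exact m.2.1 (a, _) (fm ha) (_, b) (gm hb)
  · rcases hF a with ⟨f, hf, ha⟩
    exact (f.2.2 _ ha).symm

end bf

private theorem bf {A B C : Type} [Countable A] [Countable B] (rA : A → A → Prop)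
    (rB : B → B → Prop) (cA : A → C) (cB : B → C)
    (hA : (∀ x, ¬ rA x x) ∧ (∀ x y z, rA x y → rA y z → rA x z) ∧ ∀ x y, x ≠ y → rA x y ∨ rA y x)
    (hB : (∀ x, ¬ rB x x) ∧ (∀ x y z, rB x y → rB y z → rB x z) ∧ ∀ x y, x ≠ y → rB x y ∨ rB y x)
    (dA : (∀ k, ∃ v, cA v = k) ∧ (∀ x k, ∃ v, rA v x ∧ cA v = k) ∧
      (∀ x k, ∃ v, rA x v ∧ cA v = k) ∧ ∀ x y k, rA x y → ∃ v, rA x v ∧ rA v y ∧ cA v = k)
    (dB : (∀ k, ∃ v, cB v = k) ∧ (∀ x k, ∃ v, rB v x ∧ cB v = k) ∧
      (∀ x k, ∃ v, rB x v ∧ cB v = k) ∧ ∀ x y k, rB x y → ∃ v, rB x v ∧ rB v y ∧ cB v = k) :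
    ∃ g : A ≃ B, (∀ x y, rA x y ↔ rB (g x) (g y)) ∧ ∀ a, cB (g a) = cA a := by
  classical
  have : IsStrictTotalOrder A rA :=
    { irrefl := hA.1
      trans := hA.2.1
      trichotomous := fun x y h1 h2 => by
        by_contra hne
        rcases hA.2.2 x y hne with h | h
        · exact h1 h
        · exact h2 h }
  have : IsStrictTotalOrder B rB :=
    { irrefl := hB.1
      trans := hB.2.1
      trichotomous := fun x y h1 h2 => by
        by_contra hne
        rcases hB.2.2 x y hne with h | h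
        · exact h1 h
        · exact h2 h }
  let _ : LinearOrder A := linearOrderOfSTO rA
  let _ : LinearOrder B := linearOrderOfSTO rB
  obtain ⟨g, hg⟩ := bf0 cA cB dA dB
  exact ⟨g.toEquiv, fun x y => (g.lt_iff_lt (x := x) (y := y)).symm, hg⟩

/-! ### Frames -/

section fr

variable {L : FirstOrder.Language.{0, 0}} {M : Type} {S : (LP (Ix L)).Structure M}

private theorem abv_uniq (F : Frame S) {b : Bool} {x x' z : M} (h : abv S b x z)
    (h' : abv S b x' z) : x = x' := by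
  by_contra hne
  rcases (F.two b).2.2 x x' hne with h1 | h1
  · exact (F.two b).1 z ((F.two b).2.1 _ _ _ (h.2.2.2 x' h'.1 h1) h'.2.2.1)
  · exact (F.two b).1 z ((F.two b).2.1 _ _ _ (h'.2.2.2 x h.1 h1) h.2.2.1)

private theorem ovr_uniq (F : Frame S) {x y z z' : M} (h : ovr S x y z) (h' : ovr S x y z') :
    z = z' := by
  by_contra hne
  rcases (F.two true).2.2 z z' hne with h1 | h1
  · exact (F.two true).1 y ((F.blk true x y y z z' h.1 h'.1 h.2 h'.2).1 h1)
  · exact (F.two true).1 y ((F.blk true x y y z' z h'.1 h.1 h'.2 h.2).1 h1)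

private theorem ovr_iff (F : Frame S) {x y z : M} (h : ovr S x y z) (i : Ix L) :
    us S i z ↔ rr S i x y :=
  ⟨fun hu => ⟨z, h, hu⟩, fun ⟨z', h', hu⟩ => by rwa [ovr_uniq F h h']⟩

/-- the main points -/
abbrev Mp (S : (LP (Ix L)).Structure M) : Type := {x : M // us S .D x}

private theorem exists_e (F : Frame S) : ∃ e : Mp S ⊕ Mp S × Mp S ≃ M,
    (∀ x, e (Sum.inl x) = x.1) ∧ ∀ x y, ovr S x.1 y.1 (e (Sum.inr (x, y))) := by
  have h : ∀ p : Mp S × Mp S, ∃ z, ovr S p.1.1 p.2.1 z := fun p => F.pt _ _ p.1.2 p.2.2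
  choose pn hpn using h
  have hb : Function.Bijective (Sum.elim Subtype.val pn : Mp S ⊕ Mp S × Mp S → M) := by
    constructor
    · rintro (x | p) (y | q) hxy
      · simp only [Sum.elim_inl] at hxy
        rw [Subtype.ext hxy]
      · simp only [Sum.elim_inl, Sum.elim_inr] at hxy
        exact absurd (hxy ▸ x.2) (hpn q).1.2.1
      · simp only [Sum.elim_inl, Sum.elim_inr] at hxy
        exact absurd (hxy ▸ y.2) (hpn p).1.2.1
      · simp only [Sum.elim_inr] at hxy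
        have h1 := hpn p
        have h2 := hpn q
        rw [hxy] at h1
        have h3 := abv_uniq F h1.1 h2.1
        have h4 := abv_uniq F h1.2 h2.2
        rw [Prod.ext (Subtype.ext h3) (Subtype.ext h4)]
    · intro z
      by_cases hz : us S .D z
      · exact ⟨Sum.inl ⟨z, hz⟩, rfl⟩
      · obtain ⟨x, hx⟩ := F.blw true z hz
        obtain ⟨y, hy⟩ := F.blw false z hz
        exact ⟨Sum.inr (⟨x, hx.1⟩, ⟨y, hy.1⟩), ovr_uniq F (hpn _) ⟨hx, hy⟩⟩
  exact ⟨Equiv.ofBijective _ hb, fun x => rfl, fun x y => hpn (x, y)⟩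

/-- one of the two coordinates -/
def sel {A : Type} : Bool → A × A → A
  | true, p => p.1
  | false, p => p.2

/-- the two orders of the points -/
def LT' (S : (LP (Ix L)).Structure M) (b : Bool) : Mp S ⊕ Mp S × Mp S → Mp S ⊕ Mp S × Mp S → Prop
  | .inl x, .inl y => ls S true x.1 y.1
  | .inl w, .inr p => ¬ ls S true (sel b p).1 w.1
  | .inr p, .inl w => ls S true (sel b p).1 w.1
  | .inr p, .inr q => ls S true (sel b p).1 (sel b q).1 ∨
      (sel b p = sel b q ∧ ls S true (sel (!b) p).1 (sel (!b) q).1)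

private theorem lsb (F : Frame S) (b : Bool) (x y : Mp S) :
    ls S b x.1 y.1 ↔ ls S true x.1 y.1 := by
  cases b
  · exact (F.agr _ _ x.2 y.2).symm
  · exact Iff.rfl

private theorem abv_sel (b : Bool) {x y : Mp S} {z : M} (h : ovr S x.1 y.1 z) :
    abv S b (sel b (x, y)).1 z := by
  cases b
  · exact h.2
  · exact h.1

private theorem lt_iff (F : Frame S) (b : Bool) (e : Mp S ⊕ Mp S × Mp S ≃ M)
    (h1 : ∀ x, e (Sum.inl x) = x.1) (h2 : ∀ x y, ovr S x.1 y.1 (e (Sum.inr (x, y))))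
    (p q : Mp S ⊕ Mp S × Mp S) : ls S b (e p) (e q) ↔ LT' S b p q := by
  have ir := (F.two b).1
  have tr := (F.two b).2.1
  have lin := (F.two b).2.2
  rcases p with x | ⟨x, y⟩ <;> rcases q with x' | ⟨x', y'⟩
  · rw [h1, h1]
    exact lsb F b x x'
  · have h := abv_sel b (h2 x' y')
    rw [h1]
    change _ ↔ ¬ ls S true (sel b (x', y')).1 x.1
    rw [← lsb F b]
    constructor
    · intro h3 h4
      exact ir _ (tr _ _ _ h3 (h.2.2.2 _ x.2 h4))
    · intro h3
      by_cases h4 : x.1 = (sel b (x', y')).1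
      · rw [h4]
        exact h.2.2.1
      · rcases lin _ _ h4 with h5 | h5
        · exact tr _ _ _ h5 h.2.2.1
        · exact absurd h5 h3
  · have h := abv_sel b (h2 x y)
    rw [h1]
    change _ ↔ ls S true (sel b (x, y)).1 x'.1
    rw [← lsb F b]
    constructor
    · intro h3
      exact tr _ _ _ h.2.2.1 h3
    · intro h3
      exact h.2.2.2 _ x'.2 h3
  · have h := abv_sel b (h2 x y)
    have h' := abv_sel b (h2 x' y')
    have g := abv_sel (!b) (h2 x y)
    have g' := abv_sel (!b) (h2 x' y')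
    change _ ↔ ls S true (sel b (x, y)).1 (sel b (x', y')).1 ∨ (sel b (x, y) = sel b (x', y') ∧
      ls S true (sel (!b) (x, y)).1 (sel (!b) (x', y')).1)
    rw [← lsb F b, ← lsb F b (sel (!b) (x, y))]
    by_cases h4 : sel b (x, y) = sel b (x', y')
    · rw [← h4] at h'
      rw [F.blk b _ _ _ _ _ h h' g g']
      constructor
      · exact fun h5 => Or.inr ⟨h4, h5⟩
      · rintro (h5 | h5)
        · rw [h4] at h5
          exact absurd h5 (ir _)
        · exact h5.2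
    · have h5 : (sel b (x, y)).1 ≠ (sel b (x', y')).1 := fun h => h4 (Subtype.ext h)
      rcases lin _ _ h5 with h6 | h6
      · exact iff_of_true (tr _ _ _ (h.2.2.2 _ h'.1 h6) h'.2.2.1) (Or.inl h6)
      · refine iff_of_false (fun h7 => ?_) ?_
        · exact ir _ (tr _ _ _ h7 (tr _ _ _ (h'.2.2.2 _ h.1 h6) h.2.2.1))
        · rintro (h7 | h7)
          · exact ir _ (tr _ _ _ h6 h7)
          · exact h4 h7.1

/-- the class of a main point -/
def mkQ (S : (LP (Ix L)).Structure M) (x : Mp S) : Qt S := Quot.mk _ x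

private theorem mk_iff (F : Frame S) (x y : Mp S) : mkQ S x = mkQ S y ↔ rr S .E x.1 y.1 := by
  constructor
  · intro h
    have h1 := Quot.eqvGen_exact h
    have he : Equivalence (fun x y : {x : M // us S .D x} => rr S .E x.1 y.1) :=
      ⟨fun x => F.rfl' _ x.2, fun h => F.sym _ _ h, fun h h' => F.trs _ _ _ h h'⟩
    exact he.eqvGen_iff.1 h1
  · intro h
    exact Quot.sound h

private theorem u_iff (F : Frame S) [∀ n, IsEmpty (L.Functions n)] (R : L.Relations 1)
    (x : Mp S) (v : Fin 1 → Qt S) (hv : v 0 = mkQ S x) :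
    us S (.u R) x.1 ↔ (dec S).RelMap R v := by
  constructor
  · intro h
    refine ⟨fun _ => x, fun i => ?_, h⟩
    rw [Subsingleton.elim i 0, hv]
    rfl
  · rintro ⟨y, hy, h⟩
    have h1 : rr S .E (y 0).1 x.1 := (mk_iff F _ _).1 ((hy 0).trans hv)
    exact F.ui R _ _ h1 h

private theorem r_iff (F : Frame S) [∀ n, IsEmpty (L.Functions n)] (R : L.Relations 2)
    (x y : Mp S) (v : Fin 2 → Qt S) (hv : v 0 = mkQ S x) (hw : v 1 = mkQ S y) :
    rr S (.r R) x.1 y.1 ↔ (dec S).RelMap R v := by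
  constructor
  · intro h
    refine ⟨![x, y], fun i => ?_, h⟩
    fin_cases i
    · exact hv.symm
    · exact hw.symm
  · rintro ⟨z, hz, h⟩
    have h1 : rr S .E (z 0).1 x.1 := (mk_iff F _ _).1 ((hz 0).trans hv)
    have h2 : rr S .E (z 1).1 y.1 := (mk_iff F _ _).1 ((hz 1).trans hw)
    exact F.bi R _ _ _ _ h1 h2 h

end fr

end UNQ

open UNQ in
/-- [UNQ] codes with isomorphic coded structures are isomorphic. -/
theorem thm_UNQ : St_UNQ := by
  intro L hL S S' F F' hI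
  obtain ⟨h, hh⟩ := hI
  have := hL.fn
  -- the colours
  let cA : Mp S → Qt S' := fun x => h (mkQ S x)
  let cB : Mp S' → Qt S' := fun x => mkQ S' x
  have dA : (∀ k, ∃ v, cA v = k) ∧
      (∀ (x : Mp S) k, ∃ v : Mp S, ls S true v.1 x.1 ∧ cA v = k) ∧
      (∀ (x : Mp S) k, ∃ v : Mp S, ls S true x.1 v.1 ∧ cA v = k) ∧
      ∀ x y : Mp S, ∀ k, ls S true x.1 y.1 →
        ∃ v : Mp S, ls S true x.1 v.1 ∧ ls S true v.1 y.1 ∧ cA v = k := by
    have key : ∀ k, ∃ w : Mp S, ∀ v : Mp S, rr S .E v.1 w.1 → cA v = k := by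
      intro k
      obtain ⟨w, hw⟩ := Quot.exists_rep (h.symm k)
      refine ⟨w, fun v hv => ?_⟩
      have h1 : mkQ S v = mkQ S w := Quot.sound hv
      change h (mkQ S v) = k
      rw [h1]
      exact (congrArg h hw).trans (h.apply_symm_apply k)
    refine ⟨fun k => ?_, fun x k => ?_, fun x k => ?_, fun x y k hxy => ?_⟩
    · obtain ⟨w, hw⟩ := key k
      exact ⟨w, hw w (F.rfl' _ w.2)⟩
    · obtain ⟨w, hw⟩ := key k
      obtain ⟨v, hv, hv1, hv2⟩ := F.lft x.1 w.1 x.2 w.2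
      exact ⟨⟨v, hv⟩, hv1, hw _ hv2⟩
    · obtain ⟨w, hw⟩ := key k
      obtain ⟨v, hv, hv1, hv2⟩ := F.rgt x.1 w.1 x.2 w.2
      exact ⟨⟨v, hv⟩, hv1, hw _ hv2⟩
    · obtain ⟨w, hw⟩ := key k
      obtain ⟨v, hv, hv1, hv2, hv3⟩ := F.dns x.1 y.1 w.1 x.2 y.2 w.2 hxy
      exact ⟨⟨v, hv⟩, hv1, hv2, hw _ hv3⟩
  have dB : (∀ k, ∃ v, cB v = k) ∧
      (∀ (x : Mp S') k, ∃ v : Mp S', ls S' true v.1 x.1 ∧ cB v = k) ∧
      (∀ (x : Mp S') k, ∃ v : Mp S', ls S' true x.1 v.1 ∧ cB v = k) ∧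
      ∀ x y : Mp S', ∀ k, ls S' true x.1 y.1 →
        ∃ v : Mp S', ls S' true x.1 v.1 ∧ ls S' true v.1 y.1 ∧ cB v = k := by
    have key : ∀ k, ∃ w : Mp S', ∀ v : Mp S', rr S' .E v.1 w.1 → cB v = k := by
      intro k
      obtain ⟨w, hw⟩ := Quot.exists_rep k
      refine ⟨w, fun v hv => ?_⟩
      have h1 : mkQ S' v = mkQ S' w := Quot.sound hv
      exact h1.trans hw
    refine ⟨fun k => ?_, fun x k => ?_, fun x k => ?_, fun x y k hxy => ?_⟩
    · obtain ⟨w, hw⟩ := key k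
      exact ⟨w, hw w (F'.rfl' _ w.2)⟩
    · obtain ⟨w, hw⟩ := key k
      obtain ⟨v, hv, hv1, hv2⟩ := F'.lft x.1 w.1 x.2 w.2
      exact ⟨⟨v, hv⟩, hv1, hw _ hv2⟩
    · obtain ⟨w, hw⟩ := key k
      obtain ⟨v, hv, hv1, hv2⟩ := F'.rgt x.1 w.1 x.2 w.2
      exact ⟨⟨v, hv⟩, hv1, hw _ hv2⟩
    · obtain ⟨w, hw⟩ := key k
      obtain ⟨v, hv, hv1, hv2, hv3⟩ := F'.dns x.1 y.1 w.1 x.2 y.2 w.2 hxy
      exact ⟨⟨v, hv⟩, hv1, hv2, hw _ hv3⟩
  obtain ⟨g, hg, hc⟩ := bf (fun x y : Mp S => ls S true x.1 y.1)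
    (fun x y : Mp S' => ls S' true x.1 y.1) cA cB
    ⟨fun x => (F.two true).1 _, fun x y z => (F.two true).2.1 _ _ _,
      fun x y hxy => (F.two true).2.2 _ _ fun h => hxy (Subtype.ext h)⟩
    ⟨fun x => (F'.two true).1 _, fun x y z => (F'.two true).2.1 _ _ _,
      fun x y hxy => (F'.two true).2.2 _ _ fun h => hxy (Subtype.ext h)⟩ dA dB
  obtain ⟨e, e1, e2⟩ := exists_e F
  obtain ⟨e', e1', e2'⟩ := exists_e F'
  let G : Mp S ⊕ Mp S × Mp S ≃ Mp S' ⊕ Mp S' × Mp S' :=
    Equiv.sumCongr g (Equiv.prodCongr g g)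
  have hlt : ∀ (b : Bool) p q, ls S b (e p) (e q) ↔ ls S' b (e' (G p)) (e' (G q)) := by
    intro b p q
    rw [lt_iff F b e e1 e2, lt_iff F' b e' e1' e2']
    have hs : ∀ (b : Bool) (p : Mp S × Mp S), sel b (g p.1, g p.2) = g (sel b p) := by
      intro b p
      cases b <;> rfl
    rcases p with x | p <;> rcases q with y | q
    · exact hg x y
    · change ¬ _ ↔ ¬ ls S' true (sel b (g q.1, g q.2)).1 (g x).1
      rw [hs]
      exact not_congr (hg _ _)
    · change _ ↔ ls S' true (sel b (g p.1, g p.2)).1 (g y).1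
      rw [hs]
      exact hg _ _
    · change _ ↔ ls S' true (sel b (g p.1, g p.2)).1 (sel b (g q.1, g q.2)).1 ∨
        (sel b (g p.1, g p.2) = sel b (g q.1, g q.2) ∧
          ls S' true (sel (!b) (g p.1, g p.2)).1 (sel (!b) (g q.1, g q.2)).1)
      rw [hs, hs, hs, hs]
      exact or_congr (hg _ _) (and_congr g.injective.eq_iff.symm (hg _ _))
  have hus : ∀ (i : Ix L) p, us S i (e p) ↔ us S' i (e' (G p)) := by
    intro i p
    rcases p with x | ⟨x, y⟩
    · change _ ↔ us S' i (e' (Sum.inl (g x)))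
      rw [e1, e1']
      cases i with
      | D => exact iff_of_true x.2 (g x).2
      | E => exact iff_of_false (fun h => F.ed _ h x.2) (fun h => F'.ed _ h (g x).2)
      | u R =>
        rw [u_iff F R x (fun _ => mkQ S x) rfl, hh,
          u_iff F' R (g x) (h ∘ (fun _ => mkQ S x)) (hc x).symm]
      | r R => exact iff_of_false (fun h => F.rd _ _ h x.2) (fun h => F'.rd _ _ h (g x).2)
    · change _ ↔ us S' i (e' (Sum.inr (g x, g y)))
      rw [ovr_iff F (e2 x y), ovr_iff F' (e2' (g x) (g y))]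
      have nm := (e2 x y).1.2.1
      have nm' := (e2' (g x) (g y)).1.2.1
      cases i with
      | D =>
        rw [← ovr_iff F (e2 x y), ← ovr_iff F' (e2' (g x) (g y))]
        exact iff_of_false nm nm'
      | E =>
        rw [← mk_iff F x y, ← mk_iff F' (g x) (g y)]
        rw [show mkQ S' (g x) = h (mkQ S x) from hc x, show mkQ S' (g y) = h (mkQ S y) from hc y]
        exact h.injective.eq_iff.symm
      | u R =>
        rw [← ovr_iff F (e2 x y), ← ovr_iff F' (e2' (g x) (g y))]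
        exact iff_of_false (fun h => nm (F.ud _ _ h)) (fun h => nm' (F'.ud _ _ h))
      | r R =>
        rw [r_iff F R x y ![mkQ S x, mkQ S y] rfl rfl, hh,
          r_iff F' R (g x) (g y) (h ∘ ![mkQ S x, mkQ S y]) (hc x).symm (hc y).symm]
  refine ⟨(e.symm.trans G).trans e', ?_⟩
  intro n R v
  cases R with
  | un i =>
    have h1 := hus i (e.symm (v 0))
    rw [e.apply_symm_apply] at h1
    have hv : v = ![v 0] := by
      funext j
      rw [Subsingleton.elim j 0]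
      rfl
    have hv' : ((e.symm.trans G).trans e') ∘ ![v 0] = ![e' (G (e.symm (v 0)))] := by
      funext j
      rw [Subsingleton.elim j 0]
      rfl
    rw [hv, hv']
    exact h1
  | lt b =>
    have h1 := hlt b (e.symm (v 0)) (e.symm (v 1))
    rw [e.apply_symm_apply, e.apply_symm_apply] at h1
    have hv : v = ![v 0, v 1] := by
      funext j
      fin_cases j <;> rfl
    have hv' : ((e.symm.trans G).trans e') ∘ ![v 0, v 1] =
        ![e' (G (e.symm (v 0))), e' (G (e.symm (v 1)))] := by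
      funext j
      fin_cases j <;> rfl
    rw [hv, hv']
    exact h1

end Pool.Agent.PMC
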