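import Pool.Agent.PMC.StA
import Pool.Agent.PMC.Base

/-!
PMC: extreme points form a union of pieces.
-/

set_option autoImplicit false
set_option linter.unusedVariables false

namespace Pool.Agent.PMC

open FirstOrder.Language Set
open scoped FirstOrder
open Pool.Agent.WOM (tp Mon IsEl IsoM CtU Fx Orb)

theorem XSP_ext_oo {L : FirstOrder.Language.{0, 0}} {U : Type} [L.Structure U] {κ : Type}
    {R : κ → U → U → Prop} {o : κ → κ} (hC : Cx L R o) (b : Bool) (B : Set U) (j : κ) (K : Set U) :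
    ext L R o b B (o j) K = ext L R o b B j K := by
  ext v
  constructor
  · rintro ⟨h1, h2⟩
    exact ⟨h1, fun C hD hS => h2 C ((dc_oo hC).2 hD) hS⟩
  · rintro ⟨h1, h2⟩
    exact ⟨h1, fun C hD hS => h2 C ((dc_oo hC).1 hD) hS⟩

theorem XSP_sin_mono {U : Type} {C K K' : Set U} (h : Sin C K) (hK : K ⊆ K') : Sin C K' := by
  obtain ⟨⟨x, hx, hx'⟩, y, hy, hy'⟩ := h
  exact ⟨⟨x, hK hx, hx'⟩, y, hK hy, hy'⟩

theorem thm_XSP (h1 : St_EXB) (h2 : St_AV) : St_XSP := by
  intro L U _ κ R o hC A B hAB hB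
  have hA : A.Finite := hB.subset hAB
  -- (1) extreme in one cell, extreme in all cells
  have key : ∀ (z : U) (j : κ) (b : Bool), Nd L A z → z ∈ ext L R o b B j (cel L R o A j z) →
      z ∈ XS L R o A B := by
    intro z j b hz hzb
    refine ⟨hz, fun j' => ?_⟩
    have hs : Sin (ct R (o j') z) (cel L R o A (o j') z) := by
      have h3 := sin_self hC hA (o j') hz
      rw [hC.oo] at h3
      exact h3
    obtain ⟨b', hb'⟩ := (h2 L U κ R o hC A B j (o j') z z hAB hB hz hs).1 ⟨b, hzb⟩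
    rw [XSP_ext_oo hC, cel_oo hC] at hb'
    refine ⟨b', ?_⟩
    obtain ⟨⟨x, hx, hx'⟩, x', hx1, hx1'⟩ := hb'
    have hE := (h1 L U κ R o hC A B j' z b' hAB hB hz).2.1 x hx
    rw [← hE] at hx1 ⊢
    have hx2 : R (o j') x z := hx'
    exact cel_conv hC (mem_cel B j' x) hx1 (asymm' hC j' hx2) hx1'
  refine ⟨key, fun u z hl => ?_⟩
  obtain ⟨hu, hz⟩ := lk_nd hC hl
  have hu' : Nd L A u := nd_anti hAB hu
  have hz' : Nd L A z := nd_anti hAB hz
  obtain ⟨j, hj⟩ := hl
  have hj' : Sin (ct R j u) (cel L R o A j z) := XSP_sin_mono hj (cel_anti hAB j z)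
  have hav := h2 L U κ R o hC A B j j u z hAB hB hu' hj'
  constructor
  · intro h3
    obtain ⟨b, hb⟩ := hav.1 (h3.2 j)
    obtain ⟨v, hv, -⟩ := hb.1
    have hE := (h1 L U κ R o hC A B j z b hAB hB hz').2.1 v hv
    rw [← hE] at hb
    have h4 := cel_eq_of_sin hC (hC.ini j u) hb hj
    have h5 : z ∈ cel L R o B j z := mem_cel B j z
    rw [← h4, hE] at h5
    exact key z j b hz' h5
  · intro h3
    obtain ⟨b, hb⟩ := h3.2 j
    have hE := (h1 L U κ R o hC A B j z b hAB hB hz').2.1 z hb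
    rw [hE] at hj
    obtain ⟨b', hb'⟩ := hav.2 ⟨b, hj⟩
    exact key u j b' hu' hb'

end Pool.Agent.PMC
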