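import Pool.Agent.PMC.StD

/-!
PMC, module XTY: types of extreme pieces (helper87).
-/

set_option autoImplicit false

namespace Pool.Agent.PMC

open FirstOrder.Language Set
open scoped FirstOrder

theorem thm_XTY (hMKO : St_MKO) (hNWL : St_NWL) (hNWI : St_NWI) (hCLS : St_CLS) : St_XTY := by
  intro L U _ κ R o hC hN A x z0 hA hx hz0 hz0X
  obtain ⟨sg, hO, -, -⟩ := hMKO L U κ R o hC A x z0 hA hx hz0 hz0X
  obtain ⟨c, hc⟩ := hCLS L U κ R o hC (insert x A) (Pc L R o (insert x A) z0) sg hO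
    (hNWL L U κ R o hC hN (insert x A) (Pc L R o (insert x A) z0) sg hO)
    (hNWI L U κ R o hC hN (insert x A) (Pc L R o (insert x A) z0) sg hO)
  refine ⟨c, fun M hM => ?_⟩
  obtain ⟨n, -, hn⟩ := hc M hM
  exact ⟨n, hn⟩

end Pool.Agent.PMC
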