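import Pool.Agent.PMC.AEI
import Pool.Agent.PMC.AF
import Pool.Agent.PMC.AG
import Pool.Agent.PMC.ASV
import Pool.Agent.PMC.AT
import Pool.Agent.PMC.AV
import Pool.Agent.PMC.BAF
import Pool.Agent.PMC.BTW
import Pool.Agent.PMC.CHN
import Pool.Agent.PMC.CLS
import Pool.Agent.PMC.CNO
import Pool.Agent.PMC.COD
import Pool.Agent.PMC.DNF
import Pool.Agent.PMC.END
import Pool.Agent.PMC.EXB
import Pool.Agent.PMC.FAI
import Pool.Agent.PMC.FCT
import Pool.Agent.PMC.FTW
import Pool.Agent.PMC.GLE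
import Pool.Agent.PMC.GPR
import Pool.Agent.PMC.GRP
import Pool.Agent.PMC.HYU
import Pool.Agent.PMC.INN
import Pool.Agent.PMC.INS
import Pool.Agent.PMC.LOC
import Pool.Agent.PMC.MKO
import Pool.Agent.PMC.MVT
import Pool.Agent.PMC.NPU
import Pool.Agent.PMC.NRF
import Pool.Agent.PMC.NWI
import Pool.Agent.PMC.NWL
import Pool.Agent.PMC.ORD
import Pool.Agent.PMC.ORT
import Pool.Agent.PMC.PLC
import Pool.Agent.PMC.PRD
import Pool.Agent.PMC.PRF
import Pool.Agent.PMC.SMB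
import Pool.Agent.PMC.SUM
import Pool.Agent.PMC.TOP
import Pool.Agent.PMC.TUP
import Pool.Agent.PMC.TWO
import Pool.Agent.PMC.UNP
import Pool.Agent.PMC.XSP
import Pool.Agent.PMC.XTY
import Pool.Agent.PMC.PAT
import Pool.Agent.PMC.FRM
import Pool.Agent.PMC.TRN
import Pool.Agent.PMC.COE
import Pool.Agent.PMC.UNQ
import Pool.Agent.PMC.DIS
import Pool.Agent.PMC.DMS
import Pool.Agent.PMC.MPK
import Pool.Agent.PMC.SHP

/-!
PMC: everything together.
-/

set_option autoImplicit false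

namespace Pool.Agent.PMC

theorem all_MAIN : St_MAIN := by
  have hPRD : St_PRD := thm_PRD
  have hEXB : St_EXB := thm_EXB
  have hAT : St_AT := thm_AT
  have hAF : St_AF := thm_AF hAT
  have hAG : St_AG := thm_AG hAF
  have hAV : St_AV := thm_AV hAT hEXB
  have hXSP : St_XSP := thm_XSP hEXB hAV
  have hTWO : St_TWO := thm_TWO hEXB hAV hXSP
  have hMKO : St_MKO := thm_MKO hAT hAG hEXB hAV hXSP
  have hUNP : St_UNP := thm_UNP hPRD
  have hPRF : St_PRF := thm_PRF hPRD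
  have hSMB : St_SMB := thm_SMB hPRD hPRF
  have hLOC : St_LOC := thm_LOC hPRD
  have hFAI : St_FAI := thm_FAI hEXB
  have hGLE : St_GLE := thm_GLE hPRD hFAI
  have hGPR : St_GPR := thm_GPR hGLE hFAI
  have hFTW : St_FTW := thm_FTW hFAI hGPR
  have hORD : St_ORD := thm_ORD hFAI hFTW
  have hBTW : St_BTW := thm_BTW hFAI hFTW hORD
  have hTUP : St_TUP := thm_TUP hFAI hGPR hORD hBTW
  have hMVT : St_MVT := thm_MVT hFAI hORD hBTW hTUP
  have hFCT : St_FCT := thm_FCT hORD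
  have hCHN : St_CHN := thm_CHN hPRD hFAI hORD hMVT hFCT
  have hORT : St_ORT := thm_ORT hFAI hORD hMVT hCHN
  have hGRP : St_GRP := thm_GRP hFAI hORD hORT
  have hPLC : St_PLC := thm_PLC hORT
  have hSUM : St_SUM := thm_SUM hPRD hFAI hORD hORT
  have hINS : St_INS := thm_INS thm_DNF hPLC hSUM hORD hFAI
  have hNWL : St_NWL := thm_NWL thm_CNO thm_COD hINS hFAI hORD hSMB
  have hNWI : St_NWI := thm_NWI thm_CNO thm_COD hINS hFAI hORD hSMB
  have hCLS : St_CLS := thm_CLS thm_BAF hGRP hORD hSMB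
  have hASV : St_ASV := thm_ASV hPRD hEXB hFAI hFTW
  have hAEI : St_AEI := thm_AEI hPRD hAG hEXB hXSP hMKO hASV hORD
  have hINN : St_INN := thm_INN hUNP hSMB hNWL hAEI hORD hFAI
  have hNRF : St_NRF := thm_NRF hUNP hSMB
  have hXTY : St_XTY := thm_XTY hMKO hNWL hNWI hCLS
  have hEND : St_END := thm_END hLOC hSMB hTWO hXSP hNRF hXTY hINN hEXB
  exact thm_TOP hEND thm_HYU thm_NPU

end Pool.Agent.PMC
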