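import Pool.Agent.WOM.StC

/-!
PMC: Vaught's conjecture for permutation classes (helper58).  Definitions.

`U` is the countable saturated model.  `R j`, `j : κ`, are definable binary relations; `R (o j)` is a
linear order and every section `ct R j u = {x | R j x u}` is an initial segment of it (a cut).  The
index `j` of a cut or of a cell refers to the order `R (o j)`.
-/

set_option autoImplicit false
set_option linter.unusedVariables false

namespace Pool.Agent.PMC

open FirstOrder.Language Set
open scoped FirstOrder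
open Pool.Agent.WOM (tp Mon IsEl IsoM CtU Fx Orb)

section cells

variable (L : FirstOrder.Language.{0, 0}) {U : Type} [L.Structure U] {κ : Type}
  (R : κ → U → U → Prop) (o : κ → κ)

/-- initial segments of the order `R (o j)` -/
def Ini (j : κ) (C : Set U) : Prop := ∀ x ∈ C, ∀ y, R (o j) y x → y ∈ C

/-- the cut of `j` at `u` -/
def ct (j : κ) (u : U) : Set U := {x | R j x u}

/-- no grid of size `k` for the order of `i` and the cuts of `j` -/
def NoGrid (i j : κ) (k : ℕ) : Prop :=
  ¬ ∃ x : Fin k → Fin k → U, (∀ a a' b b', a < a' → R (o i) (x a b) (x a' b')) ∧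
    ∀ a a' b b', b < b' → ∃ z, R j z (x a' b') ∧ ¬ R j z (x a b)

/-- The context: the countable saturated model `U`, linear orders, cuts, no grids; every permutation
which preserves the relations `R j` and the types of the elements is an automorphism. -/
structure Cx : Prop where
  mon : Mon L U
  ne : Nonempty κ
  dfn : ∀ j, (∅ : Set U).Definable L {v : Fin 2 → U | R j (v 0) (v 1)}
  oo : ∀ j, o (o j) = o j
  irr : ∀ j x, ¬ R (o j) x x
  tra : ∀ j x y z, R (o j) x y → R (o j) y z → R (o j) x z
  tot : ∀ j x y, x ≠ y → R (o j) x y ∨ R (o j) y x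
  ini : ∀ j u, Ini R o j (ct R j u)
  grd : ∀ i j, ∃ k, NoGrid R o i j k
  det : ∀ g : U ≃ U, (∀ j x y, R j (g x) (g y) ↔ R j x y) →
    (∀ x, ∃ h : U ≃[L] U, h x = g x) → ∃ h : U ≃[L] U, ∀ x, h x = g x

/-- `C` is an `A`-definable cut of the order of `j` -/
def Dc (A : Set U) (j : κ) (C : Set U) : Prop := A.Definable₁ L C ∧ Ini R o j C

/-- the `j`-cell of `z` over `A`: the points not separated from `z` by an `A`-definable cut -/
def cel (A : Set U) (j : κ) (z : U) : Set U := {y | ∀ C, Dc L R o A j C → (y ∈ C ↔ z ∈ C)}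

/-- the cut `C` is strictly inside `K` -/
def Sin (C K : Set U) : Prop := (∃ x ∈ K, x ∈ C) ∧ ∃ x ∈ K, x ∉ C

/-- `z` is not definable over `A` -/
def Nd (A : Set U) (z : U) : Prop := ¬ A.Definable₁ L {z}

/-- some `B`-definable cut is strictly inside `K` -/
def Ct (B : Set U) (j : κ) (K : Set U) : Prop := ∃ C, Dc L R o B j C ∧ Sin C K

/-- a cut of `u` is strictly inside the cell of `z` over `A` -/
def Lk (A : Set U) (u z : U) : Prop := ∃ j, Sin (ct R j u) (cel L R o A j z)

/-- the piece of `z` over `A` (`{z}` if `z` is definable over `A`) -/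
def Pc (A : Set U) (z : U) : Set U := {y | Relation.EqvGen (Lk L R o A) z y}

/-- unions of pieces over `A` -/
def Cls (A Q : Set U) : Prop := ∀ u z, Lk L R o A u z → (u ∈ Q ↔ z ∈ Q)

/-- `y` is beyond `x` in the direction `b` (`true`: above) -/
def lts (b : Bool) (j : κ) (x y : U) : Prop := if b = true then R (o j) x y else R (o j) y x

/-- the points of `K` beyond all `B`-definable cuts strictly inside `K`, in the direction `b` -/
def ext (b : Bool) (B : Set U) (j : κ) (K : Set U) : Set U :=
  {v | v ∈ K ∧ ∀ C, Dc L R o B j C → Sin C K → (v ∈ C ↔ b = false)}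

/-- the extreme points over `B`, with respect to the cells over `A` -/
def XS (A B : Set U) : Set U :=
  {z | Nd L A z ∧ ∀ j, ∃ b, z ∈ ext L R o b B j (cel L R o A j z)}

/-! ### Oriented pieces -/

/-- `z` is beyond the cuts of `w` in the oriented direction `b` (`true`: outwards), in its `j`-cell;
`sg (o j) z` is the orientation of this cell. -/
def Ex (A : Set U) (sg : κ → U → Bool) (b : Bool) (w : U) (j : κ) (z : U) : Prop :=
  ∀ C, Dc L R o (insert w A) j C → Sin C (cel L R o A j z) → (z ∈ C ↔ sg (o j) z ≠ b)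

/-- `z` is beyond `w` in the oriented direction `b` -/
def Fa (A : Set U) (sg : κ → U → Bool) (b : Bool) (w z : U) : Prop :=
  ∀ j, Ex L R o A sg b w j z

/-- Good pieces: `E` is a piece over `A`, its cells are oriented by `sg`, and a cut of `u` inside a
cell goes outwards (inwards) if and only if `u` does. -/
structure Ori (A E : Set U) (sg : κ → U → Bool) : Prop where
  fin : A.Finite
  ne : E.Nonempty
  nd : ∀ z ∈ E, Nd L A z
  clo : Cls L R o A E
  cut : ∀ w ∈ E, ∀ z ∈ E, ∀ j, Ct L R o (insert w A) j (cel L R o A j z)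
  cst : ∀ j, ∀ z ∈ E, ∀ y ∈ cel L R o A j z, sg (o j) y = sg (o j) z
  con : ∀ w ∈ E, ∀ u ∈ E, ∀ z ∈ E, ∀ i j, Sin (ct R j u) (cel L R o A j z) → ∀ b,
    (Ex L R o A sg b w i u ↔
      Sin (ct R j u) {v | v ∈ cel L R o A j z ∧ Ex L R o A sg b w j v})

/-- `w << z` -/
def Ll (A : Set U) (sg : κ → U → Bool) (w z : U) : Prop := Fa L R o A sg true w z

/-- `D << V` -/
def LL (A : Set U) (sg : κ → U → Bool) (D V : Set U) : Prop :=
  ∀ d ∈ D, ∀ v ∈ V, Ll L R o A sg d v

/-- the points of `X` in the piece `E` which lie between the clusters of `p` and `q` (included) -/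
def Itv (A E : Set U) (sg : κ → U → Bool) (X : Set U) (p q : U) : Set U :=
  {z | z ∈ X ∧ z ∈ E ∧ ¬ Ll L R o A sg z p ∧ ¬ Ll L R o A sg q z}

end cells

section types

variable (L : FirstOrder.Language.{0, 0}) {U : Type} [L.Structure U]

/-- there is a bijection of `X` and `Y` which preserves the types over `A` of finite tuples -/
def Sm (A X Y : Set U) : Prop :=
  ∃ e : X ≃ Y, ∀ s : Set X, s.Finite → ∃ g : U ≃[L] U, Fx L A g ∧ ∀ x ∈ s, g x = e x

/-- elementary submodels which contain `A` -/
def Md (A M : Set U) : Prop := IsEl L M ∧ A ⊆ M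

variable (U) in
/-- no continuous family of pairwise nonisomorphic elementary submodels, indexed by Cantor space -/
def NPf : Prop :=
  ∀ (A : Set U) (X : (ℕ → Bool) → Set U), A.Finite → (∀ f, Md L A (X f)) →
    (∀ v, IsClopen {f | v ∈ X f}) → ∃ f f', f ≠ f' ∧ Sm L A (X f) (X f')

end types

end Pool.Agent.PMC
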