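import Pool.Agent.PMC.StB
import Pool.Agent.PMC.Base

/-!
PMC [GLE]: gluing over one point.
-/

set_option autoImplicit false
set_option linter.unusedVariables false

namespace Pool.Agent.PMC

open FirstOrder.Language Set
open scoped FirstOrder
open Pool.Agent.WOM (tp Mon IsEl IsoM CtU Fx Orb)

theorem thm_GLE (h1 : St_PRD) (h2 : St_FAI) : St_GLE := by
  intro L U _ κ R o hC A E sg hO w hw b g hg
  obtain ⟨-, hF2, -, -, hF5, -⟩ := h2 L U κ R o hC A E sg hO
  have hcelE : ∀ z ∈ E, ∀ j, cel L R o A j z ⊆ E := fun z hz j =>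
    (cel_sub_pc hC hO.fin j z).trans (pc_sub hO.clo hz)
  have hcls : Cls L R o (insert w A) {z | z ∈ E ∧ Fa L R o A sg b w z} := by
    intro u z hlk
    have hlkA : Lk L R o A u z := lk_anti (Set.subset_insert w A) hlk
    have hE : u ∈ E ↔ z ∈ E := hO.clo u z hlkA
    by_cases huE : u ∈ E
    · have hzE : z ∈ E := hE.1 huE
      obtain ⟨j, hj⟩ := hlk
      have hjA : Sin (ct R j u) (cel L R o A j z) := by
        obtain ⟨⟨x, hx, hx'⟩, ⟨y, hy, hy'⟩⟩ := hj
        exact ⟨⟨x, cel_anti (Set.subset_insert w A) j z hx, hx'⟩,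
          ⟨y, cel_anti (Set.subset_insert w A) j z hy, hy'⟩⟩
      have hcon := hO.con w hw u huE z hzE j j hjA b
      have hX : {v | v ∈ cel L R o A j z ∧ Ex L R o A sg b w j v} =
          {v | v ∈ cel L R o A j z ∧ Fa L R o A sg b w v} := by
        ext v
        constructor
        · rintro ⟨hv, hv'⟩
          exact ⟨hv, hF2 w hw v (hcelE z hzE j hv) b j hv'⟩
        · rintro ⟨hv, hv'⟩
          exact ⟨hv, hv' j⟩
      rw [hX] at hcon
      have hiff : Fa L R o A sg b w u ↔ Fa L R o A sg b w z := by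
        constructor
        · intro hu
          have hs := hcon.1 (hu j)
          obtain ⟨⟨v, hv, hv'⟩, -⟩ := id hs
          have hc := (hF5 w hw z hzE j b v hv.1 hv.2).2
          rw [← hc] at hs
          have heq := cel_eq_of_sin hC (hC.ini j u) hs hj
          have hz : z ∈ cel L R o (insert w A) j v := by
            rw [heq]
            exact mem_cel _ _ _
          rw [hc] at hz
          exact hz.2
        · intro hz
          have hc := (hF5 w hw z hzE j b z (mem_cel _ _ _) hz).2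
          rw [hc] at hj
          exact hF2 w hw u huE b j (hcon.2 hj)
      exact ⟨fun h => ⟨hzE, hiff.1 h.2⟩, fun h => ⟨huE, hiff.2 h.2⟩⟩
    · exact ⟨fun h => absurd h.1 huE, fun h => absurd (hE.2 h.1) huE⟩
  obtain ⟨h, hh1, hh2, hh3⟩ := h1 L U κ R o hC (insert w A) {z | z ∈ E ∧ Fa L R o A sg b w z}
    (hO.fin.insert w) hcls g hg
  exact ⟨h, hh1, fun z hz hz' => hh2 z ⟨hz, hz'⟩, fun z hz => hh3 z hz⟩

end Pool.Agent.PMC
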